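import Mathlib

set_option autoImplicit false

/-!
Augmented Markov chains and a hitting estimate.
-/

namespace Pool.Agent.MP50f558

variable {V Ω : Type} [Fintype V]

/-- Expectation after `n` steps of a function of the augmented state. -/
noncomputable def Ex (P : V → V → ℝ) (proj : Ω → V) (upd : Ω → V → Ω) : ℕ → (Ω → ℝ) → Ω → ℝ
  | 0, f, ω => f ω
  | n + 1, f, ω => ∑ v, P (proj ω) v * Ex P proj upd n f (upd ω v)

lemma Ex_proj [DecidableEq V] (P : Matrix V V ℝ) (proj : Ω → V) (upd : Ω → V → Ω)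
    (hp : ∀ ω v, proj (upd ω v) = v) (g : V → ℝ) (n : ℕ) (ω : Ω) :
    Ex P proj upd n (fun ω => g (proj ω)) ω = ∑ v, (P ^ n) (proj ω) v * g v := by
  induction n generalizing ω with
  | zero =>
    simp [Ex, Matrix.one_apply]
  | succ n ih =>
    simp only [Ex, ih, hp]
    rw [pow_succ']
    simp only [Matrix.mul_apply, Finset.sum_mul, Finset.mul_sum]
    rw [Finset.sum_comm]
    refine Finset.sum_congr rfl fun v _ => Finset.sum_congr rfl fun z _ => ?_
    ring

lemma Ex_le_one (P : V → V → ℝ) (hP : ∀ x y, 0 ≤ P x y) (hrow : ∀ x, ∑ y, P x y = 1)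
    (proj : Ω → V) (upd : Ω → V → Ω) (f : Ω → ℝ) (hf : ∀ ω, f ω ≤ 1) (n : ℕ) (ω : Ω) :
    Ex P proj upd n f ω ≤ 1 := by
  induction n generalizing ω with
  | zero => exact hf ω
  | succ n ih =>
    calc Ex P proj upd (n + 1) f ω = ∑ v, P (proj ω) v * Ex P proj upd n f (upd ω v) := rfl
      _ ≤ ∑ v, P (proj ω) v * 1 :=
          Finset.sum_le_sum fun v _ => mul_le_mul_of_nonneg_left (ih _) (hP _ _)
      _ = 1 := by simp [hrow]

/-- Hitting estimate. -/
theorem hitting (P : V → V → ℝ) (hP : ∀ x y, 0 ≤ P x y) (hrow : ∀ x, ∑ y, P x y = 1)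
    (proj : Ω → V) (upd : Ω → V → Ω) (time : Ω → ℕ) (htime : ∀ ω v, time (upd ω v) = time ω + 1)
    (Inv : Ω → Prop) (f : Ω → ℝ) (hf : ∀ ω, 0 ≤ f ω) (δ : ℝ) (hδ : 0 ≤ δ) (g : V → ℝ)
    (hg1 : ∀ v, g v ≤ 1) (tend : ℕ)
    (h1 : ∀ ω, Inv ω → f ω < 1 → time ω < tend → ∑ v, P (proj ω) v * f (upd ω v) ≤ f ω + δ)
    (h2 : ∀ ω v, Inv ω → f ω < 1 → time ω < tend → 0 < P (proj ω) v → f (upd ω v) < 1 →
      Inv (upd ω v))
    (h3 : ∀ ω, Inv ω → f ω < 1 → time ω ≤ tend → g (proj ω) ≤ 0) (n : ℕ) (ω : Ω)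
    (hω : 1 ≤ f ω ∨ Inv ω) (ht : time ω + n ≤ tend) :
    Ex P proj upd n (fun ω => g (proj ω)) ω ≤ f ω + n * δ := by
  induction n generalizing ω with
  | zero =>
    simp only [Ex, Nat.cast_zero, zero_mul, add_zero]
    rcases lt_or_ge (f ω) 1 with h | h
    · rcases hω with hω | hω
      · exact absurd hω (not_le.2 h)
      · exact (h3 ω hω h (by omega)).trans (hf ω)
    · exact (hg1 _).trans h
  | succ n ih =>
    rcases lt_or_ge (f ω) 1 with h | h
    · rcases hω with hω | hω
      · exact absurd hω (not_le.2 h)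
      · calc Ex P proj upd (n + 1) (fun ω => g (proj ω)) ω
            = ∑ v, P (proj ω) v * Ex P proj upd n (fun ω => g (proj ω)) (upd ω v) := rfl
          _ ≤ ∑ v, P (proj ω) v * (f (upd ω v) + n * δ) := by
              refine Finset.sum_le_sum fun v _ => ?_
              rcases (hP (proj ω) v).eq_or_lt with h0 | h0
              · rw [← h0]; simp
              · refine mul_le_mul_of_nonneg_left (ih _ ?_ ?_) h0.le
                · rcases lt_or_ge (f (upd ω v)) 1 with h4 | h4
                  · exact Or.inr (h2 ω v hω h (by omega) h0 h4)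
                  · exact Or.inl h4
                · rw [htime]; omega
          _ = ∑ v, P (proj ω) v * f (upd ω v) + n * δ := by
              simp only [mul_add, Finset.sum_add_distrib]
              rw [← Finset.sum_mul, hrow, one_mul]
          _ ≤ f ω + δ + n * δ := by linarith [h1 ω hω h (by omega)]
          _ = f ω + ((n + 1 : ℕ) : ℝ) * δ := by push_cast; ring
    · have := Ex_le_one P hP hrow proj upd (fun ω => g (proj ω)) (fun ω => hg1 _) (n + 1) ω
      have h5 : (0 : ℝ) ≤ ((n + 1 : ℕ) : ℝ) * δ := by positivity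
      linarith

end Pool.Agent.MP50f558
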