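import Mathlib

set_option autoImplicit false

/-!
Basic definitions for the counterexample to quasi-isometry robustness of the uniform mixing time.
-/

namespace Pool.Agent.MP50f558

open scoped Classical in
/-- Transition matrix of the lazy simple random walk on a finite simple graph. -/
noncomputable def lazyP {V : Type} [Fintype V] (G : SimpleGraph V) : Matrix V V ℝ :=
  fun x y => (if x = y then 1 / 2 else 0) + (if G.Adj x y then 1 / (2 * (G.degree x : ℝ)) else 0)

open scoped Classical in
/-- Stationary law `deg x / (2 |E|)` of the (lazy) simple random walk. -/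
noncomputable def statPi {V : Type} [Fintype V] (G : SimpleGraph V) (x : V) : ℝ :=
  (G.degree x : ℝ) / (2 * (G.edgeFinset.card : ℝ))

open scoped Classical in
/-- The uniform mixing time: least `t` with `|P^t(x,y)/π(y) - 1| ≤ 1/4` for all `x, y`. -/
noncomputable def tInf {V : Type} [Fintype V] (G : SimpleGraph V) : ℕ :=
  sInf {t : ℕ | ∀ x y : V, |(lazyP G ^ t) x y / statPi G y - 1| ≤ 1 / 4}

/-- A graph is vertex-transitive. -/
def VertexTransitive {V : Type} (G : SimpleGraph V) : Prop :=
  ∀ x y : V, ∃ φ : G ≃g G, φ x = y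

/-- `G'` is `(a,b)`-quasi-isometric to `G`. -/
def QuasiIso (a b : ℝ) {V V' : Type} (G : SimpleGraph V) (G' : SimpleGraph V') : Prop :=
  ∃ f : V → V', (∀ x y : V, a⁻¹ * (G.dist x y : ℝ) - b ≤ (G'.dist (f x) (f y) : ℝ) ∧
    (G'.dist (f x) (f y) : ℝ) ≤ a * (G.dist x y : ℝ) + b) ∧
    ∀ z : V', ∃ x : V, (G'.dist z (f x) : ℝ) ≤ b

/-- A finite group with a set of `k` involutions (none trivial) and spectral gap at least `γ`
for left multiplication. -/
structure Expd (k : ℕ) (γ : ℝ) (Γ : Type) [Group Γ] [Fintype Γ] where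
  S : Finset Γ
  card_S : S.card = k
  invol : ∀ s ∈ S, s * s = 1
  one_not : (1 : Γ) ∉ S
  gap : ∀ f : Γ → ℝ, ∑ x, f x = 0 →
    γ * ∑ x, f x ^ 2 ≤ ∑ s ∈ S, ∑ x, (f (s * x) - f x) ^ 2

end Pool.Agent.MP50f558
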