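import Mathlib
import Pool.Agent.Lib.MP_50f558_pr.Defs

set_option autoImplicit false
set_option linter.unusedSectionVars false

/-!
The reversible network on the base group and its Green functions.
-/

namespace Pool.Agent.MP50f558

variable {B : Type} [Group B] [Fintype B]

/-- Multiplicity of the walker move from `x` to `y` at stage `r`. -/
noncomputable def nr (lev : B → ℕ) (r : ℕ) (x y : B) : ℝ :=
  if lev y = lev x + 1 ∧ lev x < r then 2 else 1

/-- Reversible measure of the stage `r` network. -/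
noncomputable def mr (lev : B → ℕ) (r : ℕ) (x : B) : ℝ := (1 / 2) ^ (r - lev x)

lemma nr_ge (lev : B → ℕ) (r : ℕ) (x y : B) : 1 ≤ nr lev r x y := by
  unfold nr; split_ifs <;> norm_num

lemma nr_le (lev : B → ℕ) (r : ℕ) (x y : B) : nr lev r x y ≤ 2 := by
  unfold nr; split_ifs <;> norm_num

lemma mr_pos (lev : B → ℕ) (r : ℕ) (x : B) : 0 < mr lev r x := by
  unfold mr; positivity

lemma mr_le (lev : B → ℕ) (r : ℕ) (x : B) : mr lev r x ≤ 1 := by
  unfold mr; exact pow_le_one₀ (by norm_num) (by norm_num)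

lemma mr_ge (lev : B → ℕ) {r K : ℕ} (h : r ≤ K) (x : B) : (1 / 2 : ℝ) ^ K ≤ mr lev r x := by
  unfold mr
  exact pow_le_pow_of_le_one (by norm_num) (by norm_num) (by omega)

lemma balance (lev : B → ℕ) (r : ℕ) (x y : B) (h1 : lev y ≤ lev x + 1) (h2 : lev x ≤ lev y + 1) :
    mr lev r x * nr lev r x y = mr lev r y * nr lev r y x := by
  unfold mr nr
  by_cases hA : lev y = lev x + 1 ∧ lev x < r
  · have hB : ¬ (lev x = lev y + 1 ∧ lev y < r) := by omega
    rw [if_pos hA, if_neg hB]
    have : r - lev x = (r - lev y) + 1 := by omega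
    rw [this, pow_succ]; ring
  · by_cases hB : lev x = lev y + 1 ∧ lev y < r
    · rw [if_neg hA, if_pos hB]
      have : r - lev y = (r - lev x) + 1 := by omega
      rw [this, pow_succ]; ring
    · rw [if_neg hA, if_neg hB]
      have : r - lev y = r - lev x := by omega
      rw [this]

variable {k : ℕ} {γ : ℝ}

/-- Generator of the walker at stage `r`. -/
noncomputable def Lr (E : Expd k γ B) (lev : B → ℕ) (r : ℕ) (g : B → ℝ) (x : B) : ℝ :=
  ∑ s ∈ E.S, nr lev r x (s * x) * (g (s * x) - g x)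

lemma lev_abs (E : Expd k γ B) {lev : B → ℕ} (hlev : ∀ s ∈ E.S, ∀ x, lev (s * x) ≤ lev x + 1)
    {s : B} (hs : s ∈ E.S) (x : B) : lev x ≤ lev (s * x) + 1 := by
  have := hlev s hs (s * x)
  rwa [← mul_assoc, E.invol s hs, one_mul] at this

lemma sum_left (s : B) (f : B → ℝ) : ∑ x, f (s * x) = ∑ x, f x :=
  Equiv.sum_comp (Equiv.mulLeft s) f

/-- Discrete Green formula. -/
lemma green_formula (E : Expd k γ B) {lev : B → ℕ}
    (hlev : ∀ s ∈ E.S, ∀ x, lev (s * x) ≤ lev x + 1) (r : ℕ) (G g : B → ℝ) :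
    ∑ x, mr lev r x * G x * Lr E lev r g x =
      -(1 / 2) * ∑ s ∈ E.S, ∑ x, mr lev r x * nr lev r x (s * x) *
        ((G (s * x) - G x) * (g (s * x) - g x)) := by
  have h1 : ∑ x, mr lev r x * G x * Lr E lev r g x =
      ∑ s ∈ E.S, ∑ x, mr lev r x * nr lev r x (s * x) * (G x * (g (s * x) - g x)) := by
    rw [Finset.sum_comm]
    refine Finset.sum_congr rfl fun x _ => ?_
    rw [Lr, Finset.mul_sum]
    refine Finset.sum_congr rfl fun s _ => ?_
    ring
  rw [h1, Finset.mul_sum]
  refine Finset.sum_congr rfl fun s hs => ?_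
  have h2 : ∑ x, mr lev r x * nr lev r x (s * x) * (G x * (g (s * x) - g x)) =
      ∑ x, mr lev r x * nr lev r x (s * x) * (G (s * x) * (g x - g (s * x))) := by
    rw [← sum_left s]
    refine Finset.sum_congr rfl fun x _ => ?_
    have hss : s * (s * x) = x := by rw [← mul_assoc, E.invol s hs, one_mul]
    rw [hss, balance lev r (s * x) x (lev_abs E hlev hs x) (hlev s hs x)]
  have h3 : 2 * ∑ x, mr lev r x * nr lev r x (s * x) * (G x * (g (s * x) - g x)) =
      - ∑ x, mr lev r x * nr lev r x (s * x) * ((G (s * x) - G x) * (g (s * x) - g x)) := by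
    rw [two_mul]
    nth_rewrite 2 [h2]
    rw [← Finset.sum_add_distrib, ← Finset.sum_neg_distrib]
    refine Finset.sum_congr rfl fun x _ => ?_
    ring
  linarith

lemma sum_m_L (E : Expd k γ B) {lev : B → ℕ}
    (hlev : ∀ s ∈ E.S, ∀ x, lev (s * x) ≤ lev x + 1) (r : ℕ) (g : B → ℝ) :
    ∑ x, mr lev r x * Lr E lev r g x = 0 := by
  have := green_formula E hlev r (fun _ => 1) g
  simpa using this

lemma energy_ge (E : Expd k γ B) {lev : B → ℕ} {r K : ℕ} (hr : r ≤ K) (g : B → ℝ)
    (hg : ∑ x, g x = 0) :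
    (1 / 2 : ℝ) ^ K * γ * ∑ x, g x ^ 2 ≤ ∑ s ∈ E.S, ∑ x, mr lev r x * nr lev r x (s * x) *
        ((g (s * x) - g x) * (g (s * x) - g x)) := by
  have h := E.gap g hg
  calc (1 / 2 : ℝ) ^ K * γ * ∑ x, g x ^ 2 = (1 / 2 : ℝ) ^ K * (γ * ∑ x, g x ^ 2) := by ring
    _ ≤ (1 / 2 : ℝ) ^ K * ∑ s ∈ E.S, ∑ x, (g (s * x) - g x) ^ 2 := by gcongr
    _ = ∑ s ∈ E.S, ∑ x, (1 / 2 : ℝ) ^ K * 1 * ((g (s * x) - g x) * (g (s * x) - g x)) := by
        rw [Finset.mul_sum]
        refine Finset.sum_congr rfl fun s _ => ?_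
        rw [Finset.mul_sum]
        refine Finset.sum_congr rfl fun x _ => ?_
        ring
    _ ≤ _ := by
        refine Finset.sum_le_sum fun s _ => Finset.sum_le_sum fun x _ => ?_
        refine mul_le_mul_of_nonneg_right ?_ (mul_self_nonneg _)
        exact mul_le_mul (mr_ge lev hr x) (nr_ge _ _ _ _) (by norm_num) (mr_pos _ _ _).le

/-- Existence of a bounded Green function for the stage `r` network. -/
theorem exists_green [DecidableEq B] (E : Expd k γ B) (hγ : 0 < γ) {lev : B → ℕ}
    (hlev : ∀ s ∈ E.S, ∀ x, lev (s * x) ≤ lev x + 1) {r K : ℕ} (hr : r ≤ K) (b : B) :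
    ∃ g : B → ℝ, (∀ x, 0 ≤ g x ∧ g x ≤ 8 * 2 ^ K / γ) ∧
      ∀ x, Lr E lev r g x = (if x = b then -1 else 0) + mr lev r b / ∑ y, mr lev r y := by
  set Z := ∑ y, mr lev r y with hZ
  have hZpos : 0 < Z := Finset.sum_pos (fun y _ => mr_pos _ _ _) ⟨1, Finset.mem_univ _⟩
  let T : (B → ℝ) →ₗ[ℝ] (B → ℝ) :=
    { toFun := fun g x => Lr E lev r g x + ∑ y, g y
      map_add' := by
        intro g h; ext x
        simp only [Lr, Pi.add_apply, Finset.sum_add_distrib]
        have : ∀ s, nr lev r x (s * x) * (g (s * x) + h (s * x) - (g x + h x)) =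
            nr lev r x (s * x) * (g (s * x) - g x) + nr lev r x (s * x) * (h (s * x) - h x) := by
          intro s; ring
        simp only [this, Finset.sum_add_distrib]
        ring
      map_smul' := by
        intro c g; ext x
        simp only [Lr, Pi.smul_apply, smul_eq_mul, RingHom.id_apply, mul_add, Finset.mul_sum]
        congr 1
        refine Finset.sum_congr rfl fun s _ => ?_
        ring }
  have hT : ∀ g x, T g x = Lr E lev r g x + ∑ y, g y := fun _ _ => rfl
  -- the weighted sum of `T g`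
  have hTsum : ∀ g, ∑ x, mr lev r x * T g x = (∑ y, g y) * Z := by
    intro g
    simp only [hT, mul_add, Finset.sum_add_distrib, sum_m_L E hlev, zero_add, ← Finset.sum_mul]
    rw [mul_comm]
  have hinj : Function.Injective T := by
    rw [← LinearMap.ker_eq_bot, LinearMap.ker_eq_bot']
    intro g hg
    have h0 : ∑ y, g y = 0 := by
      have := hTsum g
      rw [hg] at this
      simp only [Pi.zero_apply, mul_zero, Finset.sum_const_zero] at this
      rcases mul_eq_zero.1 this.symm with h | h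
      · exact h
      · exact absurd h hZpos.ne'
    have hL : ∀ x, Lr E lev r g x = 0 := by
      intro x
      have := congrFun hg x
      rw [hT, h0, add_zero] at this
      exact this
    have h1 := energy_ge E hr (lev := lev) g h0
    have h2 := green_formula E hlev r g g
    simp only [hL, mul_zero, Finset.sum_const_zero] at h2
    have h3 : (1 / 2 : ℝ) ^ K * γ * ∑ x, g x ^ 2 ≤ 0 := by linarith
    have h4 : ∑ x, g x ^ 2 = 0 := by
      have h5 : 0 ≤ ∑ x, g x ^ 2 := Finset.sum_nonneg fun x _ => sq_nonneg _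
      have h6 : 0 < (1 / 2 : ℝ) ^ K * γ := by positivity
      nlinarith
    ext x
    have := (Finset.sum_eq_zero_iff_of_nonneg (fun x _ => sq_nonneg (g x))).1 h4 x
      (Finset.mem_univ _)
    simpa using this
  have hsurj : Function.Surjective T := LinearMap.injective_iff_surjective.1 hinj
  let h : B → ℝ := fun x => (if x = b then -1 else 0) + mr lev r b / Z
  obtain ⟨g, hg⟩ := hsurj h
  have hsum : ∑ y, g y = 0 := by
    have h1 := hTsum g
    rw [hg] at h1
    have h2 : ∑ x, mr lev r x * h x = 0 := by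
      simp only [h, mul_add, Finset.sum_add_distrib, ← Finset.sum_mul, mul_ite, mul_neg, mul_one,
        mul_zero, Finset.sum_ite_eq', Finset.mem_univ, if_true]
      rw [← hZ]
      field_simp
      ring
    rw [h2] at h1
    rcases mul_eq_zero.1 h1.symm with h | h
    · exact h
    · exact absurd h hZpos.ne'
  have hL : ∀ x, Lr E lev r g x = h x := by
    intro x
    have := congrFun hg x
    rw [hT, hsum, add_zero] at this
    exact this
  -- sup bound
  obtain ⟨x0, -, hx0⟩ := Finset.exists_max_image (Finset.univ : Finset B) (fun x => |g x|)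
    ⟨1, Finset.mem_univ _⟩
  set M := |g x0| with hM
  have hM' : ∀ x, |g x| ≤ M := fun x => hx0 x (Finset.mem_univ _)
  have hbound : M ≤ 4 * 2 ^ K / γ := by
    have h1 := energy_ge E hr (lev := lev) g hsum
    have h2 := green_formula E hlev r g g
    have h3 : ∑ x, mr lev r x * g x * Lr E lev r g x =
        - mr lev r b * g b + mr lev r b / Z * ∑ x, mr lev r x * g x := by
      simp only [hL, h, mul_add, Finset.sum_add_distrib, mul_ite, mul_neg, mul_one, mul_zero,
        Finset.sum_ite_eq', Finset.mem_univ, if_true]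
      rw [Finset.mul_sum]
      congr 1
      · ring
      · refine Finset.sum_congr rfl fun x _ => ?_
        ring
    have h4 : |∑ x, mr lev r x * g x| ≤ Z * M := by
      calc |∑ x, mr lev r x * g x| ≤ ∑ x, |mr lev r x * g x| := Finset.abs_sum_le_sum_abs _ _
        _ ≤ ∑ x, mr lev r x * M := by
            refine Finset.sum_le_sum fun x _ => ?_
            rw [abs_mul, abs_of_pos (mr_pos _ _ _)]
            exact mul_le_mul_of_nonneg_left (hM' x) (mr_pos _ _ _).le
        _ = Z * M := by rw [← Finset.sum_mul]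
    have h5 : mr lev r b * g b - mr lev r b / Z * ∑ x, mr lev r x * g x ≤ 2 * M := by
      have h6 : mr lev r b * g b ≤ M := by
        calc mr lev r b * g b ≤ mr lev r b * |g b| :=
              mul_le_mul_of_nonneg_left (le_abs_self _) (mr_pos _ _ _).le
          _ ≤ 1 * M := mul_le_mul (mr_le _ _ _) (hM' b) (abs_nonneg _) (by norm_num)
          _ = M := one_mul _
      have h7 : - (mr lev r b / Z * ∑ x, mr lev r x * g x) ≤ M := by
        calc - (mr lev r b / Z * ∑ x, mr lev r x * g x)
            ≤ |mr lev r b / Z * ∑ x, mr lev r x * g x| := neg_le_abs _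
          _ = mr lev r b / Z * |∑ x, mr lev r x * g x| := by
              rw [abs_mul, abs_of_pos (div_pos (mr_pos _ _ _) hZpos)]
          _ ≤ mr lev r b / Z * (Z * M) :=
              mul_le_mul_of_nonneg_left h4 (div_pos (mr_pos _ _ _) hZpos).le
          _ = mr lev r b * M := by field_simp
          _ ≤ 1 * M := mul_le_mul_of_nonneg_right (mr_le _ _ _) (abs_nonneg _)
          _ = M := one_mul _
      linarith
    have h8 : (1 / 2 : ℝ) ^ K * γ * M ^ 2 ≤ 4 * M := by
      have h9 : M ^ 2 ≤ ∑ x, g x ^ 2 := by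
        rw [hM, sq_abs]
        exact Finset.single_le_sum (f := fun x => g x ^ 2) (fun x _ => sq_nonneg _)
          (Finset.mem_univ x0)
      have h10 : 0 < (1 / 2 : ℝ) ^ K * γ := by positivity
      have h11 : (1 / 2 : ℝ) ^ K * γ * M ^ 2 ≤ (1 / 2 : ℝ) ^ K * γ * ∑ x, g x ^ 2 :=
        mul_le_mul_of_nonneg_left h9 h10.le
      linarith
    have hM0 : 0 ≤ M := abs_nonneg _
    rcases hM0.eq_or_lt with h0 | h0
    · rw [← h0]; positivity
    · have h12 : (1 / 2 : ℝ) ^ K * γ * M ≤ 4 := by
        have : ((1 / 2 : ℝ) ^ K * γ * M) * M ≤ 4 * M := by nlinarith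
        exact le_of_mul_le_mul_right this h0
      rw [le_div_iff₀ hγ]
      have h13 : (1 / 2 : ℝ) ^ K * 2 ^ K = 1 := by rw [← mul_pow]; norm_num
      calc M * γ = ((1 / 2 : ℝ) ^ K * γ * M) * 2 ^ K := by
            rw [show ((1 / 2 : ℝ) ^ K * γ * M) * 2 ^ K = ((1 / 2 : ℝ) ^ K * 2 ^ K) * (M * γ) by ring,
              h13, one_mul]
        _ ≤ 4 * 2 ^ K := by gcongr
  refine ⟨fun x => g x + M, fun x => ⟨?_, ?_⟩, fun x => ?_⟩
  · have := neg_abs_le (g x); linarith [hM' x]
  · have := le_abs_self (g x)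
    have h1 : g x + M ≤ 2 * M := by linarith [hM' x]
    have h2 : 8 * 2 ^ K / γ = 2 * (4 * 2 ^ K / γ) := by ring
    rw [h2]; linarith
  · change _ = h x
    rw [← hL x]
    unfold Lr
    refine Finset.sum_congr rfl fun s _ => ?_
    ring

end Pool.Agent.MP50f558
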