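import Mathlib
import Pool.Agent.Lib.MP_50f558_pr.Net

set_option autoImplicit false
set_option linter.unusedSectionVars false

/-!
The lazy walk on an expander group and the clock function.
-/

namespace Pool.Agent.MP50f558

variable {Y : Type} [Group Y] [Fintype Y] {k : ℕ} {γ : ℝ}

/-- Sum over the generators. -/
noncomputable def sm (E : Expd k γ Y) (f : Y → ℝ) (y : Y) : ℝ := ∑ s ∈ E.S, f (s * y)

/-- Lazy averaging operator. -/
noncomputable def lz (E : Expd k γ Y) (f : Y → ℝ) (y : Y) : ℝ := f y / 2 + sm E f y / (2 * k)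

lemma sum_sm (E : Expd k γ Y) (f : Y → ℝ) : ∑ y, sm E f y = k * ∑ y, f y := by
  unfold sm
  rw [Finset.sum_comm]
  simp only [sum_left]
  rw [Finset.sum_const, E.card_S, nsmul_eq_mul]

lemma sum_lz (E : Expd k γ Y) (hk : 0 < k) (f : Y → ℝ) : ∑ y, lz E f y = ∑ y, f y := by
  unfold lz
  rw [Finset.sum_add_distrib, ← Finset.sum_div, ← Finset.sum_div, sum_sm]
  have : (k : ℝ) ≠ 0 := by positivity
  field_simp
  ring

lemma sum_sm_sq (E : Expd k γ Y) (f : Y → ℝ) :
    ∑ y, sm E f y ^ 2 ≤ (k : ℝ) ^ 2 * ∑ y, f y ^ 2 := by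
  calc ∑ y, sm E f y ^ 2 ≤ ∑ y, (k : ℝ) * ∑ s ∈ E.S, f (s * y) ^ 2 := by
        refine Finset.sum_le_sum fun y _ => ?_
        have := sq_sum_le_card_mul_sum_sq (s := E.S) (f := fun s => f (s * y))
        rw [E.card_S] at this
        exact this
    _ = (k : ℝ) * ∑ y, sm E (fun y => f y ^ 2) y := by
        rw [Finset.mul_sum]; rfl
    _ = (k : ℝ) ^ 2 * ∑ y, f y ^ 2 := by rw [sum_sm]; ring

lemma energy_eq (E : Expd k γ Y) (f : Y → ℝ) :
    ∑ s ∈ E.S, ∑ x, (f (s * x) - f x) ^ 2 = 2 * k * ∑ y, f y ^ 2 - 2 * ∑ y, sm E f y * f y := by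
  have h1 : ∀ s ∈ E.S, ∑ x, (f (s * x) - f x) ^ 2 =
      2 * ∑ x, f x ^ 2 - 2 * ∑ x, f (s * x) * f x := by
    intro s _
    have h2 : ∑ x, f (s * x) ^ 2 = ∑ x, f x ^ 2 := sum_left s (fun x => f x ^ 2)
    have h3 : ∑ x, (f (s * x) - f x) ^ 2 =
        ∑ x, f (s * x) ^ 2 + ∑ x, f x ^ 2 - 2 * ∑ x, f (s * x) * f x := by
      rw [Finset.mul_sum, ← Finset.sum_add_distrib, ← Finset.sum_sub_distrib]
      refine Finset.sum_congr rfl fun x _ => ?_
      ring
    rw [h3, h2]; ring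
  rw [Finset.sum_congr rfl h1, Finset.sum_sub_distrib, Finset.sum_const, E.card_S, nsmul_eq_mul,
    ← Finset.mul_sum]
  congr 1
  · ring
  · congr 1
    unfold sm
    simp only [Finset.sum_mul]
    rw [Finset.sum_comm]

/-- Contraction of the lazy averaging operator on mean zero functions. -/
lemma lz_contract (E : Expd k γ Y) (hk : 0 < k) (f : Y → ℝ) (hf : ∑ y, f y = 0) :
    ∑ y, lz E f y ^ 2 ≤ (1 - γ / (4 * k)) * ∑ y, f y ^ 2 := by
  have hk' : (0 : ℝ) < k := by exact_mod_cast hk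
  have h1 := E.gap f hf
  rw [energy_eq] at h1
  have h2 := sum_sm_sq E f
  have h3 : ∑ y, lz E f y ^ 2 = (∑ y, f y ^ 2) / 4 + (∑ y, sm E f y * f y) / (2 * k) +
      (∑ y, sm E f y ^ 2) / (4 * k ^ 2) := by
    rw [Finset.sum_div, Finset.sum_div, Finset.sum_div, ← Finset.sum_add_distrib,
      ← Finset.sum_add_distrib]
    refine Finset.sum_congr rfl fun y _ => ?_
    unfold lz
    field_simp
    ring
  rw [h3]
  have h4 : (∑ y, sm E f y ^ 2) / (4 * (k : ℝ) ^ 2) ≤ (∑ y, f y ^ 2) / 4 := by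
    rw [div_le_div_iff₀ (by positivity) (by norm_num)]
    nlinarith
  have h5 : (∑ y, sm E f y * f y) / (2 * k) ≤ (1 / 2 - γ / (4 * k)) * ∑ y, f y ^ 2 := by
    rw [div_le_iff₀ (by positivity)]
    have : (1 / 2 - γ / (4 * k)) * (∑ y, f y ^ 2) * (2 * k) = (k - γ / 2) * ∑ y, f y ^ 2 := by
      field_simp
      ring
    rw [this]
    nlinarith
  nlinarith

/-- Law of the lazy walk started at `1`. -/
noncomputable def wk [DecidableEq Y] (E : Expd k γ Y) : ℕ → Y → ℝ
  | 0 => fun y => if y = 1 then 1 else 0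
  | n + 1 => lz E (wk E n)

variable [DecidableEq Y]

lemma wk_nonneg (E : Expd k γ Y) (n : ℕ) (y : Y) : 0 ≤ wk E n y := by
  induction n generalizing y with
  | zero => unfold wk; split_ifs <;> norm_num
  | succ n ih =>
    unfold wk lz sm
    have := Finset.sum_nonneg (s := E.S) (fun s _ => ih (s * y))
    have := ih y
    positivity

lemma wk_sum (E : Expd k γ Y) (hk : 0 < k) (n : ℕ) : ∑ y, wk E n y = 1 := by
  induction n with
  | zero => simp [wk]
  | succ n ih => rw [wk, sum_lz E hk, ih]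

/-- Rate constant. -/
noncomputable def g1 (k : ℕ) (γ : ℝ) : ℝ := γ / (8 * k)

lemma wk_bound (E : Expd k γ Y) (hk : 0 < k) (hγ : 0 < γ) (hγ1 : γ ≤ 1) (n : ℕ) (y : Y) :
    wk E n y ≤ 1 / Fintype.card Y + (1 - g1 k γ) ^ n := by
  have hk' : (0 : ℝ) < k := by exact_mod_cast hk
  have hk1 : (1 : ℝ) ≤ k := by exact_mod_cast hk
  have hc : (0 : ℝ) < Fintype.card Y := by exact_mod_cast Fintype.card_pos
  have hg : 0 ≤ 1 - g1 k γ := by
    unfold g1
    rw [sub_nonneg, div_le_one (by positivity)]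
    linarith
  let f : ℕ → Y → ℝ := fun n y => wk E n y - 1 / Fintype.card Y
  have hf0 : ∀ n, ∑ y, f n y = 0 := by
    intro n
    simp only [f, Finset.sum_sub_distrib, wk_sum E hk, Finset.sum_const, Finset.card_univ,
      nsmul_eq_mul]
    field_simp
    ring
  have hstep : ∀ n y, f (n + 1) y = lz E (f n) y := by
    intro n y
    simp only [f, wk, lz, sm, Finset.sum_sub_distrib, Finset.sum_const, E.card_S, nsmul_eq_mul]
    field_simp
    ring
  have h1 : ∀ n, ∑ y, f n y ^ 2 ≤ ((1 - g1 k γ) ^ n) ^ 2 := by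
    intro n
    induction n with
    | zero =>
      have : ∀ y, f 0 y ^ 2 = (if y = 1 then 1 - 2 / (Fintype.card Y : ℝ) else 0) +
          (1 / (Fintype.card Y : ℝ)) ^ 2 := by
        intro y
        simp only [f, wk]
        split_ifs
        · field_simp; ring
        · ring
      simp only [this, Finset.sum_add_distrib, Finset.sum_ite_eq', Finset.mem_univ, if_true,
        Finset.sum_const, Finset.card_univ, nsmul_eq_mul, pow_zero, one_pow]
      have h2 : (Fintype.card Y : ℝ) * (1 / (Fintype.card Y : ℝ)) ^ 2 =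
          1 / (Fintype.card Y : ℝ) := by field_simp
      rw [h2]
      have h3 : 0 < 1 / (Fintype.card Y : ℝ) := by positivity
      have h4 : 2 / (Fintype.card Y : ℝ) = 2 * (1 / (Fintype.card Y : ℝ)) := by ring
      rw [h4]; linarith
    | succ n ih =>
      have h2 := lz_contract E hk (f n) (hf0 n)
      have h3 : ∑ y, f (n + 1) y ^ 2 = ∑ y, lz E (f n) y ^ 2 :=
        Finset.sum_congr rfl fun y _ => by rw [hstep]
      rw [h3]
      have h4 : 1 - γ / (4 * k) ≤ (1 - g1 k γ) ^ 2 := by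
        have : γ / (4 * k) = 2 * g1 k γ := by unfold g1; field_simp; ring
        rw [this]; nlinarith [sq_nonneg (g1 k γ)]
      have h5 : 0 ≤ ∑ y, f n y ^ 2 := Finset.sum_nonneg fun y _ => sq_nonneg _
      calc ∑ y, lz E (f n) y ^ 2 ≤ (1 - γ / (4 * k)) * ∑ y, f n y ^ 2 := h2
        _ ≤ (1 - g1 k γ) ^ 2 * ∑ y, f n y ^ 2 := mul_le_mul_of_nonneg_right h4 h5
        _ ≤ (1 - g1 k γ) ^ 2 * ((1 - g1 k γ) ^ n) ^ 2 :=
            mul_le_mul_of_nonneg_left ih (sq_nonneg _)
        _ = ((1 - g1 k γ) ^ (n + 1)) ^ 2 := by ring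
  have h2 : f n y ^ 2 ≤ ((1 - g1 k γ) ^ n) ^ 2 :=
    (Finset.single_le_sum (f := fun y => f n y ^ 2) (fun y _ => sq_nonneg _)
      (Finset.mem_univ y)).trans (h1 n)
  have h3 : |f n y| ≤ (1 - g1 k γ) ^ n := abs_le_of_sq_le_sq h2 (by positivity)
  have h4 := (abs_le.1 h3).2
  simp only [f] at h4
  linarith

/-- The clock function. -/
noncomputable def Ph (E : Expd k γ Y) (n1 : ℕ) (y : Y) : ℝ :=
  ∑ n ∈ Finset.range (n1 + 1), (1 + g1 k γ / 2) ^ n * wk E n y

/-- The error term. -/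
noncomputable def tau (E : Expd k γ Y) (n1 : ℕ) : ℝ :=
  2 * (1 + g1 k γ / 2) ^ n1 * (1 / Fintype.card Y + (1 - g1 k γ) ^ n1)

lemma g1_pos (hk : 0 < k) (hγ : 0 < γ) : 0 < g1 k γ := by
  unfold g1; positivity

lemma g1_le (hk : 0 < k) (hγ1 : γ ≤ 1) : g1 k γ ≤ 1 / 8 := by
  have hk1 : (1 : ℝ) ≤ k := by exact_mod_cast hk
  unfold g1
  rw [div_le_iff₀ (by positivity)]
  linarith

lemma Ph_nonneg (E : Expd k γ Y) (hk : 0 < k) (hγ : 0 < γ) (n1 : ℕ) (y : Y) : 0 ≤ Ph E n1 y := by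
  unfold Ph
  have := g1_pos (k := k) hk hγ
  exact Finset.sum_nonneg fun n _ => mul_nonneg (by positivity) (wk_nonneg E n y)

lemma Ph_one_ge (E : Expd k γ Y) (hk : 0 < k) (hγ : 0 < γ) (n1 : ℕ) : 1 ≤ Ph E n1 1 := by
  unfold Ph
  have hg := g1_pos (k := k) hk hγ
  have := Finset.single_le_sum (f := fun n => (1 + g1 k γ / 2) ^ n * wk E n 1)
    (s := Finset.range (n1 + 1)) (fun n _ => mul_nonneg (by positivity) (wk_nonneg E n 1))
    (Finset.mem_range.2 (Nat.succ_pos n1))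
  simpa [wk] using this

lemma tau_pos (E : Expd k γ Y) (hk : 0 < k) (hγ : 0 < γ) (hγ1 : γ ≤ 1) (n1 : ℕ) :
    0 < tau E n1 := by
  unfold tau
  have hg := g1_pos (k := k) hk hγ
  have hg' := g1_le (k := k) hk hγ1
  have hc : (0 : ℝ) < Fintype.card Y := by exact_mod_cast Fintype.card_pos
  have : 0 ≤ 1 - g1 k γ := by linarith
  positivity

/-- The clock function is contracted by averaging, up to a small error. -/
lemma Ph_contract (E : Expd k γ Y) (hk : 0 < k) (hγ : 0 < γ) (hγ1 : γ ≤ 1) (n1 : ℕ) (y : Y) :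
    sm E (Ph E n1) y ≤ k * ((1 - g1 k γ / 2) * Ph E n1 y + tau E n1) := by
  have hk' : (0 : ℝ) < k := by exact_mod_cast hk
  have hg := g1_pos (k := k) hk hγ
  have hg' := g1_le (k := k) hk hγ1
  set l : ℝ := 1 + g1 k γ / 2 with hl
  have hl1 : 1 < l := by linarith
  have hl0 : 0 < l := by linarith
  -- `l * lz Φ = Φ - δ + l^(n1+1) u_(n1+1)`
  have h1 : l * lz E (Ph E n1) y =
      ∑ n ∈ Finset.range (n1 + 1), l ^ (n + 1) * wk E (n + 1) y := by
    simp only [wk, lz, sm, Ph, Finset.sum_div, Finset.mul_sum, mul_add]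
    rw [Finset.sum_comm, ← Finset.sum_add_distrib]
    refine Finset.sum_congr rfl fun n _ => ?_
    congr 1
    · ring
    · refine Finset.sum_congr rfl fun s _ => ?_
      ring
  have h2 : ∑ n ∈ Finset.range (n1 + 1), l ^ (n + 1) * wk E (n + 1) y ≤
      Ph E n1 y + l ^ (n1 + 1) * wk E (n1 + 1) y := by
    have h3 := Finset.sum_range_succ' (fun n => l ^ n * wk E n y) (n1 + 1)
    have h4 := Finset.sum_range_succ (fun n => l ^ n * wk E n y) (n1 + 1)
    have h5 : 0 ≤ l ^ 0 * wk E 0 y := mul_nonneg (by positivity) (wk_nonneg E 0 y)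
    have h6 : Ph E n1 y = ∑ n ∈ Finset.range (n1 + 1), l ^ n * wk E n y := rfl
    linarith
  have h3 : wk E (n1 + 1) y ≤ 1 / Fintype.card Y + (1 - g1 k γ) ^ n1 := by
    refine (wk_bound E hk hγ hγ1 (n1 + 1) y).trans ?_
    have : (1 - g1 k γ) ^ (n1 + 1) ≤ (1 - g1 k γ) ^ n1 :=
      pow_le_pow_of_le_one (by linarith) (by linarith) (Nat.le_succ _)
    linarith
  have h4 : lz E (Ph E n1) y ≤ Ph E n1 y / l + tau E n1 / 2 := by
    have h5 : l * lz E (Ph E n1) y ≤ Ph E n1 y + l * (tau E n1 / 2) := by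
      rw [h1]
      refine h2.trans ?_
      have : l ^ (n1 + 1) * wk E (n1 + 1) y ≤ l * (tau E n1 / 2) := by
        calc l ^ (n1 + 1) * wk E (n1 + 1) y
            ≤ l ^ (n1 + 1) * (1 / Fintype.card Y + (1 - g1 k γ) ^ n1) :=
              mul_le_mul_of_nonneg_left h3 (by positivity)
          _ = l * (tau E n1 / 2) := by unfold tau; rw [← hl]; ring
      linarith
    rw [show Ph E n1 y / l + tau E n1 / 2 = (Ph E n1 y + l * (tau E n1 / 2)) / l by
      field_simp, le_div_iff₀ hl0]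
    linarith
  have h5 : sm E (Ph E n1) y = k * (2 * lz E (Ph E n1) y - Ph E n1 y) := by
    unfold lz
    field_simp
    ring
  rw [h5]
  refine mul_le_mul_of_nonneg_left ?_ hk'.le
  have h6 : 2 * (Ph E n1 y / l) - Ph E n1 y ≤ (1 - g1 k γ / 2) * Ph E n1 y := by
    have h7 : 2 / l ≤ 2 - g1 k γ / 2 := by
      rw [div_le_iff₀ hl0, hl]
      nlinarith
    have h8 := Ph_nonneg E hk hγ n1 y
    have h9 : 2 * (Ph E n1 y / l) = (2 / l) * Ph E n1 y := by ring
    rw [h9]
    nlinarith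
  linarith

/-- Harnack inequality for the clock function. -/
lemma Ph_harnack (E : Expd k γ Y) (hk : 0 < k) (hγ : 0 < γ) (hγ1 : γ ≤ 1) (n1 : ℕ) (y : Y)
    {s : Y} (hs : s ∈ E.S) (hy : 2 * tau E n1 ≤ Ph E n1 y) :
    Ph E n1 y / (4 * k) ≤ Ph E n1 (s * y) := by
  have hk' : (0 : ℝ) < k := by exact_mod_cast hk
  have hg := g1_pos (k := k) hk hγ
  have hg' := g1_le (k := k) hk hγ1
  set l : ℝ := 1 + g1 k γ / 2 with hl
  have hl1 : 1 < l := by linarith
  have hl0 : 0 < l := by linarith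
  have hss : s * (s * y) = y := by rw [← mul_assoc, E.invol s hs, one_mul]
  have h1 : ∀ n, wk E n y / (2 * k) ≤ wk E (n + 1) (s * y) := by
    intro n
    have h2 : wk E n y ≤ sm E (wk E n) (s * y) := by
      unfold sm
      have := Finset.single_le_sum (f := fun s' => wk E n (s' * (s * y)))
        (fun s' _ => wk_nonneg E n _) hs
      simpa only [hss] using this
    have h3 := wk_nonneg E n (s * y)
    calc wk E n y / (2 * k) ≤ sm E (wk E n) (s * y) / (2 * k) := by gcongr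
      _ ≤ wk E n (s * y) / 2 + sm E (wk E n) (s * y) / (2 * k) := by linarith
      _ = wk E (n + 1) (s * y) := rfl
  have h2 : ∑ n ∈ Finset.range n1, l ^ n * wk E n y ≥ Ph E n1 y / 2 := by
    have h3 : Ph E n1 y = ∑ n ∈ Finset.range n1, l ^ n * wk E n y + l ^ n1 * wk E n1 y := by
      unfold Ph; rw [Finset.sum_range_succ]
    have h4 : l ^ n1 * wk E n1 y ≤ tau E n1 / 2 := by
      calc l ^ n1 * wk E n1 y ≤ l ^ n1 * (1 / Fintype.card Y + (1 - g1 k γ) ^ n1) :=
            mul_le_mul_of_nonneg_left (wk_bound E hk hγ hγ1 n1 y) (by positivity)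
        _ = tau E n1 / 2 := by unfold tau; rw [← hl]; ring
    have h5 := tau_pos E hk hγ hγ1 n1
    linarith
  have h3 : (∑ n ∈ Finset.range n1, l ^ n * wk E n y) / (2 * k) ≤ Ph E n1 (s * y) := by
    have h4 : Ph E n1 (s * y) = ∑ n ∈ Finset.range n1, l ^ (n + 1) * wk E (n + 1) (s * y) +
        l ^ 0 * wk E 0 (s * y) := by
      unfold Ph; rw [Finset.sum_range_succ']
    have h5 : 0 ≤ l ^ 0 * wk E 0 (s * y) := mul_nonneg (by positivity) (wk_nonneg E 0 _)
    rw [h4, Finset.sum_div]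
    refine le_add_of_le_of_nonneg (Finset.sum_le_sum fun n _ => ?_) h5
    calc l ^ n * wk E n y / (2 * k) = l ^ n * (wk E n y / (2 * k)) := by ring
      _ ≤ l ^ (n + 1) * wk E (n + 1) (s * y) := by
          refine mul_le_mul ?_ (h1 n) ?_ (by positivity)
          · exact pow_le_pow_right₀ hl1.le (Nat.le_succ _)
          · have := wk_nonneg E n y
            positivity
  refine le_trans ?_ h3
  rw [show Ph E n1 y / (4 * k) = (Ph E n1 y / 2) / (2 * k) by ring]
  gcongr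

/-- Total mass of the clock function. -/
lemma Ph_sum (E : Expd k γ Y) (hk : 0 < k) (hγ : 0 < γ) (n1 : ℕ) :
    ∑ y, Ph E n1 y ≤ (n1 + 1) * (1 + g1 k γ / 2) ^ n1 := by
  have hg := g1_pos (k := k) hk hγ
  unfold Ph
  rw [Finset.sum_comm]
  calc ∑ n ∈ Finset.range (n1 + 1), ∑ y, (1 + g1 k γ / 2) ^ n * wk E n y
      = ∑ n ∈ Finset.range (n1 + 1), (1 + g1 k γ / 2) ^ n := by
        refine Finset.sum_congr rfl fun n _ => ?_
        rw [← Finset.mul_sum, wk_sum E hk, mul_one]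
    _ ≤ ∑ n ∈ Finset.range (n1 + 1), (1 + g1 k γ / 2) ^ n1 := by
        refine Finset.sum_le_sum fun n hn => ?_
        exact pow_le_pow_right₀ (by linarith) (by have := Finset.mem_range.1 hn; omega)
    _ = (n1 + 1) * (1 + g1 k γ / 2) ^ n1 := by
        rw [Finset.sum_const, Finset.card_range, nsmul_eq_mul]; push_cast; ring

/-- Value of the clock function at the identity. -/
lemma Ph_one_le (E : Expd k γ Y) (hk : 0 < k) (hγ : 0 < γ) (hγ1 : γ ≤ 1) (n1 : ℕ) :
    Ph E n1 1 ≤ (n1 + 1) * (1 + g1 k γ / 2) ^ n1 / Fintype.card Y + 2 / g1 k γ := by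
  have hg := g1_pos (k := k) hk hγ
  have hg' := g1_le (k := k) hk hγ1
  have hc : (0 : ℝ) < Fintype.card Y := by exact_mod_cast Fintype.card_pos
  unfold Ph
  calc ∑ n ∈ Finset.range (n1 + 1), (1 + g1 k γ / 2) ^ n * wk E n 1
      ≤ ∑ n ∈ Finset.range (n1 + 1), ((1 + g1 k γ / 2) ^ n1 / Fintype.card Y +
          (1 - g1 k γ / 2) ^ n) := by
        refine Finset.sum_le_sum fun n hn => ?_
        have h1 := wk_bound E hk hγ hγ1 n 1
        calc (1 + g1 k γ / 2) ^ n * wk E n 1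
            ≤ (1 + g1 k γ / 2) ^ n * (1 / Fintype.card Y + (1 - g1 k γ) ^ n) :=
              mul_le_mul_of_nonneg_left h1 (by positivity)
          _ = (1 + g1 k γ / 2) ^ n / Fintype.card Y +
              ((1 + g1 k γ / 2) * (1 - g1 k γ)) ^ n := by rw [mul_pow]; ring
          _ ≤ _ := by
              refine add_le_add ?_ ?_
              · gcongr
                · linarith
                · have := Finset.mem_range.1 hn; omega
              · refine pow_le_pow_left₀ (mul_nonneg (by linarith) (by linarith)) ?_ n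
                nlinarith
    _ = (n1 + 1) * (1 + g1 k γ / 2) ^ n1 / Fintype.card Y +
        ∑ n ∈ Finset.range (n1 + 1), (1 - g1 k γ / 2) ^ n := by
        rw [Finset.sum_add_distrib, Finset.sum_const, Finset.card_range, nsmul_eq_mul]
        push_cast; ring
    _ ≤ _ := by
        gcongr
        have h1 := geom_sum_mul_neg (1 - g1 k γ / 2) (n1 + 1)
        have h2 : 0 ≤ (1 - g1 k γ / 2) ^ (n1 + 1) := pow_nonneg (by linarith) _
        rw [le_div_iff₀ hg]
        nlinarith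

end Pool.Agent.MP50f558
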