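import Mathlib
import Pool.Agent.Lib.MP_50f558_pr.Defs

set_option autoImplicit false

/-!
Every element of `SL_3(F)` is a product of at most ten elementary matrices.
-/

namespace Pool.Agent.MP50f558

open Matrix

variable {F : Type} [Field F]

/-- Elementary matrices in `SL_3`. -/
def el (i j : Fin 3) (h : i ≠ j) (a : F) : Matrix.SpecialLinearGroup (Fin 3) F :=
  ⟨transvection i j a, det_transvection_of_ne i j h a⟩

lemma el_mul_same (i j : Fin 3) (h : i ≠ j) (a : F) (g : Matrix.SpecialLinearGroup (Fin 3) F)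
    (c : Fin 3) : (el i j h a * g) i c = g i c + a * g j c := by
  change (transvection i j a * (g : Matrix (Fin 3) (Fin 3) F)) i c = _
  rw [transvection_mul_apply_same]

lemma el_mul_ne (i j : Fin 3) (h : i ≠ j) (a : F) (g : Matrix.SpecialLinearGroup (Fin 3) F)
    (r c : Fin 3) (hr : r ≠ i) : (el i j h a * g) r c = g r c := by
  change (transvection i j a * (g : Matrix (Fin 3) (Fin 3) F)) r c = _
  rw [transvection_mul_apply_of_ne _ _ _ _ hr]

lemma el_zero (i j : Fin 3) (h : i ≠ j) : el i j h (0 : F) = 1 := by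
  apply Subtype.ext
  change transvection i j (0 : F) = 1
  simp [transvection]

lemma el_mul_el (i j : Fin 3) (h : i ≠ j) (a b : F) :
    el i j h a * el i j h b = el i j h (a + b) := by
  apply Subtype.ext
  change transvection i j a * transvection i j b = transvection i j (a + b)
  rw [transvection_mul_transvection_same _ _ h]

/-- Products of `n` elementary matrices. -/
inductive PrEl : ℕ → Matrix.SpecialLinearGroup (Fin 3) F → Prop
  | one : PrEl 0 1
  | mul (n : ℕ) (i j : Fin 3) (h : i ≠ j) (a : F) (g : Matrix.SpecialLinearGroup (Fin 3) F)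
      (hg : PrEl n g) : PrEl (n + 1) (el i j h a * g)

lemma PrEl.succ {n : ℕ} {g : Matrix.SpecialLinearGroup (Fin 3) F} (hg : PrEl n g) : PrEl (n + 1) g := by
  have := PrEl.mul n 0 1 (by decide) 0 g hg
  rwa [el_zero, one_mul] at this

lemma PrEl.mono {n m : ℕ} (h : n ≤ m) {g : Matrix.SpecialLinearGroup (Fin 3) F} (hg : PrEl n g) :
    PrEl m g := by
  induction m, h using Nat.le_induction with
  | base => exact hg
  | succ m _ ih => exact ih.succ

lemma PrEl.back {n : ℕ} (i j : Fin 3) (h : i ≠ j) (a : F) {g : Matrix.SpecialLinearGroup (Fin 3) F}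
    (hg : PrEl n (el i j h a * g)) : PrEl (n + 1) g := by
  have := PrEl.mul n i j h (-a) _ hg
  rwa [← mul_assoc, el_mul_el, neg_add_cancel, el_zero, one_mul] at this

lemma det3 (g : Matrix.SpecialLinearGroup (Fin 3) F) :
    g 0 0 * g 1 1 * g 2 2 - g 0 0 * g 1 2 * g 2 1 - g 0 1 * g 1 0 * g 2 2 +
      g 0 1 * g 1 2 * g 2 0 + g 0 2 * g 1 0 * g 2 1 - g 0 2 * g 1 1 * g 2 0 = 1 := by
  have h := g.2
  rw [Matrix.det_fin_three] at h
  exact h

lemma sl_ext (g : Matrix.SpecialLinearGroup (Fin 3) F) (h00 : g 0 0 = 1) (h01 : g 0 1 = 0)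
    (h02 : g 0 2 = 0) (h10 : g 1 0 = 0) (h11 : g 1 1 = 1) (h12 : g 1 2 = 0) (h20 : g 2 0 = 0)
    (h21 : g 2 1 = 0) (h22 : g 2 2 = 1) : g = 1 := by
  apply Matrix.SpecialLinearGroup.ext
  intro i j
  change g i j = (1 : Matrix (Fin 3) (Fin 3) F) i j
  fin_cases i <;> fin_cases j
  · exact h00
  · exact h01
  · exact h02
  · exact h10
  · exact h11
  · exact h12
  · exact h20
  · exact h21
  · exact h22

/-- Upper unitriangular matrices. -/
lemma elim_upper (g : Matrix.SpecialLinearGroup (Fin 3) F) (h00 : g 0 0 = 1) (h10 : g 1 0 = 0)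
    (h11 : g 1 1 = 1) (h20 : g 2 0 = 0) (h21 : g 2 1 = 0) (h22 : g 2 2 = 1) : PrEl 3 g := by
  have d01 : (0 : Fin 3) ≠ 1 := by decide
  have d02 : (0 : Fin 3) ≠ 2 := by decide
  have d12 : (1 : Fin 3) ≠ 2 := by decide
  refine PrEl.back 0 1 d01 (-g 0 1) ?_
  set g1 := el 0 1 d01 (-g 0 1) * g with hg1
  have a0 : ∀ c, g1 0 c = g 0 c + -g 0 1 * g 1 c := fun c => el_mul_same _ _ _ _ _ _
  have a1 : ∀ c, g1 1 c = g 1 c := fun c => el_mul_ne _ _ _ _ _ _ _ (by decide)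
  have a2 : ∀ c, g1 2 c = g 2 c := fun c => el_mul_ne _ _ _ _ _ _ _ (by decide)
  refine PrEl.back 0 2 d02 (-g1 0 2) ?_
  set g2 := el 0 2 d02 (-g1 0 2) * g1 with hg2
  have b0 : ∀ c, g2 0 c = g1 0 c + -g1 0 2 * g1 2 c := fun c => el_mul_same _ _ _ _ _ _
  have b1 : ∀ c, g2 1 c = g1 1 c := fun c => el_mul_ne _ _ _ _ _ _ _ (by decide)
  have b2 : ∀ c, g2 2 c = g1 2 c := fun c => el_mul_ne _ _ _ _ _ _ _ (by decide)
  refine PrEl.back 1 2 d12 (-g2 1 2) ?_
  set g3 := el 1 2 d12 (-g2 1 2) * g2 with hg3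
  have c0 : ∀ c, g3 0 c = g2 0 c := fun c => el_mul_ne _ _ _ _ _ _ _ (by decide)
  have c1 : ∀ c, g3 1 c = g2 1 c + -g2 1 2 * g2 2 c := fun c => el_mul_same _ _ _ _ _ _
  have c2 : ∀ c, g3 2 c = g2 2 c := fun c => el_mul_ne _ _ _ _ _ _ _ (by decide)
  have : g3 = 1 := by
    apply sl_ext
    · rw [c0, b0, a0, a0, a2, h00, h10, h20]; ring
    · rw [c0, b0, a0, a0, a2, h11, h21]; ring
    · rw [c0, b0, a0, a2, h22]; ring
    · rw [c1, b1, b1, b2, a1, a2, h10, h20]; ring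
    · rw [c1, b1, b1, b2, a1, a2, h11, h21]; ring
    · rw [c1, b1, b2, a2, h22]; ring
    · rw [c2, b2, a2, h20]
    · rw [c2, b2, a2, h21]
    · rw [c2, b2, a2, h22]
  rw [this]
  exact PrEl.one

lemma elim_block1 (g : Matrix.SpecialLinearGroup (Fin 3) F) (h00 : g 0 0 = 1) (h10 : g 1 0 = 0)
    (h20 : g 2 0 = 0) (h21 : g 2 1 ≠ 0) : PrEl 5 g := by
  have d12 : (1 : Fin 3) ≠ 2 := by decide
  have d21 : (2 : Fin 3) ≠ 1 := by decide
  refine PrEl.back 1 2 d12 ((1 - g 1 1) / g 2 1) ?_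
  set g1 := el 1 2 d12 ((1 - g 1 1) / g 2 1) * g with hg1
  have a0 : ∀ c, g1 0 c = g 0 c := fun c => el_mul_ne _ _ _ _ _ _ _ (by decide)
  have a1 : ∀ c, g1 1 c = g 1 c + (1 - g 1 1) / g 2 1 * g 2 c :=
    fun c => el_mul_same _ _ _ _ _ _
  have a2 : ∀ c, g1 2 c = g 2 c := fun c => el_mul_ne _ _ _ _ _ _ _ (by decide)
  refine PrEl.back 2 1 d21 (-g1 2 1) ?_
  set g2 := el 2 1 d21 (-g1 2 1) * g1 with hg2
  have b0 : ∀ c, g2 0 c = g1 0 c := fun c => el_mul_ne _ _ _ _ _ _ _ (by decide)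
  have b1 : ∀ c, g2 1 c = g1 1 c := fun c => el_mul_ne _ _ _ _ _ _ _ (by decide)
  have b2 : ∀ c, g2 2 c = g1 2 c + -g1 2 1 * g1 1 c := fun c => el_mul_same _ _ _ _ _ _
  have e11 : g1 1 1 = 1 := by
    rw [a1, div_mul_cancel₀ _ h21]; ring
  have k00 : g2 0 0 = 1 := by rw [b0, a0, h00]
  have k10 : g2 1 0 = 0 := by rw [b1, a1, h10, h20]; ring
  have k11 : g2 1 1 = 1 := by rw [b1, e11]
  have k20 : g2 2 0 = 0 := by rw [b2, a2, a1, h10, h20]; ring
  have k21 : g2 2 1 = 0 := by rw [b2, e11]; ring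
  have k22 : g2 2 2 = 1 := by
    have := det3 g2
    rw [k00, k10, k11, k20, k21] at this
    linear_combination this
  exact elim_upper g2 k00 k10 k11 k20 k21 k22

lemma elim_block (g : Matrix.SpecialLinearGroup (Fin 3) F) (h00 : g 0 0 = 1) (h10 : g 1 0 = 0)
    (h20 : g 2 0 = 0) : PrEl 6 g := by
  by_cases h21 : g 2 1 = 0
  · have h11 : g 1 1 ≠ 0 := by
      intro h11
      have := det3 g
      rw [h00, h10, h11, h20, h21] at this
      simp at this
    have d21 : (2 : Fin 3) ≠ 1 := by decide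
    refine PrEl.back 2 1 d21 1 ?_
    set g1 := el 2 1 d21 1 * g with hg1
    have a0 : ∀ c, g1 0 c = g 0 c := fun c => el_mul_ne _ _ _ _ _ _ _ (by decide)
    have a1 : ∀ c, g1 1 c = g 1 c := fun c => el_mul_ne _ _ _ _ _ _ _ (by decide)
    have a2 : ∀ c, g1 2 c = g 2 c + 1 * g 1 c := fun c => el_mul_same _ _ _ _ _ _
    refine elim_block1 g1 (by rw [a0, h00]) (by rw [a1, h10]) (by rw [a2, h10, h20]; ring) ?_
    rw [a2, h21, zero_add, one_mul]
    exact h11
  · exact (elim_block1 g h00 h10 h20 h21).succ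

lemma elim1 (g : Matrix.SpecialLinearGroup (Fin 3) F) (h00 : g 0 0 = 1) : PrEl 8 g := by
  have d10 : (1 : Fin 3) ≠ 0 := by decide
  have d20 : (2 : Fin 3) ≠ 0 := by decide
  refine PrEl.back 1 0 d10 (-g 1 0) ?_
  set g1 := el 1 0 d10 (-g 1 0) * g with hg1
  have a0 : ∀ c, g1 0 c = g 0 c := fun c => el_mul_ne _ _ _ _ _ _ _ (by decide)
  have a1 : ∀ c, g1 1 c = g 1 c + -g 1 0 * g 0 c := fun c => el_mul_same _ _ _ _ _ _
  have a2 : ∀ c, g1 2 c = g 2 c := fun c => el_mul_ne _ _ _ _ _ _ _ (by decide)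
  refine PrEl.back 2 0 d20 (-g1 2 0) ?_
  set g2 := el 2 0 d20 (-g1 2 0) * g1 with hg2
  have b0 : ∀ c, g2 0 c = g1 0 c := fun c => el_mul_ne _ _ _ _ _ _ _ (by decide)
  have b1 : ∀ c, g2 1 c = g1 1 c := fun c => el_mul_ne _ _ _ _ _ _ _ (by decide)
  have b2 : ∀ c, g2 2 c = g1 2 c + -g1 2 0 * g1 0 c := fun c => el_mul_same _ _ _ _ _ _
  exact elim_block g2 (by rw [b0, a0, h00]) (by rw [b1, a1, h00]; ring)
    (by rw [b2, a0, h00]; ring)

lemma elim2 (g : Matrix.SpecialLinearGroup (Fin 3) F) (h10 : g 1 0 ≠ 0) : PrEl 9 g := by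
  have d01 : (0 : Fin 3) ≠ 1 := by decide
  refine PrEl.back 0 1 d01 ((1 - g 0 0) / g 1 0) ?_
  apply elim1
  rw [el_mul_same, div_mul_cancel₀ _ h10]
  ring

/-- Every element of `SL_3(F)` is a product of ten elementary matrices. -/
theorem elim_all (g : Matrix.SpecialLinearGroup (Fin 3) F) : PrEl 10 g := by
  by_cases h10 : g 1 0 = 0
  · by_cases h00 : g 0 0 = 0
    · have h20 : g 2 0 ≠ 0 := by
        intro h20
        have := det3 g
        rw [h00, h10, h20] at this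
        simp at this
      have d12 : (1 : Fin 3) ≠ 2 := by decide
      refine PrEl.back 1 2 d12 1 ?_
      apply elim2
      rw [el_mul_same, h10, zero_add, one_mul]
      exact h20
    · have d10 : (1 : Fin 3) ≠ 0 := by decide
      refine PrEl.back 1 0 d10 1 ?_
      apply elim2
      rw [el_mul_same, h10, zero_add, one_mul]
      exact h00
  · exact (elim2 g h10).succ

end Pool.Agent.MP50f558
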