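import Mathlib

set_option autoImplicit false

/-!
# MP_50f558_pr, Module 1a : the drift lemma
-/

namespace Pool.Agent.MP50f558

/-- one-step drift, case `al u m = true` -/
lemma drift_claim {U : Type} (al be : U → ℕ → Bool) (T0 T1 T2 T3 : U → U)
    (h0b : ∀ u i, be (T0 u) i = xor (be u i) (al u (i + 1)))
    (h1a : ∀ u i, al (T1 u) i = al u i) (h1b : ∀ u i, be (T1 u) i = xor (be u i) (al u (i + 2)))
    (h2b : ∀ u i, be (T2 u) i = be u i) (h2a : ∀ u i, al (T2 u) i = xor (al u i) (be u (i + 1)))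
    (h3b : ∀ u i, be (T3 u) i = be u i) (h3a : ∀ u i, al (T3 u) i = xor (al u i) (be u (i + 2)))
    (W : U → ℝ)
    (K1 : ∀ u i, (al u i = true ∨ be u i = true) → W u ≤ (9 / 8 : ℝ) ^ i)
    (K0 : ∀ u, (al u 0 = true ∨ be u 0 = true) → W u = 0) (u : U) (m : ℕ) (hm : 1 ≤ m)
    (hlow : ∀ i < m, al u i = false ∧ be u i = false) (ham : al u m = true) :
    W (T0 u) + W (T1 u) + (W (T2 u) + W (T3 u)) ≤ 3.95 * (9 / 8 : ℝ) ^ m := by
  obtain ⟨k, rfl⟩ : ∃ k, m = k + 1 := ⟨m - 1, by omega⟩
  have ha : (0 : ℝ) < (9 / 8 : ℝ) ^ k := by positivity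
  have hk := hlow k (by omega)
  -- T0
  have b0 : be (T0 u) k = true := by rw [h0b, hk.2, ham]; rfl
  have c0 := K1 (T0 u) k (Or.inr b0)
  -- first two
  have A : W (T0 u) + W (T1 u) ≤ (136 / 81) * (9 / 8 : ℝ) ^ (k + 1) := by
    rcases Nat.eq_zero_or_pos k with h | h
    · subst h
      have e0 := K0 (T0 u) (Or.inr b0)
      have e1 := K1 (T1 u) 1 (Or.inl (by rw [h1a]; exact ham))
      rw [e0]; norm_num at e1 ⊢; linarith
    · obtain ⟨l, rfl⟩ : ∃ l, k = l + 1 := ⟨k - 1, by omega⟩
      have hl := hlow l (by omega)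
      have b1 : be (T1 u) l = true := by rw [h1b, hl.2, ham]; rfl
      have c1 := K1 (T1 u) l (Or.inr b1)
      have : (0:ℝ) < (9 / 8 : ℝ) ^ l := by positivity
      rw [pow_succ] at c0
      rw [pow_succ, pow_succ]
      nlinarith
  have B : W (T2 u) + W (T3 u) ≤ (145 / 64) * (9 / 8 : ℝ) ^ (k + 1) := by
    by_cases h1 : be u (k + 1) = true
    · have b2 : al (T2 u) k = true := by rw [h2a, hk.1, h1]; rfl
      have c2 := K1 (T2 u) k (Or.inl b2)
      have c3 := K1 (T3 u) (k + 1) (Or.inr (by rw [h3b]; exact h1))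
      rw [pow_succ] at c3 ⊢
      nlinarith
    · have h1' : be u (k + 1) = false := by simpa using h1
      by_cases h2 : be u (k + 2) = true
      · have c2 := K1 (T2 u) (k + 2) (Or.inr (by rw [h2b]; exact h2))
        have b3 : al (T3 u) k = true := by rw [h3a, hk.1, h2]; rfl
        have c3 := K1 (T3 u) k (Or.inl b3)
        rw [pow_succ, pow_succ] at c2
        rw [pow_succ]
        nlinarith
      · have h2' : be u (k + 2) = false := by simpa using h2
        have b2 : al (T2 u) (k + 1) = true := by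
          rw [h2a, ham, show k + 1 + 1 = k + 2 from rfl, h2']; rfl
        have c2 := K1 (T2 u) (k + 1) (Or.inl b2)
        by_cases h3 : be u (k + 3) = true
        · have c3 := K1 (T3 u) (k + 3) (Or.inr (by rw [h3b]; exact h3))
          rw [pow_succ, pow_succ, pow_succ] at c3
          rw [pow_succ] at c2 ⊢
          nlinarith
        · have h3' : be u (k + 3) = false := by simpa using h3
          have b3 : al (T3 u) (k + 1) = true := by
            rw [h3a, ham, show k + 1 + 2 = k + 3 from rfl, h3']; rfl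
          have c3 := K1 (T3 u) (k + 1) (Or.inl b3)
          rw [pow_succ] at c2 c3 ⊢
          nlinarith
  have h5 : (0:ℝ) < (9 / 8 : ℝ) ^ (k + 1) := by positivity
  nlinarith

theorem drift_lemma {U : Type} [Fintype U] (al be : U → ℕ → Bool) (T : Fin 4 → U → U)
    (hT : ∀ j u, T j (T j u) = u)
    (h0a : ∀ u i, al (T 0 u) i = al u i) (h0b : ∀ u i, be (T 0 u) i = xor (be u i) (al u (i + 1)))
    (h1a : ∀ u i, al (T 1 u) i = al u i) (h1b : ∀ u i, be (T 1 u) i = xor (be u i) (al u (i + 2)))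
    (h2b : ∀ u i, be (T 2 u) i = be u i) (h2a : ∀ u i, al (T 2 u) i = xor (al u i) (be u (i + 1)))
    (h3b : ∀ u i, be (T 3 u) i = be u i) (h3a : ∀ u i, al (T 3 u) i = xor (al u i) (be u (i + 2)))
    (φ : U → ℝ) :
    open Classical in
    ∑ u ∈ Finset.univ.filter (fun u => ∃ i, al u i = true ∨ be u i = true), φ u ^ 2 ≤
      20 * ∑ j, ∑ u, (φ u - φ (T j u)) ^ 2 +
        321 * ∑ u ∈ Finset.univ.filter (fun u => al u 0 = true ∨ be u 0 = true), φ u ^ 2 := by
  classical
  -- the weight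
  set P : U → Prop := fun u => ∃ i, al u i = true ∨ be u i = true with hP
  set W : U → ℝ := fun u =>
    if h : P u then (if Nat.find h = 0 then 0 else (9 / 8 : ℝ) ^ Nat.find h) else 0 with hWdef
  have W0 : ∀ u, 0 ≤ W u := by
    intro u; simp only [hWdef]; split_ifs <;> positivity
  have K1 : ∀ u i, (al u i = true ∨ be u i = true) → W u ≤ (9 / 8 : ℝ) ^ i := by
    intro u i hi
    have h : P u := ⟨i, hi⟩
    simp only [hWdef]
    rw [dif_pos h]
    split_ifs
    · positivity
    · exact pow_le_pow_right₀ (by norm_num) (Nat.find_min' h hi)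
  have K0 : ∀ u, (al u 0 = true ∨ be u 0 = true) → W u = 0 := by
    intro u hi
    have h : P u := ⟨0, hi⟩
    simp only [hWdef]
    rw [dif_pos h, if_pos]
    exact Nat.le_zero.1 (Nat.find_min' h hi)
  have Wpos : ∀ u, P u → ¬ (al u 0 = true ∨ be u 0 = true) → 0 < W u ∧
      ∑ j, W (T j u) ≤ 3.95 * W u := by
    intro u h hn
    have hne : Nat.find h ≠ 0 := by
      intro h0
      have := Nat.find_spec h
      rw [h0] at this
      exact hn this
    have hW : W u = (9 / 8 : ℝ) ^ Nat.find h := by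
      simp only [hWdef]
      rw [dif_pos h, if_neg hne]
    have hlow : ∀ i < Nat.find h, al u i = false ∧ be u i = false := by
      intro i hi
      have := Nat.find_min h hi
      simp only [not_or, Bool.not_eq_true] at this
      exact this
    refine ⟨by rw [hW]; positivity, ?_⟩
    rw [hW, Fin.sum_univ_four]
    rcases Nat.find_spec h with hs | hs
    · have := drift_claim al be (T 0) (T 1) (T 2) (T 3) h0b h1a h1b h2b h2a h3b h3a W K1 K0 u
        (Nat.find h) (by omega) hlow hs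
      linarith
    · have := drift_claim be al (T 2) (T 3) (T 0) (T 1) h2a h3b h3a h0a h0b h1a h1b W
        (fun u i hi => K1 u i hi.symm) (fun u hi => K0 u hi.symm) u
        (Nat.find h) (by omega) (fun i hi => (hlow i hi).symm) hs
      linarith
  have hPT' : ∀ j u, ¬ P u → ¬ P (T j u) := by
    intro j u hu
    have hz : ∀ i, al u i = false ∧ be u i = false := by
      intro i
      by_contra hcon
      apply hu
      refine ⟨i, ?_⟩
      rcases Bool.eq_false_or_eq_true (al u i) with h | h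
      · exact Or.inl h
      · rcases Bool.eq_false_or_eq_true (be u i) with h' | h'
        · exact Or.inr h'
        · exact absurd ⟨h, h'⟩ hcon
    rintro ⟨i, hi⟩
    fin_cases j
    · simp [h0a, h0b, hz] at hi
    · simp [h1a, h1b, hz] at hi
    · simp [h2a, h2b, hz] at hi
    · simp [h3a, h3b, hz] at hi
  have hPT : ∀ j u, P u → P (T j u) := by
    intro j u hu
    by_contra hcon
    have := hPT' j _ hcon
    rw [hT] at this
    exact this hu
  -- reindexing
  have hre : ∀ (j : Fin 4) (f : U → ℝ), ∑ u, f (T j u) = ∑ u, f u := by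
    intro j f
    exact Equiv.sum_comp (Function.Involutive.toPerm (T j) (hT j)) f
  set φ1 : U → ℝ := fun u => if P u ∧ ¬ (al u 0 = true ∨ be u 0 = true) then φ u else 0 with hφ1
  set φ0 : U → ℝ := fun u => if (al u 0 = true ∨ be u 0 = true) then φ u else 0 with hφ0
  -- cross terms
  have hcross : ∑ j, ∑ u, φ1 u * φ1 (T j u) ≤ 3.95 * ∑ u, φ1 u ^ 2 := by
    have h1 : ∀ j u, φ1 u * φ1 (T j u) ≤
        (1 / 2) * (φ1 u ^ 2 * (W (T j u) / W u) + φ1 (T j u) ^ 2 * (W u / W (T j u))) := by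
      intro j u
      have hnn : 0 ≤ (1 / 2 : ℝ) * (φ1 u ^ 2 * (W (T j u) / W u) +
          φ1 (T j u) ^ 2 * (W u / W (T j u))) := by
        have := W0 u
        have := W0 (T j u)
        positivity
      by_cases hu : P u ∧ ¬ (al u 0 = true ∨ be u 0 = true)
      · by_cases hu' : P (T j u) ∧ ¬ (al (T j u) 0 = true ∨ be (T j u) 0 = true)
        · have p1 := (Wpos u hu.1 hu.2).1
          have p2 := (Wpos _ hu'.1 hu'.2).1
          have e : (1 / 2 : ℝ) * (φ1 u ^ 2 * (W (T j u) / W u) +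
              φ1 (T j u) ^ 2 * (W u / W (T j u))) - φ1 u * φ1 (T j u) =
              (φ1 u * W (T j u) - φ1 (T j u) * W u) ^ 2 / (2 * W u * W (T j u)) := by
            field_simp
            ring
          have : 0 ≤ (φ1 u * W (T j u) - φ1 (T j u) * W u) ^ 2 / (2 * W u * W (T j u)) := by
            positivity
          linarith
        · have : φ1 (T j u) = 0 := by simp only [hφ1]; rw [if_neg hu']
          rw [this, mul_zero]
          rw [this] at hnn
          exact hnn
      · have : φ1 u = 0 := by simp only [hφ1]; rw [if_neg hu]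
        rw [this, zero_mul]
        rw [this] at hnn
        exact hnn
    have h2 : ∀ j, ∑ u, φ1 u * φ1 (T j u) ≤ ∑ u, φ1 u ^ 2 * (W (T j u) / W u) := by
      intro j
      have h3 : ∑ u, φ1 (T j u) ^ 2 * (W u / W (T j u)) = ∑ u, φ1 u ^ 2 * (W (T j u) / W u) := by
        rw [← hre j (fun u => φ1 u ^ 2 * (W (T j u) / W u))]
        simp only [hT]
      calc ∑ u, φ1 u * φ1 (T j u) ≤ ∑ u, (1 / 2) * (φ1 u ^ 2 * (W (T j u) / W u) +
              φ1 (T j u) ^ 2 * (W u / W (T j u))) := Finset.sum_le_sum fun u _ => h1 j u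
        _ = _ := by
          rw [← Finset.mul_sum, Finset.sum_add_distrib, h3]; ring
    calc ∑ j, ∑ u, φ1 u * φ1 (T j u) ≤ ∑ j, ∑ u, φ1 u ^ 2 * (W (T j u) / W u) :=
          Finset.sum_le_sum fun j _ => h2 j
      _ = ∑ u, φ1 u ^ 2 * ((∑ j, W (T j u)) / W u) := by
          rw [Finset.sum_comm]
          apply Finset.sum_congr rfl
          intro u _
          rw [← Finset.mul_sum, Finset.sum_div]
      _ ≤ ∑ u, φ1 u ^ 2 * 3.95 := by
          apply Finset.sum_le_sum
          intro u _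
          by_cases hu : P u ∧ ¬ (al u 0 = true ∨ be u 0 = true)
          · have p1 := Wpos u hu.1 hu.2
            apply mul_le_mul_of_nonneg_left _ (sq_nonneg _)
            rw [div_le_iff₀ p1.1]
            exact p1.2
          · have : φ1 u = 0 := by simp only [hφ1]; rw [if_neg hu]
            rw [this]; simp
      _ = _ := by rw [← Finset.sum_mul]; ring
  have hE1 : (1 / 10 : ℝ) * ∑ u, φ1 u ^ 2 ≤ ∑ j, ∑ u, (φ1 u - φ1 (T j u)) ^ 2 := by
    have h1 : ∀ j, ∑ u, (φ1 u - φ1 (T j u)) ^ 2 =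
        2 * ∑ u, φ1 u ^ 2 - 2 * ∑ u, φ1 u * φ1 (T j u) := by
      intro j
      have h2 := hre j (fun u => φ1 u ^ 2)
      calc ∑ u, (φ1 u - φ1 (T j u)) ^ 2 =
          ∑ u, (φ1 u ^ 2 + φ1 (T j u) ^ 2 - 2 * (φ1 u * φ1 (T j u))) := by
            apply Finset.sum_congr rfl; intro u _; ring
        _ = _ := by
          rw [Finset.sum_sub_distrib, Finset.sum_add_distrib, h2, ← Finset.mul_sum]; ring
    simp only [Fin.sum_univ_four] at hcross ⊢
    rw [h1, h1, h1, h1]
    linarith
  have hE2 : ∑ j, ∑ u, (φ1 u - φ1 (T j u)) ^ 2 ≤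
      2 * ∑ j, ∑ u, (φ u - φ (T j u)) ^ 2 + 32 * ∑ u, φ0 u ^ 2 := by
    have h1 : ∀ j u, (φ1 u - φ1 (T j u)) ^ 2 ≤
        2 * (φ u - φ (T j u)) ^ 2 + (4 * φ0 u ^ 2 + 4 * φ0 (T j u) ^ 2) := by
      intro j u
      have hsplit : ∀ w, P w → φ1 w = φ w - φ0 w := by
        intro w hw
        simp only [hφ1, hφ0]
        by_cases h : (al w 0 = true ∨ be w 0 = true)
        · rw [if_neg (fun h' => h'.2 h), if_pos h]; ring
        · rw [if_pos ⟨hw, h⟩, if_neg h]; ring
      by_cases hu : P u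
      · rw [hsplit u hu, hsplit _ (hPT j u hu)]
        nlinarith [sq_nonneg ((φ u - φ (T j u)) + (φ0 u - φ0 (T j u))),
          sq_nonneg (φ0 u + φ0 (T j u))]
      · have e1 : φ1 u = 0 := by simp only [hφ1]; rw [if_neg (fun h => hu h.1)]
        have e2 : φ1 (T j u) = 0 := by
          simp only [hφ1]; rw [if_neg (fun h => hPT' j u hu h.1)]
        rw [e1, e2]
        nlinarith [sq_nonneg (φ u - φ (T j u)), sq_nonneg (φ0 u), sq_nonneg (φ0 (T j u))]
    have h2 : ∀ j, ∑ u, (φ1 u - φ1 (T j u)) ^ 2 ≤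
        2 * ∑ u, (φ u - φ (T j u)) ^ 2 + 8 * ∑ u, φ0 u ^ 2 := by
      intro j
      have h3 := hre j (fun u => φ0 u ^ 2)
      calc ∑ u, (φ1 u - φ1 (T j u)) ^ 2 ≤
          ∑ u, (2 * (φ u - φ (T j u)) ^ 2 + (4 * φ0 u ^ 2 + 4 * φ0 (T j u) ^ 2)) :=
            Finset.sum_le_sum fun u _ => h1 j u
        _ = _ := by
          rw [Finset.sum_add_distrib, Finset.sum_add_distrib, ← Finset.mul_sum, ← Finset.mul_sum,
            ← Finset.mul_sum, h3]
          ring
    calc ∑ j, ∑ u, (φ1 u - φ1 (T j u)) ^ 2 ≤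
        ∑ j, (2 * ∑ u, (φ u - φ (T j u)) ^ 2 + 8 * ∑ u, φ0 u ^ 2) :=
          Finset.sum_le_sum fun j _ => h2 j
      _ = _ := by
        rw [Finset.sum_add_distrib, ← Finset.mul_sum]
        simp only [Finset.sum_const, Finset.card_univ, Fintype.card_fin, nsmul_eq_mul]
        push_cast; ring
  have hfin1 : ∑ u ∈ Finset.univ.filter (fun u => ∃ i, al u i = true ∨ be u i = true), φ u ^ 2 =
      ∑ u, φ0 u ^ 2 + ∑ u, φ1 u ^ 2 := by
    rw [Finset.sum_filter, ← Finset.sum_add_distrib]
    apply Finset.sum_congr rfl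
    intro u _
    simp only [hφ1, hφ0]
    by_cases hu : P u
    · rw [if_pos hu]
      by_cases h : (al u 0 = true ∨ be u 0 = true)
      · rw [if_pos h, if_neg (fun h' => h'.2 h)]; ring
      · rw [if_neg h, if_pos ⟨hu, h⟩]; ring
    · rw [if_neg hu, if_neg (fun h => hu ⟨0, h⟩), if_neg (fun h => hu h.1)]; ring
  have hfin0 : ∑ u ∈ Finset.univ.filter (fun u => al u 0 = true ∨ be u 0 = true), φ u ^ 2 =
      ∑ u, φ0 u ^ 2 := by
    rw [Finset.sum_filter]
    apply Finset.sum_congr rfl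
    intro u _
    simp only [hφ0]
    split_ifs <;> ring
  rw [hfin1, hfin0]
  linarith

end Pool.Agent.MP50f558
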