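import Mathlib
import Pool.Agent.Lib.MP_50f558_pr.Expander1

set_option autoImplicit false
set_option linter.unusedSectionVars false

/-!
Spectral comparison for an abelian subgroup normalised by four involutions.
-/

namespace Pool.Agent.MP50f558

section chi

variable {F : Type} [Field F] [Fintype F] [CharP F 2]

/-- Real part of a character. -/
noncomputable def chi (ψ : AddChar (F × F) ℂ) (v : F × F) : ℝ := (ψ v).re

lemma pair_add_self (v : F × F) : v + v = 0 := by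
  ext
  · exact CharTwo.add_self_eq_zero v.1
  · exact CharTwo.add_self_eq_zero v.2

lemma psi_pm (ψ : AddChar (F × F) ℂ) (v : F × F) : ψ v = 1 ∨ ψ v = -1 := by
  have h : ψ v * ψ v = 1 := by
    rw [← AddChar.map_add_eq_mul, pair_add_self, AddChar.map_zero_eq_one]
  exact mul_self_eq_one_iff.1 h

lemma chi_pm (ψ : AddChar (F × F) ℂ) (v : F × F) : chi ψ v = 1 ∨ chi ψ v = -1 := by
  unfold chi
  rcases psi_pm ψ v with h | h <;> rw [h] <;> simp

lemma chi_add (ψ : AddChar (F × F) ℂ) (u v : F × F) : chi ψ (u + v) = chi ψ u * chi ψ v := by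
  unfold chi
  rw [AddChar.map_add_eq_mul]
  rcases psi_pm ψ u with h | h <;> rcases psi_pm ψ v with h' | h' <;> rw [h, h'] <;> simp

lemma chi_zero (ψ : AddChar (F × F) ℂ) : chi ψ 0 = 1 := by
  unfold chi; rw [AddChar.map_zero_eq_one]; simp

lemma chi_sum [DecidableEq F] (a : F × F) :
    ∑ ψ : AddChar (F × F) ℂ, chi ψ a = if a = 0 then (Fintype.card (F × F) : ℝ) else 0 := by
  have h := AddChar.sum_apply_eq_ite a
  have h2 := congrArg Complex.re h
  rw [Complex.re_sum] at h2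
  unfold chi
  rw [h2]
  split_ifs <;> simp

/-- Parseval. -/
lemma parseval (h : F × F → ℝ) : ∑ ψ : AddChar (F × F) ℂ, (∑ v, chi ψ v * h v) ^ 2 =
    Fintype.card (F × F) * ∑ v, h v ^ 2 := by
  classical
  have h1 : ∀ ψ : AddChar (F × F) ℂ, (∑ v, chi ψ v * h v) ^ 2 =
      ∑ v, ∑ u, chi ψ (v + u) * (h v * h u) := by
    intro ψ
    rw [sq, Finset.sum_mul_sum]
    refine Finset.sum_congr rfl fun v _ => Finset.sum_congr rfl fun u _ => ?_
    rw [chi_add]; ring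
  rw [Finset.sum_congr rfl (fun ψ _ => h1 ψ), Finset.sum_comm, Finset.mul_sum]
  refine Finset.sum_congr rfl fun v _ => ?_
  rw [Finset.sum_comm]
  have h2 : ∀ u : F × F, ∑ ψ : AddChar (F × F) ℂ, chi ψ (v + u) * (h v * h u) =
      if u = v then (Fintype.card (F × F) : ℝ) * (h v * h u) else 0 := by
    intro u
    rw [← Finset.sum_mul, chi_sum]
    by_cases huv : u = v
    · subst huv
      rw [if_pos (pair_add_self u), if_pos rfl]
    · rw [if_neg, if_neg huv, zero_mul]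
      intro h0
      apply huv
      have : v + u + u = 0 + u := by rw [h0]
      rw [add_assoc, pair_add_self, add_zero, zero_add] at this
      exact this.symm
  rw [Finset.sum_congr rfl (fun u _ => h2 u), Finset.sum_ite_eq', if_pos (Finset.mem_univ v)]
  ring

end chi

/-- Reverse triangle inequality. -/
lemma sqrt_sub_sq {Γ : Type} [Fintype Γ] (u v : Γ → ℝ) :
    (Real.sqrt (∑ x, u x ^ 2) - Real.sqrt (∑ x, v x ^ 2)) ^ 2 ≤ ∑ x, (u x - v x) ^ 2 := by
  have h1 := Real.sum_mul_le_sqrt_mul_sqrt Finset.univ u v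
  have h2 : 0 ≤ ∑ x, u x ^ 2 := Finset.sum_nonneg fun _ _ => sq_nonneg _
  have h3 : 0 ≤ ∑ x, v x ^ 2 := Finset.sum_nonneg fun _ _ => sq_nonneg _
  have h4 := Real.sq_sqrt h2
  have h5 := Real.sq_sqrt h3
  have h6 : ∑ x, (u x - v x) ^ 2 = ∑ x, u x ^ 2 + ∑ x, v x ^ 2 - 2 * ∑ x, u x * v x := by
    rw [Finset.mul_sum, ← Finset.sum_add_distrib, ← Finset.sum_sub_distrib]
    exact Finset.sum_congr rfl fun _ _ => by ring
  rw [h6, sub_sq, h4, h5]
  linarith

section main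

variable {F : Type} [Field F] [Fintype F] [CharP F 2] {Γ : Type} [Group Γ] [Fintype Γ]

/-- Partial Fourier transform. -/
noncomputable def fh (ι : F → F → Γ) (f : Γ → ℝ) (ψ : AddChar (F × F) ℂ) (x : Γ) : ℝ :=
  ∑ v : F × F, chi ψ v * f (ι v.1 v.2 * x)

/-- Norm of the partial Fourier transform. -/
noncomputable def ph (ι : F → F → Γ) (f : Γ → ℝ) (ψ : AddChar (F × F) ℂ) : ℝ :=
  Real.sqrt (∑ x, fh ι f ψ x ^ 2)

lemma ph_sq (ι : F → F → Γ) (f : Γ → ℝ) (ψ : AddChar (F × F) ℂ) :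
    ph ι f ψ ^ 2 = ∑ x, fh ι f ψ x ^ 2 :=
  Real.sq_sqrt (Finset.sum_nonneg fun _ _ => sq_nonneg _)

lemma sum_ph_sq (ι : F → F → Γ) (f : Γ → ℝ) :
    ∑ ψ, ph ι f ψ ^ 2 = (Fintype.card (F × F) : ℝ) ^ 2 * ∑ x, f x ^ 2 := by
  simp only [ph_sq]
  rw [Finset.sum_comm]
  have h1 : ∀ x, ∑ ψ, fh ι f ψ x ^ 2 =
      Fintype.card (F × F) * ∑ v : F × F, f (ι v.1 v.2 * x) ^ 2 :=
    fun x => parseval (fun v => f (ι v.1 v.2 * x))
  rw [Finset.sum_congr rfl (fun x _ => h1 x), ← Finset.mul_sum, Finset.sum_comm]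
  have h2 : ∀ v : F × F, ∑ x, f (ι v.1 v.2 * x) ^ 2 = ∑ x, f x ^ 2 :=
    fun v => Equiv.sum_comp (Equiv.mulLeft (ι v.1 v.2)) (fun x => f x ^ 2)
  rw [Finset.sum_congr rfl (fun v _ => h2 v), Finset.sum_const, Finset.card_univ, nsmul_eq_mul]
  ring

/-- Conjugation by an involution. -/
lemma ph_diff (ι : F → F → Γ) (f : Γ → ℝ) (e : Γ) (τ : F × F →+ F × F)
    (hτ : ∀ v, τ (τ v) = v) (he : ∀ v : F × F, e * ι v.1 v.2 = ι (τ v).1 (τ v).2 * e) :
    ∑ ψ, (ph ι f ψ - ph ι f (ψ.compAddMonoidHom τ)) ^ 2 ≤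
      (Fintype.card (F × F) : ℝ) ^ 2 * ∑ x, (f (e * x) - f x) ^ 2 := by
  have h1 : ∀ ψ x, fh ι (fun x => f (e * x)) ψ x = fh ι f (ψ.compAddMonoidHom τ) (e * x) := by
    intro ψ x
    unfold fh
    let eqv : (F × F) ≃ (F × F) := ⟨τ, τ, hτ, hτ⟩
    rw [← Equiv.sum_comp eqv]
    refine Finset.sum_congr rfl fun v _ => ?_
    change chi ψ (τ v) * f (e * (ι (τ v).1 (τ v).2 * x)) =
      chi ψ (τ v) * f (ι v.1 v.2 * (e * x))
    rw [← mul_assoc, he, hτ, mul_assoc]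
  have h2 : ∀ ψ, ph ι f (ψ.compAddMonoidHom τ) = ph ι (fun x => f (e * x)) ψ := by
    intro ψ
    unfold ph
    congr 1
    simp only [h1]
    exact (Equiv.sum_comp (Equiv.mulLeft e) (fun x => fh ι f (ψ.compAddMonoidHom τ) x ^ 2)).symm
  rw [← sum_ph_sq ι (fun x => f (e * x) - f x)]
  refine Finset.sum_le_sum fun ψ _ => ?_
  rw [h2, ph_sq, sub_sq_comm]
  refine (sqrt_sub_sq _ _).trans (le_of_eq ?_)
  refine Finset.sum_congr rfl fun x _ => ?_
  congr 1
  unfold fh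
  rw [← Finset.sum_sub_distrib]
  exact Finset.sum_congr rfl fun v _ => by ring

/-- Translation by an element of the abelian subgroup. -/
lemma ph_trans (ι : F → F → Γ)
    (hι : ∀ a b a' b', ι (a + a') (b + b') = ι a b * ι a' b') (f : Γ → ℝ) (w : F × F)
    (ψ : AddChar (F × F) ℂ) :
    ph ι (fun x => f (ι w.1 w.2 * x) - f x) ψ ^ 2 = (chi ψ w - 1) ^ 2 * ph ι f ψ ^ 2 := by
  rw [ph_sq, ph_sq, Finset.mul_sum]
  refine Finset.sum_congr rfl fun x _ => ?_
  rw [← mul_pow]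
  congr 1
  have h1 : ∑ v : F × F, chi ψ v * f (ι w.1 w.2 * (ι v.1 v.2 * x)) =
      chi ψ w * ∑ v : F × F, chi ψ v * f (ι v.1 v.2 * x) := by
    rw [← Equiv.sum_comp (Equiv.addLeft w), Finset.mul_sum]
    refine Finset.sum_congr rfl fun v _ => ?_
    change chi ψ (w + v) * f (ι w.1 w.2 * (ι (w.1 + v.1) (w.2 + v.2) * x)) = _
    rw [chi_add, ← mul_assoc (ι w.1 w.2), ← hι]
    have e1 : w.1 + (w.1 + v.1) = v.1 := by
      rw [← add_assoc, CharTwo.add_self_eq_zero, zero_add]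
    have e2 : w.2 + (w.2 + v.2) = v.2 := by
      rw [← add_assoc, CharTwo.add_self_eq_zero, zero_add]
    rw [e1, e2, mul_assoc]
  unfold fh
  simp only [mul_sub, Finset.sum_sub_distrib]
  rw [h1]
  ring

lemma xor_bit (z w : ℝ) (hz : z = 1 ∨ z = -1) (hw : w = 1 ∨ w = -1) :
    decide (z * w = -1) = xor (decide (w = -1)) (decide (z = -1)) := by
  rcases hz with rfl | rfl <;> rcases hw with rfl | rfl <;> norm_num

theorem subgroup_gap (t : F)
    (ht : ∀ x : F, x ≠ 0 → ∃ i : ℕ, x = t ^ i)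
    (ι : F → F → Γ)
    (hι : ∀ a b a' b', ι (a + a') (b + b') = ι a b * ι a' b')
    (e : Fin 4 → Γ) (he : ∀ j, e j * e j = 1)
    (h0 : ∀ a b, e 0 * ι a b = ι (a + t * b) b * e 0)
    (h1 : ∀ a b, e 1 * ι a b = ι (a + t ^ 2 * b) b * e 1)
    (h2 : ∀ a b, e 2 * ι a b = ι a (b + t * a) * e 2)
    (h3 : ∀ a b, e 3 * ι a b = ι a (b + t ^ 2 * a) * e 3)
    (f : Γ → ℝ) (a b : F) :
    ∑ x, (f (ι a b * x) - f x) ^ 2 ≤
      400 * (∑ j, ∑ x, (f (e j * x) - f x) ^ 2 + ∑ x, (f (ι 1 0 * x) - f x) ^ 2 +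
        ∑ x, (f (ι 0 1 * x) - f x) ^ 2) := by
  classical
  -- the four additive involutions
  let σ : F → (F × F →+ F × F) := fun p =>
    { toFun := fun v => (v.1 + p * v.2, v.2)
      map_zero' := by simp
      map_add' := by
        intro u v
        ext
        · simp only [Prod.fst_add, Prod.snd_add, Prod.mk_add_mk]; ring
        · simp }
  let ρ : F → (F × F →+ F × F) := fun p =>
    { toFun := fun v => (v.1, v.2 + p * v.1)
      map_zero' := by simp
      map_add' := by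
        intro u v
        ext
        · simp
        · simp only [Prod.fst_add, Prod.snd_add, Prod.mk_add_mk]; ring }
  have σσ : ∀ p v, σ p (σ p v) = v := by
    intro p v
    change (v.1 + p * v.2 + p * v.2, v.2) = v
    rw [add_assoc, CharTwo.add_self_eq_zero, add_zero]
  have ρρ : ∀ p v, ρ p (ρ p v) = v := by
    intro p v
    change (v.1, v.2 + p * v.1 + p * v.1) = v
    rw [add_assoc, CharTwo.add_self_eq_zero, add_zero]
  let T : Fin 4 → AddChar (F × F) ℂ → AddChar (F × F) ℂ :=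
    ![fun ψ => ψ.compAddMonoidHom (σ t), fun ψ => ψ.compAddMonoidHom (σ (t ^ 2)),
      fun ψ => ψ.compAddMonoidHom (ρ t), fun ψ => ψ.compAddMonoidHom (ρ (t ^ 2))]
  have Tσ : ∀ p (ψ : AddChar (F × F) ℂ),
      (ψ.compAddMonoidHom (σ p)).compAddMonoidHom (σ p) = ψ := by
    intro p ψ
    ext v
    change ψ (σ p (σ p v)) = ψ v
    rw [σσ]
  have Tρ : ∀ p (ψ : AddChar (F × F) ℂ),
      (ψ.compAddMonoidHom (ρ p)).compAddMonoidHom (ρ p) = ψ := by
    intro p ψ
    ext v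
    change ψ (ρ p (ρ p v)) = ψ v
    rw [ρρ]
  let al : AddChar (F × F) ℂ → ℕ → Bool := fun ψ i => decide (chi ψ (t ^ i, 0) = -1)
  let be : AddChar (F × F) ℂ → ℕ → Bool := fun ψ i => decide (chi ψ (0, t ^ i) = -1)
  have cσ : ∀ p ψ v, chi (AddChar.compAddMonoidHom ψ (σ p)) v = chi ψ (v.1 + p * v.2, v.2) :=
    fun p ψ v => rfl
  have cρ : ∀ p ψ v, chi (AddChar.compAddMonoidHom ψ (ρ p)) v = chi ψ (v.1, v.2 + p * v.1) :=
    fun p ψ v => rfl
  have split : ∀ (ψ : AddChar (F × F) ℂ) (x y : F), chi ψ (x, y) = chi ψ (x, 0) * chi ψ (0, y) := by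
    intro ψ x y
    rw [← chi_add]
    simp
  have aσ : ∀ p ψ i, al (AddChar.compAddMonoidHom ψ (σ p)) i = al ψ i := by
    intro p ψ i
    simp only [al, cσ, mul_zero, add_zero]
  have bρ : ∀ p ψ i, be (AddChar.compAddMonoidHom ψ (ρ p)) i = be ψ i := by
    intro p ψ i
    simp only [be, cρ, mul_zero, add_zero]
  have bσ : ∀ (m : ℕ) ψ i, be (AddChar.compAddMonoidHom ψ (σ (t ^ m))) i =
      xor (be ψ i) (al ψ (i + m)) := by
    intro m ψ i
    simp only [be, al, cσ, zero_add]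
    rw [← pow_add, split, add_comm m i]
    exact xor_bit _ _ (chi_pm _ _) (chi_pm _ _)
  have aρ : ∀ (m : ℕ) ψ i, al (AddChar.compAddMonoidHom ψ (ρ (t ^ m))) i =
      xor (al ψ i) (be ψ (i + m)) := by
    intro m ψ i
    simp only [be, al, cρ, zero_add]
    rw [← pow_add, split, add_comm m i, mul_comm]
    exact xor_bit _ _ (chi_pm _ _) (chi_pm _ _)
  have key := drift_lemma al be T
    (by
      intro j ψ
      fin_cases j
      · exact Tσ t ψ
      · exact Tσ (t ^ 2) ψ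
      · exact Tρ t ψ
      · exact Tρ (t ^ 2) ψ)
    (fun ψ i => aσ t ψ i) (fun ψ i => by
      have := bσ 1 ψ i
      rwa [pow_one] at this)
    (fun ψ i => aσ (t ^ 2) ψ i) (fun ψ i => bσ 2 ψ i)
    (fun ψ i => bρ t ψ i) (fun ψ i => by
      have := aρ 1 ψ i
      rwa [pow_one] at this)
    (fun ψ i => bρ (t ^ 2) ψ i) (fun ψ i => aρ 2 ψ i) (ph ι f)
  set c : ℝ := (Fintype.card (F × F) : ℝ) ^ 2 with hc
  have hc0 : 0 < c := by
    have : (0 : ℝ) < Fintype.card (F × F) := by exact_mod_cast Fintype.card_pos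
    positivity
  -- left side
  have L : c * ∑ x, (f (ι a b * x) - f x) ^ 2 ≤
      4 * ∑ ψ ∈ Finset.univ.filter (fun ψ => ∃ i, al ψ i = true ∨ be ψ i = true),
        ph ι f ψ ^ 2 := by
    rw [← sum_ph_sq ι (fun x => f (ι a b * x) - f x)]
    have e1 : ∀ ψ, ph ι (fun x => f (ι a b * x) - f x) ψ ^ 2 =
        (chi ψ (a, b) - 1) ^ 2 * ph ι f ψ ^ 2 := fun ψ => ph_trans ι hι f (a, b) ψ
    rw [Finset.sum_congr rfl (fun ψ _ => e1 ψ), Finset.mul_sum, Finset.sum_filter]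
    refine Finset.sum_le_sum fun ψ _ => ?_
    by_cases hψ : ∃ i, al ψ i = true ∨ be ψ i = true
    · rw [if_pos hψ]
      refine mul_le_mul_of_nonneg_right ?_ (sq_nonneg _)
      rcases chi_pm ψ (a, b) with h | h <;> rw [h] <;> norm_num
    · rw [if_neg hψ]
      push Not at hψ
      have hx : ∀ x : F, chi ψ (x, 0) = 1 := by
        intro x
        by_cases hx0 : x = 0
        · rw [hx0]; exact chi_zero ψ
        · obtain ⟨i, rfl⟩ := ht x hx0
          have := (hψ i).1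
          exact (chi_pm ψ _).resolve_right (fun hh => this (decide_eq_true_iff.2 hh))
      have hy : ∀ y : F, chi ψ (0, y) = 1 := by
        intro y
        by_cases hy0 : y = 0
        · rw [hy0]; exact chi_zero ψ
        · obtain ⟨i, rfl⟩ := ht y hy0
          have := (hψ i).2
          exact (chi_pm ψ _).resolve_right (fun hh => this (decide_eq_true_iff.2 hh))
      rw [split, hx, hy]
      norm_num
  -- low frequency
  have M : 4 * ∑ ψ ∈ Finset.univ.filter (fun ψ => al ψ 0 = true ∨ be ψ 0 = true),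
        ph ι f ψ ^ 2 ≤ c * ∑ x, (f (ι 1 0 * x) - f x) ^ 2 + c * ∑ x, (f (ι 0 1 * x) - f x) ^ 2 := by
    rw [← sum_ph_sq ι (fun x => f (ι 1 0 * x) - f x), ← sum_ph_sq ι (fun x => f (ι 0 1 * x) - f x)]
    have e1 : ∀ ψ, ph ι (fun x => f (ι 1 0 * x) - f x) ψ ^ 2 =
        (chi ψ (1, 0) - 1) ^ 2 * ph ι f ψ ^ 2 := fun ψ => ph_trans ι hι f (1, 0) ψ
    have e2 : ∀ ψ, ph ι (fun x => f (ι 0 1 * x) - f x) ψ ^ 2 =
        (chi ψ (0, 1) - 1) ^ 2 * ph ι f ψ ^ 2 := fun ψ => ph_trans ι hι f (0, 1) ψ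
    rw [Finset.sum_congr rfl (fun ψ _ => e1 ψ), Finset.sum_congr rfl (fun ψ _ => e2 ψ),
      ← Finset.sum_add_distrib, Finset.mul_sum, Finset.sum_filter]
    refine Finset.sum_le_sum fun ψ _ => ?_
    have n1 : 0 ≤ (chi ψ (1, 0) - 1) ^ 2 * ph ι f ψ ^ 2 := by positivity
    have n2 : 0 ≤ (chi ψ (0, 1) - 1) ^ 2 * ph ι f ψ ^ 2 := by positivity
    by_cases hψ : al ψ 0 = true ∨ be ψ 0 = true
    · rw [if_pos hψ]
      simp only [al, be, pow_zero, decide_eq_true_eq] at hψ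
      rcases hψ with h | h
      · rw [h]
        have : ((-1 : ℝ) - 1) ^ 2 = 4 := by norm_num
        rw [this]
        linarith
      · rw [h]
        have : ((-1 : ℝ) - 1) ^ 2 = 4 := by norm_num
        rw [this]
        linarith
    · rw [if_neg hψ]
      linarith
  -- differences
  have R : ∑ j, ∑ ψ, (ph ι f ψ - ph ι f (T j ψ)) ^ 2 ≤
      c * ∑ j, ∑ x, (f (e j * x) - f x) ^ 2 := by
    rw [Finset.mul_sum]
    refine Finset.sum_le_sum fun j _ => ?_
    fin_cases j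
    · exact ph_diff ι f (e 0) (σ t) (σσ t) (fun v => h0 v.1 v.2)
    · exact ph_diff ι f (e 1) (σ (t ^ 2)) (σσ (t ^ 2)) (fun v => h1 v.1 v.2)
    · exact ph_diff ι f (e 2) (ρ t) (ρρ t) (fun v => h2 v.1 v.2)
    · exact ph_diff ι f (e 3) (ρ (t ^ 2)) (ρρ (t ^ 2)) (fun v => h3 v.1 v.2)
  set S1 := ∑ j, ∑ x, (f (e j * x) - f x) ^ 2 with hS1
  set S2 := ∑ x, (f (ι 1 0 * x) - f x) ^ 2 with hS2
  set S3 := ∑ x, (f (ι 0 1 * x) - f x) ^ 2 with hS3
  have p1 : 0 ≤ S1 := Finset.sum_nonneg fun _ _ => Finset.sum_nonneg fun _ _ => sq_nonneg _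
  have p2 : 0 ≤ S2 := Finset.sum_nonneg fun _ _ => sq_nonneg _
  have p3 : 0 ≤ S3 := Finset.sum_nonneg fun _ _ => sq_nonneg _
  have hfin : c * ∑ x, (f (ι a b * x) - f x) ^ 2 ≤ c * (400 * (S1 + S2 + S3)) := by
    have q1 := mul_nonneg hc0.le p1
    have q2 := mul_nonneg hc0.le p2
    have q3 := mul_nonneg hc0.le p3
    have : c * (400 * (S1 + S2 + S3)) = 400 * (c * S1) + 400 * (c * S2) + 400 * (c * S3) := by
      ring
    rw [this]
    linarith
  exact le_of_mul_le_mul_left hfin hc0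

end main

end Pool.Agent.MP50f558
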