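import Mathlib
import Pool.Agent.Lib.MP_50f558_pr.Elim
import Pool.Agent.Lib.MP_50f558_pr.Expander2

set_option autoImplicit false
set_option linter.unusedSectionVars false

/-!
The groups `SL_3(F)` with eighteen involutions form a family of expanders.
-/

namespace Pool.Agent.MP50f558

open Matrix

section rel

variable {F : Type} [Field F]

lemma el_comm_col (i j l : Fin 3) (hij : i ≠ j) (hlj : l ≠ j) (a b : F) :
    el i j hij a * el l j hlj b = el l j hlj b * el i j hij a := by
  apply Subtype.ext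
  change transvection i j a * transvection l j b = transvection l j b * transvection i j a
  unfold transvection
  simp only [mul_add, add_mul, one_mul, mul_one,
    Matrix.single_mul_single_of_ne _ _ _ _ hlj.symm, Matrix.single_mul_single_of_ne _ _ _ _ hij.symm]
  abel_nf

lemma el_comm_row (i j l : Fin 3) (hij : i ≠ j) (hil : i ≠ l) (a b : F) :
    el i l hil a * el i j hij b = el i j hij b * el i l hil a := by
  apply Subtype.ext
  change transvection i l a * transvection i j b = transvection i j b * transvection i l a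
  unfold transvection
  simp only [mul_add, add_mul, one_mul, mul_one,
    Matrix.single_mul_single_of_ne _ _ _ _ hil.symm, Matrix.single_mul_single_of_ne _ _ _ _ hij.symm]
  abel_nf

lemma el_comm (i j l : Fin 3) (hij : i ≠ j) (hil : i ≠ l) (hlj : l ≠ j) (p b : F) :
    el i l hil p * el l j hlj b = el i j hij (p * b) * el l j hlj b * el i l hil p := by
  apply Subtype.ext
  change transvection i l p * transvection l j b =
    transvection i j (p * b) * transvection l j b * transvection i l p
  unfold transvection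
  simp only [mul_add, add_mul, one_mul, mul_one, Matrix.single_mul_single_same,
    Matrix.single_mul_single_of_ne _ _ _ _ hlj.symm, Matrix.single_mul_single_of_ne _ _ _ _ hij.symm,
    zero_mul]
  abel_nf

lemma el_apply (i j : Fin 3) (h : i ≠ j) (a : F) (r c : Fin 3) :
    (el i j h a) r c = (if r = c then 1 else 0) + if i = r ∧ j = c then a else 0 := by
  change (1 + Matrix.single i j a) r c = _
  rw [Matrix.add_apply, Matrix.one_apply, Matrix.single_apply]

lemma el_inj {i j i' j' : Fin 3} {h : i ≠ j} {h' : i' ≠ j'} {a a' : F} (ha : a ≠ 0)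
    (heq : el i j h a = el i' j' h' a') : i = i' ∧ j = j' ∧ a = a' := by
  have h1 : (el i j h a) i j = (el i' j' h' a') i j := by rw [heq]
  rw [el_apply, el_apply, if_neg h, if_pos ⟨rfl, rfl⟩, zero_add, zero_add] at h1
  by_cases h2 : i' = i ∧ j' = j
  · rw [if_pos h2] at h1
    exact ⟨h2.1.symm, h2.2.symm, h1⟩
  · rw [if_neg h2] at h1
    exact absurd h1 ha

lemma el_ne_one (i j : Fin 3) (h : i ≠ j) {a : F} (ha : a ≠ 0) : el i j h a ≠ 1 := by
  intro heq
  have h1 : (el i j h a) i j = (1 : Matrix.SpecialLinearGroup (Fin 3) F) i j := by rw [heq]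
  rw [el_apply, if_neg h, if_pos ⟨rfl, rfl⟩, zero_add] at h1
  have h2 : (1 : Matrix.SpecialLinearGroup (Fin 3) F) i j = 0 := Matrix.one_apply_ne h
  rw [h2] at h1
  exact ha h1

end rel

section gap

variable {F : Type} [Field F] [Fintype F] [DecidableEq F] [CharP F 2]

/-- Total elementary matrix. -/
def elT (i j : Fin 3) (a : F) : Matrix.SpecialLinearGroup (Fin 3) F :=
  if h : i ≠ j then el i j h a else 1

/-- Index set of the generators. -/
def Idx (t : F) : Finset ((Fin 3 × Fin 3) × F) :=
  (Finset.univ.filter (fun p : Fin 3 × Fin 3 => p.1 ≠ p.2)) ×ˢ {1, t, t ^ 2}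

/-- The generators. -/
def SS (t : F) : Finset (Matrix.SpecialLinearGroup (Fin 3) F) :=
  (Idx t).image (fun q => elT q.1.1 q.1.2 q.2)

lemma mem_SS (t : F) (i j : Fin 3) (h : i ≠ j) (a : F) (ha : a = 1 ∨ a = t ∨ a = t ^ 2) :
    el i j h a ∈ SS t := by
  unfold SS Idx
  rw [Finset.mem_image]
  refine ⟨((i, j), a), ?_, ?_⟩
  · simp only [Finset.mem_product, Finset.mem_filter, Finset.mem_univ, true_and,
      Finset.mem_insert, Finset.mem_singleton]
    exact ⟨h, ha⟩
  · simp only [elT, dif_pos h]

lemma of_mem_SS (t : F) (g : Matrix.SpecialLinearGroup (Fin 3) F) (hg : g ∈ SS t) :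
    ∃ (i j : Fin 3) (h : i ≠ j) (a : F), (a = 1 ∨ a = t ∨ a = t ^ 2) ∧ g = el i j h a := by
  unfold SS Idx at hg
  rw [Finset.mem_image] at hg
  obtain ⟨⟨⟨i, j⟩, a⟩, hq, rfl⟩ := hg
  simp only [Finset.mem_product, Finset.mem_filter, Finset.mem_univ, true_and,
    Finset.mem_insert, Finset.mem_singleton] at hq
  refine ⟨i, j, hq.1, a, hq.2, ?_⟩
  simp only [elT, dif_pos hq.1]

lemma card_SS (t : F) (ht0 : t ≠ 0) (ht1 : t ≠ 1) : (SS t).card = 18 := by
  have hne : ∀ a : F, (a = 1 ∨ a = t ∨ a = t ^ 2) → a ≠ 0 := by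
    rintro a (rfl | rfl | rfl)
    · exact one_ne_zero
    · exact ht0
    · exact pow_ne_zero 2 ht0
  have h12 : (1 : F) ≠ t ^ 2 := by
    intro h
    have h2 : (t + 1) ^ 2 = 0 := by
      have : (2 : F) = 0 := CharTwo.two_eq_zero
      calc (t + 1) ^ 2 = t ^ 2 + 1 + 2 * t := by ring
        _ = 0 := by rw [this, ← h, zero_mul, add_zero, CharTwo.add_self_eq_zero]
    have h3 := pow_eq_zero_iff (two_ne_zero) |>.1 h2
    have h4 : t = 1 := by
      have : t + 1 + 1 = 0 + 1 := by rw [h3]
      rwa [add_assoc, CharTwo.add_self_eq_zero, add_zero, zero_add] at this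
    exact ht1 h4
  have htt : t ≠ t ^ 2 := by
    intro h
    have : t * 1 = t * t := by rw [mul_one, ← sq]; exact h
    exact ht1 (mul_left_cancel₀ ht0 this).symm
  unfold SS
  rw [Finset.card_image_of_injOn]
  · unfold Idx
    rw [Finset.card_product]
    have h1 : (Finset.univ.filter (fun p : Fin 3 × Fin 3 => p.1 ≠ p.2)).card = 6 := by decide
    have h2 : ({1, t, t ^ 2} : Finset F).card = 3 := by
      rw [Finset.card_insert_of_notMem, Finset.card_insert_of_notMem, Finset.card_singleton]
      · rw [Finset.mem_singleton]; exact htt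
      · rw [Finset.mem_insert, Finset.mem_singleton]
        push Not
        exact ⟨ht1.symm, h12⟩
    rw [h1, h2]
  · rintro ⟨⟨i, j⟩, a⟩ hq ⟨⟨i', j'⟩, a'⟩ hq' heq
    unfold Idx at hq hq'
    simp only [Finset.coe_product, Set.mem_prod, Finset.mem_coe, Finset.mem_filter,
      Finset.mem_univ, true_and, Finset.mem_insert, Finset.mem_singleton] at hq hq'
    simp only [elT, dif_pos hq.1, dif_pos hq'.1] at heq
    obtain ⟨h1, h2, h3⟩ := el_inj (hne a hq.2) heq
    rw [h1, h2, h3]

lemma third (i j : Fin 3) (h : i ≠ j) : ∃ l : Fin 3, i ≠ l ∧ l ≠ j := by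
  revert i j; decide

variable [Fintype (Matrix.SpecialLinearGroup (Fin 3) F)]

/-- Displacement of `f` under `g`. -/
def dsp (f : Matrix.SpecialLinearGroup (Fin 3) F → ℝ) (g : Matrix.SpecialLinearGroup (Fin 3) F) :
    ℝ := ∑ x, (f (g * x) - f x) ^ 2

lemma dsp_nonneg (f : Matrix.SpecialLinearGroup (Fin 3) F → ℝ)
    (g : Matrix.SpecialLinearGroup (Fin 3) F) : 0 ≤ dsp f g :=
  Finset.sum_nonneg fun _ _ => sq_nonneg _

lemma dsp_mul (f : Matrix.SpecialLinearGroup (Fin 3) F → ℝ)
    (g h : Matrix.SpecialLinearGroup (Fin 3) F) : dsp f (g * h) ≤ 2 * dsp f g + 2 * dsp f h := by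
  unfold dsp
  have h1 : ∑ x, (f (g * x) - f x) ^ 2 = ∑ x, (f (g * (h * x)) - f (h * x)) ^ 2 :=
    (Equiv.sum_comp (Equiv.mulLeft h) (fun x => (f (g * x) - f x) ^ 2)).symm
  rw [h1, Finset.mul_sum, Finset.mul_sum, ← Finset.sum_add_distrib]
  refine Finset.sum_le_sum fun x _ => ?_
  rw [mul_assoc]
  nlinarith [sq_nonneg ((f (g * (h * x)) - f (h * x)) - (f (h * x) - f x))]

/-- Energy of `f`. -/
def eng (t : F) (f : Matrix.SpecialLinearGroup (Fin 3) F → ℝ) : ℝ := ∑ s ∈ SS t, dsp f s

lemma dsp_le_eng (t : F) (f : Matrix.SpecialLinearGroup (Fin 3) F → ℝ) (i j : Fin 3) (h : i ≠ j)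
    (a : F) (ha : a = 1 ∨ a = t ∨ a = t ^ 2) : dsp f (el i j h a) ≤ eng t f :=
  Finset.single_le_sum (f := fun s => dsp f s) (fun s _ => dsp_nonneg f s) (mem_SS t i j h a ha)

lemma dsp_el (t : F) (ht : ∀ x : F, x ≠ 0 → ∃ i : ℕ, x = t ^ i)
    (f : Matrix.SpecialLinearGroup (Fin 3) F → ℝ) (i j : Fin 3) (h : i ≠ j) (a : F) :
    dsp f (el i j h a) ≤ 2400 * eng t f := by
  obtain ⟨l, hil, hlj⟩ := third i j h
  have hsq : ∀ (i j : Fin 3) (h : i ≠ j) (a : F), el i j h a * el i j h a = 1 := by
    intro i j h a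
    rw [el_mul_el, CharTwo.add_self_eq_zero, el_zero]
  have A : ∀ p a b : F, el i l hil p * (el i j h a * el l j hlj b) =
      el i j h (a + p * b) * el l j hlj b * el i l hil p := by
    intro p a b
    calc el i l hil p * (el i j h a * el l j hlj b)
        = (el i l hil p * el i j h a) * el l j hlj b := by rw [mul_assoc]
      _ = el i j h a * (el i l hil p * el l j hlj b) := by rw [el_comm_row, mul_assoc]
      _ = el i j h a * (el i j h (p * b) * el l j hlj b * el i l hil p) := by
          rw [el_comm i j l h hil hlj]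
      _ = (el i j h a * el i j h (p * b)) * el l j hlj b * el i l hil p := by
          simp only [mul_assoc]
      _ = _ := by rw [el_mul_el]
  have B : ∀ p a b : F, el l i hil.symm p * (el i j h a * el l j hlj b) =
      el i j h a * el l j hlj (b + p * a) * el l i hil.symm p := by
    intro p a b
    calc el l i hil.symm p * (el i j h a * el l j hlj b)
        = (el l i hil.symm p * el i j h a) * el l j hlj b := by rw [mul_assoc]
      _ = (el l j hlj (p * a) * el i j h a * el l i hil.symm p) * el l j hlj b := by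
          rw [el_comm l j i hlj hil.symm h]
      _ = el l j hlj (p * a) * el i j h a * (el l i hil.symm p * el l j hlj b) := by
          simp only [mul_assoc]
      _ = el l j hlj (p * a) * el i j h a * (el l j hlj b * el l i hil.symm p) := by
          rw [el_comm_row l j i hlj hil.symm]
      _ = el i j h a * (el l j hlj (p * a) * el l j hlj b) * el l i hil.symm p := by
          rw [← el_comm_col i j l h hlj]
          simp only [mul_assoc]
      _ = _ := by rw [el_mul_el, add_comm (p * a) b]
  have key := subgroup_gap t ht (fun a b => el i j h a * el l j hlj b)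
    (by
      intro a b a' b'
      rw [← el_mul_el, ← el_mul_el]
      calc el i j h a * el i j h a' * (el l j hlj b * el l j hlj b')
          = el i j h a * (el i j h a' * el l j hlj b) * el l j hlj b' := by
            simp only [mul_assoc]
        _ = el i j h a * (el l j hlj b * el i j h a') * el l j hlj b' := by
            rw [el_comm_col i j l h hlj]
        _ = _ := by simp only [mul_assoc])
    ![el i l hil t, el i l hil (t ^ 2), el l i hil.symm t, el l i hil.symm (t ^ 2)]
    (by
      intro q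
      fin_cases q
      · exact hsq i l hil t
      · exact hsq i l hil (t ^ 2)
      · exact hsq l i hil.symm t
      · exact hsq l i hil.symm (t ^ 2))
    (fun a b => A t a b) (fun a b => A (t ^ 2) a b) (fun a b => B t a b)
    (fun a b => B (t ^ 2) a b) f a 0
  simp only [el_zero, mul_one, one_mul, Fin.sum_univ_four] at key
  have e0 := dsp_le_eng t f i l hil t (Or.inr (Or.inl rfl))
  have e1 := dsp_le_eng t f i l hil (t ^ 2) (Or.inr (Or.inr rfl))
  have e2 := dsp_le_eng t f l i hil.symm t (Or.inr (Or.inl rfl))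
  have e3 := dsp_le_eng t f l i hil.symm (t ^ 2) (Or.inr (Or.inr rfl))
  have e4 := dsp_le_eng t f i j h 1 (Or.inl rfl)
  have e5 := dsp_le_eng t f l j hlj 1 (Or.inl rfl)
  change dsp f (el i j h a) ≤ 400 * ((dsp f (el i l hil t) + dsp f (el i l hil (t ^ 2)) +
    dsp f (el l i hil.symm t) + dsp f (el l i hil.symm (t ^ 2))) + dsp f (el i j h 1) +
    dsp f (el l j hlj 1)) at key
  linarith

lemma dsp_prEl (t : F) (ht : ∀ x : F, x ≠ 0 → ∃ i : ℕ, x = t ^ i)
    (f : Matrix.SpecialLinearGroup (Fin 3) F → ℝ) (n : ℕ)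
    (g : Matrix.SpecialLinearGroup (Fin 3) F) (hg : PrEl n g) :
    dsp f g ≤ (2 ^ (n + 1) - 2) * (2400 * eng t f) := by
  have he : 0 ≤ 2400 * eng t f := by
    have : 0 ≤ eng t f := Finset.sum_nonneg fun s _ => dsp_nonneg f s
    linarith
  induction hg with
  | one => simp [dsp]
  | mul n i j h a g _ ih =>
    refine (dsp_mul f _ _).trans ?_
    have h1 := dsp_el t ht f i j h a
    calc 2 * dsp f (el i j h a) + 2 * dsp f g
        ≤ 2 * (2400 * eng t f) + 2 * ((2 ^ (n + 1) - 2) * (2400 * eng t f)) := by linarith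
      _ = _ := by ring

lemma eng_gap (t : F) (ht : ∀ x : F, x ≠ 0 → ∃ i : ℕ, x = t ^ i)
    (f : Matrix.SpecialLinearGroup (Fin 3) F → ℝ) (hf : ∑ x, f x = 0) :
    (1 / 2455200) * ∑ x, f x ^ 2 ≤ eng t f := by
  have h1 : ∀ g, dsp f g ≤ 2046 * (2400 * eng t f) := by
    intro g
    have := dsp_prEl t ht f 10 g (elim_all g)
    norm_num at this ⊢
    linarith
  have h2 : ∑ g, dsp f g = 2 * Fintype.card (Matrix.SpecialLinearGroup (Fin 3) F) *
      ∑ x, f x ^ 2 := by
    unfold dsp
    rw [Finset.sum_comm]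
    have h3 : ∀ x, ∑ g, (f (g * x) - f x) ^ 2 = ∑ g, f g ^ 2 +
        Fintype.card (Matrix.SpecialLinearGroup (Fin 3) F) * f x ^ 2 := by
      intro x
      have h4 : ∑ g, f (g * x) ^ 2 = ∑ g, f g ^ 2 :=
        Equiv.sum_comp (Equiv.mulRight x) (fun g => f g ^ 2)
      have h5 : ∑ g, f (g * x) = 0 := by
        rw [← hf]
        exact Equiv.sum_comp (Equiv.mulRight x) f
      calc ∑ g, (f (g * x) - f x) ^ 2
          = ∑ g, (f (g * x) ^ 2 - 2 * f x * f (g * x) + f x ^ 2) :=
            Finset.sum_congr rfl fun g _ => by ring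
        _ = ∑ g, f (g * x) ^ 2 - 2 * f x * ∑ g, f (g * x) +
            Fintype.card (Matrix.SpecialLinearGroup (Fin 3) F) * f x ^ 2 := by
            rw [Finset.sum_add_distrib, Finset.sum_sub_distrib, ← Finset.mul_sum,
              Finset.sum_const, Finset.card_univ, nsmul_eq_mul]
        _ = _ := by rw [h4, h5]; ring
    rw [Finset.sum_congr rfl (fun x _ => h3 x), Finset.sum_add_distrib, Finset.sum_const,
      Finset.card_univ, nsmul_eq_mul, ← Finset.mul_sum]
    ring
  have h3 : ∑ g, dsp f g ≤ Fintype.card (Matrix.SpecialLinearGroup (Fin 3) F) *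
      (2046 * (2400 * eng t f)) := by
    calc ∑ g, dsp f g ≤ ∑ _g : Matrix.SpecialLinearGroup (Fin 3) F, 2046 * (2400 * eng t f) :=
          Finset.sum_le_sum fun g _ => h1 g
      _ = _ := by rw [Finset.sum_const, Finset.card_univ, nsmul_eq_mul]
  rw [h2] at h3
  have hc : (0 : ℝ) < Fintype.card (Matrix.SpecialLinearGroup (Fin 3) F) := by
    exact_mod_cast Fintype.card_pos
  have h4 : 2 * ∑ x, f x ^ 2 ≤ 2046 * (2400 * eng t f) := by
    have : (Fintype.card (Matrix.SpecialLinearGroup (Fin 3) F) : ℝ) * (2 * ∑ x, f x ^ 2) ≤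
        Fintype.card (Matrix.SpecialLinearGroup (Fin 3) F) * (2046 * (2400 * eng t f)) := by
      linarith
    exact le_of_mul_le_mul_left this hc
  linarith

/-- The expander structure. -/
def slExpd (t : F) (ht : ∀ x : F, x ≠ 0 → ∃ i : ℕ, x = t ^ i) (ht0 : t ≠ 0) (ht1 : t ≠ 1) :
    Expd 18 (1 / 2455200) (Matrix.SpecialLinearGroup (Fin 3) F) where
  S := SS t
  card_S := card_SS t ht0 ht1
  invol := by
    intro s hs
    obtain ⟨i, j, h, a, _, rfl⟩ := of_mem_SS t s hs
    rw [el_mul_el, CharTwo.add_self_eq_zero, el_zero]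
  one_not := by
    intro hs
    obtain ⟨i, j, h, a, ha, heq⟩ := of_mem_SS t 1 hs
    have ha0 : a ≠ 0 := by
      rcases ha with rfl | rfl | rfl
      · exact one_ne_zero
      · exact ht0
      · exact pow_ne_zero 2 ht0
    exact el_ne_one i j h ha0 heq.symm
  gap := fun f hf => eng_gap t ht f hf

end gap

/-- Existence of the expander family. -/
theorem exists_expanders : ∃ (k : ℕ) (γ : ℝ), 0 < k ∧ 0 < γ ∧ γ ≤ 1 ∧ ∀ N : ℕ, 3 ≤ N →
    ∃ (Γ : Type) (_ : Group Γ) (_ : Fintype Γ),
      Nonempty (Expd k γ Γ) ∧ 2 ^ N ≤ Fintype.card Γ ∧ Fintype.card Γ ≤ 2 ^ (9 * N) := by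
  classical
  refine ⟨18, 1 / 2455200, by norm_num, by norm_num, by norm_num, fun N hN => ?_⟩
  have : Fact (Nat.Prime 2) := ⟨Nat.prime_two⟩
  have hfin : Finite (GaloisField 2 N) := inferInstance
  let instF : Fintype (GaloisField 2 N) := Fintype.ofFinite _
  have hcard : Fintype.card (GaloisField 2 N) = 2 ^ N := by
    rw [← Nat.card_eq_fintype_card]
    exact GaloisField.card 2 N (by omega)
  obtain ⟨g, hg⟩ := IsCyclic.exists_generator (α := (GaloisField 2 N)ˣ)
  have ht : ∀ x : GaloisField 2 N, x ≠ 0 → ∃ i : ℕ, x = (g : GaloisField 2 N) ^ i := by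
    intro x hx
    obtain ⟨i, hi⟩ := mem_powers_iff_mem_zpowers.2 (hg (Units.mk0 x hx))
    refine ⟨i, ?_⟩
    have := congrArg (fun u : (GaloisField 2 N)ˣ => (u : GaloisField 2 N)) hi
    simpa using this.symm
  have ht0 : (g : GaloisField 2 N) ≠ 0 := g.ne_zero
  have ht1 : (g : GaloisField 2 N) ≠ 1 := by
    intro h1
    have h2 : ∀ x : GaloisField 2 N, x = 0 ∨ x = 1 := by
      intro x
      by_cases hx : x = 0
      · exact Or.inl hx
      · obtain ⟨i, hi⟩ := ht x hx
        rw [h1, one_pow] at hi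
        exact Or.inr hi
    have h3 : Fintype.card (GaloisField 2 N) ≤ 2 := by
      have : (Finset.univ : Finset (GaloisField 2 N)) ⊆ {0, 1} := by
        intro x _
        rw [Finset.mem_insert, Finset.mem_singleton]
        exact h2 x
      calc Fintype.card (GaloisField 2 N) = (Finset.univ : Finset (GaloisField 2 N)).card := rfl
        _ ≤ ({0, 1} : Finset (GaloisField 2 N)).card := Finset.card_le_card this
        _ ≤ 2 := Finset.card_le_two
    rw [hcard] at h3
    have : 2 ^ 3 ≤ 2 ^ N := Nat.pow_le_pow_right (by norm_num) hN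
    omega
  let instSL : Fintype (Matrix.SpecialLinearGroup (Fin 3) (GaloisField 2 N)) :=
    Fintype.ofInjective (fun g => (g : Matrix (Fin 3) (Fin 3) (GaloisField 2 N)))
      Subtype.val_injective
  refine ⟨Matrix.SpecialLinearGroup (Fin 3) (GaloisField 2 N), inferInstance, instSL,
    ⟨slExpd (g : GaloisField 2 N) ht ht0 ht1⟩, ?_, ?_⟩
  · rw [← hcard]
    refine Fintype.card_le_of_injective (fun a => el 0 1 (by decide) a) ?_
    intro a b hab
    by_cases ha : a = 0
    · by_cases hb : b = 0
      · rw [ha, hb]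
      · exact (el_inj hb hab.symm).2.2.symm
    · exact (el_inj ha hab).2.2
  · calc Fintype.card (Matrix.SpecialLinearGroup (Fin 3) (GaloisField 2 N))
        ≤ Fintype.card (Fin 3 → Fin 3 → GaloisField 2 N) :=
          Fintype.card_le_of_injective
            (fun g i j => (g : Matrix (Fin 3) (Fin 3) (GaloisField 2 N)) i j) (by
              intro a b hab
              exact Subtype.ext hab)
      _ = 2 ^ (9 * N) := by
          rw [Fintype.card_fun, Fintype.card_fun, hcard, Fintype.card_fin, ← pow_mul, ← pow_mul]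
          congr 1
          ring

end Pool.Agent.MP50f558
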