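import Mathlib
import Pool.Agent.Lib.MP_50f558_pr.Clock

set_option autoImplicit false
set_option linter.unusedSectionVars false

/-!
Balls in an expander group and a two-to-one matching with bounded displacement.
-/

namespace Pool.Agent.MP50f558

variable {Y : Type} [Group Y] [Fintype Y] [DecidableEq Y] {k : ℕ} {γ : ℝ}

/-- Ball of radius `n` around `u` for left multiplication by generators. -/
def nb (E : Expd k γ Y) : ℕ → Y → Finset Y
  | 0, u => {u}
  | n + 1, u => nb E n u ∪ (E.S ×ˢ nb E n u).image (fun p => p.1 * p.2)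

lemma mem_nb_succ (E : Expd k γ Y) (n : ℕ) (u v : Y) :
    v ∈ nb E (n + 1) u ↔ v ∈ nb E n u ∨ ∃ s ∈ E.S, ∃ z ∈ nb E n u, s * z = v := by
  simp only [nb, Finset.mem_union, Finset.mem_image, Finset.mem_product, Prod.exists]
  constructor
  · rintro (h | ⟨s, z, ⟨hs, hz⟩, rfl⟩)
    · exact Or.inl h
    · exact Or.inr ⟨s, hs, z, hz, rfl⟩
  · rintro (h | ⟨s, hs, z, hz, rfl⟩)
    · exact Or.inl h
    · exact Or.inr ⟨s, z, ⟨hs, hz⟩, rfl⟩

lemma nb_self (E : Expd k γ Y) (n : ℕ) (u : Y) : u ∈ nb E n u := by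
  induction n with
  | zero => simp [nb]
  | succ n ih => rw [mem_nb_succ]; exact Or.inl ih

lemma nb_mono (E : Expd k γ Y) {n m : ℕ} (h : n ≤ m) (u : Y) : nb E n u ⊆ nb E m u := by
  induction m, h using Nat.le_induction with
  | base => exact subset_rfl
  | succ m _ ih => exact fun v hv => (mem_nb_succ E m u v).2 (Or.inl (ih hv))

lemma nb_trans (E : Expd k γ Y) {n m : ℕ} {u v z : Y} (h1 : v ∈ nb E n u) (h2 : z ∈ nb E m v) :
    z ∈ nb E (n + m) u := by
  induction m generalizing z with
  | zero =>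
    simp only [nb, Finset.mem_singleton] at h2
    rw [h2]; exact h1
  | succ m ih =>
    rw [mem_nb_succ] at h2
    rw [← add_assoc, mem_nb_succ]
    rcases h2 with h2 | ⟨s, hs, z', hz', rfl⟩
    · exact Or.inl (ih h2)
    · exact Or.inr ⟨s, hs, z', ih hz', rfl⟩

lemma nb_one (E : Expd k γ Y) {s : Y} (hs : s ∈ E.S) (u : Y) : s * u ∈ nb E 1 u := by
  rw [mem_nb_succ]
  exact Or.inr ⟨s, hs, u, nb_self E 0 u, rfl⟩

lemma nb_symm (E : Expd k γ Y) {n : ℕ} {u v : Y} (h : v ∈ nb E n u) : u ∈ nb E n v := by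
  induction n generalizing v with
  | zero =>
    simp only [nb, Finset.mem_singleton] at h ⊢
    exact h.symm
  | succ n ih =>
    rw [mem_nb_succ] at h
    rcases h with h | ⟨s, hs, z, hz, rfl⟩
    · exact nb_mono E (Nat.le_succ n) _ (ih h)
    · have h1 : z ∈ nb E 1 (s * z) := by
        have := nb_one E hs (s * z)
        rwa [← mul_assoc, E.invol s hs, one_mul] at this
      have := nb_trans E h1 (ih hz)
      rwa [add_comm] at this

lemma card_nb_le (E : Expd k γ Y) (n : ℕ) (u : Y) : (nb E n u).card ≤ (k + 1) ^ n := by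
  induction n with
  | zero => simp [nb]
  | succ n ih =>
    calc (nb E (n + 1) u).card ≤ (nb E n u).card +
          ((E.S ×ˢ nb E n u).image (fun p => p.1 * p.2)).card := Finset.card_union_le _ _
      _ ≤ (nb E n u).card + (E.S ×ˢ nb E n u).card :=
          Nat.add_le_add_left Finset.card_image_le _
      _ = (k + 1) * (nb E n u).card := by rw [Finset.card_product, E.card_S]; ring
      _ ≤ (k + 1) * (k + 1) ^ n := Nat.mul_le_mul_left _ ih
      _ = (k + 1) ^ (n + 1) := by ring

lemma lz_iter_sum (E : Expd k γ Y) (hk : 0 < k) (n : ℕ) (f : Y → ℝ) :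
    ∑ y, ((lz E)^[n] f) y = ∑ y, f y := by
  induction n with
  | zero => rfl
  | succ n ih => rw [Function.iterate_succ_apply', sum_lz E hk, ih]

lemma lz_iter_contract (E : Expd k γ Y) (hk : 0 < k) (hγ : 0 < γ) (hγ1 : γ ≤ 1) (n : ℕ)
    (f : Y → ℝ) (hf : ∑ y, f y = 0) :
    ∑ y, ((lz E)^[n] f) y ^ 2 ≤ (1 - γ / (4 * k)) ^ n * ∑ y, f y ^ 2 := by
  have hk1 : (1 : ℝ) ≤ k := by exact_mod_cast hk
  have h0 : 0 ≤ 1 - γ / (4 * k) := by
    rw [sub_nonneg, div_le_one (by positivity)]
    linarith
  induction n with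
  | zero => simp
  | succ n ih =>
    rw [Function.iterate_succ_apply']
    have h1 := lz_contract E hk ((lz E)^[n] f) (by rw [lz_iter_sum E hk, hf])
    calc _ ≤ _ := h1
      _ ≤ (1 - γ / (4 * k)) * ((1 - γ / (4 * k)) ^ n * ∑ y, f y ^ 2) :=
          mul_le_mul_of_nonneg_left ih h0
      _ = _ := by ring

lemma lz_iter_sub (E : Expd k γ Y) (hk : 0 < k) (n : ℕ) (f : Y → ℝ) (c : ℝ) (y : Y) :
    ((lz E)^[n] (fun y => f y - c)) y = ((lz E)^[n] f) y - c := by
  have hk' : (k : ℝ) ≠ 0 := by positivity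
  induction n generalizing y with
  | zero => rfl
  | succ n ih =>
    rw [Function.iterate_succ_apply', Function.iterate_succ_apply']
    simp only [lz, sm, ih, Finset.sum_sub_distrib, Finset.sum_const, E.card_S, nsmul_eq_mul]
    field_simp
    ring

lemma lz_iter_supp (E : Expd k γ Y) (n : ℕ) (A : Finset Y) (y : Y)
    (hy : y ∉ A.biUnion (nb E n)) :
    ((lz E)^[n] (fun y => if y ∈ A then 1 else 0)) y = 0 := by
  induction n generalizing y with
  | zero =>
    have : y ∉ A := fun h => hy (Finset.mem_biUnion.2 ⟨y, h, nb_self E 0 y⟩)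
    simp [this]
  | succ n ih =>
    rw [Function.iterate_succ_apply']
    have h1 : ((lz E)^[n] (fun y => if y ∈ A then 1 else 0)) y = 0 := by
      refine ih y fun h => hy ?_
      rw [Finset.mem_biUnion] at h ⊢
      obtain ⟨u, hu, h⟩ := h
      exact ⟨u, hu, nb_mono E (Nat.le_succ n) _ h⟩
    have h2 : ∀ s ∈ E.S, ((lz E)^[n] (fun y => if y ∈ A then 1 else 0)) (s * y) = 0 := by
      intro s hs
      refine ih (s * y) fun h => hy ?_
      rw [Finset.mem_biUnion] at h ⊢
      obtain ⟨u, hu, h⟩ := h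
      refine ⟨u, hu, (mem_nb_succ E n u y).2 (Or.inr ⟨s, hs, s * y, h, ?_⟩)⟩
      rw [← mul_assoc, E.invol s hs, one_mul]
    rw [lz, sm, h1, Finset.sum_eq_zero h2]
    simp

/-- Vertex expansion. -/
lemma expansion (E : Expd k γ Y) (hk : 0 < k) (hγ : 0 < γ) (hγ1 : γ ≤ 1) (n : ℕ)
    (hn : (1 - γ / (4 * k)) ^ n ≤ 1 / 4) (A : Finset Y) (hA : 4 * A.card ≤ Fintype.card Y) :
    2 * A.card ≤ (A.biUnion (nb E n)).card := by
  set N := A.biUnion (nb E n) with hN
  set f : Y → ℝ := fun y => if y ∈ A then 1 else 0 with hf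
  have hc : (0 : ℝ) < Fintype.card Y := by exact_mod_cast Fintype.card_pos
  have hfs : ∑ y, f y = A.card := by simp [hf]
  have hfs2 : ∑ y, f y ^ 2 = A.card := by simp [hf]
  set F := (lz E)^[n] f with hF
  have h1 : ∑ y, F y = A.card := by rw [hF, lz_iter_sum E hk, hfs]
  set c : ℝ := A.card / Fintype.card Y with hcdef
  have h2 : ∑ y, (F y - c) ^ 2 ≤ (1 / 4) * A.card := by
    have h3 := lz_iter_contract E hk hγ hγ1 n (fun y => f y - c) (by
      rw [Finset.sum_sub_distrib, hfs, Finset.sum_const, Finset.card_univ, nsmul_eq_mul, hcdef]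
      field_simp
      ring)
    simp only [lz_iter_sub E hk] at h3
    have h4 : ∑ y, (f y - c) ^ 2 ≤ A.card := by
      have : ∑ y, (f y - c) ^ 2 = ∑ y, f y ^ 2 - 2 * c * ∑ y, f y + Fintype.card Y * c ^ 2 := by
        rw [Finset.mul_sum, ← Finset.sum_sub_distrib]
        have h5 : (Fintype.card Y : ℝ) * c ^ 2 = ∑ _y : Y, c ^ 2 := by
          rw [Finset.sum_const, Finset.card_univ, nsmul_eq_mul]
        rw [h5, ← Finset.sum_add_distrib]
        exact Finset.sum_congr rfl fun y _ => by ring
      rw [this, hfs, hfs2, hcdef]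
      have : (Fintype.card Y : ℝ) * ((A.card : ℝ) / Fintype.card Y) ^ 2 =
          (A.card : ℝ) / Fintype.card Y * A.card := by field_simp
      rw [this]
      have h6 : 0 ≤ (A.card : ℝ) / Fintype.card Y * A.card := by positivity
      linarith
    have h5 : 0 ≤ ∑ y, (f y - c) ^ 2 := Finset.sum_nonneg fun y _ => sq_nonneg _
    calc ∑ y, (F y - c) ^ 2 ≤ (1 - γ / (4 * k)) ^ n * ∑ y, (f y - c) ^ 2 := h3
      _ ≤ (1 / 4) * ∑ y, (f y - c) ^ 2 := mul_le_mul_of_nonneg_right hn h5
      _ ≤ (1 / 4) * A.card := by linarith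
  have h3 : ∑ y, F y ^ 2 ≤ (1 / 2) * A.card := by
    have h4 : ∑ y, (F y - c) ^ 2 = ∑ y, F y ^ 2 - 2 * c * ∑ y, F y + Fintype.card Y * c ^ 2 := by
      rw [Finset.mul_sum, ← Finset.sum_sub_distrib]
      have h5 : (Fintype.card Y : ℝ) * c ^ 2 = ∑ _y : Y, c ^ 2 := by
        rw [Finset.sum_const, Finset.card_univ, nsmul_eq_mul]
      rw [h5, ← Finset.sum_add_distrib]
      exact Finset.sum_congr rfl fun y _ => by ring
    have h5 : (Fintype.card Y : ℝ) * c ^ 2 = c * A.card := by rw [hcdef]; field_simp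
    rw [h1, h5] at h4
    have h6 : c ≤ 1 / 4 := by
      rw [hcdef, div_le_iff₀ hc]
      have : (4 * A.card : ℝ) ≤ Fintype.card Y := by exact_mod_cast hA
      linarith
    have h7 : c * A.card ≤ 1 / 4 * A.card := by gcongr
    nlinarith
  have h4 : ∑ y ∈ N, F y = A.card := by
    rw [← h1]
    refine Finset.sum_subset (Finset.subset_univ _) fun y _ hy => ?_
    exact lz_iter_supp E n A y hy
  have h5 : (A.card : ℝ) ^ 2 ≤ N.card * ((1 / 2) * A.card) := by
    calc (A.card : ℝ) ^ 2 = (∑ y ∈ N, F y) ^ 2 := by rw [h4]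
      _ ≤ N.card * ∑ y ∈ N, F y ^ 2 := sq_sum_le_card_mul_sum_sq
      _ ≤ N.card * ∑ y, F y ^ 2 := by
          refine mul_le_mul_of_nonneg_left ?_ (Nat.cast_nonneg _)
          exact Finset.sum_le_sum_of_subset_of_nonneg (Finset.subset_univ _)
            fun y _ _ => sq_nonneg _
      _ ≤ _ := by gcongr
  rcases Nat.eq_zero_or_pos A.card with h0 | h0
  · rw [h0]; simp
  · have h6 : (0 : ℝ) < A.card := by exact_mod_cast h0
    have h7 : (2 * A.card : ℝ) ≤ N.card := by
      have : (A.card : ℝ) * A.card ≤ (N.card * (1 / 2)) * A.card := by nlinarith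
      have := le_of_mul_le_mul_right this h6
      linarith
    exact_mod_cast h7

/-- Chains starting from a `true` child. -/
inductive Linked (D : Finset Y) (i0 : Y → Bool → Y) : Y → Prop
  | base (u : Y) (hu : u ∈ D) : Linked D i0 (i0 u true)
  | step (u : Y) (hu : u ∈ D) (h : Linked D i0 u) : Linked D i0 (i0 u false)

open Classical in
/-- Two-to-one matching with bounded displacement whose range covers `D`. -/
theorem exists_link (E : Expd k γ Y) (hk : 0 < k) (hγ : 0 < γ) (hγ1 : γ ≤ 1) (n : ℕ)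
    (hn : (1 - γ / (4 * k)) ^ n ≤ 1 / 4) (D : Finset Y) (hD : 4 * D.card ≤ Fintype.card Y) :
    ∃ O : Y → Bool → Y, (∀ u ∈ D, ∀ i, O u i ∈ nb E n u) ∧
      (∀ u ∈ D, ∀ u' ∈ D, ∀ i i', O u i = O u' i' → u = u' ∧ i = i') ∧
      ∀ v ∈ D, ∃ u ∈ D, ∃ i, O u i = v := by
  -- Hall
  have hall : ∃ f : (D × Bool) → Y, Function.Injective f ∧ ∀ p, f p ∈ nb E n p.1.1 := by
    rw [← Finset.all_card_le_biUnion_card_iff_exists_injective (fun p : D × Bool => nb E n p.1.1)]
    intro s
    set A : Finset Y := s.image (fun p => p.1.1) with hA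
    have hAD : A ⊆ D := by
      intro u hu
      rw [hA, Finset.mem_image] at hu
      obtain ⟨p, _, rfl⟩ := hu
      exact p.1.2
    have h1 : s.card ≤ 2 * A.card := by
      have : s ⊆ (A ×ˢ (Finset.univ : Finset Bool)).preimage (fun p : D × Bool => (p.1.1, p.2))
          (by
            intro a _ b _ h
            simp only [Prod.mk.injEq] at h
            exact Prod.ext (Subtype.ext h.1) h.2) := by
        intro p hp
        simp only [Finset.mem_preimage, Finset.mem_product, Finset.mem_univ, and_true]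
        rw [hA]
        exact Finset.mem_image.2 ⟨p, hp, rfl⟩
      calc s.card ≤ _ := Finset.card_le_card this
        _ ≤ (A ×ˢ (Finset.univ : Finset Bool)).card := by
            refine Finset.card_le_card_of_injOn (fun p : D × Bool => (p.1.1, p.2)) ?_ ?_
            · intro p hp
              simpa using hp
            · intro a _ b _ h
              simp only [Prod.mk.injEq] at h
              exact Prod.ext (Subtype.ext h.1) h.2
        _ = 2 * A.card := by rw [Finset.card_product, Finset.card_univ, Fintype.card_bool]; ring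
    have h2 : 2 * A.card ≤ (A.biUnion (nb E n)).card :=
      expansion E hk hγ hγ1 n hn A ((Nat.mul_le_mul_left 4 (Finset.card_le_card hAD)).trans hD)
    have h3 : A.biUnion (nb E n) = s.biUnion (fun p => nb E n p.1.1) := by
      ext y
      simp only [hA, Finset.mem_biUnion, Finset.mem_image]
      constructor
      · rintro ⟨_, ⟨p, hp, rfl⟩, hy⟩
        exact ⟨p, hp, hy⟩
      · rintro ⟨p, hp, hy⟩
        exact ⟨_, ⟨p, hp, rfl⟩, hy⟩
    rw [← h3]
    exact h1.trans h2
  obtain ⟨f, hfinj, hf⟩ := hall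
  let i0 : Y → Bool → Y := fun u i => if h : u ∈ D then f (⟨u, h⟩, i) else u
  have hi0 : ∀ u ∈ D, ∀ i, i0 u i ∈ nb E n u := by
    intro u hu i
    simp only [i0, dif_pos hu]
    exact hf (⟨u, hu⟩, i)
  have hinj : ∀ u ∈ D, ∀ u' ∈ D, ∀ i i', i0 u i = i0 u' i' → u = u' ∧ i = i' := by
    intro u hu u' hu' i i' h
    simp only [i0, dif_pos hu, dif_pos hu'] at h
    have := hfinj h
    simp only [Prod.mk.injEq, Subtype.mk.injEq] at this
    exact this
  let O : Y → Bool → Y := fun u i => if i = true then i0 u true else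
    if Linked D i0 u then i0 u false else u
  have hO1 : ∀ u, O u true = i0 u true := fun u => if_pos rfl
  have hO2 : ∀ u, Linked D i0 u → O u false = i0 u false := by
    intro u hu
    simp only [O, Bool.false_eq_true, if_false, if_pos hu]
  have hO3 : ∀ u, ¬ Linked D i0 u → O u false = u := by
    intro u hu
    simp only [O, Bool.false_eq_true, if_false, if_neg hu]
  refine ⟨O, ?_, ?_, ?_⟩
  · intro u hu i
    cases i with
    | true => rw [hO1]; exact hi0 u hu _
    | false =>
      by_cases hl : Linked D i0 u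
      · rw [hO2 u hl]; exact hi0 u hu _
      · rw [hO3 u hl]; exact nb_self E n u
  · intro u hu u' hu' i i' h
    cases i with
    | true =>
      cases i' with
      | true => rw [hO1, hO1] at h; exact hinj u hu u' hu' _ _ h
      | false =>
        by_cases hl : Linked D i0 u'
        · rw [hO1, hO2 u' hl] at h
          exact absurd (hinj u hu u' hu' _ _ h).2 (by decide)
        · rw [hO1, hO3 u' hl] at h
          exact absurd (h ▸ Linked.base u hu) hl
    | false =>
      cases i' with
      | true =>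
        by_cases hl : Linked D i0 u
        · rw [hO1, hO2 u hl] at h
          exact absurd (hinj u hu u' hu' _ _ h).2 (by decide)
        · rw [hO1, hO3 u hl] at h
          exact absurd (h.symm ▸ Linked.base u' hu') hl
      | false =>
        by_cases hl : Linked D i0 u
        · by_cases hl' : Linked D i0 u'
          · rw [hO2 u hl, hO2 u' hl'] at h
            exact hinj u hu u' hu' _ _ h
          · rw [hO2 u hl, hO3 u' hl'] at h
            exact absurd (h ▸ Linked.step u hu hl) hl'
        · by_cases hl' : Linked D i0 u'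
          · rw [hO3 u hl, hO2 u' hl'] at h
            exact absurd (h.symm ▸ Linked.step u' hu' hl') hl
          · rw [hO3 u hl, hO3 u' hl'] at h
            exact ⟨h, rfl⟩
  · intro v hv
    by_cases hl : Linked D i0 v
    · cases hl with
      | base u hu => exact ⟨u, hu, true, hO1 u⟩
      | step u hu h => exact ⟨u, hu, false, hO2 u h⟩
    · exact ⟨v, hv, false, hO3 v hl⟩

end Pool.Agent.MP50f558
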