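import Mathlib
import Pool.Agent.Lib.MP_50f558_pr.Defs

set_option autoImplicit false
set_option linter.unusedSectionVars false

/-!
General facts on the lazy simple random walk of a finite graph.
-/

namespace Pool.Agent.MP50f558

variable {V : Type} [Fintype V]

open scoped Classical in
/-- Degree (with classical instances). -/
noncomputable def dg (G : SimpleGraph V) (x : V) : ℕ := G.degree x

open scoped Classical in
lemma lazyP_eq (G : SimpleGraph V) (x y : V) : lazyP G x y =
    (if x = y then 1 / 2 else 0) + (if G.Adj x y then 1 / (2 * (dg G x : ℝ)) else 0) := rfl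

lemma dg_eq_card (G : SimpleGraph V) (x : V) (s : Finset V) (hs : ∀ y, y ∈ s ↔ G.Adj x y) :
    dg G x = s.card := by
  classical
  unfold dg
  rw [← SimpleGraph.card_neighborFinset_eq_degree]
  congr 1
  ext y
  simp [hs]

/-- One step of the lazy walk. -/
lemma lazyP_sum (G : SimpleGraph V) (x : V) (s : Finset V) (hs : ∀ y, y ∈ s ↔ G.Adj x y)
    (F : V → ℝ) :
    ∑ y, lazyP G x y * F y = F x / 2 + (∑ y ∈ s, F y) / (2 * s.card) := by
  classical
  have h1 : ∀ y, lazyP G x y * F y = (if x = y then F y / 2 else 0) +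
      (if y ∈ s then F y / (2 * s.card) else 0) := by
    intro y
    rw [lazyP_eq, dg_eq_card G x s hs, add_mul]
    congr 1
    · split_ifs <;> ring
    · by_cases h : G.Adj x y
      · rw [if_pos h, if_pos ((hs y).2 h)]; ring
      · rw [if_neg h, if_neg (fun h' => h ((hs y).1 h'))]; ring
  simp only [h1, Finset.sum_add_distrib]
  rw [Finset.sum_ite_eq, if_pos (Finset.mem_univ x), Finset.sum_ite_mem, Finset.univ_inter,
    Finset.sum_div]

lemma lazyP_nonneg (G : SimpleGraph V) (x y : V) : 0 ≤ lazyP G x y := by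
  rw [lazyP_eq]
  split_ifs <;> positivity

lemma lazyP_row (G : SimpleGraph V) (x : V) (hx : 0 < dg G x) : ∑ y, lazyP G x y = 1 := by
  classical
  have h := lazyP_sum G x (Finset.univ.filter (fun y => G.Adj x y)) (fun y => by simp)
    (fun _ => 1)
  have h2 := dg_eq_card G x (Finset.univ.filter (fun y => G.Adj x y)) (fun y => by simp)
  simp only [mul_one, Finset.sum_const, nsmul_eq_mul] at h
  rw [h, ← h2]
  have : (dg G x : ℝ) ≠ 0 := by positivity
  field_simp
  norm_num

section
variable [DecidableEq V]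

lemma lazyP_pow_nonneg (G : SimpleGraph V) (n : ℕ) (x y : V) : 0 ≤ (lazyP G ^ n) x y := by
  induction n generalizing x y with
  | zero =>
    rw [pow_zero, Matrix.one_apply]; split_ifs <;> norm_num
  | succ n ih =>
    rw [pow_succ, Matrix.mul_apply]
    exact Finset.sum_nonneg fun z _ => mul_nonneg (ih x z) (lazyP_nonneg G z y)

lemma lazyP_pow_row (G : SimpleGraph V) (hG : ∀ x, 0 < dg G x) (n : ℕ) (x : V) :
    ∑ y, (lazyP G ^ n) x y = 1 := by
  induction n generalizing x with
  | zero => simp [Matrix.one_apply]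
  | succ n ih =>
    simp only [pow_succ', Matrix.mul_apply]
    rw [Finset.sum_comm]
    simp only [← Finset.mul_sum, ih, mul_one, lazyP_row G x (hG x)]

lemma lazyP_rev (G : SimpleGraph V) (x y : V) :
    (dg G x : ℝ) * lazyP G x y = dg G y * lazyP G y x := by
  classical
  rw [lazyP_eq, lazyP_eq, mul_add, mul_add]
  by_cases hxy : x = y
  · subst hxy; rfl
  · rw [if_neg hxy, if_neg (Ne.symm hxy)]
    by_cases h : G.Adj x y
    · have hx : 0 < dg G x := by
        rw [dg_eq_card G x (Finset.univ.filter (fun y => G.Adj x y)) (fun y => by simp)]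
        exact Finset.card_pos.2 ⟨y, by simp [h]⟩
      have hy : 0 < dg G y := by
        rw [dg_eq_card G y (Finset.univ.filter (fun z => G.Adj y z)) (fun y => by simp)]
        exact Finset.card_pos.2 ⟨x, by simp [h.symm]⟩
      rw [if_pos h, if_pos h.symm]
      have : (dg G x : ℝ) ≠ 0 := by positivity
      have : (dg G y : ℝ) ≠ 0 := by positivity
      rw [mul_zero, mul_zero]
      field_simp
    · rw [if_neg h, if_neg (fun h' => h h'.symm)]
      simp

lemma lazyP_pow_rev (G : SimpleGraph V) (n : ℕ) (x y : V) :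
    (dg G x : ℝ) * (lazyP G ^ n) x y = dg G y * (lazyP G ^ n) y x := by
  induction n generalizing x y with
  | zero =>
    rw [pow_zero, Matrix.one_apply, Matrix.one_apply]
    by_cases hxy : x = y
    · subst hxy; rfl
    · rw [if_neg hxy, if_neg (Ne.symm hxy)]; simp
  | succ n ih =>
    have e1 : (lazyP G ^ (n + 1)) x y = ∑ z, (lazyP G ^ n) x z * lazyP G z y := by
      rw [pow_succ, Matrix.mul_apply]
    have e2 : (lazyP G ^ (n + 1)) y x = ∑ z, lazyP G y z * (lazyP G ^ n) z x := by
      rw [pow_succ', Matrix.mul_apply]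
    rw [e1, e2, Finset.mul_sum, Finset.mul_sum]
    refine Finset.sum_congr rfl fun z _ => ?_
    calc (dg G x : ℝ) * ((lazyP G ^ n) x z * lazyP G z y)
        = (dg G x * (lazyP G ^ n) x z) * lazyP G z y := by ring
      _ = (dg G z * lazyP G z y) * (lazyP G ^ n) z x := by rw [ih x z]; ring
      _ = (dg G y : ℝ) * (lazyP G y z * (lazyP G ^ n) z x) := by rw [lazyP_rev G z y]; ring

/-- The law is uniformly attracting: positivity along walks. -/
lemma lazyP_pow_pos (G : SimpleGraph V) {x y : V} (w : G.Walk x y) (n : ℕ) (hn : w.length ≤ n) :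
    0 < (lazyP G ^ n) x y := by
  classical
  induction n generalizing x with
  | zero =>
    have := SimpleGraph.Walk.eq_of_length_eq_zero (Nat.le_zero.1 hn)
    subst this
    simp
  | succ n ih =>
    rw [pow_succ', Matrix.mul_apply]
    have key : ∀ z, 0 < lazyP G x z → 0 < (lazyP G ^ n) z y →
        0 < ∑ z, lazyP G x z * (lazyP G ^ n) z y := by
      intro z h1 h2
      refine lt_of_lt_of_le (mul_pos h1 h2) ?_
      exact Finset.single_le_sum (f := fun z => lazyP G x z * (lazyP G ^ n) z y)
        (fun z _ => mul_nonneg (lazyP_nonneg G x z) (lazyP_pow_nonneg G n z y)) (Finset.mem_univ z)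
    cases w with
    | nil =>
      refine key _ ?_ (ih SimpleGraph.Walk.nil (by simp))
      rw [lazyP_eq, if_pos rfl, if_neg (G.loopless.irrefl _)]
      norm_num
    | @cons _ z _ h w' =>
      refine key z ?_ (ih w' (by simpa using hn))
      have hx : 0 < dg G x := by
        rw [dg_eq_card G x (Finset.univ.filter (fun y => G.Adj x y)) (fun y => by simp)]
        exact Finset.card_pos.2 ⟨z, by simp [h]⟩
      rw [lazyP_eq, if_pos h]
      have : (0 : ℝ) < 1 / (2 * (dg G x : ℝ)) := by positivity
      split_ifs <;> linarith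

end

open scoped Classical in
lemma statPi_eq (G : SimpleGraph V) (x : V) :
    statPi G x = (dg G x : ℝ) / ∑ z, (dg G z : ℝ) := by
  unfold statPi dg
  congr 1
  have := G.sum_degrees_eq_twice_card_edges
  have h2 : ((∑ v, G.degree v : ℕ) : ℝ) = ((2 * G.edgeFinset.card : ℕ) : ℝ) := by rw [this]
  push_cast at h2
  exact h2.symm

lemma statPi_pos (G : SimpleGraph V) (hG : ∀ x, 0 < dg G x) (x : V) : 0 < statPi G x := by
  rw [statPi_eq]
  have h : ∀ z, (0 : ℝ) < dg G z := fun z => by exact_mod_cast hG z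
  exact div_pos (h x) (Finset.sum_pos (fun z _ => h z) ⟨x, Finset.mem_univ x⟩)

lemma statPi_sum (G : SimpleGraph V) [Nonempty V] (hG : ∀ x, 0 < dg G x) :
    ∑ x, statPi G x = 1 := by
  have h : ∀ z, (0 : ℝ) < dg G z := fun z => by exact_mod_cast hG z
  have h2 : 0 < ∑ z, (dg G z : ℝ) := Finset.sum_pos (fun z _ => h z) Finset.univ_nonempty
  simp only [statPi_eq, ← Finset.sum_div]
  exact div_self h2.ne'

section
variable [DecidableEq V]

lemma statPi_stat (G : SimpleGraph V) (hG : ∀ x, 0 < dg G x) (n : ℕ) (y : V) :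
    ∑ x, statPi G x * (lazyP G ^ n) x y = statPi G y := by
  simp only [statPi_eq]
  calc ∑ x, (dg G x : ℝ) / (∑ z, (dg G z : ℝ)) * (lazyP G ^ n) x y
      = ∑ x, (dg G y : ℝ) / (∑ z, (dg G z : ℝ)) * (lazyP G ^ n) y x := by
        refine Finset.sum_congr rfl fun x _ => ?_
        rw [div_mul_eq_mul_div, div_mul_eq_mul_div, lazyP_pow_rev]
    _ = _ := by rw [← Finset.mul_sum, lazyP_pow_row G hG, mul_one]

/-- Convergence to stationarity. -/
theorem exists_mixed (G : SimpleGraph V) (hc : G.Connected) (hG : ∀ x, 0 < dg G x) :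
    ∃ t : ℕ, ∀ x y : V, |(lazyP G ^ t) x y / statPi G y - 1| ≤ 1 / 4 := by
  have : Nonempty V := hc.nonempty
  -- a time at which all entries are positive
  obtain ⟨n, hn⟩ : ∃ n : ℕ, ∀ x y : V, 0 < (lazyP G ^ n) x y := by
    classical
    let L : V × V → ℕ := fun p => (hc.preconnected p.1 p.2).some.length
    refine ⟨Finset.univ.sup L, fun x y => ?_⟩
    exact lazyP_pow_pos G (hc.preconnected x y).some _ (Finset.le_sup (f := L)
      (Finset.mem_univ (x, y)))
  obtain ⟨ε, hε0, hε⟩ : ∃ ε : ℝ, 0 < ε ∧ ∀ x y : V, ε ≤ (lazyP G ^ n) x y := by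
    obtain ⟨p, _, hp⟩ := Finset.exists_min_image (Finset.univ : Finset (V × V))
      (fun p => (lazyP G ^ n) p.1 p.2) Finset.univ_nonempty
    exact ⟨_, hn p.1 p.2, fun x y => hp (x, y) (Finset.mem_univ _)⟩
  have hε1 : ε ≤ 1 := by
    obtain ⟨x⟩ := (inferInstance : Nonempty V)
    calc ε ≤ (lazyP G ^ n) x x := hε x x
      _ ≤ ∑ y, (lazyP G ^ n) x y :=
          Finset.single_le_sum (f := fun y => (lazyP G ^ n) x y)
            (fun y _ => lazyP_pow_nonneg G n x y) (Finset.mem_univ x)
      _ = 1 := lazyP_pow_row G hG n x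
  -- oscillation bound
  have hosc : ∀ m : ℕ, ∀ x x' y : V,
      (lazyP G ^ (n * m)) x y - (lazyP G ^ (n * m)) x' y ≤ (1 - ε) ^ m := by
    intro m
    induction m with
    | zero =>
      intro x x' y
      simp only [mul_zero, pow_zero, Matrix.one_apply]
      split_ifs <;> norm_num
    | succ m ih =>
      intro x x' y
      set f : V → ℝ := fun z => (lazyP G ^ (n * m)) z y with hf
      have hstep : ∀ z, (lazyP G ^ (n * (m + 1))) z y = ∑ u, (lazyP G ^ n) z u * f u := by
        intro z
        rw [show n * (m + 1) = n + n * m by ring, pow_add, Matrix.mul_apply]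
      obtain ⟨u0, _, hu0⟩ := Finset.exists_min_image (Finset.univ : Finset V) f
        Finset.univ_nonempty
      obtain ⟨u1, _, hu1⟩ := Finset.exists_max_image (Finset.univ : Finset V) f
        Finset.univ_nonempty
      have h1 : (lazyP G ^ (n * (m + 1))) x y ≤ f u1 - ε * (f u1 - f u0) := by
        rw [hstep]
        have h2 : ∑ u, (lazyP G ^ n) x u * (f u1 - f u) ≥ ε * (f u1 - f u0) := by
          have h3 := Finset.single_le_sum (f := fun u => (lazyP G ^ n) x u * (f u1 - f u))
            (fun u _ => mul_nonneg (lazyP_pow_nonneg G n x u)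
              (sub_nonneg.2 (hu1 u (Finset.mem_univ u)))) (Finset.mem_univ u0)
          refine le_trans ?_ h3
          exact mul_le_mul_of_nonneg_right (hε x u0)
            (sub_nonneg.2 (hu1 u0 (Finset.mem_univ u0)))
        simp only [mul_sub, Finset.sum_sub_distrib] at h2
        rw [← Finset.sum_mul, lazyP_pow_row G hG, one_mul] at h2
        linarith
      have h2 : f u0 ≤ (lazyP G ^ (n * (m + 1))) x' y := by
        rw [hstep]
        calc f u0 = ∑ u, (lazyP G ^ n) x' u * f u0 := by
              rw [← Finset.sum_mul, lazyP_pow_row G hG, one_mul]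
          _ ≤ _ := Finset.sum_le_sum fun u _ =>
              mul_le_mul_of_nonneg_left (hu0 u (Finset.mem_univ u)) (lazyP_pow_nonneg G n x' u)
      have h3 := ih u1 u0 y
      have h4 : f u1 - f u0 ≤ (1 - ε) ^ m := h3
      calc _ ≤ (1 - ε) * (f u1 - f u0) := by linarith
        _ ≤ (1 - ε) * (1 - ε) ^ m := mul_le_mul_of_nonneg_left h4 (by linarith)
        _ = (1 - ε) ^ (m + 1) := by ring
  -- minimal stationary mass
  obtain ⟨p0, hp0, hpi⟩ : ∃ p0 : ℝ, 0 < p0 ∧ ∀ y, p0 ≤ statPi G y := by
    obtain ⟨z, _, hz⟩ := Finset.exists_min_image (Finset.univ : Finset V)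
      (fun z => statPi G z) Finset.univ_nonempty
    exact ⟨_, statPi_pos G hG z, fun y => hz y (Finset.mem_univ _)⟩
  obtain ⟨m, hm⟩ := exists_pow_lt_of_lt_one (show (0 : ℝ) < p0 / 4 by positivity)
    (show 1 - ε < 1 by linarith)
  refine ⟨n * m, fun x y => ?_⟩
  have hpy := statPi_pos G hG y
  have h1 : |(lazyP G ^ (n * m)) x y - statPi G y| ≤ (1 - ε) ^ m := by
    have h3 : (lazyP G ^ (n * m)) x y - statPi G y =
        ∑ z, statPi G z * ((lazyP G ^ (n * m)) x y - (lazyP G ^ (n * m)) z y) := by
      simp only [mul_sub, Finset.sum_sub_distrib]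
      rw [statPi_stat G hG, ← Finset.sum_mul, statPi_sum G hG, one_mul]
    rw [h3]
    calc |∑ z, statPi G z * ((lazyP G ^ (n * m)) x y - (lazyP G ^ (n * m)) z y)|
        ≤ ∑ z, |statPi G z * ((lazyP G ^ (n * m)) x y - (lazyP G ^ (n * m)) z y)| :=
          Finset.abs_sum_le_sum_abs _ _
      _ ≤ ∑ z, statPi G z * (1 - ε) ^ m := by
          refine Finset.sum_le_sum fun z _ => ?_
          rw [abs_mul, abs_of_pos (statPi_pos G hG z)]
          refine mul_le_mul_of_nonneg_left ?_ (statPi_pos G hG z).le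
          rw [abs_le]
          have h4 := hosc m x z y
          have h5 := hosc m z x y
          constructor <;> linarith
      _ = (1 - ε) ^ m := by rw [← Finset.sum_mul, statPi_sum G hG, one_mul]
  have h2 : (lazyP G ^ (n * m)) x y / statPi G y - 1 =
      ((lazyP G ^ (n * m)) x y - statPi G y) / statPi G y := by
    field_simp
  rw [h2, abs_div, abs_of_pos hpy, div_le_iff₀ hpy]
  have := hpi y
  linarith

end

/-- The definition of `tInf` for any decidable equality instance. -/
lemma tInf_eq [inst : DecidableEq V] (G : SimpleGraph V) :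
    tInf G = sInf {t : ℕ | ∀ x y : V, |(lazyP G ^ t) x y / statPi G y - 1| ≤ 1 / 4} := by
  unfold tInf
  have h : inst = fun a b => Classical.propDecidable (a = b) := Subsingleton.elim _ _
  subst h
  rfl

end Pool.Agent.MP50f558
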