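import Mathlib
import Pool.Agent.Lib.MP_50f558_pr.Hall
import Pool.Agent.Lib.MP_50f558_pr.LazyWalk

set_option autoImplicit false
set_option linter.unusedSectionVars false
set_option linter.unusedVariables false

/-!
The wreath product graph.
-/

namespace Pool.Agent.MP50f558

section conn

variable {Y : Type} [Group Y] [Fintype Y] [DecidableEq Y] {k : ℕ} {γ : ℝ}

/-- The generators generate. -/
lemma exists_nb (E : Expd k γ Y) (hγ : 0 < γ) (u v : Y) : ∃ n, v ∈ nb E n u := by
  classical
  set A : Finset Y := Finset.univ.filter (fun v => ∃ n, v ∈ nb E n u) with hA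
  have hstep : ∀ s ∈ E.S, ∀ v, v ∈ A → s * v ∈ A := by
    intro s hs v hv
    rw [hA, Finset.mem_filter] at hv ⊢
    obtain ⟨_, n, hn⟩ := hv
    exact ⟨Finset.mem_univ _, n + 1, (mem_nb_succ E n u _).2 (Or.inr ⟨s, hs, v, hn, rfl⟩)⟩
  have hiff : ∀ s ∈ E.S, ∀ v, s * v ∈ A ↔ v ∈ A := by
    intro s hs v
    refine ⟨fun h => ?_, hstep s hs v⟩
    have := hstep s hs _ h
    rwa [← mul_assoc, E.invol s hs, one_mul] at this
  set c : ℝ := A.card / Fintype.card Y with hc
  have hcY : (0 : ℝ) < Fintype.card Y := by exact_mod_cast Fintype.card_pos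
  have h1 := E.gap (fun v => (if v ∈ A then 1 else 0) - c) (by
    rw [Finset.sum_sub_distrib, Finset.sum_const, Finset.card_univ, nsmul_eq_mul, hc]
    simp only [Finset.sum_ite_mem, Finset.univ_inter, Finset.sum_const, nsmul_eq_mul, mul_one]
    field_simp
    ring)
  have h2 : ∑ s ∈ E.S, ∑ x, ((if s * x ∈ A then (1 : ℝ) else 0) - c -
      ((if x ∈ A then 1 else 0) - c)) ^ 2 = 0 := by
    refine Finset.sum_eq_zero fun s hs => Finset.sum_eq_zero fun x _ => ?_
    have := hiff s hs x
    by_cases h : x ∈ A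
    · rw [if_pos h, if_pos (this.2 h)]; ring
    · rw [if_neg h, if_neg (fun h' => h (this.1 h'))]; ring
  rw [h2] at h1
  have h3 : ∑ v, ((if v ∈ A then (1 : ℝ) else 0) - c) ^ 2 = 0 := by
    have h4 : 0 ≤ ∑ v, ((if v ∈ A then (1 : ℝ) else 0) - c) ^ 2 :=
      Finset.sum_nonneg fun _ _ => sq_nonneg _
    nlinarith
  have h4 : ∀ v, ((if v ∈ A then (1 : ℝ) else 0) - c) ^ 2 = 0 := fun v =>
    (Finset.sum_eq_zero_iff_of_nonneg (fun _ _ => sq_nonneg _)).1 h3 v (Finset.mem_univ v)
  have hu : u ∈ A := by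
    rw [hA, Finset.mem_filter]; exact ⟨Finset.mem_univ _, 0, nb_self E 0 u⟩
  have hc1 : c = 1 := by
    have := h4 u
    rw [if_pos hu] at this
    have := pow_eq_zero_iff (two_ne_zero) |>.1 this
    linarith
  have hv : v ∈ A := by
    by_contra h
    have := h4 v
    rw [if_neg h, hc1] at this
    norm_num at this
  rw [hA, Finset.mem_filter] at hv
  exact hv.2

end conn

section prod

variable {Y : Type} [Group Y] [Fintype Y] {k : ℕ} {γ : ℝ}

open Classical in
/-- Product of two copies of an expander. -/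
noncomputable def prodE (E : Expd k γ Y) (hγ : 0 ≤ γ) : Expd (2 * k) γ (Y × Y) where
  S := E.S.image (fun s => (s, 1)) ∪ E.S.image (fun s => (1, s))
  card_S := by
    rw [Finset.card_union_of_disjoint, Finset.card_image_of_injective,
      Finset.card_image_of_injective, E.card_S]
    · ring
    · intro a b h; simpa using h
    · intro a b h; simpa using h
    · rw [Finset.disjoint_left]
      intro p hp hp'
      rw [Finset.mem_image] at hp hp'
      obtain ⟨s, hs, rfl⟩ := hp
      obtain ⟨s', hs', h⟩ := hp'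
      rw [Prod.mk.injEq] at h
      rw [← h.1] at hs
      exact E.one_not hs
  invol := by
    intro p hp
    rw [Finset.mem_union, Finset.mem_image, Finset.mem_image] at hp
    rcases hp with ⟨s, hs, rfl⟩ | ⟨s, hs, rfl⟩ <;> simp [E.invol s hs]
  one_not := by
    intro hp
    rw [Finset.mem_union, Finset.mem_image, Finset.mem_image] at hp
    rcases hp with ⟨s, hs, h⟩ | ⟨s, hs, h⟩
    · rw [Prod.ext_iff] at h; simp only [Prod.fst_one] at h
      rw [h.1] at hs; exact E.one_not hs
    · rw [Prod.ext_iff] at h; simp only [Prod.snd_one] at h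
      rw [h.2] at hs; exact E.one_not hs
  gap := by
    intro f hf
    have hcY : (0 : ℝ) < Fintype.card Y := by exact_mod_cast Fintype.card_pos
    have hdisj : Disjoint (E.S.image (fun s => (s, (1 : Y)))) (E.S.image (fun s => ((1 : Y), s))) := by
      rw [Finset.disjoint_left]
      intro p hp hp'
      rw [Finset.mem_image] at hp hp'
      obtain ⟨s, hs, rfl⟩ := hp
      obtain ⟨s', hs', h⟩ := hp'
      rw [Prod.mk.injEq] at h
      rw [← h.1] at hs
      exact E.one_not hs
    rw [Finset.sum_union hdisj, Finset.sum_image (by intro a _ b _ h; simpa using h),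
      Finset.sum_image (by intro a _ b _ h; simpa using h)]
    simp only [Fintype.sum_prod_type] at hf ⊢
    simp only [Prod.mk_mul_mk, one_mul]
    -- marginal
    set f1 : Y → ℝ := fun a => (∑ b, f (a, b)) / Fintype.card Y with hf1
    have hf1s : ∑ a, f1 a = 0 := by
      simp only [hf1, ← Finset.sum_div, hf, zero_div]
    have hm : ∀ a, ∑ b, f (a, b) = Fintype.card Y * f1 a := by
      intro a; simp only [hf1]; field_simp
    have e1 : ∀ a, ∑ b, f (a, b) ^ 2 = ∑ b, (f (a, b) - f1 a) ^ 2 + Fintype.card Y * f1 a ^ 2 := by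
      intro a
      have h1 : ∑ b, (f (a, b) - f1 a) ^ 2 =
          ∑ b, f (a, b) ^ 2 - 2 * f1 a * ∑ b, f (a, b) + ∑ _b : Y, f1 a ^ 2 := by
        rw [Finset.mul_sum, ← Finset.sum_sub_distrib, ← Finset.sum_add_distrib]
        exact Finset.sum_congr rfl fun b _ => by ring
      rw [h1, hm, Finset.sum_const, Finset.card_univ, nsmul_eq_mul]
      ring
    -- second coordinate energy
    have e2 : ∀ a, γ * ∑ b, (f (a, b) - f1 a) ^ 2 ≤
        ∑ s ∈ E.S, ∑ b, (f (a, s * b) - f (a, b)) ^ 2 := by
      intro a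
      have h1 := E.gap (fun b => f (a, b) - f1 a) (by
        rw [Finset.sum_sub_distrib, hm, Finset.sum_const, Finset.card_univ, nsmul_eq_mul]
        ring)
      refine h1.trans (le_of_eq ?_)
      refine Finset.sum_congr rfl fun s _ => Finset.sum_congr rfl fun b _ => ?_
      ring
    -- first coordinate energy
    have e3 : ∀ s, (Fintype.card Y : ℝ) * ∑ a, (f1 (s * a) - f1 a) ^ 2 ≤
        ∑ a, ∑ b, (f (s * a, b) - f (a, b)) ^ 2 := by
      intro s
      rw [Finset.mul_sum]
      refine Finset.sum_le_sum fun a _ => ?_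
      have h1 := sq_sum_le_card_mul_sum_sq (s := (Finset.univ : Finset Y))
        (f := fun b => f (s * a, b) - f (a, b))
      rw [Finset.sum_sub_distrib, hm, hm, Finset.card_univ] at h1
      have h2 : ((Fintype.card Y : ℝ) * f1 (s * a) - Fintype.card Y * f1 a) ^ 2 =
          Fintype.card Y * (Fintype.card Y * (f1 (s * a) - f1 a) ^ 2) := by ring
      rw [h2] at h1
      exact le_of_mul_le_mul_left h1 hcY
    have e4 := E.gap f1 hf1s
    calc γ * ∑ a, ∑ b, f (a, b) ^ 2
        = γ * ∑ a, ∑ b, (f (a, b) - f1 a) ^ 2 + Fintype.card Y * (γ * ∑ a, f1 a ^ 2) := by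
          simp only [e1, Finset.sum_add_distrib, ← Finset.mul_sum]
          ring
      _ ≤ ∑ a, ∑ s ∈ E.S, ∑ b, (f (a, s * b) - f (a, b)) ^ 2 +
            Fintype.card Y * ∑ s ∈ E.S, ∑ a, (f1 (s * a) - f1 a) ^ 2 := by
          refine add_le_add ?_ (mul_le_mul_of_nonneg_left e4 hcY.le)
          rw [Finset.mul_sum]
          exact Finset.sum_le_sum fun a _ => e2 a
      _ ≤ ∑ a, ∑ s ∈ E.S, ∑ b, (f (a, s * b) - f (a, b)) ^ 2 +
            ∑ s ∈ E.S, ∑ a, ∑ b, (f (s * a, b) - f (a, b)) ^ 2 := by
          rw [Finset.mul_sum]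
          exact add_le_add le_rfl (Finset.sum_le_sum fun s _ => e3 s)
      _ = _ := by
          rw [add_comm]
          congr 1
          rw [Finset.sum_comm]

lemma mem_prodE (E : Expd k γ Y) (hγ : 0 ≤ γ) (p : Y × Y) :
    p ∈ (prodE E hγ).S ↔ (∃ s ∈ E.S, p = (s, 1)) ∨ ∃ s ∈ E.S, p = (1, s) := by
  classical
  unfold prodE
  simp only [Finset.mem_union, Finset.mem_image]
  constructor
  · rintro (⟨s, hs, h⟩ | ⟨s, hs, h⟩)
    · exact Or.inl ⟨s, hs, h.symm⟩
    · exact Or.inr ⟨s, hs, h.symm⟩
  · rintro (⟨s, hs, h⟩ | ⟨s, hs, h⟩)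
    · exact Or.inl ⟨s, hs, h.symm⟩
    · exact Or.inr ⟨s, hs, h.symm⟩

end prod

variable {B X : Type} [Group B] [Fintype B] [DecidableEq B] [Group X] [Fintype X]
  {kB kX : ℕ} {γB γX : ℝ}

/-- The wreath product graph. -/
def wrG (EB : Expd kB γB B) (EX : Expd kX γX X) : SimpleGraph (B × (B → X)) where
  Adj p q := (∃ s ∈ EB.S, q = (s * p.1, p.2)) ∨
    ∃ s ∈ EX.S, q = (p.1, Function.update p.2 p.1 (s * p.2 p.1))
  symm := ⟨by
    rintro p q (⟨s, hs, rfl⟩ | ⟨s, hs, rfl⟩)
    · left
      refine ⟨s, hs, ?_⟩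
      simp only
      rw [← mul_assoc, EB.invol s hs, one_mul]
    · right
      refine ⟨s, hs, ?_⟩
      simp only [Function.update_self, Function.update_idem]
      rw [← mul_assoc, EX.invol s hs, one_mul, Function.update_eq_self]⟩
  loopless := ⟨by
    rintro p (⟨s, hs, h⟩ | ⟨s, hs, h⟩)
    · rw [Prod.ext_iff] at h
      have : s = 1 := by simpa using h.1.symm
      exact EB.one_not (this ▸ hs)
    · rw [Prod.ext_iff] at h
      have h2 := congrFun h.2 p.1
      simp only [Function.update_self] at h2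
      have : s = 1 := by simpa using h2.symm
      exact EX.one_not (this ▸ hs)⟩

open Classical in
/-- Neighbours in the wreath product graph. -/
noncomputable def wrN (EB : Expd kB γB B) (EX : Expd kX γX X) (p : B × (B → X)) :
    Finset (B × (B → X)) :=
  EB.S.image (fun s => (s * p.1, p.2)) ∪
    EX.S.image (fun s => (p.1, Function.update p.2 p.1 (s * p.2 p.1)))

lemma mem_wrN (EB : Expd kB γB B) (EX : Expd kX γX X) (p q : B × (B → X)) :
    q ∈ wrN EB EX p ↔ (wrG EB EX).Adj p q := by
  classical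
  unfold wrN wrG
  simp only [Finset.mem_union, Finset.mem_image]
  constructor
  · rintro (⟨s, hs, h⟩ | ⟨s, hs, h⟩)
    · exact Or.inl ⟨s, hs, h.symm⟩
    · exact Or.inr ⟨s, hs, h.symm⟩
  · rintro (⟨s, hs, h⟩ | ⟨s, hs, h⟩)
    · exact Or.inl ⟨s, hs, h.symm⟩
    · exact Or.inr ⟨s, hs, h.symm⟩

lemma wrN_sum (EB : Expd kB γB B) (EX : Expd kX γX X) (p : B × (B → X))
    (F : B × (B → X) → ℝ) :
    ∑ q ∈ wrN EB EX p, F q = ∑ s ∈ EB.S, F (s * p.1, p.2) +
      ∑ s ∈ EX.S, F (p.1, Function.update p.2 p.1 (s * p.2 p.1)) := by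
  classical
  unfold wrN
  rw [Finset.sum_union, Finset.sum_image, Finset.sum_image]
  · intro a _ b _ h
    simp only [Prod.mk.injEq, true_and] at h
    have := congrFun h p.1
    simpa using this
  · intro a _ b _ h
    simpa using h
  · rw [Finset.disjoint_left]
    intro q hq hq'
    rw [Finset.mem_image] at hq hq'
    obtain ⟨s, hs, rfl⟩ := hq
    obtain ⟨s', hs', h⟩ := hq'
    rw [Prod.mk.injEq] at h
    have : s = 1 := by simpa using h.1.symm
    exact EB.one_not (this ▸ hs)

lemma wrN_card (EB : Expd kB γB B) (EX : Expd kX γX X) (p : B × (B → X)) :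
    (wrN EB EX p).card = kB + kX := by
  have h := wrN_sum EB EX p (fun _ => 1)
  simp only [Finset.sum_const, EB.card_S, EX.card_S, nsmul_eq_mul, mul_one] at h
  exact_mod_cast h

lemma wr_step (EB : Expd kB γB B) (EX : Expd kX γX X) (p : B × (B → X))
    (F : B × (B → X) → ℝ) :
    ∑ q, lazyP (wrG EB EX) p q * F q = F p / 2 + (∑ s ∈ EB.S, F (s * p.1, p.2) +
      ∑ s ∈ EX.S, F (p.1, Function.update p.2 p.1 (s * p.2 p.1))) / (2 * (kB + kX)) := by
  rw [lazyP_sum (wrG EB EX) p (wrN EB EX p) (mem_wrN EB EX p), wrN_sum, wrN_card]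
  push_cast
  rfl

lemma wr_dg (EB : Expd kB γB B) (EX : Expd kX γX X) (p : B × (B → X)) :
    dg (wrG EB EX) p = kB + kX := by
  rw [dg_eq_card (wrG EB EX) p (wrN EB EX p) (mem_wrN EB EX p), wrN_card]

/-- Right translations. -/
def trans (h : B) (η : B → X) (p : B × (B → X)) : B × (B → X) :=
  (p.1 * h, fun b => p.2 (b * h⁻¹) * η b)

lemma trans_adj (EB : Expd kB γB B) (EX : Expd kX γX X) (h : B) (η : B → X)
    {p q : B × (B → X)} (hpq : (wrG EB EX).Adj p q) :
    (wrG EB EX).Adj (trans h η p) (trans h η q) := by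
  rcases hpq with ⟨s, hs, rfl⟩ | ⟨s, hs, rfl⟩
  · left
    exact ⟨s, hs, by simp [trans, mul_assoc]⟩
  · right
    refine ⟨s, hs, ?_⟩
    simp only [trans, Prod.mk.injEq, true_and]
    ext b
    by_cases hb : b = p.1 * h
    · subst hb
      simp [mul_assoc]
    · have hb' : b * h⁻¹ ≠ p.1 := by
        intro h'
        apply hb
        rw [← h']; simp
      rw [Function.update_of_ne hb', Function.update_of_ne hb]

lemma trans_inv (h : B) (η : B → X) (p : B × (B → X)) :
    trans h⁻¹ (fun b => (η (b * h))⁻¹) (trans h η p) = p := by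
  unfold trans
  ext <;> simp [mul_assoc]

lemma trans_inv' (h : B) (η : B → X) (p : B × (B → X)) :
    trans h η (trans h⁻¹ (fun b => (η (b * h))⁻¹) p) = p := by
  unfold trans
  ext <;> simp [mul_assoc]

lemma wr_transitive (EB : Expd kB γB B) (EX : Expd kX γX X) : VertexTransitive (wrG EB EX) := by
  intro p q
  set h : B := p.1⁻¹ * q.1 with hh
  set η : B → X := fun b => (p.2 (b * h⁻¹))⁻¹ * q.2 b with hη
  refine ⟨{ toFun := trans h η
            invFun := trans h⁻¹ (fun b => (η (b * h))⁻¹)
            left_inv := fun p => trans_inv h η p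
            right_inv := fun p => trans_inv' h η p
            map_rel_iff' := ?_ }, ?_⟩
  · intro a b
    refine ⟨fun hab => ?_, fun hab => trans_adj EB EX h η hab⟩
    have := trans_adj EB EX h⁻¹ (fun b => (η (b * h))⁻¹) hab
    simp only [Equiv.coe_fn_mk] at this
    rwa [trans_inv, trans_inv] at this
  · change trans h η p = q
    unfold trans
    ext b
    · simp [hh]
    · simp [hη]

/-- Connectivity of the wreath product graph. -/
lemma wr_connected (EB : Expd kB γB B) (EX : Expd kX γX X) (hB : 0 < γB) (hX : 0 < γX) :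
    (wrG EB EX).Connected := by
  classical
  have h1 : ∀ (n : ℕ) (x y : B) (w : B → X), y ∈ nb EB n x →
      (wrG EB EX).Reachable (x, w) (y, w) := by
    intro n
    induction n with
    | zero =>
      intro x y w h
      simp only [nb, Finset.mem_singleton] at h
      rw [h]
    | succ n ih =>
      intro x y w h
      rw [mem_nb_succ] at h
      rcases h with h | ⟨s, hs, z, hz, rfl⟩
      · exact ih x y w h
      · refine (ih x z w hz).trans ?_
        exact SimpleGraph.Adj.reachable (Or.inl ⟨s, hs, rfl⟩)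
  have h1' : ∀ (x y : B) (w : B → X), (wrG EB EX).Reachable (x, w) (y, w) := by
    intro x y w
    obtain ⟨n, hn⟩ := exists_nb EB hB x y
    exact h1 n x y w hn
  have h2 : ∀ (n : ℕ) (x : B) (w : B → X) (v : X), v ∈ nb EX n (w x) →
      (wrG EB EX).Reachable (x, w) (x, Function.update w x v) := by
    intro n
    induction n with
    | zero =>
      intro x w v h
      simp only [nb, Finset.mem_singleton] at h
      rw [h, Function.update_eq_self]
    | succ n ih =>
      intro x w v h
      rw [mem_nb_succ] at h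
      rcases h with h | ⟨s, hs, z, hz, rfl⟩
      · exact ih x w v h
      · refine (ih x w z hz).trans ?_
        refine SimpleGraph.Adj.reachable (Or.inr ⟨s, hs, ?_⟩)
        simp
  have h3 : ∀ (x b : B) (w : B → X) (v : X),
      (wrG EB EX).Reachable (x, w) (x, Function.update w b v) := by
    intro x b w v
    obtain ⟨n, hn⟩ := exists_nb EX hX (w b) v
    exact ((h1' x b w).trans (h2 n b w v hn)).trans (h1' b x _)
  have h4 : ∀ (s : Finset B) (x : B) (w w' : B → X),
      (wrG EB EX).Reachable (x, w) (x, fun b => if b ∈ s then w' b else w b) := by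
    intro s
    induction s using Finset.induction_on with
    | empty => intro x w w'; simp
    | insert a s ha ih =>
      intro x w w'
      refine (ih x w w').trans ?_
      have := h3 x a (fun b => if b ∈ s then w' b else w b) (w' a)
      convert this using 2
      ext b
      by_cases hb : b = a
      · subst hb; simp
      · simp [Function.update_of_ne hb, hb]
  rw [SimpleGraph.connected_iff]
  refine ⟨fun p q => ?_, ⟨(1, fun _ => 1)⟩⟩
  have h5 := h4 Finset.univ p.1 p.2 q.2
  simp only [Finset.mem_univ, if_true] at h5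
  exact h5.trans (h1' p.1 q.1 q.2)

/-- Quasi-isometry from bounded distortion of edges. -/
lemma qi_of_adj {V : Type} (G G' : SimpleGraph V) (a : ℕ) (ha : 1 ≤ a) (hG : G.Connected)
    (h1 : ∀ p q, G.Adj p q → ∃ W : G'.Walk p q, W.length ≤ a)
    (h2 : ∀ p q, G'.Adj p q → ∃ W : G.Walk p q, W.length ≤ a) :
    G'.Connected ∧ QuasiIso a 0 G G' := by
  have lift : ∀ (H H' : SimpleGraph V), (∀ p q, H.Adj p q → ∃ W : H'.Walk p q, W.length ≤ a) →
      ∀ p q (W : H.Walk p q), ∃ W' : H'.Walk p q, W'.length ≤ a * W.length := by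
    intro H H' h p q W
    induction W with
    | nil => exact ⟨SimpleGraph.Walk.nil, by simp⟩
    | cons hadj W ih =>
      obtain ⟨W', hW'⟩ := ih
      obtain ⟨W1, hW1⟩ := h _ _ hadj
      refine ⟨W1.append W', ?_⟩
      rw [SimpleGraph.Walk.length_append, SimpleGraph.Walk.length_cons]
      nlinarith
  have hG' : G'.Connected := by
    rw [SimpleGraph.connected_iff]
    refine ⟨fun p q => ?_, hG.nonempty⟩
    obtain ⟨W', _⟩ := lift G G' h1 p q (hG.preconnected p q).some
    exact ⟨W'⟩
  refine ⟨hG', id, ?_, ?_⟩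
  · intro x y
    obtain ⟨W, hW⟩ := (hG.preconnected x y).exists_walk_length_eq_dist
    obtain ⟨W', hW'⟩ := (hG'.preconnected x y).exists_walk_length_eq_dist
    obtain ⟨U, hU⟩ := lift G G' h1 x y W
    obtain ⟨U', hU'⟩ := lift G' G h2 x y W'
    have e1 : G'.dist x y ≤ a * G.dist x y := (SimpleGraph.dist_le U).trans (hW ▸ hU)
    have e2 : G.dist x y ≤ a * G'.dist x y := (SimpleGraph.dist_le U').trans (hW' ▸ hU')
    have e1' : (G'.dist x y : ℝ) ≤ a * G.dist x y := by exact_mod_cast e1
    have e2' : (G.dist x y : ℝ) ≤ a * G'.dist x y := by exact_mod_cast e2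
    have ha' : (0 : ℝ) < a := by exact_mod_cast (by omega : 0 < a)
    simp only [id]
    constructor
    · rw [sub_zero, inv_mul_le_iff₀ ha']
      exact e2'
    · rw [add_zero]; exact e1'
  · intro z
    exact ⟨z, by simp⟩

end Pool.Agent.MP50f558
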