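import Mathlib
import Pool.Agent.Lib.MP_50f558_pr.Wreath

set_option autoImplicit false
set_option linter.unusedSectionVars false
set_option linter.unusedVariables false

/-!
The modified graph: outward walker edges near the origin are made two-to-one diagonal edges.
-/

namespace Pool.Agent.MP50f558

/-- Data of the modified graph. -/
structure Gd (k : ℕ) (γ : ℝ) (B Y : Type) [Group B] [Fintype B] [Group Y] [Fintype Y]
    [DecidableEq Y] where
  EB : Expd k γ B
  EY : Expd k γ Y
  K : ℕ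
  lev : B → ℕ
  hlev : ∀ s ∈ EB.S, ∀ x, lev (s * x) ≤ lev x + 1
  On : Y → Prop
  D : Finset Y
  O : Y → Bool → Y
  C4 : ℕ
  hC4 : 1 ≤ C4
  hO1 : ∀ u ∈ D, ∀ i, O u i ∈ nb EY C4 u
  hO2 : ∀ u ∈ D, ∀ u' ∈ D, ∀ i i', O u i = O u' i' → u = u' ∧ i = i'
  hO3 : ∀ v ∈ D, ∃ u ∈ D, ∃ i, O u i = v

variable {k : ℕ} {γ : ℝ} {B Y : Type} [Group B] [Fintype B] [Group Y] [Fintype Y]
  [DecidableEq B] [DecidableEq Y]

/-- Set the power lamp at `x`. -/
def setp (w : B → Y × Y) (x : B) (v : Y) : B → Y × Y := Function.update w x (v, (w x).2)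

/-- Set the clock lamp at `x`. -/
def setc (w : B → Y × Y) (x : B) (v : Y) : B → Y × Y := Function.update w x ((w x).1, v)

/-- Clocks. -/
def clk (w : B → Y × Y) (b : B) : Y := (w b).2

@[simp] lemma clk_setp (w : B → Y × Y) (x : B) (v : Y) : clk (setp w x v) = clk w := by
  ext b
  unfold clk setp
  by_cases h : b = x
  · subst h; simp
  · simp [Function.update_of_ne h]

@[simp] lemma clk_setc (w : B → Y × Y) (x : B) (v : Y) :
    clk (setc w x v) = Function.update (clk w) x v := by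
  ext b
  unfold clk setc
  by_cases h : b = x
  · subst h; simp
  · simp [Function.update_of_ne h]

@[simp] lemma setp_setp (w : B → Y × Y) (x : B) (v v' : Y) :
    setp (setp w x v) x v' = setp w x v' := by
  unfold setp; simp

@[simp] lemma setc_setc (w : B → Y × Y) (x : B) (v v' : Y) :
    setc (setc w x v) x v' = setc w x v' := by
  unfold setc; simp

@[simp] lemma setp_self (w : B → Y × Y) (x : B) : setp w x (w x).1 = w := by
  unfold setp; simp

@[simp] lemma setc_self (w : B → Y × Y) (x : B) : setc w x (w x).2 = w := by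
  unfold setc; simp

@[simp] lemma setp_fst (w : B → Y × Y) (x : B) (v : Y) : (setp w x v x).1 = v := by
  unfold setp; simp

@[simp] lemma setp_snd (w : B → Y × Y) (x : B) (v : Y) : (setp w x v x).2 = (w x).2 := by
  unfold setp; simp

@[simp] lemma setc_fst (w : B → Y × Y) (x : B) (v : Y) : (setc w x v x).1 = (w x).1 := by
  unfold setc; simp

@[simp] lemma setc_snd (w : B → Y × Y) (x : B) (v : Y) : (setc w x v x).2 = v := by
  unfold setc; simp

lemma setp_ne (w : B → Y × Y) {x b : B} (h : b ≠ x) (v : Y) : setp w x v b = w b := by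
  unfold setp; rw [Function.update_of_ne h]

lemma setc_ne (w : B → Y × Y) {x b : B} (h : b ≠ x) (v : Y) : setc w x v b = w b := by
  unfold setc; rw [Function.update_of_ne h]

lemma setp_inj (w : B → Y × Y) (x : B) : Function.Injective (setp w x) := by
  intro v v' h
  have := congrArg (fun w => (w x).1) h
  simpa using this

lemma setc_inj (w : B → Y × Y) (x : B) : Function.Injective (setc w x) := by
  intro v v' h
  have := congrArg (fun w => (w x).2) h
  simpa using this

namespace Gd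

variable (A : Gd k γ B Y)

/-- Matching relation across an outward edge. -/
def link (u v : Y) : Prop := (u ∈ A.D ∧ ∃ i, A.O u i = v) ∨ (u ∉ A.D ∧ v = u)

/-- The stage. -/
noncomputable def st (c : B → Y) : ℕ :=
  @Nat.findGreatest (fun j => ∀ b, A.lev b < j → A.On (c b)) (Classical.decPred _) A.K

lemma st_le (c : B → Y) : A.st c ≤ A.K :=
  @Nat.findGreatest_le (fun j => ∀ b, A.lev b < j → A.On (c b)) (Classical.decPred _) A.K

lemma st_on (c : B → Y) (b : B) (hb : A.lev b < A.st c) : A.On (c b) := by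
  have h : (fun j => ∀ b, A.lev b < j → A.On (c b)) (A.st c) := by
    unfold st
    exact @Nat.findGreatest_spec 0 (fun j => ∀ b, A.lev b < j → A.On (c b)) (Classical.decPred _)
      A.K (Nat.zero_le _) (fun b hb => absurd hb (Nat.not_lt_zero _))
  exact h b hb

lemma st_off (c : B → Y) (h : A.st c < A.K) : ∃ b, A.lev b = A.st c ∧ ¬ A.On (c b) := by
  have h1 : ¬ (fun j => ∀ b, A.lev b < j → A.On (c b)) (A.st c + 1) :=
    @Nat.findGreatest_is_greatest _ (fun j => ∀ b, A.lev b < j → A.On (c b))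
      (Classical.decPred _) A.K (Nat.lt_succ_self _) h
  push Not at h1
  obtain ⟨b, hb, hoff⟩ := h1
  refine ⟨b, ?_, hoff⟩
  by_contra hne
  exact hoff (A.st_on c b (by omega))

lemma st_congr (c c' : B → Y) (h : ∀ b, A.lev b < A.K → (A.On (c b) ↔ A.On (c' b))) :
    A.st c = A.st c' := by
  have key : ∀ c c' : B → Y, (∀ b, A.lev b < A.K → (A.On (c b) ↔ A.On (c' b))) →
      A.st c ≤ A.st c' := by
    intro c c' h
    by_contra hlt
    push Not at hlt
    obtain ⟨b, hb, hoff⟩ := A.st_off c' (lt_of_lt_of_le hlt (A.st_le c))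
    have h1 := A.st_on c b (hb ▸ hlt)
    exact hoff ((h b (by have := A.st_le c; omega)).1 h1)
  exact le_antisymm (key c c' h) (key c' c fun b hb => (h b hb).symm)

lemma st_zero (c : B → Y) (b : B) (hb : A.lev b = 0) (hoff : ¬ A.On (c b)) : A.st c = 0 := by
  by_contra h
  exact hoff (A.st_on c b (by omega))

open Classical in
/-- Lamp configurations after the walker move `s`. -/
noncomputable def wt (p : B × (B → Y × Y)) (s : B) : Finset (B → Y × Y) :=
  if A.lev (s * p.1) = A.lev p.1 + 1 ∧ A.lev p.1 < A.st (clk p.2) then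
    (Finset.univ.filter (fun v => A.link (p.2 p.1).1 v)).image (setp p.2 p.1)
  else if A.lev p.1 = A.lev (s * p.1) + 1 ∧ A.lev (s * p.1) < A.st (clk p.2) then
    (Finset.univ.filter (fun u => A.link u (p.2 (s * p.1)).1)).image (setp p.2 (s * p.1))
  else {p.2}

open Classical in
/-- Lamp configurations after a lamp move. -/
noncomputable def lt (p : B × (B → Y × Y)) : Finset (B → Y × Y) :=
  A.EY.S.image (fun s => setp p.2 p.1 (s * (p.2 p.1).1)) ∪
    A.EY.S.image (fun s => setc p.2 p.1 (s * (p.2 p.1).2))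

lemma wt_clk {p : B × (B → Y × Y)} {s : B} {w : B → Y × Y} (h : w ∈ A.wt p s) :
    clk w = clk p.2 := by
  classical
  unfold wt at h
  split_ifs at h
  · rw [Finset.mem_image] at h
    obtain ⟨v, _, rfl⟩ := h
    simp
  · rw [Finset.mem_image] at h
    obtain ⟨v, _, rfl⟩ := h
    simp
  · rw [Finset.mem_singleton] at h
    rw [h]

lemma wt_symm {p : B × (B → Y × Y)} {s : B} (hs : s ∈ A.EB.S) {w : B → Y × Y}
    (h : w ∈ A.wt p s) : p.2 ∈ A.wt (s * p.1, w) s := by
  classical
  have hss : s * (s * p.1) = p.1 := by rw [← mul_assoc, A.EB.invol s hs, one_mul]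
  have hclk := A.wt_clk h
  have hne : s * p.1 ≠ p.1 := by
    intro h'
    have : s = 1 := by simpa using h'
    exact A.EB.one_not (this ▸ hs)
  unfold wt at h ⊢
  simp only [hss, hclk]
  by_cases h1 : A.lev (s * p.1) = A.lev p.1 + 1 ∧ A.lev p.1 < A.st (clk p.2)
  · rw [if_pos h1, Finset.mem_image] at h
    obtain ⟨v, hv, rfl⟩ := h
    rw [if_neg (by omega), if_pos h1, Finset.mem_image]
    refine ⟨(p.2 p.1).1, ?_, by simp⟩
    simpa using hv
  · rw [if_neg h1] at h
    by_cases h2 : A.lev p.1 = A.lev (s * p.1) + 1 ∧ A.lev (s * p.1) < A.st (clk p.2)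
    · rw [if_pos h2, Finset.mem_image] at h
      obtain ⟨v, hv, rfl⟩ := h
      rw [if_pos h2, Finset.mem_image]
      refine ⟨(p.2 (s * p.1)).1, ?_, by simp⟩
      simpa using hv
    · rw [if_neg h2, Finset.mem_singleton] at h
      rw [if_neg h2, if_neg h1, Finset.mem_singleton, h]

lemma mem_lt (p : B × (B → Y × Y)) (w : B → Y × Y) : w ∈ A.lt p ↔
    (∃ s ∈ A.EY.S, w = setp p.2 p.1 (s * (p.2 p.1).1)) ∨
      ∃ s ∈ A.EY.S, w = setc p.2 p.1 (s * (p.2 p.1).2) := by
  classical
  unfold lt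
  simp only [Finset.mem_union, Finset.mem_image]
  constructor
  · rintro (⟨s, hs, h⟩ | ⟨s, hs, h⟩)
    · exact Or.inl ⟨s, hs, h.symm⟩
    · exact Or.inr ⟨s, hs, h.symm⟩
  · rintro (⟨s, hs, h⟩ | ⟨s, hs, h⟩)
    · exact Or.inl ⟨s, hs, h.symm⟩
    · exact Or.inr ⟨s, hs, h.symm⟩

/-- The modified graph. -/
def gr : SimpleGraph (B × (B → Y × Y)) where
  Adj p q := (q.1 = p.1 ∧ q.2 ∈ A.lt p) ∨ ∃ s ∈ A.EB.S, q.1 = s * p.1 ∧ q.2 ∈ A.wt p s
  symm := ⟨by
    rintro ⟨x, w⟩ ⟨y, w'⟩ (⟨h1, h2⟩ | ⟨s, hs, h1, h2⟩)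
    · left
      simp only at h1 h2 ⊢
      subst h1
      refine ⟨rfl, ?_⟩
      rw [mem_lt] at h2 ⊢
      simp only at h2 ⊢
      rcases h2 with ⟨s, hs, rfl⟩ | ⟨s, hs, rfl⟩
      · left
        refine ⟨s, hs, ?_⟩
        simp only [setp_fst, setp_setp]
        rw [← mul_assoc, A.EY.invol s hs, one_mul, setp_self]
      · right
        refine ⟨s, hs, ?_⟩
        simp only [setc_snd, setc_setc]
        rw [← mul_assoc, A.EY.invol s hs, one_mul, setc_self]
    · right
      simp only at h1 h2 ⊢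
      subst h1
      refine ⟨s, hs, ?_, A.wt_symm hs h2⟩
      rw [← mul_assoc, A.EB.invol s hs, one_mul]⟩
  loopless := ⟨by
    rintro ⟨x, w⟩ (⟨h1, h2⟩ | ⟨s, hs, h1, h2⟩)
    · rw [mem_lt] at h2
      simp only at h2
      rcases h2 with ⟨s, hs, h⟩ | ⟨s, hs, h⟩
      · have := congrArg (fun w => (w x).1) h
        simp only [setp_fst] at this
        have : s = 1 := by simpa using this.symm
        exact A.EY.one_not (this ▸ hs)
      · have := congrArg (fun w => (w x).2) h
        simp only [setc_snd] at this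
        have : s = 1 := by simpa using this.symm
        exact A.EY.one_not (this ▸ hs)
    · simp only at h1
      have : s = 1 := by simpa using h1.symm
      exact A.EB.one_not (this ▸ hs)⟩

open Classical in
/-- Neighbours in the modified graph. -/
noncomputable def nbF (p : B × (B → Y × Y)) : Finset (B × (B → Y × Y)) :=
  (A.lt p).image (fun w => (p.1, w)) ∪
    A.EB.S.biUnion (fun s => (A.wt p s).image (fun w => (s * p.1, w)))

lemma mem_nbF (p q : B × (B → Y × Y)) : q ∈ A.nbF p ↔ A.gr.Adj p q := by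
  classical
  unfold nbF gr
  simp only [Finset.mem_union, Finset.mem_image, Finset.mem_biUnion]
  constructor
  · rintro (⟨w, hw, rfl⟩ | ⟨s, hs, w, hw, rfl⟩)
    · exact Or.inl ⟨rfl, hw⟩
    · exact Or.inr ⟨s, hs, rfl, hw⟩
  · rintro (⟨h1, h2⟩ | ⟨s, hs, h1, h2⟩)
    · exact Or.inl ⟨q.2, h2, by rw [← h1]⟩
    · exact Or.inr ⟨s, hs, q.2, h2, by rw [← h1]⟩

lemma sum_nbF (p : B × (B → Y × Y)) (F : B × (B → Y × Y) → ℝ) :
    ∑ q ∈ A.nbF p, F q = ∑ w ∈ A.lt p, F (p.1, w) +
      ∑ s ∈ A.EB.S, ∑ w ∈ A.wt p s, F (s * p.1, w) := by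
  classical
  unfold nbF
  rw [Finset.sum_union, Finset.sum_image, Finset.sum_biUnion]
  · congr 1
    refine Finset.sum_congr rfl fun s _ => ?_
    rw [Finset.sum_image]
    intro a _ b _ h
    simpa using h
  · intro s hs s' hs' hne
    rw [Function.onFun, Finset.disjoint_left]
    intro q hq hq'
    rw [Finset.mem_image] at hq hq'
    obtain ⟨w, _, rfl⟩ := hq
    obtain ⟨w', _, h⟩ := hq'
    rw [Prod.mk.injEq] at h
    exact hne (mul_right_cancel h.1).symm
  · intro a _ b _ h
    simpa using h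
  · rw [Finset.disjoint_left]
    intro q hq hq'
    rw [Finset.mem_image] at hq
    rw [Finset.mem_biUnion] at hq'
    obtain ⟨w, _, rfl⟩ := hq
    obtain ⟨s, hs, h⟩ := hq'
    rw [Finset.mem_image] at h
    obtain ⟨w', _, h⟩ := h
    rw [Prod.mk.injEq] at h
    have : s = 1 := by simpa using h.1
    exact A.EB.one_not (this ▸ hs)

lemma sum_lt (p : B × (B → Y × Y)) (F : (B → Y × Y) → ℝ) :
    ∑ w ∈ A.lt p, F w = ∑ s ∈ A.EY.S, F (setp p.2 p.1 (s * (p.2 p.1).1)) +
      ∑ s ∈ A.EY.S, F (setc p.2 p.1 (s * (p.2 p.1).2)) := by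
  classical
  unfold lt
  rw [Finset.sum_union, Finset.sum_image, Finset.sum_image]
  · intro a _ b _ h
    exact mul_right_cancel (setc_inj _ _ h)
  · intro a _ b _ h
    exact mul_right_cancel (setp_inj _ _ h)
  · rw [Finset.disjoint_left]
    intro q hq hq'
    rw [Finset.mem_image] at hq hq'
    obtain ⟨s, hs, rfl⟩ := hq
    obtain ⟨s', hs', h⟩ := hq'
    have h2 := congrArg (fun w => (w p.1).1) h
    simp only [setp_fst, setc_fst] at h2
    have : s = 1 := by simpa using h2.symm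
    exact A.EY.one_not (this ▸ hs)

lemma card_lt (p : B × (B → Y × Y)) : (A.lt p).card = 2 * k := by
  have h := A.sum_lt p (fun _ => 1)
  simp only [Finset.sum_const, A.EY.card_S, nsmul_eq_mul, mul_one] at h
  have : ((A.lt p).card : ℝ) = ((2 * k : ℕ) : ℝ) := by rw [h]; push_cast; ring
  exact_mod_cast this

open Classical in
lemma card_out_le (u : Y) : (Finset.univ.filter (fun v => A.link u v)).card ≤ 2 := by
  have : Finset.univ.filter (fun v => A.link u v) ⊆
      if u ∈ A.D then {A.O u true, A.O u false} else {u} := by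
    intro v hv
    rw [Finset.mem_filter] at hv
    rcases hv.2 with ⟨hu, i, rfl⟩ | ⟨hu, rfl⟩
    · rw [if_pos hu]
      cases i <;> simp
    · rw [if_neg hu]; simp
  refine (Finset.card_le_card this).trans ?_
  split_ifs
  · exact Finset.card_le_two
  · simp

open Classical in
lemma card_in_le (v : Y) : (Finset.univ.filter (fun u => A.link u v)).card ≤ 2 := by
  have h1 : ∃ u0, Finset.univ.filter (fun u => A.link u v) ⊆ {u0, v} := by
    by_cases h : ∃ u ∈ A.D, ∃ i, A.O u i = v
    · obtain ⟨u, hu, i, hi⟩ := h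
      refine ⟨u, fun u' hu' => ?_⟩
      rw [Finset.mem_filter] at hu'
      rcases hu'.2 with ⟨hu'D, i', hi'⟩ | ⟨_, h'⟩
      · have := (A.hO2 u' hu'D u hu i' i (hi'.trans hi.symm)).1
        rw [this]; simp
      · rw [← h']; simp
    · refine ⟨v, fun u' hu' => ?_⟩
      rw [Finset.mem_filter] at hu'
      rcases hu'.2 with ⟨hu'D, i', hi'⟩ | ⟨_, h'⟩
      · exact absurd ⟨u', hu'D, i', hi'⟩ h
      · rw [← h']; simp
  obtain ⟨u0, h1⟩ := h1
  exact (Finset.card_le_card h1).trans Finset.card_le_two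

lemma card_wt_le (p : B × (B → Y × Y)) (s : B) : (A.wt p s).card ≤ 2 := by
  classical
  unfold wt
  split_ifs
  · exact Finset.card_image_le.trans (A.card_out_le _)
  · exact Finset.card_image_le.trans (A.card_in_le _)
  · simp

open Classical in
lemma card_out (u : Y) (hu : u ∈ A.D) :
    (Finset.univ.filter (fun v => A.link u v)).card = 2 := by
  have : Finset.univ.filter (fun v => A.link u v) = {A.O u true, A.O u false} := by
    ext v
    rw [Finset.mem_filter, Finset.mem_insert, Finset.mem_singleton]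
    constructor
    · rintro ⟨_, ⟨_, i, rfl⟩ | ⟨hu', rfl⟩⟩
      · cases i <;> simp
      · exact absurd hu hu'
    · rintro (rfl | rfl)
      · exact ⟨Finset.mem_univ _, Or.inl ⟨hu, true, rfl⟩⟩
      · exact ⟨Finset.mem_univ _, Or.inl ⟨hu, false, rfl⟩⟩
  rw [this, Finset.card_pair]
  intro h
  have := (A.hO2 u hu u hu true false h).2
  exact absurd this (by decide)

open Classical in
lemma card_in (v : Y) (hv : v ∈ A.D) :
    (Finset.univ.filter (fun u => A.link u v)).card = 1 := by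
  obtain ⟨u, hu, i, hi⟩ := A.hO3 v hv
  rw [Finset.card_eq_one]
  refine ⟨u, ?_⟩
  ext u'
  rw [Finset.mem_filter, Finset.mem_singleton]
  constructor
  · rintro ⟨_, ⟨hu'D, i', hi'⟩ | ⟨hu', h'⟩⟩
    · exact (A.hO2 u' hu'D u hu i' i (hi'.trans hi.symm)).1
    · exact absurd (h' ▸ hv) hu'
  · rintro rfl
    exact ⟨Finset.mem_univ _, Or.inl ⟨hu, i, hi⟩⟩

/-- The good region. -/
def Good (p : B × (B → Y × Y)) : Prop :=
  ∀ b, A.lev b < A.st (clk p.2) → (p.2 b).1 ∈ A.D

lemma card_wt_good (p : B × (B → Y × Y)) (hp : A.Good p) (s : B) :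
    ((A.wt p s).card : ℝ) = nr A.lev (A.st (clk p.2)) p.1 (s * p.1) := by
  classical
  unfold wt nr
  by_cases h1 : A.lev (s * p.1) = A.lev p.1 + 1 ∧ A.lev p.1 < A.st (clk p.2)
  · rw [if_pos h1, if_pos h1, Finset.card_image_of_injective _ (setp_inj _ _),
      A.card_out _ (hp _ h1.2)]
    norm_num
  · rw [if_neg h1, if_neg h1]
    by_cases h2 : A.lev p.1 = A.lev (s * p.1) + 1 ∧ A.lev (s * p.1) < A.st (clk p.2)
    · rw [if_pos h2, Finset.card_image_of_injective _ (setp_inj _ _), A.card_in _ (hp _ h2.2)]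
      norm_num
    · rw [if_neg h2]; simp

lemma card_nbF (p : B × (B → Y × Y)) :
    ((A.nbF p).card : ℝ) = 2 * k + ∑ s ∈ A.EB.S, ((A.wt p s).card : ℝ) := by
  have h := A.sum_nbF p (fun _ => 1)
  simp only [Finset.sum_const, nsmul_eq_mul, mul_one] at h
  rw [h, card_lt]
  push_cast
  ring

lemma dg_gr (p : B × (B → Y × Y)) : dg A.gr p = (A.nbF p).card :=
  dg_eq_card A.gr p (A.nbF p) (A.mem_nbF p)

lemma dg_ge (p : B × (B → Y × Y)) : 2 * k ≤ dg A.gr p := by
  rw [dg_gr]
  have h := A.card_nbF p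
  have h2 : 0 ≤ ∑ s ∈ A.EB.S, ((A.wt p s).card : ℝ) :=
    Finset.sum_nonneg fun _ _ => Nat.cast_nonneg _
  have : ((2 * k : ℕ) : ℝ) ≤ ((A.nbF p).card : ℝ) := by rw [h]; push_cast; linarith
  exact_mod_cast this

lemma dg_le (p : B × (B → Y × Y)) : dg A.gr p ≤ 4 * k := by
  rw [dg_gr]
  have h := A.card_nbF p
  have h2 : ∑ s ∈ A.EB.S, ((A.wt p s).card : ℝ) ≤ 2 * k := by
    calc ∑ s ∈ A.EB.S, ((A.wt p s).card : ℝ) ≤ ∑ s ∈ A.EB.S, (2 : ℝ) :=
          Finset.sum_le_sum fun s _ => by exact_mod_cast A.card_wt_le p s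
      _ = 2 * k := by rw [Finset.sum_const, A.EB.card_S, nsmul_eq_mul]; ring
  have : ((A.nbF p).card : ℝ) ≤ ((4 * k : ℕ) : ℝ) := by rw [h]; push_cast; linarith
  exact_mod_cast this

/-- One step of the walk in the good region. -/
lemma step_good (p : B × (B → Y × Y)) (hp : A.Good p) (h : B → (B → Y) → ℝ) :
    ∑ q, lazyP A.gr p q * h q.1 (clk q.2) = h p.1 (clk p.2) / 2 +
      (k * h p.1 (clk p.2) +
        ∑ s ∈ A.EY.S, h p.1 (Function.update (clk p.2) p.1 (s * clk p.2 p.1)) +
        ∑ s ∈ A.EB.S, nr A.lev (A.st (clk p.2)) p.1 (s * p.1) * h (s * p.1) (clk p.2)) /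
        (2 * dg A.gr p) := by
  rw [lazyP_sum A.gr p (A.nbF p) (A.mem_nbF p), dg_gr]
  congr 2
  rw [sum_nbF, sum_lt]
  simp only [clk_setp, clk_setc, Finset.sum_const, A.EY.card_S, nsmul_eq_mul]
  congr 1
  refine Finset.sum_congr rfl fun s _ => ?_
  rw [← A.card_wt_good p hp s]
  rw [Finset.sum_congr rfl (fun w hw => by rw [A.wt_clk hw])]
  rw [Finset.sum_const, nsmul_eq_mul]

lemma dg_good (p : B × (B → Y × Y)) (hp : A.Good p) :
    (dg A.gr p : ℝ) = 2 * k + ∑ s ∈ A.EB.S, nr A.lev (A.st (clk p.2)) p.1 (s * p.1) := by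
  rw [dg_gr, card_nbF]
  congr 1
  exact Finset.sum_congr rfl fun s _ => A.card_wt_good p hp s

end Gd

end Pool.Agent.MP50f558
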