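import Mathlib
import Pool.Agent.Lib.MP_50f558_pr.Graph

set_option autoImplicit false
set_option linter.unusedSectionVars false
set_option linter.unusedVariables false

/-!
The modified graph is quasi-isometric to the wreath product graph.
-/

namespace Pool.Agent.MP50f558

variable {k : ℕ} {γ : ℝ} {B Y : Type} [Group B] [Fintype B] [Group Y] [Fintype Y]
  [DecidableEq B] [DecidableEq Y]

namespace Gd

variable (A : Gd k γ B Y)

lemma power_path (H : SimpleGraph (B × (B → Y × Y)))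
    (hH : ∀ (x : B) (w : B → Y × Y), ∀ s ∈ A.EY.S, H.Adj (x, w) (x, setp w x (s * (w x).1)))
    (n : ℕ) (x : B) (w : B → Y × Y) (v : Y) (hv : v ∈ nb A.EY n (w x).1) :
    ∃ W : H.Walk (x, w) (x, setp w x v), W.length ≤ n := by
  induction n generalizing v with
  | zero =>
    simp only [nb, Finset.mem_singleton] at hv
    subst hv
    rw [setp_self]
    exact ⟨SimpleGraph.Walk.nil, by simp⟩
  | succ n ih =>
    rw [mem_nb_succ] at hv
    rcases hv with hv | ⟨s, hs, z, hz, rfl⟩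
    · obtain ⟨W, hW⟩ := ih v hv
      exact ⟨W, by omega⟩
    · obtain ⟨W, hW⟩ := ih z hz
      have h := hH x (setp w x z) s hs
      simp only [setp_fst, setp_setp] at h
      refine ⟨W.append (SimpleGraph.Walk.cons h SimpleGraph.Walk.nil), ?_⟩
      rw [SimpleGraph.Walk.length_append, SimpleGraph.Walk.length_cons,
        SimpleGraph.Walk.length_nil]
      omega

lemma upd_fst (w : B → Y × Y) (x : B) (s : Y) :
    Function.update w x ((s, (1 : Y)) * w x) = setp w x (s * (w x).1) := by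
  unfold setp
  congr 1
  ext <;> simp

lemma upd_snd (w : B → Y × Y) (x : B) (s : Y) :
    Function.update w x (((1 : Y), s) * w x) = setc w x (s * (w x).2) := by
  unfold setc
  congr 1
  ext <;> simp

lemma wr_adj_iff (hγ : 0 ≤ γ) (p q : B × (B → Y × Y)) :
    (wrG A.EB (prodE A.EY hγ)).Adj p q ↔
      (∃ s ∈ A.EB.S, q = (s * p.1, p.2)) ∨ (q.1 = p.1 ∧ q.2 ∈ A.lt p) := by
  unfold wrG
  simp only
  constructor
  · rintro (⟨s, hs, h⟩ | ⟨s, hs, rfl⟩)
    · exact Or.inl ⟨s, hs, h⟩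
    · right
      refine ⟨rfl, ?_⟩
      rw [mem_lt]
      rcases (mem_prodE _ _ _).1 hs with ⟨s', hs', rfl⟩ | ⟨s', hs', rfl⟩
      · left; exact ⟨s', hs', upd_fst _ _ _⟩
      · right; exact ⟨s', hs', upd_snd _ _ _⟩
  · rintro (⟨s, hs, h⟩ | ⟨h1, h2⟩)
    · exact Or.inl ⟨s, hs, h⟩
    · right
      rw [mem_lt] at h2
      rcases h2 with ⟨s, hs, h2⟩ | ⟨s, hs, h2⟩
      · refine ⟨(s, 1), (mem_prodE _ _ _).2 (Or.inl ⟨s, hs, rfl⟩), ?_⟩
        rw [upd_fst, ← h2, ← h1]
      · refine ⟨(1, s), (mem_prodE _ _ _).2 (Or.inr ⟨s, hs, rfl⟩), ?_⟩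
        rw [upd_snd, ← h2, ← h1]

/-- Outward edges of the wreath product graph. -/
lemma out_path (x s : B) (w : B → Y × Y) (hs : s ∈ A.EB.S)
    (h : A.lev (s * x) = A.lev x + 1 ∧ A.lev x < A.st (clk w)) :
    ∃ W : A.gr.Walk (x, w) (s * x, w), W.length ≤ A.C4 + 1 := by
  classical
  by_cases hu : (w x).1 ∈ A.D
  · obtain ⟨u', hu', i, hi⟩ := A.hO3 _ hu
    have h1 : u' ∈ nb A.EY A.C4 (w x).1 := by
      apply nb_symm
      rw [← hi]
      exact A.hO1 u' hu' i
    obtain ⟨W, hW⟩ := A.power_path A.gr (fun x w s hs => Or.inl ⟨rfl, by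
      rw [mem_lt]; exact Or.inl ⟨s, hs, rfl⟩⟩) A.C4 x w u' h1
    have hadj : A.gr.Adj (x, setp w x u') (s * x, w) := by
      right
      refine ⟨s, hs, rfl, ?_⟩
      unfold wt
      simp only [clk_setp]
      rw [if_pos h, Finset.mem_image]
      refine ⟨(w x).1, ?_, by simp⟩
      rw [Finset.mem_filter]
      refine ⟨Finset.mem_univ _, Or.inl ⟨?_, i, ?_⟩⟩
      · simpa using hu'
      · simpa using hi
    refine ⟨W.append (SimpleGraph.Walk.cons hadj SimpleGraph.Walk.nil), ?_⟩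
    rw [SimpleGraph.Walk.length_append, SimpleGraph.Walk.length_cons,
      SimpleGraph.Walk.length_nil]
    omega
  · have hadj : A.gr.Adj (x, w) (s * x, w) := by
      right
      refine ⟨s, hs, rfl, ?_⟩
      unfold wt
      rw [if_pos h, Finset.mem_image]
      refine ⟨(w x).1, ?_, by simp⟩
      rw [Finset.mem_filter]
      exact ⟨Finset.mem_univ _, Or.inr ⟨hu, rfl⟩⟩
    refine ⟨SimpleGraph.Walk.cons hadj SimpleGraph.Walk.nil, ?_⟩
    rw [SimpleGraph.Walk.length_cons, SimpleGraph.Walk.length_nil]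
    omega

lemma path_gr (hγ : 0 ≤ γ) (p q : B × (B → Y × Y))
    (h : (wrG A.EB (prodE A.EY hγ)).Adj p q) :
    ∃ W : A.gr.Walk p q, W.length ≤ A.C4 + 1 := by
  classical
  rw [wr_adj_iff] at h
  rcases h with ⟨s, hs, rfl⟩ | h
  · obtain ⟨x, w⟩ := p
    simp only
    have hss : s * (s * x) = x := by rw [← mul_assoc, A.EB.invol s hs, one_mul]
    by_cases h1 : A.lev (s * x) = A.lev x + 1 ∧ A.lev x < A.st (clk w)
    · exact A.out_path x s w hs h1
    · by_cases h2 : A.lev x = A.lev (s * x) + 1 ∧ A.lev (s * x) < A.st (clk w)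
      · have hW0 := A.out_path (s * x) s w hs (by rw [hss]; exact h2)
        rw [hss] at hW0
        obtain ⟨W, hW⟩ := hW0
        exact ⟨W.reverse, by rw [SimpleGraph.Walk.length_reverse]; exact hW⟩
      · have hadj : A.gr.Adj (x, w) (s * x, w) := by
          right
          refine ⟨s, hs, rfl, ?_⟩
          unfold wt
          rw [if_neg h1, if_neg h2, Finset.mem_singleton]
        refine ⟨SimpleGraph.Walk.cons hadj SimpleGraph.Walk.nil, ?_⟩
        rw [SimpleGraph.Walk.length_cons, SimpleGraph.Walk.length_nil]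
        omega
  · have hadj : A.gr.Adj p q := Or.inl h
    refine ⟨SimpleGraph.Walk.cons hadj SimpleGraph.Walk.nil, ?_⟩
    rw [SimpleGraph.Walk.length_cons, SimpleGraph.Walk.length_nil]
    omega

/-- Diagonal edges realised in the wreath product graph. -/
lemma diag_path (hγ : 0 ≤ γ) (x s : B) (w : B → Y × Y) (hs : s ∈ A.EB.S) (v : Y)
    (h : A.link (w x).1 v) :
    ∃ W : (wrG A.EB (prodE A.EY hγ)).Walk (x, w) (s * x, setp w x v),
      W.length ≤ A.C4 + 1 := by
  have h1 : v ∈ nb A.EY A.C4 (w x).1 := by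
    rcases h with ⟨hu, i, rfl⟩ | ⟨_, rfl⟩
    · exact A.hO1 _ hu i
    · exact nb_self _ _ _
  obtain ⟨W, hW⟩ := A.power_path (wrG A.EB (prodE A.EY hγ)) (fun x w s hs => by
    rw [wr_adj_iff]
    exact Or.inr ⟨rfl, by rw [mem_lt]; exact Or.inl ⟨s, hs, rfl⟩⟩) A.C4 x w v h1
  have hadj : (wrG A.EB (prodE A.EY hγ)).Adj (x, setp w x v) (s * x, setp w x v) := by
    rw [wr_adj_iff]
    exact Or.inl ⟨s, hs, rfl⟩
  refine ⟨W.append (SimpleGraph.Walk.cons hadj SimpleGraph.Walk.nil), ?_⟩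
  rw [SimpleGraph.Walk.length_append, SimpleGraph.Walk.length_cons,
    SimpleGraph.Walk.length_nil]
  omega

lemma path_wr (hγ : 0 ≤ γ) (p q : B × (B → Y × Y)) (h : A.gr.Adj p q) :
    ∃ W : (wrG A.EB (prodE A.EY hγ)).Walk p q, W.length ≤ A.C4 + 1 := by
  classical
  rcases h with h | ⟨s, hs, h1, h2⟩
  · have hadj : (wrG A.EB (prodE A.EY hγ)).Adj p q := by
      rw [wr_adj_iff]; exact Or.inr h
    refine ⟨SimpleGraph.Walk.cons hadj SimpleGraph.Walk.nil, ?_⟩
    rw [SimpleGraph.Walk.length_cons, SimpleGraph.Walk.length_nil]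
    omega
  · obtain ⟨x, w⟩ := p
    obtain ⟨y, w'⟩ := q
    simp only at h1 h2
    subst h1
    have hss : s * (s * x) = x := by rw [← mul_assoc, A.EB.invol s hs, one_mul]
    unfold wt at h2
    split_ifs at h2 with c1 c2
    · rw [Finset.mem_image] at h2
      obtain ⟨v, hv, rfl⟩ := h2
      rw [Finset.mem_filter] at hv
      exact A.diag_path hγ x s w hs v hv.2
    · rw [Finset.mem_image] at h2
      obtain ⟨u, hu, rfl⟩ := h2
      rw [Finset.mem_filter] at hu
      simp only at hu ⊢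
      have hW0 := A.diag_path hγ (s * x) s (setp w (s * x) u) hs ((w (s * x)).1)
        (by simpa using hu.2)
      rw [setp_setp, setp_self, hss] at hW0
      obtain ⟨W, hW⟩ := hW0
      exact ⟨W.reverse, by rw [SimpleGraph.Walk.length_reverse]; exact hW⟩
    · rw [Finset.mem_singleton] at h2
      simp only at h2 ⊢
      rw [h2]
      have hadj : (wrG A.EB (prodE A.EY hγ)).Adj (x, w) (s * x, w) := by
        rw [wr_adj_iff]; exact Or.inl ⟨s, hs, rfl⟩
      refine ⟨SimpleGraph.Walk.cons hadj SimpleGraph.Walk.nil, ?_⟩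
      rw [SimpleGraph.Walk.length_cons, SimpleGraph.Walk.length_nil]
      omega

theorem quasiIso (hγ : 0 < γ) : A.gr.Connected ∧
    QuasiIso ((A.C4 + 1 : ℕ) : ℝ) 0 (wrG A.EB (prodE A.EY hγ.le)) A.gr :=
  qi_of_adj _ _ (A.C4 + 1) (by omega) (wr_connected _ _ hγ hγ) (A.path_gr hγ.le)
    (A.path_wr hγ.le)

end Gd

end Pool.Agent.MP50f558
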