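import Mathlib
import Pool.Agent.Lib.MP_50f558_pr.Chain
import Pool.Agent.Lib.MP_50f558_pr.Graph

set_option autoImplicit false
set_option linter.unusedSectionVars false
set_option linter.unusedVariables false

/-!
Lower bound: constants, clock lemma.
-/

namespace Pool.Agent.MP50f558

variable {k : ℕ} {γ : ℝ} {B Y : Type} [Group B] [Fintype B] [Group Y] [Fintype Y]
  [DecidableEq B] [DecidableEq Y]

/-- `1 / (4 k)`. -/
noncomputable def c0 (k : ℕ) : ℝ := 1 / (4 * k)

/-- contraction rate. -/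
noncomputable def e1 (k : ℕ) (γ : ℝ) : ℝ := g1 k γ / 2

/-- bound of the Green functions. -/
noncomputable def CK (γ : ℝ) (K : ℕ) : ℝ := 8 * 2 ^ K / γ

/-- exponential rate. -/
noncomputable def th (k : ℕ) (γ : ℝ) (K M : ℕ) : ℝ := e1 k γ * c0 k ^ 2 / (4 * CK γ K * M)

/-- weight of the threshold function. -/
noncomputable def kap (k M : ℕ) : ℝ := c0 k / M

/-- base of the counting exponential. -/
noncomputable def Eb (k : ℕ) (γ : ℝ) (K M : ℕ) : ℝ :=
  1 + th k γ K M / (k * (1 + th k γ K M * CK γ K))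

/-- growth of the visit counting function. -/
noncomputable def lam1 (k : ℕ) (γ : ℝ) : ℝ := 1 / (1 - e1 k γ / 8)

section consts

variable {K M : ℕ}

lemma c0_pos (hk : 0 < k) : 0 < c0 k := by unfold c0; positivity

lemma c0_le (hk : 0 < k) : c0 k ≤ 1 / 4 := by
  have : (1 : ℝ) ≤ k := by exact_mod_cast hk
  unfold c0
  rw [div_le_div_iff₀ (by positivity) (by norm_num)]
  linarith

lemma e1_pos (hk : 0 < k) (hγ : 0 < γ) : 0 < e1 k γ := by
  have := g1_pos (k := k) hk hγ
  unfold e1; positivity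

lemma e1_le (hk : 0 < k) (hγ1 : γ ≤ 1) : e1 k γ ≤ 1 / 16 := by
  have := g1_le (k := k) hk hγ1
  unfold e1; linarith

lemma CK_ge (hγ : 0 < γ) (hγ1 : γ ≤ 1) : 8 ≤ CK γ K := by
  unfold CK
  rw [le_div_iff₀ hγ]
  have : (1 : ℝ) ≤ 2 ^ K := one_le_pow₀ (by norm_num)
  nlinarith

lemma th_CK (hγ : 0 < γ) (hγ1 : γ ≤ 1) (hM : 1 ≤ M) :
    th k γ K M * CK γ K = e1 k γ * c0 k ^ 2 / (4 * M) := by
  have h1 : 0 < CK γ K := by linarith [CK_ge (K := K) hγ hγ1]
  have h2 : (0 : ℝ) < M := by exact_mod_cast hM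
  unfold th
  field_simp

lemma th_pos (hk : 0 < k) (hγ : 0 < γ) (hγ1 : γ ≤ 1) (hM : 1 ≤ M) : 0 < th k γ K M := by
  have h1 : 0 < CK γ K := by linarith [CK_ge (K := K) hγ hγ1]
  have h2 : (0 : ℝ) < M := by exact_mod_cast hM
  have h3 := e1_pos (k := k) hk hγ
  have h4 := c0_pos hk
  unfold th; positivity

lemma th_CK_le (hk : 0 < k) (hγ : 0 < γ) (hγ1 : γ ≤ 1) (hM : 1 ≤ M) :
    th k γ K M * CK γ K ≤ 1 / 4 := by
  rw [th_CK hγ hγ1 hM]
  have h2 : (1 : ℝ) ≤ M := by exact_mod_cast hM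
  have h3 := e1_pos (k := k) hk hγ
  have h3' := e1_le (k := k) hk hγ1
  have h4 := c0_pos hk
  have h4' := c0_le hk
  rw [div_le_div_iff₀ (by positivity) (by norm_num)]
  have h5 : c0 k ^ 2 ≤ 1 := by nlinarith
  have h6 : e1 k γ * c0 k ^ 2 ≤ 1 := by nlinarith
  linarith

lemma th_le (hk : 0 < k) (hγ : 0 < γ) (hγ1 : γ ≤ 1) (hM : 1 ≤ M) : th k γ K M ≤ 1 / 4 := by
  have h1 := th_pos (K := K) hk hγ hγ1 hM
  have h2 := CK_ge (K := K) hγ hγ1
  have h3 := th_CK_le (K := K) hk hγ hγ1 hM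
  nlinarith

lemma Eb_gt (hk : 0 < k) (hγ : 0 < γ) (hγ1 : γ ≤ 1) (hM : 1 ≤ M) : 1 < Eb k γ K M := by
  have h1 := th_pos (K := K) hk hγ hγ1 hM
  have h2 := CK_ge (K := K) hγ hγ1
  have h3 : (0 : ℝ) < k := by exact_mod_cast hk
  unfold Eb
  have : 0 < th k γ K M / (k * (1 + th k γ K M * CK γ K)) := by positivity
  linarith

lemma Eb_le (hk : 0 < k) (hγ : 0 < γ) (hγ1 : γ ≤ 1) (hM : 1 ≤ M) : Eb k γ K M ≤ 2 := by
  have h1 := th_pos (K := K) hk hγ hγ1 hM
  have h1' := th_le (K := K) hk hγ hγ1 hM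
  have h2 := CK_ge (K := K) hγ hγ1
  have h3 : (1 : ℝ) ≤ k := by exact_mod_cast hk
  unfold Eb
  have : th k γ K M / (k * (1 + th k γ K M * CK γ K)) ≤ 1 := by
    rw [div_le_one (by positivity)]
    have : 0 < th k γ K M * CK γ K := by positivity
    nlinarith
  linarith

/-- Lower bound of the base by an exponential. -/
lemma Eb_exp (hk : 0 < k) (hγ : 0 < γ) (hγ1 : γ ≤ 1) (hM : 1 ≤ M) :
    Real.exp (th k γ K M / (2 * k)) ≤ Eb k γ K M := by
  have h1 := th_pos (K := K) hk hγ hγ1 hM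
  have h1' := th_le (K := K) hk hγ hγ1 hM
  have h2 := CK_ge (K := K) hγ hγ1
  have h2' := th_CK_le (K := K) hk hγ hγ1 hM
  have h3 : (1 : ℝ) ≤ k := by exact_mod_cast hk
  have hE := Eb_gt (K := K) hk hγ hγ1 hM
  have hE0 : 0 < Eb k γ K M := by linarith
  rw [← Real.le_log_iff_exp_le hE0]
  have h4 := Real.one_sub_inv_le_log_of_pos hE0
  refine le_trans ?_ h4
  set x : ℝ := th k γ K M / (k * (1 + th k γ K M * CK γ K)) with hx
  have hx0 : 0 < x := by
    rw [hx]; have : 0 < th k γ K M * CK γ K := by positivity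
    positivity
  have hEx : Eb k γ K M = 1 + x := rfl
  have h5 : 1 - (Eb k γ K M)⁻¹ = x / (1 + x) := by
    rw [hEx]; field_simp; ring
  rw [h5, div_le_div_iff₀ (by positivity) (by positivity)]
  have h6 : x * (k * (1 + th k γ K M * CK γ K)) = th k γ K M := by
    rw [hx]; have : 0 < th k γ K M * CK γ K := by positivity
    field_simp
  have h7 : th k γ K M * x ≤ x * k := by nlinarith
  have h8 : 0 ≤ x * k := by positivity
  have h9 : x * (k * (th k γ K M * CK γ K)) ≤ x * k * (1 / 4) := by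
    calc x * (k * (th k γ K M * CK γ K)) = x * k * (th k γ K M * CK γ K) := by ring
      _ ≤ x * k * (1 / 4) := mul_le_mul_of_nonneg_left h2' h8
  have h10 : th k γ K M = x * k + x * (k * (th k γ K M * CK γ K)) := by
    nth_rewrite 1 [← h6]; ring
  have h11 : th k γ K M * x ≤ x * k * (1 / 4) := by nlinarith
  have h12 : th k γ K M * (1 + x) = th k γ K M + th k γ K M * x := by ring
  rw [h12]
  nlinarith

lemma lam1_gt (hk : 0 < k) (hγ : 0 < γ) (hγ1 : γ ≤ 1) : 1 < lam1 k γ := by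
  have h1 := e1_pos (k := k) hk hγ
  have h2 := e1_le (k := k) hk hγ1
  unfold lam1
  rw [lt_div_iff₀ (by linarith)]
  linarith

lemma lam1_le (hk : 0 < k) (hγ : 0 < γ) (hγ1 : γ ≤ 1) : lam1 k γ ≤ 2 := by
  have h1 := e1_pos (k := k) hk hγ
  have h2 := e1_le (k := k) hk hγ1
  unfold lam1
  rw [div_le_iff₀ (by linarith)]
  linarith

lemma kap_pos (hk : 0 < k) (hM : 1 ≤ M) : 0 < kap k M := by
  have := c0_pos hk
  have h2 : (0 : ℝ) < M := by exact_mod_cast hM
  unfold kap; positivity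

lemma kap_le (hk : 0 < k) (hM : 1 ≤ M) : kap k M ≤ 1 := by
  have := c0_le hk
  have h2 : (1 : ℝ) ≤ M := by exact_mod_cast hM
  unfold kap
  rw [div_le_one (by linarith)]
  linarith

end consts

/-- The sites of low level. -/
def Gd.Bk (A : Gd k γ B Y) : Finset B := Finset.univ.filter (fun b => A.lev b < A.K)

lemma Gd.mem_Bk (A : Gd k γ B Y) (b : B) : b ∈ A.Bk ↔ A.lev b < A.K := by
  unfold Gd.Bk; simp

lemma Gd.st_update (A : Gd k γ B Y) (c : B → Y) (x : B) (y : Y) (h : x ∈ A.Bk → (A.On (c x) ↔ A.On y)) :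
    A.st (Function.update c x y) = A.st c := by
  refine A.st_congr _ _ fun b hb => ?_
  by_cases hbx : b = x
  · subst hbx
    rw [Function.update_self]
    exact (h ((A.mem_Bk b).2 hb)).symm
  · rw [Function.update_of_ne hbx]

/-- Parameters of the lower bound. -/
structure Pr (A : Gd k γ B Y) where
  hk : 0 < k
  hγ : 0 < γ
  hγ1 : γ ≤ 1
  n1 : ℕ
  N0 : ℕ
  n0 : ℕ
  M : ℕ
  hM1 : 1 ≤ M
  hM : A.Bk.card ≤ M
  hT : 5 * M ≤ Fintype.card B
  hOn : ∀ y, A.On y ↔ c0 k ^ N0 < Ph A.EY n1 y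
  htau : 2 * tau A.EY n1 ≤ c0 k ^ N0
  hD : nb A.EY (A.C4 * (2 * n0 + 1)) 1 ⊆ A.D
  lev1 : A.lev 1 = 0
  hN0 : (20 * (M : ℝ)) ^ 2 ≤ Eb k γ A.K M ^ N0

namespace Pr

variable {A : Gd k γ B Y} (P : Pr A)

/-- The clock function. -/
noncomputable def Φ (y : Y) : ℝ := Ph A.EY P.n1 y

/-- The threshold. -/
noncomputable def a0 : ℝ := c0 k ^ P.N0

/-- The error. -/
noncomputable def τ : ℝ := tau A.EY P.n1

lemma a0_pos : 0 < P.a0 := pow_pos (c0_pos P.hk) _

lemma τ_pos : 0 < P.τ := tau_pos A.EY P.hk P.hγ P.hγ1 P.n1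

lemma Φ_nonneg (y : Y) : 0 ≤ P.Φ y := Ph_nonneg A.EY P.hk P.hγ P.n1 y

/-- The threshold function. -/
noncomputable def Psi (c : B → Y) : ℝ :=
  ∑ b ∈ A.Bk, min (P.Φ (c b)) (P.a0 / c0 k) / P.a0

lemma Psi_nonneg (c : B → Y) : 0 ≤ P.Psi c := by
  unfold Psi
  refine Finset.sum_nonneg fun b _ => div_nonneg (le_min (P.Φ_nonneg _) ?_) P.a0_pos.le
  exact div_nonneg P.a0_pos.le (c0_pos P.hk).le

lemma kap_Psi (c : B → Y) : kap k P.M * P.Psi c ≤ 1 := by
  have h0 := P.a0_pos
  have h1 := c0_pos P.hk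
  have hM : (0 : ℝ) < P.M := by exact_mod_cast P.hM1
  have h2 : P.Psi c ≤ P.M * (1 / c0 k) := by
    unfold Psi
    calc ∑ b ∈ A.Bk, min (P.Φ (c b)) (P.a0 / c0 k) / P.a0
        ≤ ∑ b ∈ A.Bk, 1 / c0 k := by
          refine Finset.sum_le_sum fun b _ => ?_
          rw [div_le_iff₀ h0]
          refine (min_le_right _ _).trans (le_of_eq ?_)
          ring
      _ = A.Bk.card * (1 / c0 k) := by rw [Finset.sum_const, nsmul_eq_mul]
      _ ≤ P.M * (1 / c0 k) := by
          gcongr
          exact_mod_cast P.hM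
  calc kap k P.M * P.Psi c ≤ kap k P.M * (P.M * (1 / c0 k)) :=
        mul_le_mul_of_nonneg_left h2 (kap_pos P.hk P.hM1).le
    _ = 1 := by unfold kap; field_simp

lemma Psi_update_in (c : B → Y) (x : B) (hx : x ∈ A.Bk) (y : Y) :
    P.Psi (Function.update c x y) = P.Psi c +
      (min (P.Φ y) (P.a0 / c0 k) - min (P.Φ (c x)) (P.a0 / c0 k)) / P.a0 := by
  unfold Psi
  rw [← Finset.add_sum_erase _ _ hx, ← Finset.add_sum_erase _ _ hx, Function.update_self]
  have : ∑ b ∈ A.Bk.erase x, min (P.Φ (Function.update c x y b)) (P.a0 / c0 k) / P.a0 =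
      ∑ b ∈ A.Bk.erase x, min (P.Φ (c b)) (P.a0 / c0 k) / P.a0 := by
    refine Finset.sum_congr rfl fun b hb => ?_
    rw [Function.update_of_ne (Finset.ne_of_mem_erase hb)]
  rw [this]
  ring

lemma Psi_update_out (c : B → Y) (x : B) (hx : x ∉ A.Bk) (y : Y) :
    P.Psi (Function.update c x y) = P.Psi c := by
  unfold Psi
  refine Finset.sum_congr rfl fun b hb => ?_
  rw [Function.update_of_ne]
  rintro rfl
  exact hx hb

lemma sum_Φ (y : Y) : ∑ s ∈ A.EY.S, P.Φ (s * y) ≤ k * ((1 - e1 k γ) * P.Φ y + P.τ) :=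
  Ph_contract A.EY P.hk P.hγ P.hγ1 P.n1 y

lemma harnack (y : Y) {s : Y} (hs : s ∈ A.EY.S) (hy : P.a0 ≤ P.Φ y) :
    c0 k * P.Φ y ≤ P.Φ (s * y) := by
  have h := Ph_harnack A.EY P.hk P.hγ P.hγ1 P.n1 y hs (P.htau.trans hy)
  unfold Φ c0
  refine le_trans (le_of_eq ?_) h
  ring

include P in
/-- Green functions. -/
lemma exists_gf : ∃ g : B → ℕ → B → ℝ, ∀ b r, r ≤ A.K →
    (∀ x, 0 ≤ g b r x ∧ g b r x ≤ CK γ A.K) ∧
      ∀ x, Lr A.EB A.lev r (g b r) x =
        (if x = b then -1 else 0) + mr A.lev r b / ∑ y, mr A.lev r y := by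
  have h : ∀ b r, ∃ g : B → ℝ, r ≤ A.K →
      (∀ x, 0 ≤ g x ∧ g x ≤ CK γ A.K) ∧
      ∀ x, Lr A.EB A.lev r g x =
        (if x = b then -1 else 0) + mr A.lev r b / ∑ y, mr A.lev r y := by
    intro b r
    by_cases hr : r ≤ A.K
    · obtain ⟨g, h1, h2⟩ := exists_green A.EB P.hγ A.hlev hr b
      exact ⟨g, fun _ => ⟨h1, h2⟩⟩
    · exact ⟨0, fun h => absurd h hr⟩
  choose g hg using h
  exact ⟨g, hg⟩

/-- A choice of Green functions. -/
noncomputable def gf : B → ℕ → B → ℝ := P.exists_gf.choose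

lemma gf_spec (b : B) (r : ℕ) (hr : r ≤ A.K) :
    (∀ x, 0 ≤ P.gf b r x ∧ P.gf b r x ≤ CK γ A.K) ∧
      ∀ x, Lr A.EB A.lev r (P.gf b r) x =
        (if x = b then -1 else 0) + mr A.lev r b / ∑ y, mr A.lev r y :=
  P.exists_gf.choose_spec b r hr

/-- `θ`. -/
noncomputable def θ : ℝ := th k γ A.K P.M
/-- `κ`. -/
noncomputable def κ : ℝ := kap k P.M

lemma θ_pos : 0 < P.θ := th_pos P.hk P.hγ P.hγ1 P.hM1
lemma θCK_le : P.θ * CK γ A.K ≤ 1 / 4 := th_CK_le P.hk P.hγ P.hγ1 P.hM1
lemma κ_pos : 0 < P.κ := kap_pos P.hk P.hM1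
lemma κ_le : P.κ ≤ 1 := kap_le P.hk P.hM1

/-- Green factor. -/
noncomputable def Gf (b : B) (c : B → Y) (x : B) : ℝ := 1 + P.θ * P.gf b (A.st c) x
/-- Threshold factor. -/
noncomputable def Uf (c : B → Y) : ℝ := 1 + P.κ * P.Psi c

lemma Gf_ge (b : B) (c : B → Y) (x : B) : 1 ≤ P.Gf b c x := by
  unfold Gf
  have := ((P.gf_spec b (A.st c) (A.st_le c)).1 x).1
  have := mul_nonneg P.θ_pos.le this
  linarith

lemma Gf_le (b : B) (c : B → Y) (x : B) : P.Gf b c x ≤ 1 + P.θ * CK γ A.K := by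
  unfold Gf
  have := ((P.gf_spec b (A.st c) (A.st_le c)).1 x).2
  have := mul_le_mul_of_nonneg_left this P.θ_pos.le
  linarith

lemma Uf_ge (c : B → Y) : 1 ≤ P.Uf c := by
  unfold Uf
  have := mul_nonneg P.κ_pos.le (P.Psi_nonneg c)
  linarith

lemma Uf_le (c : B → Y) : P.Uf c ≤ 2 := by
  unfold Uf
  have := P.kap_Psi c
  unfold κ
  linarith

/-- Key clock lemma. -/
lemma clock_sum (b x : B) (c : B → Y) :
    ∑ s ∈ A.EY.S, P.Gf b (Function.update c x (s * c x)) x *
        P.Uf (Function.update c x (s * c x)) ≤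
      k * (P.Gf b c x * P.Uf c) + (1 + P.θ * CK γ A.K) * (P.κ * k * P.τ / P.a0) := by
  have hk' : (0 : ℝ) < k := by exact_mod_cast P.hk
  have ha0 := P.a0_pos
  have hc0 := c0_pos P.hk
  have hc0' := c0_le P.hk
  have hτ := P.τ_pos
  have hκ := P.κ_pos
  have hθ := P.θ_pos
  have hCK : 0 < CK γ A.K := by linarith [CK_ge (K := A.K) P.hγ P.hγ1]
  have herr : 0 ≤ (1 + P.θ * CK γ A.K) * (P.κ * k * P.τ / P.a0) := by positivity
  have hG1 := P.Gf_ge b c x
  have hG2 := P.Gf_le b c x
  have hU1 := P.Uf_ge c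
  have hU2 := P.Uf_le c
  have he1 := e1_pos (k := k) P.hk P.hγ
  have htau2 : P.τ ≤ P.a0 / 2 := by
    have := P.htau
    unfold τ a0
    linarith
  -- termwise bound suffices in two cases
  have hterm : (∀ s ∈ A.EY.S, P.Gf b (Function.update c x (s * c x)) x *
        P.Uf (Function.update c x (s * c x)) ≤ P.Gf b c x * P.Uf c) →
      ∑ s ∈ A.EY.S, P.Gf b (Function.update c x (s * c x)) x *
        P.Uf (Function.update c x (s * c x)) ≤
      k * (P.Gf b c x * P.Uf c) + (1 + P.θ * CK γ A.K) * (P.κ * k * P.τ / P.a0) := by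
    intro h
    have := Finset.sum_le_sum h
    rw [Finset.sum_const, A.EY.card_S, nsmul_eq_mul] at this
    linarith
  by_cases hx : x ∈ A.Bk
  swap
  · apply hterm
    intro s _
    have h1 : A.st (Function.update c x (s * c x)) = A.st c :=
      A.st_update c x _ (fun h => absurd h hx)
    unfold Gf Uf
    rw [h1, P.Psi_update_out c x hx]
  rcases lt_or_ge (P.a0 / c0 k) (P.Φ (c x)) with h1 | h1
  · -- far above the threshold
    apply hterm
    intro s hs
    have h2 : P.a0 ≤ P.Φ (c x) := by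
      refine le_trans ?_ h1.le
      rw [le_div_iff₀ hc0]
      nlinarith
    have h3 : P.a0 < P.Φ (s * c x) := by
      refine lt_of_lt_of_le ?_ (P.harnack (c x) hs h2)
      rw [div_lt_iff₀ hc0] at h1
      linarith
    have h4 : A.st (Function.update c x (s * c x)) = A.st c := by
      refine A.st_update c x _ fun _ => ?_
      rw [P.hOn, P.hOn]
      refine iff_of_true ?_ h3
      refine lt_of_lt_of_le ?_ h1.le
      change P.a0 < P.a0 / c0 k
      rw [lt_div_iff₀ hc0]
      nlinarith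
    have h5 : P.Psi (Function.update c x (s * c x)) ≤ P.Psi c := by
      rw [P.Psi_update_in c x hx, min_eq_right h1.le]
      have : (min (P.Φ (s * c x)) (P.a0 / c0 k) - P.a0 / c0 k) / P.a0 ≤ 0 := by
        apply div_nonpos_of_nonpos_of_nonneg _ ha0.le
        linarith [min_le_right (P.Φ (s * c x)) (P.a0 / c0 k)]
      linarith
    have h6 : P.Gf b (Function.update c x (s * c x)) x = P.Gf b c x := by
      unfold Gf; rw [h4]
    rw [h6]
    refine mul_le_mul_of_nonneg_left ?_ (by linarith)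
    unfold Uf
    have := mul_le_mul_of_nonneg_left h5 hκ.le
    linarith
  · -- sum of Psi
    have hPsum : ∑ s ∈ A.EY.S, P.Psi (Function.update c x (s * c x)) ≤
        k * P.Psi c + (k / P.a0) * (P.τ - e1 k γ * P.Φ (c x)) := by
      have h2 : ∀ s ∈ A.EY.S, P.Psi (Function.update c x (s * c x)) ≤
          P.Psi c + (P.Φ (s * c x) - P.Φ (c x)) / P.a0 := by
        intro s _
        rw [P.Psi_update_in c x hx, min_eq_left h1]
        have := min_le_left (P.Φ (s * c x)) (P.a0 / c0 k)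
        gcongr
      refine (Finset.sum_le_sum h2).trans ?_
      rw [Finset.sum_add_distrib, Finset.sum_const, A.EY.card_S, nsmul_eq_mul, ← Finset.sum_div,
        Finset.sum_sub_distrib, Finset.sum_const, A.EY.card_S, nsmul_eq_mul]
      have h3 := P.sum_Φ (c x)
      have h4 : (∑ s ∈ A.EY.S, P.Φ (s * c x) - k * P.Φ (c x)) / P.a0 ≤
          (k / P.a0) * (P.τ - e1 k γ * P.Φ (c x)) := by
        rw [div_le_iff₀ ha0]
        have : (k / P.a0) * (P.τ - e1 k γ * P.Φ (c x)) * P.a0 =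
            k * (P.τ - e1 k γ * P.Φ (c x)) := by field_simp
        rw [this]
        nlinarith
      linarith
    rcases lt_or_ge (P.Φ (c x)) (c0 k * P.a0) with h2 | h2
    · -- far below the threshold
      have h3 : ∀ s ∈ A.EY.S, A.st (Function.update c x (s * c x)) = A.st c := by
        intro s hs
        refine A.st_update c x _ fun _ => ?_
        rw [P.hOn, P.hOn]
        refine iff_of_false ?_ ?_
        · intro h
          change P.a0 < P.Φ (c x) at h
          nlinarith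
        · intro h
          change P.a0 < P.Φ (s * c x) at h
          have h4 := P.harnack (s * c x) hs h.le
          rw [← mul_assoc, A.EY.invol s hs, one_mul] at h4
          nlinarith
      have h4 : ∑ s ∈ A.EY.S, P.Gf b (Function.update c x (s * c x)) x *
          P.Uf (Function.update c x (s * c x)) =
          P.Gf b c x * (k + P.κ * ∑ s ∈ A.EY.S, P.Psi (Function.update c x (s * c x))) := by
        calc ∑ s ∈ A.EY.S, P.Gf b (Function.update c x (s * c x)) x *
            P.Uf (Function.update c x (s * c x))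
            = ∑ s ∈ A.EY.S, P.Gf b c x *
                (1 + P.κ * P.Psi (Function.update c x (s * c x))) := by
              refine Finset.sum_congr rfl fun s hs => ?_
              unfold Gf Uf
              rw [h3 s hs]
          _ = _ := by
              rw [← Finset.mul_sum, Finset.sum_add_distrib, Finset.sum_const, A.EY.card_S,
                nsmul_eq_mul, mul_one, ← Finset.mul_sum]
      rw [h4]
      have h5 : ∑ s ∈ A.EY.S, P.Psi (Function.update c x (s * c x)) ≤
          k * P.Psi c + k * P.τ / P.a0 := by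
        refine hPsum.trans ?_
        have h6 : (k / P.a0) * (P.τ - e1 k γ * P.Φ (c x)) ≤ (k / P.a0) * P.τ := by
          refine mul_le_mul_of_nonneg_left ?_ (by positivity)
          have := mul_nonneg he1.le (P.Φ_nonneg (c x))
          linarith
        have h7 : (k / P.a0) * P.τ = k * P.τ / P.a0 := by ring
        linarith
      calc P.Gf b c x * (k + P.κ * ∑ s ∈ A.EY.S, P.Psi (Function.update c x (s * c x)))
          ≤ P.Gf b c x * (k + P.κ * (k * P.Psi c + k * P.τ / P.a0)) := by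
            refine mul_le_mul_of_nonneg_left ?_ (by linarith)
            have := mul_le_mul_of_nonneg_left h5 hκ.le
            linarith
        _ = k * (P.Gf b c x * P.Uf c) + P.Gf b c x * (P.κ * k * P.τ / P.a0) := by
            unfold Uf; ring
        _ ≤ _ := by
            have : 0 ≤ P.κ * k * P.τ / P.a0 := by positivity
            have := mul_le_mul_of_nonneg_right hG2 this
            linarith
    · -- near the threshold
      have h3 : ∑ s ∈ A.EY.S, P.Gf b (Function.update c x (s * c x)) x *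
          P.Uf (Function.update c x (s * c x)) ≤
          (1 + P.θ * CK γ A.K) *
            (k + P.κ * ∑ s ∈ A.EY.S, P.Psi (Function.update c x (s * c x))) := by
        calc ∑ s ∈ A.EY.S, P.Gf b (Function.update c x (s * c x)) x *
            P.Uf (Function.update c x (s * c x))
            ≤ ∑ s ∈ A.EY.S, (1 + P.θ * CK γ A.K) *
                (1 + P.κ * P.Psi (Function.update c x (s * c x))) := by
              refine Finset.sum_le_sum fun s hs => ?_
              refine mul_le_mul (P.Gf_le b _ x) le_rfl ?_ (by positivity)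
              have := P.Uf_ge (Function.update c x (s * c x))
              linarith
          _ = _ := by
              rw [← Finset.mul_sum, Finset.sum_add_distrib, Finset.sum_const, A.EY.card_S,
                nsmul_eq_mul, mul_one, ← Finset.mul_sum]
      refine h3.trans ?_
      have h4 : k + P.κ * ∑ s ∈ A.EY.S, P.Psi (Function.update c x (s * c x)) ≤
          k * P.Uf c - P.κ * k * (e1 k γ * c0 k) + P.κ * k * P.τ / P.a0 := by
        have h5 : ∑ s ∈ A.EY.S, P.Psi (Function.update c x (s * c x)) ≤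
            k * P.Psi c - k * (e1 k γ * c0 k) + k * P.τ / P.a0 := by
          refine hPsum.trans ?_
          have h6 : (k / P.a0) * (P.τ - e1 k γ * P.Φ (c x)) ≤
              (k / P.a0) * (P.τ - e1 k γ * (c0 k * P.a0)) := by
            refine mul_le_mul_of_nonneg_left ?_ (by positivity)
            have := mul_le_mul_of_nonneg_left h2 he1.le
            linarith
          have h7 : (k / P.a0) * (P.τ - e1 k γ * (c0 k * P.a0)) =
              - k * (e1 k γ * c0 k) + k * P.τ / P.a0 := by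
            field_simp
            ring
          linarith
        have := mul_le_mul_of_nonneg_left h5 hκ.le
        unfold Uf
        have h8 : P.κ * (k * P.Psi c - k * (e1 k γ * c0 k) + k * P.τ / P.a0) =
            k * (P.κ * P.Psi c) - P.κ * k * (e1 k γ * c0 k) + P.κ * k * P.τ / P.a0 := by ring
        rw [h8] at this
        linarith
      have h5 : (1 + P.θ * CK γ A.K) *
          (k * P.Uf c - P.κ * k * (e1 k γ * c0 k)) ≤ k * (P.Gf b c x * P.Uf c) := by
        have hM : (0 : ℝ) < P.M := by exact_mod_cast P.hM1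
        have h6 : 2 * (P.θ * CK γ A.K) ≤ P.κ * (e1 k γ * c0 k) := by
          unfold θ κ kap
          rw [th_CK P.hγ P.hγ1 P.hM1]
          have : 2 * (e1 k γ * c0 k ^ 2 / (4 * P.M)) =
            (1 / 2) * (c0 k / P.M * (e1 k γ * c0 k)) := by field_simp; ring
          rw [this]
          have : 0 ≤ c0 k / P.M * (e1 k γ * c0 k) := by positivity
          linarith
        have h7 : 0 ≤ P.θ * CK γ A.K := by positivity
        have h8 : (P.θ * CK γ A.K) * P.Uf c ≤ 2 * (P.θ * CK γ A.K) := by nlinarith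
        have h9 : 0 ≤ P.κ * (e1 k γ * c0 k) := by positivity
        have h10 : P.Uf c ≤ P.Gf b c x * P.Uf c := by nlinarith
        have h11 : (1 + P.θ * CK γ A.K) * (P.Uf c - P.κ * (e1 k γ * c0 k)) ≤ P.Uf c := by
          nlinarith
        calc (1 + P.θ * CK γ A.K) * (k * P.Uf c - P.κ * k * (e1 k γ * c0 k))
            = k * ((1 + P.θ * CK γ A.K) * (P.Uf c - P.κ * (e1 k γ * c0 k))) := by ring
          _ ≤ k * P.Uf c := mul_le_mul_of_nonneg_left h11 hk'.le
          _ ≤ _ := mul_le_mul_of_nonneg_left h10 hk'.le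
      calc (1 + P.θ * CK γ A.K) *
            (k + P.κ * ∑ s ∈ A.EY.S, P.Psi (Function.update c x (s * c x)))
          ≤ (1 + P.θ * CK γ A.K) *
            (k * P.Uf c - P.κ * k * (e1 k γ * c0 k) + P.κ * k * P.τ / P.a0) :=
            mul_le_mul_of_nonneg_left h4 (by positivity)
        _ = (1 + P.θ * CK γ A.K) * (k * P.Uf c - P.κ * k * (e1 k γ * c0 k)) +
            (1 + P.θ * CK γ A.K) * (P.κ * k * P.τ / P.a0) := by ring
        _ ≤ _ := by linarith

end Pr

end Pool.Agent.MP50f558
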