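import Mathlib
import Pool.Agent.Lib.MP_50f558_pr.Lower1

set_option autoImplicit false
set_option linter.unusedSectionVars false
set_option linter.unusedVariables false

/-!
Lower bound: augmented chain and drift estimates.
-/

namespace Pool.Agent.MP50f558

variable {k : ℕ} {γ : ℝ} {B Y : Type} [Group B] [Fintype B] [Group Y] [Fintype Y]
  [DecidableEq B] [DecidableEq Y]

/-- Augmented state. -/
structure Aug (B Y : Type) where
  p : B × (B → Y × Y)
  V : B → ℕ
  N : B → ℕ
  W : ℕ → ℝ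
  μ : ℕ
  t : ℕ

namespace Gd

variable (A : Gd k γ B Y)

/-- Update of the augmented state. -/
noncomputable def upd (ω : Aug B Y) (q : B × (B → Y × Y)) : Aug B Y where
  p := q
  V := fun b => ω.V b + if ω.p.1 = b then 1 else 0
  N := fun b => ω.N b + if clk ω.p.2 b = clk q.2 b then 0 else 1
  W := fun r => ω.W r + if r = A.st (clk ω.p.2) then 1 / (2 * (dg A.gr ω.p : ℝ)) else 0
  μ := min ω.μ (A.st (clk q.2))
  t := ω.t + 1

/-- Total mass of the stage `r` network. -/
noncomputable def Z (r : ℕ) : ℝ := ∑ y, mr A.lev r y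

/-- Expected number of visits. -/
noncomputable def Lam (W : ℕ → ℝ) (b : B) : ℝ :=
  ∑ r ∈ Finset.range (A.K + 1), W r * (mr A.lev r b / A.Z r)

lemma Z_pos (r : ℕ) : 0 < A.Z r :=
  Finset.sum_pos (fun y _ => mr_pos _ _ _) ⟨1, Finset.mem_univ _⟩

lemma Lam_upd (ω : Aug B Y) (q : B × (B → Y × Y)) (b : B) :
    A.Lam (A.upd ω q).W b = A.Lam ω.W b + 1 / (2 * (dg A.gr ω.p : ℝ)) *
      (mr A.lev (A.st (clk ω.p.2)) b / A.Z (A.st (clk ω.p.2))) := by
  unfold Lam upd
  simp only [add_mul, Finset.sum_add_distrib, ite_mul, zero_mul]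
  rw [Finset.sum_ite_eq', if_pos]
  rw [Finset.mem_range]
  exact Nat.lt_succ_of_le (A.st_le _)

end Gd

namespace Pr

variable {A : Gd k γ B Y} (P : Pr A)

/-- Base. -/
noncomputable def E : ℝ := Eb k γ A.K P.M

lemma E_gt : 1 < P.E := Eb_gt P.hk P.hγ P.hγ1 P.hM1
lemma E_le : P.E ≤ 2 := Eb_le P.hk P.hγ P.hγ1 P.hM1

/-- Exponential prefactor. -/
noncomputable def Q (N : ℕ) (L : ℝ) : ℝ := 1 / (20 * P.M) * P.E ^ N * Real.exp (-(P.θ * L))

lemma Q_pos (N : ℕ) (L : ℝ) : 0 < P.Q N L := by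
  have h := P.E_gt
  have hM : (0 : ℝ) < P.M := by exact_mod_cast P.hM1
  unfold Q
  have : 0 < P.E := by linarith
  positivity

/-- The counting supermartingale. -/
noncomputable def f1 (ω : Aug B Y) (b : B) : ℝ :=
  P.Q (ω.N b) (A.Lam ω.W b) * (P.Gf b (clk ω.p.2) ω.p.1 * P.Uf (clk ω.p.2))

/-- The power lamp supermartingale. -/
noncomputable def f2 (ω : Aug B Y) (b : B) : ℝ :=
  P.Φ (clk ω.p.2 b) * (lam1 k γ ^ (min (ω.V b) P.n0) / (lam1 k γ ^ P.n0 * P.a0))

/-- The full function. -/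
noncomputable def ff (ω : Aug B Y) : ℝ := ∑ b ∈ A.Bk, (P.f1 ω b + P.f2 ω b)

lemma GU_ge (b x : B) (c : B → Y) : 1 ≤ P.Gf b c x * P.Uf c := by
  have h1 := P.Gf_ge b c x
  have h2 := P.Uf_ge c
  nlinarith

lemma f1_nonneg (ω : Aug B Y) (b : B) : 0 ≤ P.f1 ω b := by
  unfold f1
  have h1 := P.Q_pos (ω.N b) (A.Lam ω.W b)
  have h2 := P.GU_ge b ω.p.1 (clk ω.p.2)
  exact mul_nonneg h1.le (by linarith)

include P in
lemma lam_pos : 0 < lam1 k γ := by
  have := lam1_gt P.hk P.hγ P.hγ1
  linarith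

lemma f2_nonneg (ω : Aug B Y) (b : B) : 0 ≤ P.f2 ω b := by
  unfold f2
  have h1 := P.Φ_nonneg (clk ω.p.2 b)
  have h2 := P.lam_pos
  have h3 := P.a0_pos
  positivity

lemma ff_nonneg (ω : Aug B Y) : 0 ≤ P.ff ω :=
  Finset.sum_nonneg fun b _ => add_nonneg (P.f1_nonneg ω b) (P.f2_nonneg ω b)

lemma f1_lt (ω : Aug B Y) (h : P.ff ω < 1) (b : B) (hb : b ∈ A.Bk) : P.f1 ω b < 1 := by
  have h1 : P.f1 ω b + P.f2 ω b ≤ P.ff ω :=
    Finset.single_le_sum (f := fun b => P.f1 ω b + P.f2 ω b)
      (fun b _ => add_nonneg (P.f1_nonneg ω b) (P.f2_nonneg ω b)) hb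
  linarith [P.f2_nonneg ω b]

lemma f2_lt (ω : Aug B Y) (h : P.ff ω < 1) (b : B) (hb : b ∈ A.Bk) : P.f2 ω b < 1 := by
  have h1 : P.f1 ω b + P.f2 ω b ≤ P.ff ω :=
    Finset.single_le_sum (f := fun b => P.f1 ω b + P.f2 ω b)
      (fun b _ => add_nonneg (P.f1_nonneg ω b) (P.f2_nonneg ω b)) hb
  linarith [P.f1_nonneg ω b]

/-- Real arithmetic behind `drift1`. -/
lemma arith1 {Qe G U K E S n d m th ϑ err I : ℝ} (hQe : 0 ≤ Qe) (hG : 1 ≤ G) (hG2 : G ≤ 1 + ϑ)
    (hU : 1 ≤ U) (hK : 0 < K) (hE : 1 ≤ E) (hth : 0 < th) (hϑ : 0 ≤ ϑ)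
    (hEeq : E = 1 + th / (K * (1 + ϑ))) (hn : 0 ≤ n) (hd : d = 2 * K + n) (herr : 0 ≤ err)
    (hS : S ≤ K * (G * U) + err) (hI : I = 0 ∨ I = 1) :
    Qe * (G * U) / 2 + (K * (Qe * (G * U)) + Qe * ((1 + I * (E - 1)) * S) +
      Qe * U * (n * G + th * (-I + m))) / (2 * d) ≤
      Qe * (G * U + U * (th * (1 / (2 * d) * m))) + Qe * (E * err / (2 * d)) := by
  have hdpos : 0 < d := by rw [hd]; positivity
  have h1 : (1 + I * (E - 1)) * S ≤ K * (G * U) + I * (th * U) + E * err := by
    rcases hI with rfl | rfl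
    · simp only [zero_mul, add_zero, one_mul]
      nlinarith
    · have h2 : (1 + 1 * (E - 1)) = E := by ring
      rw [h2, one_mul]
      have h3 : (E - 1) * (K * (G * U)) ≤ th * U := by
        have h4 : (E - 1) * (K * (1 + ϑ)) = th := by
          rw [hEeq]; field_simp; ring
        have h5 : (E - 1) * (K * (G * U)) ≤ (E - 1) * (K * ((1 + ϑ) * U)) := by
          refine mul_le_mul_of_nonneg_left ?_ (by linarith)
          refine mul_le_mul_of_nonneg_left ?_ hK.le
          exact mul_le_mul_of_nonneg_right hG2 (by linarith)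
        calc _ ≤ _ := h5
          _ = ((E - 1) * (K * (1 + ϑ))) * U := by ring
          _ = th * U := by rw [h4]
      calc E * S ≤ E * (K * (G * U) + err) := mul_le_mul_of_nonneg_left hS (by linarith)
        _ = K * (G * U) + (E - 1) * (K * (G * U)) + E * err := by ring
        _ ≤ _ := by linarith
  have h2 : K * (Qe * (G * U)) + Qe * ((1 + I * (E - 1)) * S) +
      Qe * U * (n * G + th * (-I + m)) ≤
      Qe * (d * (G * U) + U * (th * m) + E * err) := by
    have h3 := mul_le_mul_of_nonneg_left h1 hQe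
    rw [hd]
    calc K * (Qe * (G * U)) + Qe * ((1 + I * (E - 1)) * S) + Qe * U * (n * G + th * (-I + m))
        ≤ K * (Qe * (G * U)) + Qe * (K * (G * U) + I * (th * U) + E * err) +
          Qe * U * (n * G + th * (-I + m)) := by linarith
      _ = _ := by ring
  have h3 : (K * (Qe * (G * U)) + Qe * ((1 + I * (E - 1)) * S) +
      Qe * U * (n * G + th * (-I + m))) / (2 * d) ≤
      Qe * (d * (G * U) + U * (th * m) + E * err) / (2 * d) := by
    gcongr
  refine (add_le_add le_rfl h3).trans (le_of_eq ?_)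
  field_simp
  ring

lemma drift1 (ω : Aug B Y) (hg : A.Good ω.p) (b : B) (hlt : P.f1 ω b ≤ 1) :
    ∑ q, lazyP A.gr ω.p q * P.f1 (A.upd ω q) b ≤ P.f1 ω b + P.τ / P.a0 := by
  set x := ω.p.1 with hx
  set c := clk ω.p.2 with hc
  set r := A.st c with hr
  set d : ℝ := (dg A.gr ω.p : ℝ) with hd
  set m : ℝ := mr A.lev r b / A.Z r with hm
  set L := A.Lam ω.W b with hL
  have hk' : (0 : ℝ) < k := by exact_mod_cast P.hk
  have hθ := P.θ_pos
  have hCK : 0 < CK γ A.K := by linarith [CK_ge (K := A.K) P.hγ P.hγ1]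
  have hτ := P.τ_pos
  have ha0 := P.a0_pos
  have hκ := P.κ_pos
  have hm0 : 0 ≤ m := div_nonneg (mr_pos _ _ _).le (A.Z_pos r).le
  have hd2k : 2 * (k : ℝ) ≤ d := by
    have := A.dg_ge ω.p
    rw [hd]; exact_mod_cast this
  have hdpos : 0 < d := by linarith
  let h : B → (B → Y) → ℝ := fun x' c' =>
    P.Q (ω.N b + if c b = c' b then 0 else 1) (L + 1 / (2 * d) * m) * (P.Gf b c' x' * P.Uf c')
  have hupd : ∀ q, P.f1 (A.upd ω q) b = h q.1 (clk q.2) := by
    intro q
    unfold f1
    rw [A.Lam_upd]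
    rfl
  simp only [hupd]
  rw [A.step_good ω.p hg h]
  set G := P.Gf b c x with hG
  set U := P.Uf c with hU
  set Qe := P.Q (ω.N b) (L + 1 / (2 * d) * m) with hQe
  set n : ℝ := ∑ s ∈ A.EB.S, nr A.lev r x (s * x) with hn
  have hE := P.E_gt
  have hE2 := P.E_le
  have hdeq : d = 2 * k + n := by
    rw [hd, A.dg_good ω.p hg]
  have hn0 : 0 ≤ n := Finset.sum_nonneg fun s _ => by linarith [nr_ge A.lev r x (s * x)]
  have hQe0 : 0 < Qe := P.Q_pos _ _
  -- values of h
  have v1 : h x c = Qe * (G * U) := by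
    simp only [h, if_true, add_zero]
    rfl
  have v2 : ∀ s ∈ A.EY.S, h x (Function.update c x (s * c x)) =
      Qe * ((1 + (if x = b then 1 else 0) * (P.E - 1)) *
        (P.Gf b (Function.update c x (s * c x)) x * P.Uf (Function.update c x (s * c x)))) := by
    intro s hs
    by_cases hxb : x = b
    · have hne : ¬ c b = Function.update c x (s * c x) b := by
        rw [hxb, Function.update_self]
        intro h'
        have : s = 1 := by simpa using h'.symm
        exact A.EY.one_not (this ▸ hs)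
      simp only [h]
      rw [if_neg hne, if_pos hxb]
      rw [hQe]
      unfold Q
      rw [pow_succ]
      ring
    · have heq : c b = Function.update c x (s * c x) b := by
        rw [Function.update_of_ne (Ne.symm hxb)]
      simp only [h]
      rw [if_pos heq, if_neg hxb]
      simp only [add_zero, zero_mul, one_mul]
      rfl
  have v3 : ∀ s, h (s * x) c = Qe * (P.Gf b c (s * x) * U) := by
    intro s
    simp only [h, if_true, add_zero]
    rfl
  have s2 : ∑ s ∈ A.EY.S, h x (Function.update c x (s * c x)) =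
      Qe * ((1 + (if x = b then 1 else 0) * (P.E - 1)) *
        ∑ s ∈ A.EY.S, (P.Gf b (Function.update c x (s * c x)) x *
          P.Uf (Function.update c x (s * c x)))) := by
    rw [Finset.sum_congr rfl v2, ← Finset.mul_sum, ← Finset.mul_sum]
  have s3 : ∑ s ∈ A.EB.S, nr A.lev r x (s * x) * h (s * x) c =
      Qe * U * (n * G + P.θ * (-(if x = b then 1 else 0) + m)) := by
    have h1 := (P.gf_spec b r (A.st_le c)).2 x
    have h2 : -(if x = b then (1 : ℝ) else 0) + m = Lr A.EB A.lev r (P.gf b r) x := by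
      rw [h1]
      unfold Gd.Z at hm
      rw [hm]
      split_ifs <;> simp
    rw [h2, hn]
    unfold Lr
    rw [Finset.sum_mul, Finset.mul_sum, ← Finset.sum_add_distrib, Finset.mul_sum]
    refine Finset.sum_congr rfl fun s _ => ?_
    rw [v3]
    rw [hG]
    unfold Gf
    ring
  have hS := P.clock_sum b x c
  set S := ∑ s ∈ A.EY.S, (P.Gf b (Function.update c x (s * c x)) x *
          P.Uf (Function.update c x (s * c x))) with hSdef
  set err := (1 + P.θ * CK γ A.K) * (P.κ * k * P.τ / P.a0) with herr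
  have herr0 : 0 ≤ err := by rw [herr]; positivity
  have key := arith1 (Qe := Qe) (G := G) (U := U) (K := k) (E := P.E) (S := S) (n := n) (d := d)
    (m := m) (th := P.θ) (ϑ := P.θ * CK γ A.K) (err := err) (I := if x = b then 1 else 0)
    hQe0.le (P.Gf_ge _ _ _) (P.Gf_le _ _ _) (P.Uf_ge _) hk' hE.le hθ (by positivity) rfl hn0 hdeq
    herr0 hS (by split_ifs <;> simp)
  have e1 : h x c / 2 + (k * h x c + ∑ s ∈ A.EY.S, h x (Function.update c x (s * c x)) +
      ∑ s ∈ A.EB.S, nr A.lev r x (s * x) * h (s * x) c) / (2 * d) =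
      Qe * (G * U) / 2 + (k * (Qe * (G * U)) +
        Qe * ((1 + (if x = b then 1 else 0) * (P.E - 1)) * S) +
      Qe * U * (n * G + P.θ * (-(if x = b then 1 else 0) + m))) / (2 * d) := by
    rw [v1, s2, s3]
  refine (le_of_eq e1).trans (key.trans ?_)
  -- remaining real estimates
  have hQeQ : Qe = P.Q (ω.N b) L * Real.exp (-(P.θ * (1 / (2 * d) * m))) := by
    rw [hQe]; unfold Q
    rw [mul_assoc (1 / (20 * (P.M : ℝ)) * P.E ^ ω.N b), ← Real.exp_add]
    congr 2
    ring
  have hQ0 : 0 < P.Q (ω.N b) L := P.Q_pos _ _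
  set qq := P.θ * (1 / (2 * d) * m) with hqq
  have hqq0 : 0 ≤ qq := by rw [hqq]; positivity
  have hGU := P.GU_ge b x c
  have hU1 := P.Uf_ge c
  have hG1 := P.Gf_ge b c x
  have part1 : Qe * (G * U + U * qq) ≤ P.f1 ω b := by
    have h1 : G * U + U * qq ≤ G * U * Real.exp qq := by
      have h2 := Real.add_one_le_exp qq
      have h3 : U * qq ≤ G * U * qq := by
        rw [mul_assoc]
        have : 0 ≤ U * qq := mul_nonneg (by linarith) hqq0
        exact le_mul_of_one_le_left this hG1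
      have h4 : 0 ≤ G * U := le_trans zero_le_one hGU
      calc G * U + U * qq ≤ G * U + G * U * qq := add_le_add le_rfl h3
        _ = G * U * (qq + 1) := by ring
        _ ≤ _ := mul_le_mul_of_nonneg_left h2 h4
    calc Qe * (G * U + U * qq) ≤ Qe * (G * U * Real.exp qq) :=
          mul_le_mul_of_nonneg_left h1 hQe0.le
      _ = P.Q (ω.N b) L * (G * U) * (Real.exp (-qq) * Real.exp qq) := by rw [hQeQ]; ring
      _ = P.f1 ω b := by
          rw [← Real.exp_add, neg_add_cancel, Real.exp_zero, mul_one]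
          rfl
  have part2 : Qe * (P.E * err / (2 * d)) ≤ P.τ / P.a0 := by
    have h1 : Qe ≤ 1 := by
      have h2 : Qe ≤ P.Q (ω.N b) L := by
        rw [hQeQ]
        have : Real.exp (-qq) ≤ 1 := Real.exp_le_one_iff.2 (by linarith)
        exact mul_le_of_le_one_right hQ0.le this
      have h3 : P.Q (ω.N b) L ≤ P.f1 ω b := by
        unfold f1
        exact le_mul_of_one_le_right hQ0.le hGU
      exact (h2.trans h3).trans hlt
    have h2 : P.E * err / (2 * d) ≤ P.τ / P.a0 := by
      have h3 : err ≤ (5 / 4) * (k * (P.τ / P.a0)) := by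
        rw [herr]
        have h4 := P.θCK_le
        have h5 : P.κ * k * P.τ / P.a0 ≤ k * (P.τ / P.a0) := by
          have : P.κ * k * P.τ / P.a0 = P.κ * (k * (P.τ / P.a0)) := by ring
          rw [this]
          have h6 : 0 ≤ k * (P.τ / P.a0) := by positivity
          exact mul_le_of_le_one_left h6 P.κ_le
        have h7 : 0 ≤ P.κ * k * P.τ / P.a0 := by positivity
        calc (1 + P.θ * CK γ A.K) * (P.κ * k * P.τ / P.a0)
            ≤ (5 / 4) * (P.κ * k * P.τ / P.a0) := by
              refine mul_le_mul_of_nonneg_right (by linarith) h7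
          _ ≤ _ := by linarith
      rw [div_le_iff₀ (by positivity)]
      have h8 : 0 ≤ P.τ / P.a0 := by positivity
      calc P.E * err ≤ 2 * ((5 / 4) * (k * (P.τ / P.a0))) := by
            refine mul_le_mul hE2 h3 herr0 (by norm_num)
        _ ≤ P.τ / P.a0 * (2 * d) := by
            have h9 := mul_le_mul_of_nonneg_left hd2k h8
            have h10 : 0 ≤ k * (P.τ / P.a0) := by positivity
            have h11 : 2 * ((5 / 4) * (k * (P.τ / P.a0))) + (3 / 2) * (k * (P.τ / P.a0)) =
              2 * (P.τ / P.a0 * (2 * k)) := by ring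
            have h12 : P.τ / P.a0 * (2 * d) = 2 * (P.τ / P.a0 * d) := by ring
            rw [h12]
            linarith
    have h3 : 0 ≤ P.E * err / (2 * d) := by
      have : 0 < P.E := by linarith
      positivity
    calc Qe * (P.E * err / (2 * d)) ≤ 1 * (P.E * err / (2 * d)) :=
          mul_le_mul_of_nonneg_right h1 h3
      _ ≤ _ := by linarith
  linarith

lemma drift2 (ω : Aug B Y) (hg : A.Good ω.p) (b : B) :
    ∑ q, lazyP A.gr ω.p q * P.f2 (A.upd ω q) b ≤ P.f2 ω b + P.τ / P.a0 := by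
  set x := ω.p.1 with hx
  set c := clk ω.p.2 with hc
  set r := A.st c with hr
  set d : ℝ := (dg A.gr ω.p : ℝ) with hd
  have hk' : (0 : ℝ) < k := by exact_mod_cast P.hk
  have hτ := P.τ_pos
  have ha0 := P.a0_pos
  have hd2k : 2 * (k : ℝ) ≤ d := by
    have := A.dg_ge ω.p
    rw [hd]; exact_mod_cast this
  have hd4k : d ≤ 4 * (k : ℝ) := by
    have := A.dg_le ω.p
    rw [hd]; exact_mod_cast this
  have hdpos : 0 < d := by linarith
  have hl := P.lam_pos
  have hl1 := lam1_gt P.hk P.hγ P.hγ1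
  set LL : ℝ := lam1 k γ ^ (min (ω.V b + if x = b then 1 else 0) P.n0) /
    (lam1 k γ ^ P.n0 * P.a0) with hLL
  let h : B → (B → Y) → ℝ := fun x' c' => P.Φ (c' b) * LL
  have hupd : ∀ q, P.f2 (A.upd ω q) b = h q.1 (clk q.2) := fun q => rfl
  simp only [hupd]
  rw [A.step_good ω.p hg h]
  set n : ℝ := ∑ s ∈ A.EB.S, nr A.lev r x (s * x) with hn
  have hdeq : d = 2 * k + n := by
    rw [hd, A.dg_good ω.p hg]
  have hLL0 : 0 < LL := by rw [hLL]; positivity
  have s3 : ∑ s ∈ A.EB.S, nr A.lev r x (s * x) * h (s * x) c = n * (P.Φ (c b) * LL) := by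
    rw [hn, Finset.sum_mul]
  have hΦ := P.Φ_nonneg (c b)
  by_cases hxb : x = b
  · have s2 : ∑ s ∈ A.EY.S, h x (Function.update c x (s * c x)) ≤
        LL * (k * ((1 - e1 k γ) * P.Φ (c b) + P.τ)) := by
      have : ∀ s ∈ A.EY.S, h x (Function.update c x (s * c x)) = LL * P.Φ (s * c b) := by
        intro s _
        simp only [h]
        rw [hxb, Function.update_self, mul_comm]
      rw [Finset.sum_congr rfl this, ← Finset.mul_sum]
      exact mul_le_mul_of_nonneg_left (P.sum_Φ (c b)) hLL0.le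
    have he1 := e1_pos (k := k) P.hk P.hγ
    have e1' : h x c / 2 + (k * h x c + ∑ s ∈ A.EY.S, h x (Function.update c x (s * c x)) +
        ∑ s ∈ A.EB.S, nr A.lev r x (s * x) * h (s * x) c) / (2 * d) ≤
        LL * ((1 - e1 k γ / 8) * P.Φ (c b)) + LL * (P.τ / 4) := by
      rw [s3]
      have h1 : (k * h x c + ∑ s ∈ A.EY.S, h x (Function.update c x (s * c x)) +
          n * (P.Φ (c b) * LL)) / (2 * d) ≤
          (LL * (d * P.Φ (c b)) - LL * (k * e1 k γ * P.Φ (c b)) + LL * (k * P.τ)) / (2 * d) := by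
        refine div_le_div_of_nonneg_right ?_ (by positivity)
        calc k * h x c + ∑ s ∈ A.EY.S, h x (Function.update c x (s * c x)) +
            n * (P.Φ (c b) * LL)
            ≤ k * (P.Φ (c b) * LL) + LL * (k * ((1 - e1 k γ) * P.Φ (c b) + P.τ)) +
              n * (P.Φ (c b) * LL) := by
              have : h x c = P.Φ (c b) * LL := rfl
              rw [this]; linarith
          _ = _ := by rw [hdeq]; ring
      refine (add_le_add le_rfl h1).trans ?_
      have h2 : (LL * (d * P.Φ (c b)) - LL * (k * e1 k γ * P.Φ (c b)) + LL * (k * P.τ)) /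
          (2 * d) = LL * P.Φ (c b) / 2 - LL * (k / (2 * d)) * (e1 k γ * P.Φ (c b)) +
          LL * (k / (2 * d)) * P.τ := by
        field_simp
      rw [h2]
      have h3 : 1 / 8 ≤ (k : ℝ) / (2 * d) := by
        rw [div_le_div_iff₀ (by norm_num) (by positivity)]; linarith
      have h4 : (k : ℝ) / (2 * d) ≤ 1 / 4 := by
        rw [div_le_div_iff₀ (by positivity) (by norm_num)]; linarith
      have h5 : LL * (1 / 8) * (e1 k γ * P.Φ (c b)) ≤
          LL * (k / (2 * d)) * (e1 k γ * P.Φ (c b)) := by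
        have : 0 ≤ e1 k γ * P.Φ (c b) := by positivity
        refine mul_le_mul_of_nonneg_right ?_ this
        exact mul_le_mul_of_nonneg_left h3 hLL0.le
      have h6 : LL * (k / (2 * d)) * P.τ ≤ LL * (1 / 4) * P.τ := by
        refine mul_le_mul_of_nonneg_right ?_ hτ.le
        exact mul_le_mul_of_nonneg_left h4 hLL0.le
      have h7 : h x c = P.Φ (c b) * LL := rfl
      rw [h7]
      nlinarith
    refine e1'.trans ?_
    have hLa : LL ≤ lam1 k γ * (lam1 k γ ^ (min (ω.V b) P.n0) / (lam1 k γ ^ P.n0 * P.a0)) := by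
      rw [hLL, if_pos hxb]
      rw [← mul_div_assoc]
      refine div_le_div_of_nonneg_right ?_ (by positivity)
      rw [← pow_succ']
      exact pow_le_pow_right₀ hl1.le (by omega)
    have hLb : LL ≤ 1 / P.a0 := by
      rw [hLL, div_le_div_iff₀ (by positivity) ha0, one_mul]
      refine mul_le_mul_of_nonneg_right ?_ ha0.le
      exact pow_le_pow_right₀ hl1.le (by omega)
    have h1 : LL * ((1 - e1 k γ / 8) * P.Φ (c b)) ≤ P.f2 ω b := by
      have he2 := e1_le (k := k) P.hk P.hγ1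
      have h3 : 0 ≤ (1 - e1 k γ / 8) * P.Φ (c b) := mul_nonneg (by linarith) hΦ
      refine (mul_le_mul_of_nonneg_right hLa h3).trans (le_of_eq ?_)
      unfold f2
      have h4 : lam1 k γ * (1 - e1 k γ / 8) = 1 := by
        unfold lam1
        exact one_div_mul_cancel (by linarith)
      calc _ = (lam1 k γ * (1 - e1 k γ / 8)) *
            (P.Φ (c b) * (lam1 k γ ^ (min (ω.V b) P.n0) / (lam1 k γ ^ P.n0 * P.a0))) := by ring
        _ = _ := by rw [h4, one_mul]
    have h2 : LL * (P.τ / 4) ≤ P.τ / P.a0 := by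
      calc LL * (P.τ / 4) ≤ (1 / P.a0) * (P.τ / 4) :=
            mul_le_mul_of_nonneg_right hLb (by positivity)
        _ = (P.τ / P.a0) / 4 := by ring
        _ ≤ P.τ / P.a0 := by
            have : 0 ≤ P.τ / P.a0 := by positivity
            linarith
    linarith
  · have s2 : ∑ s ∈ A.EY.S, h x (Function.update c x (s * c x)) = k * (P.Φ (c b) * LL) := by
      have : ∀ s ∈ A.EY.S, h x (Function.update c x (s * c x)) = P.Φ (c b) * LL := by
        intro s _
        simp only [h]
        rw [Function.update_of_ne (Ne.symm hxb)]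
      rw [Finset.sum_congr rfl this, Finset.sum_const, A.EY.card_S, nsmul_eq_mul]
    have e1' : h x c / 2 + (k * h x c + ∑ s ∈ A.EY.S, h x (Function.update c x (s * c x)) +
        ∑ s ∈ A.EB.S, nr A.lev r x (s * x) * h (s * x) c) / (2 * d) = P.Φ (c b) * LL := by
      rw [s2, s3]
      have : h x c = P.Φ (c b) * LL := rfl
      rw [this]
      have h1 : (k : ℝ) * (P.Φ (c b) * LL) + k * (P.Φ (c b) * LL) + n * (P.Φ (c b) * LL) =
          d * (P.Φ (c b) * LL) := by rw [hdeq]; ring
      rw [h1]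
      field_simp
      ring
    refine (le_of_eq e1').trans ?_
    have h1 : P.Φ (c b) * LL = P.f2 ω b := by
      rw [hLL, if_neg hxb, add_zero]
      rfl
    rw [h1]
    have : 0 ≤ P.τ / P.a0 := by positivity
    linarith

/-- Drift of the full function. -/
lemma drift (ω : Aug B Y) (hg : A.Good ω.p) (hlt : P.ff ω < 1) :
    ∑ q, lazyP A.gr ω.p q * P.ff (A.upd ω q) ≤ P.ff ω + P.M * (2 * (P.τ / P.a0)) := by
  have hτ := P.τ_pos
  have ha0 := P.a0_pos
  have h1 : ∑ q, lazyP A.gr ω.p q * P.ff (A.upd ω q) =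
      ∑ b ∈ A.Bk, (∑ q, lazyP A.gr ω.p q * P.f1 (A.upd ω q) b +
        ∑ q, lazyP A.gr ω.p q * P.f2 (A.upd ω q) b) := by
    unfold ff
    simp only [Finset.mul_sum]
    rw [Finset.sum_comm]
    refine Finset.sum_congr rfl fun b _ => ?_
    rw [← Finset.sum_add_distrib]
    refine Finset.sum_congr rfl fun q _ => ?_
    ring
  rw [h1]
  calc ∑ b ∈ A.Bk, (∑ q, lazyP A.gr ω.p q * P.f1 (A.upd ω q) b +
        ∑ q, lazyP A.gr ω.p q * P.f2 (A.upd ω q) b)
      ≤ ∑ b ∈ A.Bk, ((P.f1 ω b + P.f2 ω b) + 2 * (P.τ / P.a0)) := by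
        refine Finset.sum_le_sum fun b hb => ?_
        have h2 := P.drift1 ω hg b (P.f1_lt ω hlt b hb).le
        have h3 := P.drift2 ω hg b
        linarith
    _ = P.ff ω + A.Bk.card * (2 * (P.τ / P.a0)) := by
        rw [Finset.sum_add_distrib, Finset.sum_const, nsmul_eq_mul]; rfl
    _ ≤ _ := by
        have h4 : (A.Bk.card : ℝ) ≤ P.M := by exact_mod_cast P.hM
        have h5 : 0 ≤ 2 * (P.τ / P.a0) := by positivity
        have := mul_le_mul_of_nonneg_right h4 h5
        linarith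

end Pr

end Pool.Agent.MP50f558
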