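import Mathlib
import Pool.Agent.Lib.MP_50f558_pr.Lower2

set_option autoImplicit false
set_option linter.unusedSectionVars false
set_option linter.unusedVariables false

/-!
Lower bound: invariants and conclusion.
-/

namespace Pool.Agent.MP50f558

variable {k : ℕ} {γ : ℝ} {B Y : Type} [Group B] [Fintype B] [Group Y] [Fintype Y]
  [DecidableEq B] [DecidableEq Y]

lemma adj_of_pos {V : Type} [Fintype V] (G : SimpleGraph V) (x y : V) (h : 0 < lazyP G x y) :
    y = x ∨ G.Adj x y := by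
  by_contra hn
  push Not at hn
  rw [lazyP_eq, if_neg (Ne.symm hn.1), if_neg hn.2] at h
  norm_num at h

namespace Gd

variable (A : Gd k γ B Y)

lemma link_nb {u v : Y} (h : A.link u v) : v ∈ nb A.EY A.C4 u := by
  rcases h with ⟨hu, i, rfl⟩ | ⟨_, rfl⟩
  · exact A.hO1 _ hu i
  · exact nb_self _ _ _

lemma power_change (p q : B × (B → Y × Y)) (h : q = p ∨ A.gr.Adj p q) (b : B) :
    (q.2 b).1 = (p.2 b).1 ∨ ((q.2 b).1 ∈ nb A.EY A.C4 (p.2 b).1 ∧ (b = p.1 ∨ b = q.1)) := by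
  classical
  rcases h with rfl | ⟨h1, h2⟩ | ⟨s, hs, h1, h2⟩
  · exact Or.inl rfl
  · rw [mem_lt] at h2
    rcases h2 with ⟨s, hs, h2⟩ | ⟨s, hs, h2⟩
    · rw [h2]
      by_cases hb : b = p.1
      · right
        subst hb
        refine ⟨?_, Or.inl rfl⟩
        rw [setp_fst]
        exact nb_mono _ A.hC4 _ (nb_one _ hs _)
      · left; rw [setp_ne _ hb]
    · rw [h2]
      by_cases hb : b = p.1
      · left
        subst hb
        rw [setc_fst]
      · left; rw [setc_ne _ hb]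
  · unfold wt at h2
    split_ifs at h2 with c1 c2
    · rw [Finset.mem_image] at h2
      obtain ⟨v, hv, h2⟩ := h2
      rw [Finset.mem_filter] at hv
      rw [← h2]
      by_cases hb : b = p.1
      · right
        subst hb
        rw [setp_fst]
        exact ⟨A.link_nb hv.2, Or.inl rfl⟩
      · left; rw [setp_ne _ hb]
    · rw [Finset.mem_image] at h2
      obtain ⟨u, hu, h2⟩ := h2
      rw [Finset.mem_filter] at hu
      rw [← h2]
      by_cases hb : b = s * p.1
      · right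
        subst hb
        rw [setp_fst]
        exact ⟨nb_symm _ (A.link_nb hu.2), Or.inr h1.symm⟩
      · left; rw [setp_ne _ hb]
    · rw [Finset.mem_singleton] at h2
      left; rw [h2]

lemma clock_change (p q : B × (B → Y × Y)) (h : q = p ∨ A.gr.Adj p q) (b : B) :
    clk q.2 b = clk p.2 b ∨ ∃ s ∈ A.EY.S, clk q.2 b = s * clk p.2 b := by
  classical
  rcases h with rfl | ⟨h1, h2⟩ | ⟨s, hs, h1, h2⟩
  · exact Or.inl rfl
  · rw [mem_lt] at h2
    rcases h2 with ⟨s, hs, h2⟩ | ⟨s, hs, h2⟩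
    · left; rw [h2, clk_setp]
    · rw [h2, clk_setc]
      by_cases hb : b = p.1
      · right
        subst hb
        exact ⟨s, hs, by rw [Function.update_self]; rfl⟩
      · left; rw [Function.update_of_ne hb]
  · left; rw [A.wt_clk h2]

end Gd

namespace Pr

variable {A : Gd k γ B Y} (P : Pr A)

/-- The invariants. -/
structure Inv (ω : Aug B Y) : Prop where
  i1 : ∀ b, (ω.p.2 b).1 ∈ nb A.EY (A.C4 * (2 * ω.V b + if ω.p.1 = b then 1 else 0)) 1
  i2 : ∀ b, P.a0 ≤ c0 k ^ (ω.N b) → c0 k ^ (ω.N b) ≤ P.Φ (clk ω.p.2 b)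
  i3 : ω.μ ≤ A.st (clk ω.p.2)
  i3a : ∀ r < ω.μ, ω.W r = 0
  i3b : ∀ r, 0 ≤ ω.W r
  i4 : ∀ s, ω.μ ≤ s → s < A.K → (P.N0 : ℝ) * Fintype.card B / (5 * k) ≤
    ∑ r ∈ Finset.range (A.K + 1), if s < r then (1 / 2 : ℝ) ^ (r - s) * ω.W r else 0
  i5 : ∑ r ∈ Finset.range (A.K + 1), ω.W r ≤ ω.t / (4 * k)

lemma good (ω : Aug B Y) (hI : P.Inv ω) (hf : P.ff ω < 1) : A.Good ω.p := by
  intro b hb
  have hon := A.st_on _ b hb
  rw [P.hOn] at hon
  have hbK : b ∈ A.Bk := by
    rw [A.mem_Bk]; exact lt_of_lt_of_le hb (A.st_le _)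
  have h2 := P.f2_lt ω hf b hbK
  have hl := lam1_gt P.hk P.hγ P.hγ1
  have hl0 := P.lam_pos
  have ha0 := P.a0_pos
  have hV : ω.V b < P.n0 := by
    by_contra hV
    push Not at hV
    unfold f2 at h2
    rw [min_eq_right hV] at h2
    have h3 : lam1 k γ ^ P.n0 / (lam1 k γ ^ P.n0 * P.a0) = 1 / P.a0 := by
      have : lam1 k γ ^ P.n0 ≠ 0 := by positivity
      field_simp
    rw [h3, mul_one_div, div_lt_one ha0] at h2
    exact absurd hon (not_lt.2 h2.le)
  have h4 := hI.i1 b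
  refine P.hD (nb_mono _ ?_ _ h4)
  refine Nat.mul_le_mul_left _ ?_
  split_ifs <;> omega

include P in
lemma Z_ge (r : ℕ) (hr : r ≤ A.K) : (4 / 5 : ℝ) * Fintype.card B ≤ A.Z r := by
  classical
  unfold Gd.Z
  have h1 : ∑ y ∈ (Finset.univ \ A.Bk), (1 : ℝ) ≤ ∑ y, mr A.lev r y := by
    calc ∑ y ∈ (Finset.univ \ A.Bk), (1 : ℝ) ≤ ∑ y ∈ (Finset.univ \ A.Bk), mr A.lev r y := by
          refine Finset.sum_le_sum fun y hy => ?_
          rw [Finset.mem_sdiff, A.mem_Bk] at hy
          unfold mr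
          rw [show r - A.lev y = 0 by omega, pow_zero]
      _ ≤ _ := Finset.sum_le_sum_of_subset_of_nonneg (Finset.subset_univ _)
          fun y _ _ => (mr_pos _ _ _).le
  refine le_trans ?_ h1
  rw [Finset.sum_const, nsmul_eq_mul, mul_one, Finset.card_sdiff_of_subset (Finset.subset_univ _),
    Finset.card_univ]
  have h2 := P.hM
  have h3 := P.hT
  rw [Nat.cast_sub (by omega)]
  have h4 : (A.Bk.card : ℝ) ≤ P.M := by exact_mod_cast h2
  have h5 : (5 : ℝ) * P.M ≤ Fintype.card B := by exact_mod_cast h3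
  linarith

/-- If the clock moved at least `N0` times and `f1 < 1`, the expected number of visits is big. -/
lemma lam_big (N : ℕ) (L GU : ℝ) (hN : P.N0 ≤ N) (hGU : 1 ≤ GU) (h : P.Q N L * GU < 1) :
    (P.N0 : ℝ) / (4 * k) < L := by
  have hk' : (0 : ℝ) < k := by exact_mod_cast P.hk
  have hM : (0 : ℝ) < P.M := by exact_mod_cast P.hM1
  have hQ := P.Q_pos N L
  have h1 : P.Q N L < 1 := by nlinarith
  have hE := P.E_gt
  have hE0 : 0 < P.E := by linarith
  have hθ := P.θ_pos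
  have h2 : P.E ^ N < 20 * P.M * Real.exp (P.θ * L) := by
    unfold Q at h1
    rw [Real.exp_neg] at h1
    have he := Real.exp_pos (P.θ * L)
    have h3 : 1 / (20 * (P.M : ℝ)) * P.E ^ N * (Real.exp (P.θ * L))⁻¹ =
        P.E ^ N / (20 * P.M * Real.exp (P.θ * L)) := by
      field_simp
    rw [h3, div_lt_one (by positivity)] at h1
    exact h1
  have h3 : P.E ^ P.N0 < 20 * P.M * Real.exp (P.θ * L) :=
    lt_of_le_of_lt (pow_le_pow_right₀ hE.le hN) h2
  have h4 : P.E ^ P.N0 < Real.exp (2 * (P.θ * L)) := by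
    have h5 : 0 < P.E ^ P.N0 := by positivity
    have h6 : P.E ^ P.N0 * P.E ^ P.N0 < P.E ^ P.N0 * Real.exp (2 * (P.θ * L)) := by
      calc P.E ^ P.N0 * P.E ^ P.N0
          < (20 * P.M * Real.exp (P.θ * L)) * (20 * P.M * Real.exp (P.θ * L)) :=
            mul_lt_mul'' h3 h3 h5.le h5.le
        _ = (20 * (P.M : ℝ)) ^ 2 * Real.exp (2 * (P.θ * L)) := by
            rw [two_mul, Real.exp_add]; ring
        _ ≤ _ := mul_le_mul_of_nonneg_right P.hN0 (Real.exp_pos _).le
    exact lt_of_mul_lt_mul_left h6 h5.le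
  have h5 : Real.exp (P.N0 * (P.θ / (2 * k))) ≤ P.E ^ P.N0 := by
    rw [Real.exp_nat_mul]
    exact pow_le_pow_left₀ (Real.exp_pos _).le (Eb_exp P.hk P.hγ P.hγ1 P.hM1) _
  have h6 := Real.exp_lt_exp.1 (lt_of_le_of_lt h5 h4)
  rw [div_lt_iff₀ (by positivity)]
  have h7 : (P.N0 : ℝ) * (P.θ / (2 * k)) = P.θ * (P.N0 / (2 * k)) := by ring
  have h8 : 2 * (P.θ * L) = P.θ * (2 * L) := by ring
  rw [h7, h8] at h6
  have h9 := lt_of_mul_lt_mul_left h6 hθ.le
  rw [div_lt_iff₀ (by positivity)] at h9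
  linarith

/-- Preservation of the invariants. -/
lemma inv_step (ω : Aug B Y) (q : B × (B → Y × Y)) (hI : P.Inv ω)
    (hq : q = ω.p ∨ A.gr.Adj ω.p q) (hf : P.ff (A.upd ω q) < 1) : P.Inv (A.upd ω q) := by
  have hk' : (0 : ℝ) < k := by exact_mod_cast P.hk
  have hc0 := c0_pos P.hk
  have hc0' := c0_le P.hk
  have ha0 := P.a0_pos
  have hd2k : 2 * (k : ℝ) ≤ dg A.gr ω.p := by
    have := A.dg_ge ω.p
    exact_mod_cast this
  have hdpos : (0 : ℝ) < dg A.gr ω.p := by linarith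
  -- i2 first
  have hi2 : ∀ b, P.a0 ≤ c0 k ^ ((A.upd ω q).N b) →
      c0 k ^ ((A.upd ω q).N b) ≤ P.Φ (clk (A.upd ω q).p.2 b) := by
    intro b
    change P.a0 ≤ c0 k ^ (ω.N b + if clk ω.p.2 b = clk q.2 b then 0 else 1) →
      c0 k ^ (ω.N b + if clk ω.p.2 b = clk q.2 b then 0 else 1) ≤ P.Φ (clk q.2 b)
    rcases A.clock_change ω.p q hq b with h | ⟨s, hs, h⟩
    · rw [if_pos h.symm, add_zero, h]
      exact hI.i2 b
    · have hne : ¬ clk ω.p.2 b = clk q.2 b := by
        intro h'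
        rw [h'] at h
        have : s = 1 := by simpa using h.symm
        exact A.EY.one_not (this ▸ hs)
      rw [if_neg hne, pow_succ]
      intro h1
      have h2 : P.a0 ≤ c0 k ^ ω.N b := by
        have : 0 ≤ c0 k ^ ω.N b := by positivity
        nlinarith
      have h3 := hI.i2 b h2
      have h4 := P.harnack (clk ω.p.2 b) hs (h2.trans h3)
      rw [h]
      nlinarith
  have hW' : ∀ r, (A.upd ω q).W r = ω.W r +
      if r = A.st (clk ω.p.2) then 1 / (2 * (dg A.gr ω.p : ℝ)) else 0 := fun r => rfl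
  have hW0 : ∀ r, 0 ≤ if r = A.st (clk ω.p.2) then 1 / (2 * (dg A.gr ω.p : ℝ)) else 0 := by
    intro r; split_ifs <;> positivity
  have hWmono : ∀ r, ω.W r ≤ (A.upd ω q).W r := by
    intro r; rw [hW']; linarith [hW0 r]
  have hWnn : ∀ r, 0 ≤ (A.upd ω q).W r := fun r => (hI.i3b r).trans (hWmono r)
  have hWz : ∀ r < ω.μ, (A.upd ω q).W r = 0 := by
    intro r hr
    rw [hW', hI.i3a r hr, if_neg (by have := hI.i3; omega), add_zero]
  refine ⟨?_, hi2, ?_, ?_, hWnn, ?_, ?_⟩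
  · -- i1
    intro b
    change (q.2 b).1 ∈ nb A.EY (A.C4 * (2 * (ω.V b + if ω.p.1 = b then 1 else 0) +
      if q.1 = b then 1 else 0)) 1
    have h0 := hI.i1 b
    rcases A.power_change ω.p q hq b with h | ⟨h1, h2⟩
    · rw [h]
      refine nb_mono _ (Nat.mul_le_mul_left _ ?_) _ h0
      split_ifs <;> omega
    · have h3 := nb_trans _ h0 h1
      refine nb_mono _ ?_ _ h3
      have h4 : A.C4 * (2 * ω.V b + if ω.p.1 = b then 1 else 0) + A.C4 =
          A.C4 * ((2 * ω.V b + if ω.p.1 = b then 1 else 0) + 1) := by ring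
      rw [h4]
      refine Nat.mul_le_mul_left _ ?_
      rcases h2 with h2 | h2
      · rw [if_pos h2.symm]; omega
      · rw [if_pos h2.symm]
        split_ifs <;> omega
  · -- i3
    exact min_le_right _ _
  · -- i3a
    intro r hr
    exact hWz r (lt_of_lt_of_le hr (min_le_left _ _))
  · -- i4
    intro s hs1 hs2
    change min ω.μ (A.st (clk q.2)) ≤ s at hs1
    rcases le_or_gt ω.μ s with h | h
    · refine (hI.i4 s h hs2).trans ?_
      refine Finset.sum_le_sum fun r _ => ?_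
      split_ifs
      · exact mul_le_mul_of_nonneg_left (hWmono r) (by positivity)
      · exact le_rfl
    · have hj : A.st (clk q.2) ≤ s := by
        rcases min_le_iff.1 hs1 with h' | h'
        · omega
        · exact h'
      obtain ⟨b, hb, hoff⟩ := A.st_off (clk q.2) (lt_of_le_of_lt hj hs2)
      have hbK : b ∈ A.Bk := by rw [A.mem_Bk, hb]; omega
      rw [P.hOn] at hoff
      -- number of clock moves
      have hN : P.N0 ≤ (A.upd ω q).N b := by
        by_contra hlt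
        push Not at hlt
        have h1 : P.a0 < c0 k ^ ((A.upd ω q).N b) := by
          unfold a0
          exact pow_lt_pow_right_of_lt_one₀ hc0 (by linarith) hlt
        have h2 := hi2 b h1.le
        exact hoff (lt_of_lt_of_le h1 h2)
      have hf1 := P.f1_lt (A.upd ω q) hf b hbK
      have hL := P.lam_big _ _ _ hN (P.GU_ge b (A.upd ω q).p.1 (clk (A.upd ω q).p.2)) hf1
      have hT : (0 : ℝ) < Fintype.card B := by exact_mod_cast Fintype.card_pos
      have hLe : A.Lam (A.upd ω q).W b ≤ (5 / (4 * Fintype.card B)) *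
          ∑ r ∈ Finset.range (A.K + 1),
            if s < r then (1 / 2 : ℝ) ^ (r - s) * (A.upd ω q).W r else 0 := by
        unfold Gd.Lam
        rw [Finset.mul_sum]
        refine Finset.sum_le_sum fun r hr => ?_
        have hrK : r ≤ A.K := Nat.lt_succ_iff.1 (Finset.mem_range.1 hr)
        rcases lt_or_ge r ω.μ with hr2 | hr2
        · rw [hWz r hr2]; simp
        · rw [if_pos (by omega)]
          have hZ := P.Z_ge r hrK
          have hZ0 := A.Z_pos r
          have hm : mr A.lev r b ≤ (1 / 2 : ℝ) ^ (r - s) := by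
            unfold mr
            exact pow_le_pow_of_le_one (by norm_num) (by norm_num) (by omega)
          have h1 : mr A.lev r b / A.Z r ≤
              (5 / (4 * Fintype.card B)) * (1 / 2 : ℝ) ^ (r - s) := by
            rw [div_le_iff₀ hZ0]
            have h2 : 1 ≤ 5 / (4 * (Fintype.card B : ℝ)) * A.Z r := by
              calc (1 : ℝ) = 5 / (4 * (Fintype.card B : ℝ)) * ((4 / 5) * Fintype.card B) := by
                    field_simp
                _ ≤ _ := mul_le_mul_of_nonneg_left hZ (by positivity)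
            have h3 : 0 ≤ (1 / 2 : ℝ) ^ (r - s) := by positivity
            calc mr A.lev r b ≤ (1 / 2 : ℝ) ^ (r - s) := hm
              _ ≤ (1 / 2 : ℝ) ^ (r - s) * (5 / (4 * (Fintype.card B : ℝ)) * A.Z r) := by
                  nlinarith
              _ = _ := by ring
          calc (A.upd ω q).W r * (mr A.lev r b / A.Z r)
              ≤ (A.upd ω q).W r * ((5 / (4 * Fintype.card B)) * (1 / 2 : ℝ) ^ (r - s)) :=
                mul_le_mul_of_nonneg_left h1 (hWnn r)
            _ = _ := by ring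
      have h5 := lt_of_lt_of_le hL hLe
      set SS := ∑ r ∈ Finset.range (A.K + 1),
            if s < r then (1 / 2 : ℝ) ^ (r - s) * (A.upd ω q).W r else 0 with hSS
      rw [div_lt_iff₀ (by positivity)] at h5
      rw [div_le_iff₀ (by positivity)]
      have h6 : (5 / (4 * (Fintype.card B : ℝ))) * SS * (4 * k) * Fintype.card B =
          SS * (5 * k) := by
        field_simp
      have h7 := mul_lt_mul_of_pos_right h5 hT
      rw [h6] at h7
      exact h7.le
  · -- i5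
    have h1 : ∑ r ∈ Finset.range (A.K + 1), (A.upd ω q).W r =
        ∑ r ∈ Finset.range (A.K + 1), ω.W r + 1 / (2 * (dg A.gr ω.p : ℝ)) := by
      simp only [hW', Finset.sum_add_distrib]
      rw [Finset.sum_ite_eq', if_pos]
      rw [Finset.mem_range]
      exact Nat.lt_succ_of_le (A.st_le _)
    rw [h1]
    change _ ≤ ((ω.t + 1 : ℕ) : ℝ) / (4 * k)
    have h2 : 1 / (2 * (dg A.gr ω.p : ℝ)) ≤ 1 / (4 * k) := by
      apply one_div_le_one_div_of_le (by positivity)
      linarith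
    have h3 := hI.i5
    push_cast
    rw [add_div]
    linarith

lemma geom_half (K r : ℕ) (hr : r ≤ K) :
    ∑ s ∈ Finset.range K, (if s < r then (1 / 2 : ℝ) ^ (r - s) else 0) ≤ 1 := by
  have h1 : ∑ s ∈ Finset.range K, (if s < r then (1 / 2 : ℝ) ^ (r - s) else 0) =
      ∑ s ∈ Finset.range r, (1 / 2 : ℝ) ^ (r - s) := by
    rw [← Finset.sum_filter]
    congr 1
    ext s
    simp only [Finset.mem_filter, Finset.mem_range]
    omega
  rw [h1]
  clear h1 hr
  have h2 : ∑ s ∈ Finset.range r, (1 / 2 : ℝ) ^ (r - s) = 1 - (1 / 2) ^ r := by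
    induction r with
    | zero => simp
    | succ r ih =>
      rw [Finset.sum_range_succ]
      have : ∀ s ∈ Finset.range r, (1 / 2 : ℝ) ^ (r + 1 - s) = (1 / 2) * (1 / 2 : ℝ) ^ (r - s) := by
        intro s hs
        have := Finset.mem_range.1 hs
        rw [show r + 1 - s = (r - s) + 1 by omega, pow_succ]
        ring
      rw [Finset.sum_congr rfl this, ← Finset.mul_sum, ih, Nat.add_sub_cancel_left, pow_succ]
      ring
  rw [h2]
  have : (0 : ℝ) ≤ (1 / 2) ^ r := by positivity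
  linarith

/-- Before time `K N0 T / 2` the clock at the origin is on. -/
lemma on_before (ω : Aug B Y) (hI : P.Inv ω) (hK : 0 < A.K) (hN0 : 0 < P.N0)
    (ht : 2 * ω.t ≤ A.K * P.N0 * Fintype.card B) : A.On (clk ω.p.2 1) := by
  by_contra hoff
  have hk' : (0 : ℝ) < k := by exact_mod_cast P.hk
  have h0 : A.st (clk ω.p.2) = 0 := A.st_zero _ 1 P.lev1 hoff
  have hμ : ω.μ = 0 := by have := hI.i3; omega
  have h1 : (A.K : ℝ) * ((P.N0 : ℝ) * Fintype.card B / (5 * k)) ≤
      ∑ s ∈ Finset.range A.K, ∑ r ∈ Finset.range (A.K + 1),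
        if s < r then (1 / 2 : ℝ) ^ (r - s) * ω.W r else 0 := by
    have h2 : (A.K : ℝ) * ((P.N0 : ℝ) * Fintype.card B / (5 * k)) =
        ∑ _s ∈ Finset.range A.K, (P.N0 : ℝ) * Fintype.card B / (5 * k) := by
      rw [Finset.sum_const, Finset.card_range, nsmul_eq_mul]
    rw [h2]
    refine Finset.sum_le_sum fun s hs => ?_
    exact hI.i4 s (by omega) (Finset.mem_range.1 hs)
  have h2 : ∑ s ∈ Finset.range A.K, ∑ r ∈ Finset.range (A.K + 1),
        (if s < r then (1 / 2 : ℝ) ^ (r - s) * ω.W r else 0) ≤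
      ∑ r ∈ Finset.range (A.K + 1), ω.W r := by
    rw [Finset.sum_comm]
    refine Finset.sum_le_sum fun r hr => ?_
    have hrK : r ≤ A.K := Nat.lt_succ_iff.1 (Finset.mem_range.1 hr)
    have h3 : ∑ s ∈ Finset.range A.K, (if s < r then (1 / 2 : ℝ) ^ (r - s) * ω.W r else 0) =
        (∑ s ∈ Finset.range A.K, (if s < r then (1 / 2 : ℝ) ^ (r - s) else 0)) * ω.W r := by
      rw [Finset.sum_mul]
      refine Finset.sum_congr rfl fun s _ => ?_
      split_ifs <;> ring
    rw [h3]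
    have := mul_le_mul_of_nonneg_right (geom_half A.K r hrK) (hI.i3b r)
    linarith
  have h3 := (h1.trans h2).trans hI.i5
  have hT : (0 : ℝ) < Fintype.card B := by exact_mod_cast Fintype.card_pos
  have h4 : (A.K : ℝ) * ((P.N0 : ℝ) * Fintype.card B / (5 * k)) =
      (A.K * P.N0 * Fintype.card B) / (5 * k) := by ring
  rw [h4, div_le_div_iff₀ (by positivity) (by positivity)] at h3
  have h5 : (2 : ℝ) * ω.t ≤ A.K * P.N0 * Fintype.card B := by exact_mod_cast ht
  have h6 : (0 : ℝ) < A.K * P.N0 * Fintype.card B := by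
    have : (0 : ℝ) < A.K := by exact_mod_cast hK
    have : (0 : ℝ) < P.N0 := by exact_mod_cast hN0
    positivity
  nlinarith

/-- The initial augmented state. -/
def ω0 (A : Gd k γ B Y) : Aug B Y where
  p := (1, fun _ => (1, 1))
  V := fun _ => 0
  N := fun _ => 0
  W := fun _ => 0
  μ := A.K
  t := 0

lemma inv_init (hN0 : 0 < P.N0) : P.Inv (ω0 A) := by
  have hk' : (0 : ℝ) < k := by exact_mod_cast P.hk
  have hΦ1 : 1 ≤ P.Φ 1 := Ph_one_ge A.EY P.hk P.hγ P.n1
  have hc0 := c0_pos P.hk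
  have hc0' := c0_le P.hk
  have ha1 : P.a0 < 1 := by
    unfold a0
    exact pow_lt_one₀ hc0.le (by linarith) (by omega)
  refine ⟨?_, ?_, ?_, ?_, ?_, ?_, ?_⟩
  · intro b
    change (1 : Y) ∈ nb A.EY _ 1
    exact nb_self _ _ _
  · intro b _
    change c0 k ^ 0 ≤ P.Φ 1
    rw [pow_zero]; exact hΦ1
  · by_contra hlt
    push Not at hlt
    obtain ⟨b, _, hoff⟩ := A.st_off _ hlt
    apply hoff
    rw [P.hOn]
    change P.a0 < P.Φ 1
    linarith
  · intro r _; rfl
  · intro r; exact le_rfl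
  · intro s h1 h2
    exact absurd h2 (not_lt.2 h1)
  · change ∑ _r ∈ Finset.range (A.K + 1), (0 : ℝ) ≤ ((0 : ℕ) : ℝ) / (4 * k)
    simp

lemma ff_init (hinit : P.M * (P.Φ 1 / (lam1 k γ ^ P.n0 * P.a0)) ≤ 1 / 8) :
    P.ff (ω0 A) ≤ 1 / 4 := by
  have hM : (0 : ℝ) < P.M := by exact_mod_cast P.hM1
  have ha0 := P.a0_pos
  have hl := P.lam_pos
  have hΦ := P.Φ_nonneg 1
  have h1 : ∀ b, P.f1 (ω0 A) b ≤ 1 / (8 * P.M) := by
    intro b
    unfold f1 Q
    change 1 / (20 * (P.M : ℝ)) * P.E ^ 0 * Real.exp (-(P.θ * A.Lam (fun _ => 0) b)) * _ ≤ _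
    have h2 : A.Lam (fun _ => 0) b = 0 := by unfold Gd.Lam; simp
    rw [h2, mul_zero, neg_zero, Real.exp_zero, pow_zero, mul_one, mul_one]
    have h3 := P.Gf_le b (clk (ω0 A).p.2) (ω0 A).p.1
    have h4 := P.Uf_le (clk (ω0 A).p.2)
    have h5 := P.θCK_le
    have h6 : P.Gf b (clk (ω0 A).p.2) (ω0 A).p.1 * P.Uf (clk (ω0 A).p.2) ≤ 5 / 4 * 2 := by
      refine mul_le_mul (by linarith) h4 ?_ (by norm_num)
      linarith [P.Uf_ge (clk (ω0 A).p.2)]
    calc 1 / (20 * (P.M : ℝ)) * (P.Gf b (clk (ω0 A).p.2) (ω0 A).p.1 * P.Uf (clk (ω0 A).p.2))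
        ≤ 1 / (20 * (P.M : ℝ)) * (5 / 4 * 2) := mul_le_mul_of_nonneg_left h6 (by positivity)
      _ = 1 / (8 * P.M) := by field_simp; norm_num
  have h2 : ∀ b, P.f2 (ω0 A) b = P.Φ 1 / (lam1 k γ ^ P.n0 * P.a0) := by
    intro b
    unfold f2
    change P.Φ 1 * (lam1 k γ ^ (min 0 P.n0) / _) = _
    rw [Nat.zero_min, pow_zero]
    ring
  unfold ff
  have h3 : 0 ≤ P.Φ 1 / (lam1 k γ ^ P.n0 * P.a0) := by positivity
  calc ∑ b ∈ A.Bk, (P.f1 (ω0 A) b + P.f2 (ω0 A) b)
      ≤ ∑ b ∈ A.Bk, (1 / (8 * P.M) + P.Φ 1 / (lam1 k γ ^ P.n0 * P.a0)) := by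
        refine Finset.sum_le_sum fun b _ => ?_
        rw [h2]; linarith [h1 b]
    _ = A.Bk.card * (1 / (8 * P.M) + P.Φ 1 / (lam1 k γ ^ P.n0 * P.a0)) := by
        rw [Finset.sum_const, nsmul_eq_mul]
    _ ≤ P.M * (1 / (8 * P.M) + P.Φ 1 / (lam1 k γ ^ P.n0 * P.a0)) := by
        refine mul_le_mul_of_nonneg_right ?_ (by positivity)
        exact_mod_cast P.hM
    _ = 1 / 8 + P.M * (P.Φ 1 / (lam1 k γ ^ P.n0 * P.a0)) := by
        field_simp
    _ ≤ 1 / 4 := by linarith

open Classical in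
/-- The clock at the origin is still on with probability at least one half. -/
theorem off_le (tend : ℕ) (hK : 0 < A.K) (hN0 : 0 < P.N0)
    (htend : 2 * tend ≤ A.K * P.N0 * Fintype.card B)
    (hinit : P.M * (P.Φ 1 / (lam1 k γ ^ P.n0 * P.a0)) ≤ 1 / 8)
    (hδ : tend * (P.M * (2 * (P.τ / P.a0))) ≤ 1 / 4) (n : ℕ) (hn : n ≤ tend) :
    ∑ v, (lazyP A.gr ^ n) (1, fun _ => (1, 1)) v * (if A.On (clk v.2 1) then 0 else 1) ≤
      1 / 2 := by
  have hτ := P.τ_pos
  have ha0 := P.a0_pos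
  have hM : (0 : ℝ) < P.M := by exact_mod_cast P.hM1
  have hdg : ∀ x, 0 < dg A.gr x := by
    intro x
    have := A.dg_ge x
    have := P.hk
    omega
  set g : B × (B → Y × Y) → ℝ := fun v => if A.On (clk v.2 1) then 0 else 1 with hg
  have hδ0 : 0 ≤ P.M * (2 * (P.τ / P.a0)) := by positivity
  have h := hitting (lazyP A.gr) (lazyP_nonneg A.gr) (fun x => lazyP_row A.gr x (hdg x))
    (fun ω : Aug B Y => ω.p) (A.upd) (fun ω => ω.t) (fun ω v => rfl) P.Inv P.ff P.ff_nonneg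
    (P.M * (2 * (P.τ / P.a0))) hδ0 g (fun v => by simp only [hg]; split_ifs <;> norm_num) tend
    (fun ω hI hf _ => P.drift ω (P.good ω hI hf) hf)
    (fun ω v hI _ _ hv hf' => P.inv_step ω v hI (adj_of_pos _ _ _ hv) hf')
    (fun ω hI _ ht => by
      simp only [hg]
      rw [if_pos (P.on_before ω hI hK hN0 (by omega))])
    n (ω0 A) (Or.inr (P.inv_init hN0)) (by
      change 0 + n ≤ tend
      omega)
  have h2 := Ex_proj (lazyP A.gr) (fun ω : Aug B Y => ω.p) A.upd (fun ω v => rfl) g n (ω0 A)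
  rw [h2] at h
  have h3 : (n : ℝ) * (P.M * (2 * (P.τ / P.a0))) ≤ tend * (P.M * (2 * (P.τ / P.a0))) := by
    refine mul_le_mul_of_nonneg_right ?_ hδ0
    exact_mod_cast hn
  have h4 := P.ff_init hinit
  have h5 : (ω0 A).p = (1, fun _ => (1, 1)) := rfl
  rw [h5] at h
  linarith

end Pr

end Pool.Agent.MP50f558
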