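import Mathlib
import Pool.Agent.Lib.MP_50f558_pr.Lower3
import Pool.Agent.Lib.MP_50f558_pr.GraphQI

set_option autoImplicit false
set_option linter.unusedSectionVars false
set_option linter.unusedVariables false

/-!
Lower bound on the uniform mixing time of the modified graph.
-/

namespace Pool.Agent.MP50f558

variable {k : ℕ} {γ : ℝ} {B Y : Type} [Group B] [Fintype B] [Group Y] [Fintype Y]
  [DecidableEq B] [DecidableEq Y]

/-- The clock at the origin is uniform. -/
lemma sum_clk (F : Y → ℝ) :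
    (Fintype.card Y : ℝ) * ∑ v : B × (B → Y × Y), F (clk v.2 1) =
      Fintype.card (B × (B → Y × Y)) * ∑ y, F y := by
  have h1 : ∀ y : Y, ∑ v : B × (B → Y × Y), F (clk v.2 1) =
      ∑ v : B × (B → Y × Y), F (y * clk v.2 1) := by
    intro y
    let η : B × (B → Y × Y) := (1, fun _ => (1, y))
    rw [← Equiv.sum_comp (Equiv.mulLeft η)]
    rfl
  calc (Fintype.card Y : ℝ) * ∑ v : B × (B → Y × Y), F (clk v.2 1)
      = ∑ y : Y, ∑ v : B × (B → Y × Y), F (y * clk v.2 1) := by
        rw [Finset.sum_congr rfl (fun y _ => (h1 y).symm), Finset.sum_const, Finset.card_univ,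
          nsmul_eq_mul]
    _ = ∑ v : B × (B → Y × Y), ∑ y : Y, F (y * clk v.2 1) := Finset.sum_comm
    _ = ∑ v : B × (B → Y × Y), ∑ y : Y, F y := by
        refine Finset.sum_congr rfl fun v _ => ?_
        exact Equiv.sum_comp (Equiv.mulRight (clk v.2 1)) F
    _ = _ := by rw [Finset.sum_const, Finset.card_univ, nsmul_eq_mul]

namespace Pr

variable {A : Gd k γ B Y} (P : Pr A)

open Classical in
/-- Stationary mass of the event that the clock at the origin is on. -/
lemma pi_on : ∑ v, statPi A.gr v * (if A.On (clk v.2 1) then 1 else 0) ≤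
    2 * ((P.n1 + 1) * (1 + g1 k γ / 2) ^ P.n1) / (P.a0 * Fintype.card Y) := by
  have hk' : (0 : ℝ) < k := by exact_mod_cast P.hk
  have ha0 := P.a0_pos
  have hcY : (0 : ℝ) < Fintype.card Y := by exact_mod_cast Fintype.card_pos
  have hcV : (0 : ℝ) < Fintype.card (B × (B → Y × Y)) := by exact_mod_cast Fintype.card_pos
  have h1 : ∀ v, statPi A.gr v ≤ 2 / Fintype.card (B × (B → Y × Y)) := by
    intro v
    rw [statPi_eq]
    have h2 : (2 * k : ℝ) * Fintype.card (B × (B → Y × Y)) ≤ ∑ z, (dg A.gr z : ℝ) := by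
      calc (2 * k : ℝ) * Fintype.card (B × (B → Y × Y)) = ∑ _z : B × (B → Y × Y), (2 * k : ℝ) := by
            rw [Finset.sum_const, Finset.card_univ, nsmul_eq_mul]; ring
        _ ≤ _ := Finset.sum_le_sum fun z _ => by
            have := A.dg_ge z
            exact_mod_cast this
    have h3 : (dg A.gr v : ℝ) ≤ 4 * k := by
      have := A.dg_le v
      exact_mod_cast this
    rw [div_le_div_iff₀ (lt_of_lt_of_le (by positivity) h2) hcV]
    nlinarith
  have h2 : ∀ c : Y, (if A.On c then (1 : ℝ) else 0) ≤ P.Φ c / P.a0 := by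
    intro c
    split_ifs with h
    · rw [P.hOn] at h
      rw [le_div_iff₀ ha0, one_mul]
      exact h.le
    · exact div_nonneg (P.Φ_nonneg c) ha0.le
  calc ∑ v, statPi A.gr v * (if A.On (clk v.2 1) then 1 else 0)
      ≤ ∑ v : B × (B → Y × Y), 2 / Fintype.card (B × (B → Y × Y)) *
          (P.Φ (clk v.2 1) / P.a0) := by
        refine Finset.sum_le_sum fun v _ => ?_
        refine mul_le_mul (h1 v) (h2 _) ?_ (by positivity)
        split_ifs <;> norm_num
    _ = 2 / (Fintype.card (B × (B → Y × Y)) * P.a0) * ∑ v : B × (B → Y × Y), P.Φ (clk v.2 1) := by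
        rw [Finset.mul_sum]
        refine Finset.sum_congr rfl fun v _ => ?_
        field_simp
    _ = 2 / (P.a0 * Fintype.card Y) * ∑ y, P.Φ y := by
        have h3 := sum_clk (B := B) (Y := Y) P.Φ
        have h4 : ∑ v : B × (B → Y × Y), P.Φ (clk v.2 1) =
            Fintype.card (B × (B → Y × Y)) * (∑ y, P.Φ y) / Fintype.card Y := by
          rw [← h3]; field_simp
        rw [h4]
        field_simp
    _ ≤ 2 / (P.a0 * Fintype.card Y) * ((P.n1 + 1) * (1 + g1 k γ / 2) ^ P.n1) :=
        mul_le_mul_of_nonneg_left (Ph_sum A.EY P.hk P.hγ P.n1) (by positivity)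
    _ = _ := by ring

/-- Lower bound on the uniform mixing time. -/
theorem tInf_gt (tend : ℕ) (hK : 0 < A.K) (hN0 : 0 < P.N0)
    (htend : 2 * tend ≤ A.K * P.N0 * Fintype.card B)
    (hinit : P.M * (P.Φ 1 / (lam1 k γ ^ P.n0 * P.a0)) ≤ 1 / 8)
    (hδ : tend * (P.M * (2 * (P.τ / P.a0))) ≤ 1 / 4)
    (hpi : 2 * ((P.n1 + 1) * (1 + g1 k γ / 2) ^ P.n1) / (P.a0 * Fintype.card Y) < 2 / 5) :
    tend < tInf A.gr := by
  classical
  by_contra hle
  push Not at hle
  have hdg : ∀ x, 0 < dg A.gr x := by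
    intro x
    have := A.dg_ge x
    have := P.hk
    omega
  have hex := exists_mixed A.gr (A.quasiIso P.hγ).1 hdg
  have hmem := Nat.sInf_mem (s := {t : ℕ | ∀ x y : B × (B → Y × Y),
    |(lazyP A.gr ^ t) x y / statPi A.gr y - 1| ≤ 1 / 4}) hex
  rw [← tInf_eq] at hmem
  have hoff := P.off_le tend hK hN0 htend hinit hδ (tInf A.gr) hle
  set n := tInf A.gr with hn
  set v0 : B × (B → Y × Y) := (1, fun _ => (1, 1)) with hv0
  have h1 : ∀ y, (lazyP A.gr ^ n) v0 y ≤ (5 / 4) * statPi A.gr y := by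
    intro y
    have h2 := (abs_le.1 (hmem v0 y)).2
    have h3 := statPi_pos A.gr hdg y
    have h4 : (lazyP A.gr ^ n) v0 y / statPi A.gr y ≤ 5 / 4 := by linarith
    rwa [div_le_iff₀ h3] at h4
  have h2 := P.pi_on
  have h3 : ∑ v, (lazyP A.gr ^ n) v0 v * (if A.On (clk v.2 1) then 1 else 0) ≤
      (5 / 4) * ∑ v, statPi A.gr v * (if A.On (clk v.2 1) then 1 else 0) := by
    rw [Finset.mul_sum]
    refine Finset.sum_le_sum fun v _ => ?_
    have := mul_le_mul_of_nonneg_right (h1 v)
      (show (0 : ℝ) ≤ if A.On (clk v.2 1) then 1 else 0 by split_ifs <;> norm_num)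
    linarith
  have h4 : ∑ v, (lazyP A.gr ^ n) v0 v * (if A.On (clk v.2 1) then 1 else 0) +
      ∑ v, (lazyP A.gr ^ n) v0 v * (if A.On (clk v.2 1) then 0 else 1) = 1 := by
    rw [← Finset.sum_add_distrib]
    refine Eq.trans ?_ (lazyP_pow_row A.gr hdg n v0)
    refine Finset.sum_congr rfl fun v _ => ?_
    split_ifs <;> ring
  linarith

end Pr

end Pool.Agent.MP50f558
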