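import Mathlib
import Pool.Agent.Lib.MP_50f558_pr.Wreath

set_option autoImplicit false
set_option linter.unusedSectionVars false
set_option linter.unusedVariables false

/-!
The upper bound for the uniform mixing time of the wreath product graph: one step estimates.
-/

namespace Pool.Agent.MP50f558

section upper

variable {B X : Type} [Group B] [Fintype B] [DecidableEq B] [Group X] [Fintype X]
  {kB kX : ℕ} {γ : ℝ}

/-- Resampling one coordinate. -/
lemma sum_update_sum (b : B) (F : (B → X) → ℝ) :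
    ∑ w : B → X, ∑ y : X, F (Function.update w b y) = Fintype.card X * ∑ w : B → X, F w := by
  classical
  have hinv : Function.Involutive (fun q : (B → X) × X => (Function.update q.1 b q.2, q.1 b)) := by
    intro q
    simp
  have h1 : ∑ q : (B → X) × X, F (Function.update q.1 b q.2) = ∑ q : (B → X) × X, F q.1 := by
    refine Fintype.sum_equiv hinv.toPerm _ _ fun q => ?_
    simp
  rw [← Fintype.sum_prod_type' (f := fun w y => F (Function.update w b y)), h1,
    Fintype.sum_prod_type]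
  simp only [Finset.sum_const, Finset.card_univ, nsmul_eq_mul]
  rw [Finset.mul_sum]

/-- The energy of a function. -/
noncomputable def wen (EB : Expd kB γ B) (EX : Expd kX γ X) (f : B × (B → X) → ℝ) : ℝ :=
  ∑ s ∈ EB.S, ∑ p : B × (B → X), (f (s * p.1, p.2) - f p) ^ 2 +
    ∑ s ∈ EX.S, ∑ p : B × (B → X),
      (f (p.1, Function.update p.2 p.1 (s * p.2 p.1)) - f p) ^ 2

/-- One step of the walk. -/
noncomputable def wst (EB : Expd kB γ B) (EX : Expd kX γ X) (f : B × (B → X) → ℝ) :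
    B × (B → X) → ℝ := fun p => ∑ q, lazyP (wrG EB EX) p q * f q

lemma wst_eq (EB : Expd kB γ B) (EX : Expd kX γ X) (f : B × (B → X) → ℝ) (p : B × (B → X)) :
    wst EB EX f p = f p / 2 + (∑ s ∈ EB.S, f (s * p.1, p.2) +
      ∑ s ∈ EX.S, f (p.1, Function.update p.2 p.1 (s * p.2 p.1))) / (2 * (kB + kX)) :=
  wr_step EB EX p f

lemma sum_wB (EB : Expd kB γ B) {s : B} (hs : s ∈ EB.S) (F : B × (B → X) → ℝ) :
    ∑ p : B × (B → X), F (s * p.1, p.2) = ∑ p : B × (B → X), F p := by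
  have hinv : Function.Involutive (fun p : B × (B → X) => (s * p.1, p.2)) := by
    intro p
    simp [← mul_assoc, EB.invol s hs]
  exact Fintype.sum_equiv hinv.toPerm _ _ fun q => rfl

lemma sum_wX (EX : Expd kX γ X) {s : X} (hs : s ∈ EX.S) (F : B × (B → X) → ℝ) :
    ∑ p : B × (B → X), F (p.1, Function.update p.2 p.1 (s * p.2 p.1)) =
      ∑ p : B × (B → X), F p := by
  have hinv : Function.Involutive (fun p : B × (B → X) =>
      (p.1, Function.update p.2 p.1 (s * p.2 p.1))) := by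
    intro p
    simp [← mul_assoc, EX.invol s hs]
  exact Fintype.sum_equiv hinv.toPerm _ _ fun q => rfl

lemma wst_sq_le (EB : Expd kB γ B) (EX : Expd kX γ X) (hk : 0 < kB + kX)
    (f : B × (B → X) → ℝ) :
    ∑ p, wst EB EX f p ^ 2 ≤ ∑ p, f p ^ 2 - wen EB EX f / (4 * (kB + kX)) := by
  classical
  have hk' : (0 : ℝ) < kB + kX := by exact_mod_cast hk
  have h1 : ∀ p, wst EB EX f p ^ 2 ≤ (∑ s ∈ EB.S, (f p + f (s * p.1, p.2)) ^ 2 +
      ∑ s ∈ EX.S, (f p + f (p.1, Function.update p.2 p.1 (s * p.2 p.1))) ^ 2) /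
        (4 * (kB + kX)) := by
    intro p
    have e1 : wst EB EX f p = (∑ q ∈ wrN EB EX p, (f p + f q)) / (2 * (kB + kX)) := by
      rw [wst_eq, Finset.sum_add_distrib, Finset.sum_const, wrN_card, wrN_sum, nsmul_eq_mul]
      push_cast
      field_simp
    have e2 : (∑ q ∈ wrN EB EX p, (f p + f q)) ^ 2 ≤
        (kB + kX) * ∑ q ∈ wrN EB EX p, (f p + f q) ^ 2 := by
      have := sq_sum_le_card_mul_sum_sq (s := wrN EB EX p) (f := fun q => f p + f q)
      rw [wrN_card] at this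
      push_cast at this
      exact this
    rw [← wrN_sum EB EX p (fun q => (f p + f q) ^ 2), e1, div_pow, div_le_div_iff₀
      (by positivity) (by positivity)]
    nlinarith
  have h2 : ∀ s ∈ EB.S, ∑ p : B × (B → X), (f p + f (s * p.1, p.2)) ^ 2 =
      4 * ∑ p, f p ^ 2 - ∑ p : B × (B → X), (f (s * p.1, p.2) - f p) ^ 2 := by
    intro s hs
    have h3 := sum_wB EB hs (fun p => f p ^ 2)
    have h4 : ∑ p : B × (B → X), (f p + f (s * p.1, p.2)) ^ 2 +
        ∑ p : B × (B → X), (f (s * p.1, p.2) - f p) ^ 2 =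
        2 * ∑ p, f p ^ 2 + 2 * ∑ p : B × (B → X), f (s * p.1, p.2) ^ 2 := by
      rw [← Finset.sum_add_distrib, Finset.mul_sum, Finset.mul_sum, ← Finset.sum_add_distrib]
      exact Finset.sum_congr rfl fun p _ => by ring
    linarith
  have h2' : ∀ s ∈ EX.S, ∑ p : B × (B → X),
      (f p + f (p.1, Function.update p.2 p.1 (s * p.2 p.1))) ^ 2 =
      4 * ∑ p, f p ^ 2 - ∑ p : B × (B → X),
        (f (p.1, Function.update p.2 p.1 (s * p.2 p.1)) - f p) ^ 2 := by
    intro s hs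
    have h3 := sum_wX EX hs (fun p : B × (B → X) => f p ^ 2)
    have h4 : ∑ p : B × (B → X), (f p + f (p.1, Function.update p.2 p.1 (s * p.2 p.1))) ^ 2 +
        ∑ p : B × (B → X), (f (p.1, Function.update p.2 p.1 (s * p.2 p.1)) - f p) ^ 2 =
        2 * ∑ p, f p ^ 2 +
          2 * ∑ p : B × (B → X), f (p.1, Function.update p.2 p.1 (s * p.2 p.1)) ^ 2 := by
      rw [← Finset.sum_add_distrib, Finset.mul_sum, Finset.mul_sum, ← Finset.sum_add_distrib]
      exact Finset.sum_congr rfl fun p _ => by ring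
    linarith
  calc ∑ p, wst EB EX f p ^ 2 ≤ ∑ p : B × (B → X), (∑ s ∈ EB.S, (f p + f (s * p.1, p.2)) ^ 2 +
      ∑ s ∈ EX.S, (f p + f (p.1, Function.update p.2 p.1 (s * p.2 p.1))) ^ 2) /
        (4 * (kB + kX)) := Finset.sum_le_sum fun p _ => h1 p
    _ = (∑ s ∈ EB.S, ∑ p : B × (B → X), (f p + f (s * p.1, p.2)) ^ 2 +
      ∑ s ∈ EX.S, ∑ p : B × (B → X),
        (f p + f (p.1, Function.update p.2 p.1 (s * p.2 p.1))) ^ 2) / (4 * (kB + kX)) := by
        rw [← Finset.sum_div, Finset.sum_add_distrib, Finset.sum_comm]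
        congr 2
        rw [Finset.sum_comm]
    _ = ((kB + kX) * (4 * ∑ p, f p ^ 2) - wen EB EX f) / (4 * (kB + kX)) := by
        rw [Finset.sum_congr rfl h2, Finset.sum_congr rfl h2', Finset.sum_sub_distrib,
          Finset.sum_sub_distrib, Finset.sum_const, Finset.sum_const, EB.card_S, EX.card_S,
          nsmul_eq_mul, nsmul_eq_mul]
        unfold wen
        congr 1
        ring
    _ = _ := by field_simp

/-- Zero average in every lamp of `A`. -/
def HA (A : Finset B) (f : B × (B → X) → ℝ) : Prop :=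
  ∀ b ∈ A, ∀ (x : B) (w : B → X), ∑ y : X, f (x, Function.update w b y) = 0

lemma HA_wst (EB : Expd kB γ B) (EX : Expd kX γ X) (A : Finset B) (f : B × (B → X) → ℝ)
    (hf : HA A f) : HA A (wst EB EX f) := by
  intro b hb x w
  simp only [wst_eq]
  rw [Finset.sum_add_distrib, ← Finset.sum_div, hf b hb x w, ← Finset.sum_div,
    Finset.sum_add_distrib, Finset.sum_comm]
  have h1 : ∑ s ∈ EB.S, ∑ y : X, f (s * x, Function.update w b y) = 0 :=
    Finset.sum_eq_zero fun s _ => hf b hb (s * x) w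
  have h2 : ∑ y : X, ∑ s ∈ EX.S, f (x, Function.update (Function.update w b y) x
      (s * (Function.update w b y) x)) = 0 := by
    rw [Finset.sum_comm]
    refine Finset.sum_eq_zero fun s _ => ?_
    by_cases hxb : x = b
    · subst hxb
      simp only [Function.update_idem, Function.update_self]
      rw [← hf x hb x w]
      exact Fintype.sum_equiv (Equiv.mulLeft s) _ _ fun y => rfl
    · simp only [Function.update_of_ne hxb]
      rw [← hf b hb x (Function.update w x (s * w x))]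
      refine Finset.sum_congr rfl fun y _ => ?_
      rw [Function.update_comm hxb]
  rw [h1, h2]
  simp

/-- Numerical inequality: the mass on a nonempty set and the variance control the norm. -/
lemma mass_var (A : Finset B) (hA : A.Nonempty) (g : B → ℝ) (m : ℝ)
    (hm : ∑ x, g x = Fintype.card B * m) :
    (A.card : ℝ) * ∑ x, g x ^ 2 ≤
      3 * Fintype.card B * (∑ x ∈ A, g x ^ 2 + ∑ x, (g x - m) ^ 2) := by
  have hT : (0 : ℝ) < Fintype.card B := by exact_mod_cast Fintype.card_pos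
  have ha : (0 : ℝ) < A.card := by exact_mod_cast hA.card_pos
  have haT : (A.card : ℝ) ≤ Fintype.card B := by exact_mod_cast Finset.card_le_univ A
  have e1 : ∑ x, g x ^ 2 = ∑ x, (g x - m) ^ 2 + Fintype.card B * m ^ 2 := by
    have : ∑ x, (g x - m) ^ 2 = ∑ x, g x ^ 2 - 2 * m * ∑ x, g x + ∑ _x : B, m ^ 2 := by
      rw [Finset.mul_sum, ← Finset.sum_sub_distrib, ← Finset.sum_add_distrib]
      exact Finset.sum_congr rfl fun x _ => by ring
    rw [this, hm, Finset.sum_const, Finset.card_univ, nsmul_eq_mul]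
    ring
  have e2 : (A.card : ℝ) * m ^ 2 ≤ 2 * (∑ x ∈ A, g x ^ 2 + ∑ x, (g x - m) ^ 2) := by
    have h1 : ∑ x ∈ A, (g x - m) ^ 2 ≤ ∑ x, (g x - m) ^ 2 :=
      Finset.sum_le_sum_of_subset_of_nonneg (Finset.subset_univ A) fun _ _ _ => sq_nonneg _
    have h2 : (A.card : ℝ) * m ^ 2 ≤ ∑ x ∈ A, (2 * g x ^ 2 + 2 * (g x - m) ^ 2) := by
      have : ∑ _x ∈ A, m ^ 2 = (A.card : ℝ) * m ^ 2 := by
        rw [Finset.sum_const, nsmul_eq_mul]
      rw [← this]
      refine Finset.sum_le_sum fun x _ => ?_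
      nlinarith [sq_nonneg (g x + (g x - m))]
    rw [Finset.sum_add_distrib, ← Finset.mul_sum, ← Finset.mul_sum] at h2
    linarith
  have p1 : 0 ≤ ∑ x, (g x - m) ^ 2 := Finset.sum_nonneg fun _ _ => sq_nonneg _
  have p2 : 0 ≤ ∑ x ∈ A, g x ^ 2 := Finset.sum_nonneg fun _ _ => sq_nonneg _
  have h1 := mul_le_mul_of_nonneg_left e2 hT.le
  have h2 := mul_le_mul_of_nonneg_right haT p1
  have h3 : 0 ≤ (Fintype.card B : ℝ) * ∑ x ∈ A, g x ^ 2 := by positivity
  rw [e1]
  nlinarith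

lemma wen_ge_B (EB : Expd kB γ B) (EX : Expd kX γ X) (f : B × (B → X) → ℝ)
    (m : (B → X) → ℝ) (hm : ∀ w, ∑ x, f (x, w) = Fintype.card B * m w) :
    γ * ∑ w : B → X, ∑ x : B, (f (x, w) - m w) ^ 2 ≤
      ∑ s ∈ EB.S, ∑ p : B × (B → X), (f (s * p.1, p.2) - f p) ^ 2 := by
  have h1 : ∀ w : B → X, γ * ∑ x : B, (f (x, w) - m w) ^ 2 ≤
      ∑ s ∈ EB.S, ∑ x : B, (f (s * x, w) - f (x, w)) ^ 2 := by
    intro w
    have := EB.gap (fun x => f (x, w) - m w) (by
      rw [Finset.sum_sub_distrib, hm, Finset.sum_const, Finset.card_univ, nsmul_eq_mul, sub_self])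
    refine this.trans (le_of_eq ?_)
    exact Finset.sum_congr rfl fun s _ => Finset.sum_congr rfl fun x _ => by ring
  calc γ * ∑ w : B → X, ∑ x : B, (f (x, w) - m w) ^ 2
      ≤ ∑ w : B → X, ∑ s ∈ EB.S, ∑ x : B, (f (s * x, w) - f (x, w)) ^ 2 := by
        rw [Finset.mul_sum]
        exact Finset.sum_le_sum fun w _ => h1 w
    _ = _ := by
        rw [Finset.sum_comm]
        refine Finset.sum_congr rfl fun s _ => ?_
        rw [Fintype.sum_prod_type, Finset.sum_comm]

lemma wen_ge_X (EB : Expd kB γ B) (EX : Expd kX γ X) (A : Finset B) (f : B × (B → X) → ℝ)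
    (hf : HA A f) :
    γ * ∑ w : B → X, ∑ x ∈ A, f (x, w) ^ 2 ≤
      ∑ s ∈ EX.S, ∑ p : B × (B → X),
        (f (p.1, Function.update p.2 p.1 (s * p.2 p.1)) - f p) ^ 2 := by
  classical
  have hn : (0 : ℝ) < Fintype.card X := by exact_mod_cast Fintype.card_pos
  have h1 : ∀ x ∈ A, γ * ∑ w : B → X, f (x, w) ^ 2 ≤
      ∑ s ∈ EX.S, ∑ w : B → X, (f (x, Function.update w x (s * w x)) - f (x, w)) ^ 2 := by
    intro x hx
    have h2 : ∀ w : B → X, γ * ∑ y : X, f (x, Function.update w x y) ^ 2 ≤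
        ∑ s ∈ EX.S, ∑ y : X, (f (x, Function.update w x (s * y)) -
          f (x, Function.update w x y)) ^ 2 := fun w =>
      EX.gap (fun y => f (x, Function.update w x y)) (hf x hx x w)
    have h3 : γ * ∑ w : B → X, ∑ y : X, f (x, Function.update w x y) ^ 2 ≤
        ∑ s ∈ EX.S, ∑ w : B → X, ∑ y : X, (f (x, Function.update w x (s * y)) -
          f (x, Function.update w x y)) ^ 2 := by
      rw [Finset.mul_sum, Finset.sum_comm]
      exact Finset.sum_le_sum fun w _ => h2 w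
    rw [sum_update_sum x (fun w => f (x, w) ^ 2)] at h3
    have h4 : ∀ s ∈ EX.S, ∑ w : B → X, ∑ y : X, (f (x, Function.update w x (s * y)) -
          f (x, Function.update w x y)) ^ 2 = Fintype.card X *
        ∑ w : B → X, (f (x, Function.update w x (s * w x)) - f (x, w)) ^ 2 := by
      intro s _
      rw [← sum_update_sum x (fun w => (f (x, Function.update w x (s * w x)) - f (x, w)) ^ 2)]
      simp only [Function.update_idem, Function.update_self]
    rw [Finset.sum_congr rfl h4, ← Finset.mul_sum] at h3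
    refine le_of_mul_le_mul_left ?_ hn
    calc (Fintype.card X : ℝ) * (γ * ∑ w : B → X, f (x, w) ^ 2)
        = γ * (Fintype.card X * ∑ w : B → X, f (x, w) ^ 2) := by ring
      _ ≤ _ := h3
  calc γ * ∑ w : B → X, ∑ x ∈ A, f (x, w) ^ 2
      = ∑ x ∈ A, γ * ∑ w : B → X, f (x, w) ^ 2 := by
        rw [Finset.sum_comm, Finset.mul_sum]
    _ ≤ ∑ x ∈ A, ∑ s ∈ EX.S, ∑ w : B → X,
          (f (x, Function.update w x (s * w x)) - f (x, w)) ^ 2 :=
        Finset.sum_le_sum h1
    _ ≤ ∑ x : B, ∑ s ∈ EX.S, ∑ w : B → X,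
          (f (x, Function.update w x (s * w x)) - f (x, w)) ^ 2 :=
        Finset.sum_le_sum_of_subset_of_nonneg (Finset.subset_univ A) fun _ _ _ =>
          Finset.sum_nonneg fun _ _ => Finset.sum_nonneg fun _ _ => sq_nonneg _
    _ = _ := by
        rw [Finset.sum_comm]
        refine Finset.sum_congr rfl fun s _ => ?_
        rw [Fintype.sum_prod_type]

/-- The gap on `HA`. -/
lemma wen_ge (EB : Expd kB γ B) (EX : Expd kX γ X) (hγ : 0 < γ) (A : Finset B)
    (hA : A.Nonempty) (f : B × (B → X) → ℝ) (hf : HA A f) :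
    γ * A.card * ∑ p, f p ^ 2 ≤ 3 * Fintype.card B * wen EB EX f := by
  have hT : (0 : ℝ) < Fintype.card B := by exact_mod_cast Fintype.card_pos
  set m : (B → X) → ℝ := fun w => (∑ x, f (x, w)) / Fintype.card B with hm
  have hm' : ∀ w, ∑ x, f (x, w) = Fintype.card B * m w := by
    intro w; simp only [hm]; field_simp
  have h1 := wen_ge_B EB EX f m hm'
  have h2 := wen_ge_X EB EX A f hf
  have h3 : (A.card : ℝ) * ∑ w : B → X, ∑ x, f (x, w) ^ 2 ≤
      3 * Fintype.card B * (∑ w : B → X, ∑ x ∈ A, f (x, w) ^ 2 +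
        ∑ w : B → X, ∑ x, (f (x, w) - m w) ^ 2) := by
    rw [Finset.mul_sum, ← Finset.sum_add_distrib, Finset.mul_sum]
    exact Finset.sum_le_sum fun w _ => mass_var A hA (fun x => f (x, w)) (m w) (hm' w)
  have h4 : ∑ p, f p ^ 2 = ∑ w : B → X, ∑ x, f (x, w) ^ 2 := by
    rw [Fintype.sum_prod_type, Finset.sum_comm]
  rw [h4]
  calc γ * A.card * ∑ w : B → X, ∑ x, f (x, w) ^ 2
      = γ * (A.card * ∑ w : B → X, ∑ x, f (x, w) ^ 2) := by ring
    _ ≤ γ * (3 * Fintype.card B * (∑ w : B → X, ∑ x ∈ A, f (x, w) ^ 2 +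
        ∑ w : B → X, ∑ x, (f (x, w) - m w) ^ 2)) := mul_le_mul_of_nonneg_left h3 hγ.le
    _ = 3 * Fintype.card B * (γ * ∑ w : B → X, ∑ x, (f (x, w) - m w) ^ 2 +
        γ * ∑ w : B → X, ∑ x ∈ A, f (x, w) ^ 2) := by ring
    _ ≤ 3 * Fintype.card B * wen EB EX f := by
        refine mul_le_mul_of_nonneg_left ?_ (by positivity)
        unfold wen
        exact add_le_add h1 h2

/-- Functions of the walker with zero sum. -/
def H0 (f : B × (B → X) → ℝ) : Prop :=
  ∃ g : B → ℝ, ∑ x, g x = 0 ∧ ∀ p, f p = g p.1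

lemma H0_wst (EB : Expd kB γ B) (EX : Expd kX γ X) (f : B × (B → X) → ℝ)
    (hf : H0 f) : H0 (wst EB EX f) := by
  obtain ⟨g, hg, hfg⟩ := hf
  refine ⟨fun x => g x / 2 + (∑ s ∈ EB.S, g (s * x) + ∑ s ∈ EX.S, g x) / (2 * (kB + kX)),
    ?_, ?_⟩
  · rw [Finset.sum_add_distrib, ← Finset.sum_div, hg, ← Finset.sum_div,
      Finset.sum_add_distrib, Finset.sum_comm]
    have h1 : ∑ s ∈ EB.S, ∑ x : B, g (s * x) = 0 := by
      refine Finset.sum_eq_zero fun s _ => ?_
      rw [← hg]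
      exact Fintype.sum_equiv (Equiv.mulLeft s) _ _ fun y => rfl
    have h2 : ∑ x : B, ∑ s ∈ EX.S, g x = 0 := by
      rw [Finset.sum_comm]
      exact Finset.sum_eq_zero fun s _ => hg
    rw [h1, h2]
    simp
  · intro p
    rw [wst_eq, hfg p]
    simp only [hfg]

lemma wen_ge0 (EB : Expd kB γ B) (EX : Expd kX γ X) (hγ : 0 < γ)
    (f : B × (B → X) → ℝ) (hf : H0 f) : γ * ∑ p, f p ^ 2 ≤ wen EB EX f := by
  obtain ⟨g, hg, hfg⟩ := hf
  have h1 := wen_ge_B EB EX f (fun _ => 0) (by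
    intro w
    simp only [hfg, hg, mul_zero])
  have h4 : ∑ p, f p ^ 2 = ∑ w : B → X, ∑ x, f (x, w) ^ 2 := by
    rw [Fintype.sum_prod_type, Finset.sum_comm]
  rw [h4]
  simp only [sub_zero] at h1
  refine h1.trans ?_
  unfold wen
  have : 0 ≤ ∑ s ∈ EX.S, ∑ p : B × (B → X),
      (f (p.1, Function.update p.2 p.1 (s * p.2 p.1)) - f p) ^ 2 :=
    Finset.sum_nonneg fun _ _ => Finset.sum_nonneg fun _ _ => sq_nonneg _
  linarith

/-- Iterated walk. -/
noncomputable def wit (EB : Expd kB γ B) (EX : Expd kX γ X) (t : ℕ) (f : B × (B → X) → ℝ) :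
    B × (B → X) → ℝ := (wst EB EX)^[t] f

lemma wit_zero (EB : Expd kB γ B) (EX : Expd kX γ X) (f : B × (B → X) → ℝ) :
    wit EB EX 0 f = f := rfl

lemma wit_succ (EB : Expd kB γ B) (EX : Expd kX γ X) (t : ℕ) (f : B × (B → X) → ℝ) :
    wit EB EX (t + 1) f = wst EB EX (wit EB EX t f) := by
  unfold wit
  rw [Function.iterate_succ_apply']

/-- Decay for a function in `HA`. -/
lemma wit_decay (EB : Expd kB γ B) (EX : Expd kX γ X) (hk : 0 < kB + kX) (c : ℝ)
    (H : (B × (B → X) → ℝ) → Prop) (hH : ∀ f, H f → H (wst EB EX f))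
    (hgap : ∀ f, H f → c * (4 * (kB + kX)) * ∑ p, f p ^ 2 ≤ wen EB EX f) (hc1 : c ≤ 1)
    (t : ℕ) (f : B × (B → X) → ℝ) (hf : H f) :
    H (wit EB EX t f) ∧ ∑ p, wit EB EX t f p ^ 2 ≤ (1 - c) ^ t * ∑ p, f p ^ 2 := by
  have hk' : (0 : ℝ) < kB + kX := by exact_mod_cast hk
  induction t with
  | zero => exact ⟨hf, by simp [wit_zero]⟩
  | succ t ih =>
    obtain ⟨h1, h2⟩ := ih
    rw [wit_succ]
    refine ⟨hH _ h1, ?_⟩
    have h3 := wst_sq_le EB EX hk (wit EB EX t f)
    have h4 := hgap _ h1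
    have h5 : c * ∑ p, wit EB EX t f p ^ 2 ≤ wen EB EX (wit EB EX t f) / (4 * (kB + kX)) := by
      rw [le_div_iff₀ (by positivity)]
      linarith
    calc ∑ p, wst EB EX (wit EB EX t f) p ^ 2
        ≤ (1 - c) * ∑ p, wit EB EX t f p ^ 2 := by linarith
      _ ≤ (1 - c) * ((1 - c) ^ t * ∑ p, f p ^ 2) :=
          mul_le_mul_of_nonneg_left h2 (by linarith)
      _ = (1 - c) ^ (t + 1) * ∑ p, f p ^ 2 := by ring

end upper

end Pool.Agent.MP50f558
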