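import Mathlib
import Pool.Agent.Lib.MP_50f558_pr.Upper1

set_option autoImplicit false
set_option linter.unusedSectionVars false
set_option linter.unusedVariables false

/-!
The upper bound for the uniform mixing time of the wreath product graph: decomposition of a point
mass.
-/

namespace Pool.Agent.MP50f558

section nrm

variable {V : Type} [Fintype V]

/-- The `ℓ²` norm. -/
noncomputable def nrm (f : V → ℝ) : ℝ := ‖(WithLp.toLp 2 f : EuclideanSpace ℝ V)‖

lemma nrm_nonneg (f : V → ℝ) : 0 ≤ nrm f := norm_nonneg _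

lemma nrm_sq (f : V → ℝ) : nrm f ^ 2 = ∑ p, f p ^ 2 := by
  unfold nrm
  rw [EuclideanSpace.real_norm_sq_eq]

lemma nrm_sum_le {ι : Type} (s : Finset ι) (F : ι → V → ℝ) :
    nrm (fun p => ∑ i ∈ s, F i p) ≤ ∑ i ∈ s, nrm (F i) := by
  unfold nrm
  have : (WithLp.toLp 2 (fun p => ∑ i ∈ s, F i p) : EuclideanSpace ℝ V) =
      ∑ i ∈ s, (WithLp.toLp 2 (F i) : EuclideanSpace ℝ V) := by
    ext p
    simp
  rw [this]
  exact norm_sum_le _ _

lemma nrm_add_le (f g : V → ℝ) : nrm (fun p => f p + g p) ≤ nrm f + nrm g := by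
  unfold nrm
  have : (WithLp.toLp 2 (fun p => f p + g p) : EuclideanSpace ℝ V) =
      WithLp.toLp 2 f + WithLp.toLp 2 g := by
    ext p
    simp
  rw [this]
  exact norm_add_le _ _

lemma abs_sum_mul_le_nrm (f g : V → ℝ) : |∑ p, f p * g p| ≤ nrm f * nrm g := by
  rw [← Real.sqrt_sq_eq_abs]
  apply Real.sqrt_le_iff.2
  refine ⟨mul_nonneg (nrm_nonneg f) (nrm_nonneg g), ?_⟩
  rw [mul_pow, nrm_sq, nrm_sq]
  exact Finset.sum_mul_sq_le_sq_mul_sq _ _ _

end nrm

section upper

variable {B X : Type} [Group B] [Fintype B] [DecidableEq B] [Group X] [Fintype X]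
  [DecidableEq X] {kB kX : ℕ} {γ : ℝ}

/-- One factor of the decomposition of a point mass. -/
noncomputable def fac (A : Finset B) (w : B → X) (b : B) (y : X) : ℝ :=
  if b ∈ A then (if y = w b then 1 else 0) - (Fintype.card X : ℝ)⁻¹ else (Fintype.card X : ℝ)⁻¹

/-- Components of the point mass. -/
noncomputable def fA (p : B × (B → X)) (A : Finset B) (q : B × (B → X)) : ℝ :=
  (if q.1 = p.1 then 1 else 0) * ∏ b, fac A p.2 b (q.2 b)

lemma fA_sum (p q : B × (B → X)) :
    ∑ A ∈ (Finset.univ : Finset B).powerset, fA p A q = if q = p then 1 else 0 := by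
  have h1 : ∏ b, (((if q.2 b = p.2 b then (1 : ℝ) else 0) - (Fintype.card X : ℝ)⁻¹) +
      (Fintype.card X : ℝ)⁻¹) = ∑ A ∈ (Finset.univ : Finset B).powerset,
        ∏ b, fac A p.2 b (q.2 b) := by
    rw [Finset.prod_add]
    refine Finset.sum_congr rfl fun A _ => ?_
    have := Finset.prod_piecewise Finset.univ A
      (fun b => (if q.2 b = p.2 b then (1 : ℝ) else 0) - (Fintype.card X : ℝ)⁻¹)
      (fun _ => (Fintype.card X : ℝ)⁻¹)
    rw [Finset.univ_inter] at this
    rw [← this]
    refine Finset.prod_congr rfl fun b _ => ?_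
    unfold fac Finset.piecewise
    rfl
  unfold fA
  rw [← Finset.mul_sum, ← h1]
  simp only [sub_add_cancel]
  by_cases h : q = p
  · subst h; simp
  · rw [if_neg h]
    by_cases h2 : q.1 = p.1
    · have h3 : ∃ b, q.2 b ≠ p.2 b := by
        by_contra h4
        push Not at h4
        exact h (Prod.ext h2 (funext h4))
      obtain ⟨b, hb⟩ := h3
      rw [Finset.prod_eq_zero (Finset.mem_univ b) (if_neg hb), mul_zero]
    · rw [if_neg h2, zero_mul]

lemma fac_sum_zero (A : Finset B) (w : B → X) (b : B) (hb : b ∈ A) :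
    ∑ y, fac A w b y = 0 := by
  have hn : (Fintype.card X : ℝ) ≠ 0 := by exact_mod_cast Fintype.card_ne_zero
  unfold fac
  simp only [if_pos hb]
  rw [Finset.sum_sub_distrib, Finset.sum_ite_eq' , if_pos (Finset.mem_univ _), Finset.sum_const,
    Finset.card_univ, nsmul_eq_mul, mul_inv_cancel₀ hn, sub_self]

lemma fA_HA (p : B × (B → X)) (A : Finset B) : HA A (fA p A) := by
  intro b hb x w
  have h1 : ∀ y : X, ∏ b', fac A p.2 b' (Function.update w b y b') =
      fac A p.2 b y * ∏ b' ∈ Finset.univ.erase b, fac A p.2 b' (w b') := by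
    intro y
    rw [← Finset.mul_prod_erase Finset.univ _ (Finset.mem_univ b), Function.update_self]
    congr 1
    refine Finset.prod_congr rfl fun b' hb' => ?_
    rw [Function.update_of_ne (Finset.ne_of_mem_erase hb')]
  have h2 : ∀ y : X, fA p A (x, Function.update w b y) = fac A p.2 b y *
      ((if x = p.1 then 1 else 0) * ∏ b' ∈ Finset.univ.erase b, fac A p.2 b' (w b')) := by
    intro y
    unfold fA
    simp only [h1]
    ring
  rw [Finset.sum_congr rfl fun y _ => h2 y, ← Finset.sum_mul, fac_sum_zero A p.2 b hb, zero_mul]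

lemma fac_sq_sum (A : Finset B) (w : B → X) (b : B) :
    ∑ y, fac A w b y ^ 2 ≤ if b ∈ A then 1 else (Fintype.card X : ℝ)⁻¹ := by
  have hn : (0 : ℝ) < Fintype.card X := by exact_mod_cast Fintype.card_pos
  unfold fac
  by_cases hb : b ∈ A
  · simp only [if_pos hb]
    have h1 : ∀ y : X, ((if y = w b then (1 : ℝ) else 0) - (Fintype.card X : ℝ)⁻¹) ^ 2 =
        (if y = w b then (1 - 2 * (Fintype.card X : ℝ)⁻¹) else 0) +
          (Fintype.card X : ℝ)⁻¹ ^ 2 := by
      intro y
      split_ifs <;> ring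
    simp only [h1]
    rw [Finset.sum_add_distrib, Finset.sum_ite_eq', if_pos (Finset.mem_univ _), Finset.sum_const,
      Finset.card_univ, nsmul_eq_mul]
    have h2 : (Fintype.card X : ℝ) * (Fintype.card X : ℝ)⁻¹ ^ 2 = (Fintype.card X : ℝ)⁻¹ := by
      field_simp
    rw [h2]
    have : 0 < (Fintype.card X : ℝ)⁻¹ := inv_pos.2 hn
    linarith
  · simp only [if_neg hb]
    rw [Finset.sum_const, Finset.card_univ, nsmul_eq_mul]
    apply le_of_eq
    field_simp

/-- The norm of the components. -/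
lemma fA_norm (p : B × (B → X)) (A : Finset B) :
    (Fintype.card B * (Fintype.card X : ℝ) ^ Fintype.card B) * ∑ q, fA p A q ^ 2 ≤
      Fintype.card B * (Fintype.card X : ℝ) ^ A.card := by
  have hn : (0 : ℝ) < Fintype.card X := by exact_mod_cast Fintype.card_pos
  have h1 : ∑ q, fA p A q ^ 2 = ∏ b, ∑ y, fac A p.2 b y ^ 2 := by
    have h2 : ∏ b, ∑ y, fac A p.2 b y ^ 2 = ∑ w : B → X, ∏ b, fac A p.2 b (w b) ^ 2 := by
      rw [Finset.prod_univ_sum, Fintype.piFinset_univ]
    rw [h2, Fintype.sum_prod_type]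
    have h3 : ∀ x : B, ∑ w : B → X, fA p A (x, w) ^ 2 =
        if x = p.1 then ∑ w : B → X, ∏ b, fac A p.2 b (w b) ^ 2 else 0 := by
      intro x
      unfold fA
      by_cases hx : x = p.1
      · simp only [if_pos hx, one_mul, Finset.prod_pow]
      · simp only [if_neg hx, zero_mul]
        simp
    simp only [h3]
    rw [Finset.sum_ite_eq', if_pos (Finset.mem_univ _)]
  have h4 : ∏ b, ∑ y, fac A p.2 b y ^ 2 ≤
      ∏ b, (if b ∈ A then (1 : ℝ) else (Fintype.card X : ℝ)⁻¹) :=
    Finset.prod_le_prod (fun b _ => Finset.sum_nonneg fun _ _ => sq_nonneg _)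
      (fun b _ => fac_sq_sum A p.2 b)
  have h5 : ∏ b, (if b ∈ A then (1 : ℝ) else (Fintype.card X : ℝ)⁻¹) =
      (Fintype.card X : ℝ)⁻¹ ^ (Fintype.card B - A.card) := by
    have := Finset.prod_piecewise Finset.univ A (fun _ => (1 : ℝ))
      (fun _ => (Fintype.card X : ℝ)⁻¹)
    rw [Finset.univ_inter, Finset.prod_const_one, one_mul, Finset.prod_const,
      ← Finset.compl_eq_univ_sdiff, Finset.card_compl] at this
    rw [← this]
    refine Finset.prod_congr rfl fun b _ => ?_
    unfold Finset.piecewise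
    rfl
  have h6 : (Fintype.card X : ℝ) ^ Fintype.card B * (Fintype.card X : ℝ)⁻¹ ^
      (Fintype.card B - A.card) = (Fintype.card X : ℝ) ^ A.card := by
    have hle : A.card ≤ Fintype.card B := Finset.card_le_univ A
    obtain ⟨m, hm⟩ := Nat.exists_eq_add_of_le hle
    rw [hm, Nat.add_sub_cancel_left, pow_add, mul_assoc, ← mul_pow, mul_inv_cancel₀ hn.ne',
      one_pow, mul_one]
  rw [h1, mul_assoc]
  refine mul_le_mul_of_nonneg_left ?_ (by positivity)
  rw [← h6]
  refine mul_le_mul_of_nonneg_left ?_ (by positivity)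
  rw [← h5]
  exact h4

/-- The empty component minus the uniform law. -/
noncomputable def f0 (p q : B × (B → X)) : ℝ :=
  fA p ∅ q - (Fintype.card B : ℝ)⁻¹ * (Fintype.card X : ℝ)⁻¹ ^ Fintype.card B

lemma f0_eq (p q : B × (B → X)) : f0 p q =
    ((if q.1 = p.1 then (1 : ℝ) else 0) - (Fintype.card B : ℝ)⁻¹) *
      (Fintype.card X : ℝ)⁻¹ ^ Fintype.card B := by
  unfold f0 fA fac
  simp only [Finset.notMem_empty, if_false, Finset.prod_const, Finset.card_univ]
  ring

lemma f0_H0 (p : B × (B → X)) : H0 (f0 p) := by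
  have hn : (Fintype.card B : ℝ) ≠ 0 := by exact_mod_cast Fintype.card_ne_zero
  refine ⟨fun x => ((if x = p.1 then (1 : ℝ) else 0) - (Fintype.card B : ℝ)⁻¹) *
      (Fintype.card X : ℝ)⁻¹ ^ Fintype.card B, ?_, fun q => f0_eq p q⟩
  rw [← Finset.sum_mul, Finset.sum_sub_distrib, Finset.sum_ite_eq', if_pos (Finset.mem_univ _),
    Finset.sum_const, Finset.card_univ, nsmul_eq_mul, mul_inv_cancel₀ hn, sub_self, zero_mul]

lemma f0_norm (p : B × (B → X)) :
    (Fintype.card B * (Fintype.card X : ℝ) ^ Fintype.card B) * ∑ q, f0 p q ^ 2 ≤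
      Fintype.card B := by
  have hn : (0 : ℝ) < Fintype.card X := by exact_mod_cast Fintype.card_pos
  have hT : (0 : ℝ) < Fintype.card B := by exact_mod_cast Fintype.card_pos
  have h1 : ∑ q, f0 p q ^ 2 = (1 - (Fintype.card B : ℝ)⁻¹) *
      (Fintype.card X : ℝ)⁻¹ ^ Fintype.card B := by
    rw [Fintype.sum_prod_type]
    have h2 : ∀ x : B, ∑ w : B → X, f0 p (x, w) ^ 2 =
        (Fintype.card X : ℝ)⁻¹ ^ Fintype.card B *
          ((if x = p.1 then (1 - 2 * (Fintype.card B : ℝ)⁻¹) else 0) +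
            (Fintype.card B : ℝ)⁻¹ ^ 2) := by
      intro x
      have h5 : ∀ w : B → X, f0 p (x, w) ^ 2 =
          (((if x = p.1 then (1 : ℝ) else 0) - (Fintype.card B : ℝ)⁻¹) *
            (Fintype.card X : ℝ)⁻¹ ^ Fintype.card B) ^ 2 := by
        intro w
        rw [f0_eq]
      rw [Finset.sum_congr rfl fun w _ => h5 w, Finset.sum_const, Finset.card_univ, nsmul_eq_mul,
        Fintype.card_fun]
      have h3 : ((Fintype.card X ^ Fintype.card B : ℕ) : ℝ) *
          ((Fintype.card X : ℝ)⁻¹ ^ Fintype.card B) ^ 2 =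
          (Fintype.card X : ℝ)⁻¹ ^ Fintype.card B := by
        push_cast
        rw [sq, ← mul_assoc, ← mul_pow, mul_inv_cancel₀ hn.ne', one_pow, one_mul]
      rw [mul_pow, mul_left_comm, h3]
      split_ifs <;> ring
    simp only [h2]
    rw [← Finset.mul_sum, Finset.sum_add_distrib, Finset.sum_ite_eq',
      if_pos (Finset.mem_univ _), Finset.sum_const, Finset.card_univ, nsmul_eq_mul]
    have h4 : (Fintype.card B : ℝ) * (Fintype.card B : ℝ)⁻¹ ^ 2 = (Fintype.card B : ℝ)⁻¹ := by
      field_simp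
    rw [h4]
    ring
  rw [h1]
  have h2 : (Fintype.card X : ℝ) ^ Fintype.card B * (Fintype.card X : ℝ)⁻¹ ^ Fintype.card B =
      1 := by
    rw [← mul_pow, mul_inv_cancel₀ hn.ne', one_pow]
  have h3 : 0 < (Fintype.card B : ℝ)⁻¹ := inv_pos.2 hT
  calc (Fintype.card B : ℝ) * (Fintype.card X : ℝ) ^ Fintype.card B *
        ((1 - (Fintype.card B : ℝ)⁻¹) * (Fintype.card X : ℝ)⁻¹ ^ Fintype.card B)
      = Fintype.card B * (1 - (Fintype.card B : ℝ)⁻¹) * ((Fintype.card X : ℝ) ^ Fintype.card B *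
          (Fintype.card X : ℝ)⁻¹ ^ Fintype.card B) := by ring
    _ = Fintype.card B * (1 - (Fintype.card B : ℝ)⁻¹) := by rw [h2, mul_one]
    _ ≤ Fintype.card B * 1 := mul_le_mul_of_nonneg_left (by linarith) hT.le
    _ = _ := mul_one _

lemma wit_apply (EB : Expd kB γ B) (EX : Expd kX γ X) (t : ℕ) (f : B × (B → X) → ℝ)
    (p : B × (B → X)) : wit EB EX t f p = ∑ q, (lazyP (wrG EB EX) ^ t) p q * f q := by
  induction t generalizing p with
  | zero => simp [wit_zero, Matrix.one_apply]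
  | succ t ih =>
    rw [wit_succ]
    unfold wst
    simp only [ih, pow_succ', Matrix.mul_apply]
    simp only [Finset.mul_sum, Finset.sum_mul]
    rw [Finset.sum_comm]
    exact Finset.sum_congr rfl fun _ _ => Finset.sum_congr rfl fun _ _ => by ring

/-- Evolution of the centred point mass. -/
lemma wit_centre (EB : Expd kB γ B) (EX : Expd kX γ X) (t : ℕ) (p z : B × (B → X)) :
    ∑ A ∈ (Finset.univ : Finset B).powerset.erase ∅, wit EB EX t (fA p A) z +
      wit EB EX t (f0 p) z = wit EB EX t (fun q => (if q = p then 1 else 0) -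
        (Fintype.card B : ℝ)⁻¹ * (Fintype.card X : ℝ)⁻¹ ^ Fintype.card B) z := by
  simp only [wit_apply]
  rw [Finset.sum_comm, ← Finset.sum_add_distrib]
  refine Finset.sum_congr rfl fun q _ => ?_
  rw [← Finset.mul_sum, ← mul_add]
  congr 1
  rw [← fA_sum p q, ← Finset.add_sum_erase _ _ (Finset.empty_mem_powerset Finset.univ)]
  unfold f0
  ring

end upper

end Pool.Agent.MP50f558
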