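import Mathlib
import Pool.Agent.Lib.MP_50f558_pr.Upper2

set_option autoImplicit false
set_option linter.unusedSectionVars false
set_option linter.unusedVariables false

/-!
The upper bound for the uniform mixing time of the wreath product graph.
-/

namespace Pool.Agent.MP50f558

lemma tInf_le {V : Type} [Fintype V] [inst : DecidableEq V] (G : SimpleGraph V) (t : ℕ)
    (h : ∀ x y : V, |(lazyP G ^ t) x y / statPi G y - 1| ≤ 1 / 4) : tInf G ≤ t := by
  have h0 : inst = fun a b => Classical.propDecidable (a = b) := Subsingleton.elim _ _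
  subst h0
  unfold tInf
  apply Nat.sInf_le
  intro x y
  exact h x y

section upper

variable {B X : Type} [Group B] [Fintype B] [DecidableEq B] [Group X] [Fintype X]
  [DecidableEq X] {kB kX : ℕ} {γ : ℝ}

lemma nrm_wit_le (EB : Expd kB γ B) (EX : Expd kX γ X) (hk : 0 < kB + kX) (c : ℝ)
    (H : (B × (B → X) → ℝ) → Prop) (hH : ∀ f, H f → H (wst EB EX f))
    (hgap : ∀ f, H f → c * (4 * (kB + kX)) * ∑ p, f p ^ 2 ≤ wen EB EX f) (hc1 : c ≤ 1)
    (m : ℕ) (f : B × (B → X) → ℝ) (hf : H f) (K N : ℝ) (hK : 0 ≤ K) (hN : 0 ≤ N)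
    (hKN : N * ∑ q, f q ^ 2 ≤ K ^ 2) :
    Real.sqrt N * nrm (wit EB EX (2 * m) f) ≤ K * Real.exp (-(c * m)) := by
  have h1 := (wit_decay EB EX hk c H hH hgap hc1 (2 * m) f hf).2
  have h2 : (1 - c) ^ m ≤ Real.exp (-(c * m)) := by
    have : Real.exp (-(c * m)) = Real.exp (-c) ^ m := by
      rw [← Real.exp_nat_mul]; congr 1; ring
    rw [this]
    exact pow_le_pow_left₀ (by linarith) (Real.one_sub_le_exp_neg c) m
  have h3 : 0 ≤ (1 - c) ^ m := pow_nonneg (by linarith) m
  have h4 : (Real.sqrt N * nrm (wit EB EX (2 * m) f)) ^ 2 ≤ (K * Real.exp (-(c * m))) ^ 2 := by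
    rw [mul_pow, Real.sq_sqrt hN, nrm_sq]
    calc N * ∑ p, wit EB EX (2 * m) f p ^ 2 ≤ N * ((1 - c) ^ (2 * m) * ∑ p, f p ^ 2) :=
          mul_le_mul_of_nonneg_left h1 hN
      _ = ((1 - c) ^ m) ^ 2 * (N * ∑ p, f p ^ 2) := by ring
      _ ≤ ((1 - c) ^ m) ^ 2 * K ^ 2 := mul_le_mul_of_nonneg_left hKN (sq_nonneg _)
      _ ≤ (Real.exp (-(c * m))) ^ 2 * K ^ 2 :=
          mul_le_mul_of_nonneg_right (pow_le_pow_left₀ h3 h2 2) (sq_nonneg _)
      _ = _ := by ring
  exact (le_abs_self _).trans (abs_le_of_sq_le_sq h4 (by positivity))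

/-- Bound for the centred point mass. -/
lemma centre_bound (EB : Expd kB γ B) (EX : Expd kX γ X) (hk : 0 < kB + kX) (hγ : 0 < γ)
    (hγ1 : γ ≤ 1) (m : ℕ) (ε : ℝ)
    (hε : ε = Real.exp (-(γ / (12 * (kB + kX) * Fintype.card B) * m)))
    (hε1 : ε * (6 * (Fintype.card B : ℝ) ^ 2 * Fintype.card X) ≤ 1) (p : B × (B → X)) :
    Real.sqrt (Fintype.card B * (Fintype.card X : ℝ) ^ Fintype.card B) *
      nrm (wit EB EX (2 * m) (fun q => (if q = p then 1 else 0) -
        (Fintype.card B : ℝ)⁻¹ * (Fintype.card X : ℝ)⁻¹ ^ Fintype.card B)) ≤ 1 / 2 := by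
  set T : ℝ := ((Fintype.card B : ℕ) : ℝ) with hT
  set n : ℝ := ((Fintype.card X : ℕ) : ℝ) with hn
  set N : ℝ := T * n ^ Fintype.card B with hN
  have hT1 : 1 ≤ T := by rw [hT]; exact_mod_cast Fintype.card_pos
  have hn1 : 1 ≤ n := by rw [hn]; exact_mod_cast Fintype.card_pos
  have hk' : (1 : ℝ) ≤ kB + kX := by exact_mod_cast hk
  have hN0 : 0 ≤ N := by positivity
  set c : ℝ := γ / (12 * (kB + kX) * T) with hc
  have hc0 : 0 < c := by positivity
  have hε0 : 0 < ε := by rw [hε]; exact Real.exp_pos _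
  have hsT : Real.sqrt T ^ 2 = T := Real.sq_sqrt (by linarith)
  have hsn : Real.sqrt n ^ 2 = n := Real.sq_sqrt (by linarith)
  have hsT0 : 0 ≤ Real.sqrt T := Real.sqrt_nonneg _
  have hsn0 : 0 ≤ Real.sqrt n := Real.sqrt_nonneg _
  -- the nonempty components
  have hA : ∀ A ∈ (Finset.univ : Finset B).powerset.erase ∅,
      Real.sqrt N * nrm (wit EB EX (2 * m) (fA p A)) ≤
        Real.sqrt T * (Real.sqrt n * ε) ^ A.card := by
    intro A hA
    have hAne : A.Nonempty := Finset.nonempty_iff_ne_empty.2 (Finset.ne_of_mem_erase hA)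
    have hAT : (A.card : ℝ) ≤ T := by rw [hT]; exact_mod_cast Finset.card_le_univ A
    have h1 := nrm_wit_le EB EX hk (c * A.card) (HA A) (HA_wst EB EX A) (by
      intro f hf
      have h2 := wen_ge EB EX hγ A hAne f hf
      rw [← hT] at h2
      have h3 : c * A.card * (4 * (kB + kX)) * ∑ p, f p ^ 2 =
          (γ * A.card * ∑ p, f p ^ 2) / (3 * T) := by
        rw [hc]
        field_simp
        ring
      rw [h3, div_le_iff₀ (by positivity)]
      linarith) (by
      rw [hc, div_mul_eq_mul_div, div_le_one (by positivity)]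
      have h4 : γ * A.card ≤ 1 * T :=
        mul_le_mul hγ1 hAT (by positivity) zero_le_one
      nlinarith) m (fA p A) (fA_HA p A) (Real.sqrt T * Real.sqrt n ^ A.card) N (by positivity) hN0
      (by
        rw [mul_pow, hsT, ← pow_mul, mul_comm A.card 2, pow_mul, hsn]
        exact fA_norm p A)
    refine h1.trans (le_of_eq ?_)
    rw [mul_pow, mul_assoc, hε, ← Real.exp_nat_mul]
    congr 3
    ring
  have h0 : Real.sqrt N * nrm (wit EB EX (2 * m) (f0 p)) ≤ Real.sqrt T * ε := by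
    have h1 := nrm_wit_le EB EX hk c H0 (H0_wst EB EX) (by
      intro f hf
      have h2 := wen_ge0 EB EX hγ f hf
      refine le_trans ?_ h2
      refine mul_le_mul_of_nonneg_right ?_ (Finset.sum_nonneg fun _ _ => sq_nonneg _)
      rw [hc, div_mul_eq_mul_div, div_le_iff₀ (by positivity)]
      refine mul_le_mul_of_nonneg_left ?_ hγ.le
      nlinarith) (by
      rw [hc, div_le_one (by positivity)]
      nlinarith) m (f0 p) (f0_H0 p) (Real.sqrt T) N hsT0 hN0 (by
        rw [hsT]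
        exact f0_norm p)
    rw [hε]
    exact h1
  -- sum
  have hsum : ∑ A ∈ (Finset.univ : Finset B).powerset.erase ∅, (Real.sqrt n * ε) ^ A.card =
      (Real.sqrt n * ε + 1) ^ Fintype.card B - 1 := by
    have h1 := Finset.sum_pow_mul_eq_add_pow (Real.sqrt n * ε) 1 (Finset.univ : Finset B)
    simp only [one_pow, mul_one, Finset.card_univ] at h1
    rw [← h1, ← Finset.add_sum_erase _ _ (Finset.empty_mem_powerset Finset.univ)]
    simp
  have hsn1 : 1 ≤ Real.sqrt n := Real.one_le_sqrt.2 hn1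
  have hsT1 : 1 ≤ Real.sqrt T := Real.one_le_sqrt.2 hT1
  have hsnn : Real.sqrt n ≤ n := by nlinarith
  have hsTT : Real.sqrt T ≤ T := by nlinarith
  have hz0 : 0 ≤ T * (Real.sqrt n * ε) := by positivity
  have hT2 : T ≤ T ^ 2 := by nlinarith
  have hz1 : T * (Real.sqrt n * ε) ≤ 1 := by
    calc T * (Real.sqrt n * ε) ≤ T ^ 2 * (n * ε) := by gcongr
      _ ≤ ε * (6 * T ^ 2 * n) := by
          have : 0 ≤ T ^ 2 * (n * ε) := by positivity
          nlinarith
      _ ≤ 1 := hε1
  have hexp : (Real.sqrt n * ε + 1) ^ Fintype.card B - 1 ≤ 2 * (T * (Real.sqrt n * ε)) := by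
    have h1 : (Real.sqrt n * ε + 1) ^ Fintype.card B ≤ Real.exp (T * (Real.sqrt n * ε)) := by
      rw [hT, Real.exp_nat_mul]
      exact pow_le_pow_left₀ (by positivity) (Real.add_one_le_exp _) _
    have h2 := Real.abs_exp_sub_one_le (x := T * (Real.sqrt n * ε)) (by
      rw [abs_of_nonneg hz0]; exact hz1)
    rw [abs_of_nonneg hz0] at h2
    have h3 := (abs_le.1 h2).2
    linarith
  have hw : wit EB EX (2 * m) (fun q => (if q = p then 1 else 0) - T⁻¹ * n⁻¹ ^ Fintype.card B) =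
      fun z => (fun z => ∑ A ∈ (Finset.univ : Finset B).powerset.erase ∅,
        wit EB EX (2 * m) (fA p A) z) z + wit EB EX (2 * m) (f0 p) z := by
    funext z
    rw [← wit_centre EB EX (2 * m) p z]
  rw [hw]
  calc Real.sqrt N * nrm (fun z => (fun z => ∑ A ∈ (Finset.univ : Finset B).powerset.erase ∅,
        wit EB EX (2 * m) (fA p A) z) z + wit EB EX (2 * m) (f0 p) z)
      ≤ Real.sqrt N * (∑ A ∈ (Finset.univ : Finset B).powerset.erase ∅,
          nrm (wit EB EX (2 * m) (fA p A)) + nrm (wit EB EX (2 * m) (f0 p))) := by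
        refine mul_le_mul_of_nonneg_left ?_ (Real.sqrt_nonneg _)
        exact (nrm_add_le _ _).trans (add_le_add (nrm_sum_le _ _) le_rfl)
    _ = ∑ A ∈ (Finset.univ : Finset B).powerset.erase ∅,
          Real.sqrt N * nrm (wit EB EX (2 * m) (fA p A)) +
            Real.sqrt N * nrm (wit EB EX (2 * m) (f0 p)) := by
        rw [mul_add, Finset.mul_sum]
    _ ≤ ∑ A ∈ (Finset.univ : Finset B).powerset.erase ∅,
          Real.sqrt T * (Real.sqrt n * ε) ^ A.card + Real.sqrt T * ε :=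
        add_le_add (Finset.sum_le_sum hA) h0
    _ = Real.sqrt T * ((Real.sqrt n * ε + 1) ^ Fintype.card B - 1) + Real.sqrt T * ε := by
        rw [← Finset.mul_sum, hsum]
    _ ≤ T * (2 * (T * (Real.sqrt n * ε))) + T * ε := by
        have : 0 ≤ (Real.sqrt n * ε + 1) ^ Fintype.card B - 1 := by
          have : 1 ≤ (Real.sqrt n * ε + 1) ^ Fintype.card B :=
            one_le_pow₀ (by nlinarith [mul_nonneg hsn0 hε0.le])
          linarith
        refine add_le_add (mul_le_mul hsTT hexp this (by positivity)) ?_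
        exact mul_le_mul_of_nonneg_right hsTT hε0.le
    _ ≤ T * (2 * (T * (n * ε))) + T ^ 2 * (n * ε) := by
        refine add_le_add (by gcongr) ?_
        have : ε ≤ n * ε := by nlinarith
        exact mul_le_mul hT2 this hε0.le (by positivity)
    _ = ε * (6 * T ^ 2 * n) / 2 := by ring
    _ ≤ 1 / 2 := by linarith

lemma wr_mixed (EB : Expd kB γ B) (EX : Expd kX γ X) (hk : 0 < kB + kX) (hγ : 0 < γ)
    (hγ1 : γ ≤ 1) (m : ℕ)
    (hm : Real.exp (-(γ / (12 * (kB + kX) * Fintype.card B) * m)) *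
      (6 * (Fintype.card B : ℝ) ^ 2 * Fintype.card X) ≤ 1) (p q : B × (B → X)) :
    |(lazyP (wrG EB EX) ^ (4 * m)) p q / statPi (wrG EB EX) q - 1| ≤ 1 / 4 := by
  have hT : (0 : ℝ) < Fintype.card B := by exact_mod_cast Fintype.card_pos
  have hn : (0 : ℝ) < Fintype.card X := by exact_mod_cast Fintype.card_pos
  set N : ℝ := Fintype.card B * (Fintype.card X : ℝ) ^ Fintype.card B with hN
  have hN0 : 0 < N := by positivity
  have hNinv : (Fintype.card B : ℝ)⁻¹ * (Fintype.card X : ℝ)⁻¹ ^ Fintype.card B = N⁻¹ := by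
    rw [hN, mul_inv, inv_pow]
  have hcard : (Fintype.card (B × (B → X)) : ℝ) = N := by
    rw [Fintype.card_prod, Fintype.card_fun, hN]
    push_cast
    rfl
  have hdg : ∀ x, dg (wrG EB EX) x = kB + kX := wr_dg EB EX
  have hdg0 : ∀ x, 0 < dg (wrG EB EX) x := fun x => by rw [hdg]; exact hk
  have hk' : (0 : ℝ) < kB + kX := by exact_mod_cast hk
  have hpi : statPi (wrG EB EX) q = N⁻¹ := by
    rw [statPi_eq]
    simp only [hdg, Finset.sum_const, Finset.card_univ, nsmul_eq_mul, hcard]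
    push_cast
    field_simp
  have hsymm : ∀ (k : ℕ) (x y : B × (B → X)),
      (lazyP (wrG EB EX) ^ k) x y = (lazyP (wrG EB EX) ^ k) y x := by
    intro k x y
    have := lazyP_pow_rev (wrG EB EX) k x y
    rw [hdg, hdg] at this
    push_cast at this
    exact mul_left_cancel₀ hk'.ne' this
  have hrow : ∀ (k : ℕ) (x : B × (B → X)), ∑ y, (lazyP (wrG EB EX) ^ k) x y = 1 :=
    lazyP_pow_row (wrG EB EX) hdg0
  set U : B × (B → X) → B × (B → X) → ℝ := fun p => wit EB EX (2 * m)
    (fun q => (if q = p then 1 else 0) -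
      (Fintype.card B : ℝ)⁻¹ * (Fintype.card X : ℝ)⁻¹ ^ Fintype.card B) with hU
  have hUe : ∀ p z, U p z = (lazyP (wrG EB EX) ^ (2 * m)) z p - N⁻¹ := by
    intro p z
    simp only [hU, wit_apply, mul_sub, Finset.sum_sub_distrib, hNinv]
    rw [← Finset.sum_mul, hrow, one_mul]
    simp
  have hb : ∀ p, Real.sqrt N * nrm (U p) ≤ 1 / 2 := fun p =>
    centre_bound EB EX hk hγ hγ1 m _ rfl hm p
  have hid : (lazyP (wrG EB EX) ^ (4 * m)) p q - N⁻¹ = ∑ z, U p z * U q z := by
    have h1 : (lazyP (wrG EB EX) ^ (4 * m)) p q =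
        ∑ z, (lazyP (wrG EB EX) ^ (2 * m)) z p * (lazyP (wrG EB EX) ^ (2 * m)) z q := by
      rw [show 4 * m = 2 * m + 2 * m by ring, pow_add, Matrix.mul_apply]
      exact Finset.sum_congr rfl fun z _ => by rw [hsymm _ p z]
    have h2 : ∀ z, U p z * U q z = (lazyP (wrG EB EX) ^ (2 * m)) z p *
        (lazyP (wrG EB EX) ^ (2 * m)) z q - N⁻¹ * (lazyP (wrG EB EX) ^ (2 * m)) p z -
        N⁻¹ * (lazyP (wrG EB EX) ^ (2 * m)) q z + N⁻¹ ^ 2 := by
      intro z
      rw [hUe, hUe, hsymm _ p z, hsymm _ q z]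
      ring
    rw [Finset.sum_congr rfl fun z _ => h2 z, Finset.sum_add_distrib, Finset.sum_sub_distrib,
      Finset.sum_sub_distrib, ← h1, ← Finset.mul_sum, ← Finset.mul_sum, hrow, hrow,
      Finset.sum_const, Finset.card_univ, nsmul_eq_mul, hcard]
    field_simp
    ring
  rw [hpi, div_inv_eq_mul]
  have h3 : (lazyP (wrG EB EX) ^ (4 * m)) p q * N - 1 = N * ∑ z, U p z * U q z := by
    rw [← hid]
    field_simp
  rw [h3, abs_mul, abs_of_pos hN0]
  calc N * |∑ z, U p z * U q z| ≤ N * (nrm (U p) * nrm (U q)) :=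
        mul_le_mul_of_nonneg_left (abs_sum_mul_le_nrm _ _) hN0.le
    _ = (Real.sqrt N * nrm (U p)) * (Real.sqrt N * nrm (U q)) := by
        have : Real.sqrt N * Real.sqrt N = N := Real.mul_self_sqrt hN0.le
        calc N * (nrm (U p) * nrm (U q)) =
            (Real.sqrt N * Real.sqrt N) * (nrm (U p) * nrm (U q)) := by rw [this]
          _ = _ := by ring
    _ ≤ (1 / 2) * (1 / 2) := by
        refine mul_le_mul (hb p) (hb q) ?_ (by norm_num)
        exact mul_nonneg (Real.sqrt_nonneg _) (nrm_nonneg _)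
    _ = 1 / 4 := by norm_num

end upper

/-- The uniform mixing time of the wreath product graph is at most of order `|B| (log |B| +
log |X| + 1)`. -/
theorem wr_upper (kB kX : ℕ) (γ : ℝ) (hkB : 0 < kB) (hkX : 0 < kX) (hγ : 0 < γ) (hγ1 : γ ≤ 1) :
    ∃ C : ℝ, 0 < C ∧ ∀ (B X : Type) [Group B] [Fintype B] [DecidableEq B] [Group X] [Fintype X]
      (EB : Expd kB γ B) (EX : Expd kX γ X),
      (tInf (wrG EB EX) : ℝ) ≤ C * Fintype.card B *
        (Real.log (Fintype.card B) + Real.log (Fintype.card X) + 1) := by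
  have hk : 0 < kB + kX := by omega
  have hk' : (0 : ℝ) < kB + kX := by exact_mod_cast hk
  refine ⟨96 * (kB + kX) / γ + 4, by positivity, ?_⟩
  intro B X _ _ _ _ _ EB EX
  classical
  set T : ℝ := ((Fintype.card B : ℕ) : ℝ) with hT
  set n : ℝ := ((Fintype.card X : ℕ) : ℝ) with hn
  have hT1 : 1 ≤ T := by rw [hT]; exact_mod_cast Fintype.card_pos
  have hn1 : 1 ≤ n := by rw [hn]; exact_mod_cast Fintype.card_pos
  set L : ℝ := Real.log T + Real.log n + 1 with hL
  have hlT : 0 ≤ Real.log T := Real.log_nonneg hT1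
  have hln : 0 ≤ Real.log n := Real.log_nonneg hn1
  have hL1 : 1 ≤ L := by rw [hL]; linarith
  set c : ℝ := γ / (12 * (kB + kX) * T) with hc
  have hc0 : 0 < c := by positivity
  set m : ℕ := ⌈2 / c * L⌉₊ with hm
  have hm1 : 2 / c * L ≤ m := Nat.le_ceil _
  have hm2 : (m : ℝ) < 2 / c * L + 1 := Nat.ceil_lt_add_one (by positivity)
  have hmix : tInf (wrG EB EX) ≤ 4 * m := by
    refine tInf_le _ _ (wr_mixed EB EX hk hγ hγ1 m ?_)
    rw [← hT, ← hn, ← hc]
    have h1 : 2 * L ≤ c * m := by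
      have : c * (2 / c * L) ≤ c * m := mul_le_mul_of_nonneg_left hm1 hc0.le
      have h2 : c * (2 / c * L) = 2 * L := by field_simp
      linarith
    have h6 : (6 : ℝ) ≤ Real.exp 2 := by
      have h7 : (2.7 : ℝ) ≤ Real.exp 1 := by
        have := Real.exp_one_gt_d9; linarith
      have h8 : Real.exp 2 = Real.exp 1 * Real.exp 1 := by rw [← Real.exp_add]; norm_num
      rw [h8]
      nlinarith
    have h2 : 6 * T ^ 2 * n ≤ Real.exp (2 * L) := by
      have h9 : Real.exp (2 * L) = Real.exp 2 * (T ^ 2 * n ^ 2) := by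
        rw [hL, show 2 * (Real.log T + Real.log n + 1) = 2 + (2 * Real.log T + 2 * Real.log n) by
          ring, Real.exp_add, Real.exp_add]
        congr 2
        · rw [two_mul, Real.exp_add, Real.exp_log (by linarith)]; ring
        · rw [two_mul, Real.exp_add, Real.exp_log (by linarith)]; ring
      rw [h9]
      have h10 : n ≤ n ^ 2 := by nlinarith
      calc 6 * T ^ 2 * n = 6 * (T ^ 2 * n) := by ring
        _ ≤ Real.exp 2 * (T ^ 2 * n ^ 2) := by gcongr
    calc Real.exp (-(c * m)) * (6 * T ^ 2 * n) ≤ Real.exp (-(c * m)) * Real.exp (2 * L) :=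
          mul_le_mul_of_nonneg_left h2 (Real.exp_pos _).le
      _ = Real.exp (2 * L - c * m) := by rw [← Real.exp_add]; congr 1; ring
      _ ≤ 1 := Real.exp_le_one_iff.2 (by linarith)
  have h1 : (tInf (wrG EB EX) : ℝ) ≤ 4 * m := by exact_mod_cast hmix
  have h2 : 2 / c * L = 24 * (kB + kX) / γ * T * L := by
    rw [hc]
    field_simp
    ring
  calc (tInf (wrG EB EX) : ℝ) ≤ 4 * m := h1
    _ ≤ 4 * (2 / c * L + 1) := by linarith
    _ = 96 * (kB + kX) / γ * (T * L) + 4 := by rw [h2]; ring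
    _ ≤ 96 * (kB + kX) / γ * (T * L) + 4 * (T * L) := by
        have : 1 ≤ T * L := by nlinarith
        linarith
    _ = _ := by ring

end Pool.Agent.MP50f558
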