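import Mathlib
import Pool.Agent.Lib.MP_50f558_pr.Lower4
import Pool.Agent.Lib.MP_50f558_pr.Upper3

set_option autoImplicit false
set_option linter.unusedSectionVars false
set_option linter.unusedVariables false

/-!
Choice of the parameters.
-/

namespace Pool.Agent.MP50f558

section lev

variable {k : ℕ} {γ : ℝ} {B : Type} [Group B] [Fintype B] [DecidableEq B]

/-- Truncated distance to the identity. -/
def levF (E : Expd k γ B) (K : ℕ) (b : B) : ℕ :=
  ((Finset.range K).filter (fun n => b ∉ nb E n 1)).card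

lemma levF_one (E : Expd k γ B) (K : ℕ) : levF E K 1 = 0 := by
  unfold levF
  rw [Finset.card_eq_zero, Finset.filter_eq_empty_iff]
  intro n _ h
  exact h (nb_self E n 1)

lemma levF_step (E : Expd k γ B) (K : ℕ) (s : B) (hs : s ∈ E.S) (x : B) :
    levF E K (s * x) ≤ levF E K x + 1 := by
  unfold levF
  have hsub : (Finset.range K).filter (fun n => s * x ∉ nb E n 1) ⊆
      insert 0 (((Finset.range K).filter (fun n => x ∉ nb E n 1)).image (fun n => n + 1)) := by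
    intro n hn
    rw [Finset.mem_filter, Finset.mem_range] at hn
    rw [Finset.mem_insert]
    rcases Nat.eq_zero_or_pos n with h0 | h0
    · exact Or.inl h0
    · right
      rw [Finset.mem_image]
      refine ⟨n - 1, ?_, by omega⟩
      rw [Finset.mem_filter, Finset.mem_range]
      refine ⟨by omega, fun hx => hn.2 ?_⟩
      have h1 : s * x ∈ nb E (n - 1 + 1) 1 := by
        rw [mem_nb_succ]
        exact Or.inr ⟨s, hs, x, hx, rfl⟩
      rwa [show n - 1 + 1 = n by omega] at h1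
  calc _ ≤ _ := Finset.card_le_card hsub
    _ ≤ (((Finset.range K).filter (fun n => x ∉ nb E n 1)).image (fun n => n + 1)).card + 1 :=
        Finset.card_insert_le _ _
    _ ≤ _ := Nat.add_le_add_right Finset.card_image_le 1

lemma levF_card (E : Expd k γ B) (K : ℕ) :
    (Finset.univ.filter (fun b => levF E K b < K)).card ≤ (k + 1) ^ K := by
  refine (Finset.card_le_card ?_).trans (card_nb_le E K 1)
  intro b hb
  rw [Finset.mem_filter] at hb
  by_contra hnot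
  have h1 : (Finset.range K).filter (fun n => b ∉ nb E n 1) = Finset.range K := by
    rw [Finset.filter_eq_self]
    intro n hn h
    exact hnot (nb_mono E (Finset.mem_range.1 hn).le 1 h)
  have h2 := hb.2
  unfold levF at h2
  rw [h1, Finset.card_range] at h2
  exact lt_irrefl _ h2

end lev

section asym

variable {k : ℕ} {γ : ℝ}

/-- `λ = 1 + g1/2`. -/
noncomputable def lm (k : ℕ) (γ : ℝ) : ℝ := 1 + g1 k γ / 2

lemma lm_le (hk : 0 < k) (hγ1 : γ ≤ 1) : lm k γ ≤ 2 := by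
  have := g1_le (k := k) hk hγ1
  unfold lm; linarith

lemma lm_ge (hk : 0 < k) (hγ : 0 < γ) : 1 ≤ lm k γ := by
  have := g1_pos (k := k) hk hγ
  unfold lm; linarith

lemma lm_mul (hk : 0 < k) (hγ : 0 < γ) (hγ1 : γ ≤ 1) :
    lm k γ * (1 - g1 k γ) ≤ 1 - g1 k γ / 2 := by
  have := g1_pos (k := k) hk hγ
  unfold lm; nlinarith

/-- `1 / a0 ≤ 2^(uN)`. -/
lemma a0_ge (hk : 0 < k) (N : ℕ) : 1 / (2 : ℝ) ^ ((4 * k) * N) ≤ c0 k ^ N := by
  have h1 : (4 * k : ℝ) ≤ 2 ^ (4 * k) := by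
    have := (Nat.lt_two_pow_self (n := 4 * k)).le
    exact_mod_cast this
  have h2 : (0 : ℝ) < 4 * k := by
    have : (0 : ℝ) < k := by exact_mod_cast hk
    positivity
  unfold c0
  rw [pow_mul, one_div_pow]
  apply one_div_le_one_div_of_le (by positivity)
  exact pow_le_pow_left₀ h2.le h1 N

/-- Estimate on `τ / a0`. -/
lemma tau_a0 {Y : Type} [Group Y] [Fintype Y] (E : Expd k γ Y) (hk : 0 < k) (hγ : 0 < γ)
    (hγ1 : γ ≤ 1) (v A0 N : ℕ) (hv : (1 - g1 k γ / 2) ^ v ≤ 1 / 2)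
    (hA0 : v * (4 * k + 12) + (4 * k + 12) ≤ A0) (hY : 2 ^ (A0 * N) ≤ Fintype.card Y) :
    tau E (v * (4 * k + 12) * N) / c0 k ^ N ≤ 4 / (2 : ℝ) ^ (12 * N) ∧
      lm k γ ^ (v * (4 * k + 12) * N) / (c0 k ^ N * Fintype.card Y) ≤ 1 / (2 : ℝ) ^ (12 * N) := by
  have hg := g1_pos (k := k) hk hγ
  have hg' := g1_le (k := k) hk hγ1
  have hl1 := lm_ge (k := k) hk hγ
  have hl2 := lm_le (k := k) hk hγ1
  have hc0 := pow_pos (c0_pos hk) N
  have ha := a0_ge hk N
  set u := 4 * k with hu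
  set n1 := v * (u + 12) * N with hn1
  have hY' : (2 : ℝ) ^ (A0 * N) ≤ Fintype.card Y := by exact_mod_cast hY
  have hYpos : (0 : ℝ) < Fintype.card Y := lt_of_lt_of_le (by positivity) hY'
  -- the two terms
  have t1 : lm k γ ^ n1 * (1 / Fintype.card Y) ≤ 1 / (2 : ℝ) ^ ((u + 12) * N) := by
    rw [mul_one_div, div_le_div_iff₀ hYpos (by positivity), one_mul]
    calc lm k γ ^ n1 * (2 : ℝ) ^ ((u + 12) * N) ≤ 2 ^ n1 * (2 : ℝ) ^ ((u + 12) * N) := by
          gcongr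
      _ = (2 : ℝ) ^ (n1 + (u + 12) * N) := by rw [pow_add]
      _ ≤ (2 : ℝ) ^ (A0 * N) := by
          apply pow_le_pow_right₀ (by norm_num)
          rw [hn1, ← add_mul]
          exact Nat.mul_le_mul_right N hA0
      _ ≤ _ := hY'
  have t2 : lm k γ ^ n1 * (1 - g1 k γ) ^ n1 ≤ 1 / (2 : ℝ) ^ ((u + 12) * N) := by
    rw [← mul_pow]
    have h0 : 0 ≤ lm k γ * (1 - g1 k γ) := mul_nonneg (by linarith) (by linarith)
    calc (lm k γ * (1 - g1 k γ)) ^ n1 ≤ (1 - g1 k γ / 2) ^ n1 :=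
          pow_le_pow_left₀ h0 (lm_mul hk hγ hγ1) _
      _ = ((1 - g1 k γ / 2) ^ v) ^ ((u + 12) * N) := by
          rw [hn1, mul_assoc, pow_mul]
      _ ≤ (1 / 2) ^ ((u + 12) * N) := by
          refine pow_le_pow_left₀ (pow_nonneg (by linarith) _) hv _
      _ = _ := by rw [one_div_pow]
  have e1 : 1 / (2 : ℝ) ^ ((u + 12) * N) / c0 k ^ N ≤ 1 / (2 : ℝ) ^ (12 * N) := by
    rw [div_le_iff₀ hc0]
    calc 1 / (2 : ℝ) ^ ((u + 12) * N) = 1 / (2 : ℝ) ^ (12 * N) * (1 / (2 : ℝ) ^ (u * N)) := by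
          rw [add_mul, pow_add]
          field_simp
      _ ≤ _ := mul_le_mul_of_nonneg_left ha (by positivity)
  constructor
  · have h1 : tau E n1 ≤ 4 * (1 / (2 : ℝ) ^ ((u + 12) * N)) := by
      unfold tau
      have h2 : (1 + g1 k γ / 2) = lm k γ := rfl
      rw [h2]
      calc 2 * lm k γ ^ n1 * (1 / Fintype.card Y + (1 - g1 k γ) ^ n1)
          = 2 * (lm k γ ^ n1 * (1 / Fintype.card Y) + lm k γ ^ n1 * (1 - g1 k γ) ^ n1) := by
            ring
        _ ≤ 2 * (1 / (2 : ℝ) ^ ((u + 12) * N) + 1 / (2 : ℝ) ^ ((u + 12) * N)) := by linarith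
        _ = _ := by ring
    calc tau E n1 / c0 k ^ N ≤ 4 * (1 / (2 : ℝ) ^ ((u + 12) * N)) / c0 k ^ N := by gcongr
      _ = 4 * (1 / (2 : ℝ) ^ ((u + 12) * N) / c0 k ^ N) := by ring
      _ ≤ 4 * (1 / (2 : ℝ) ^ (12 * N)) := by linarith
      _ = _ := by ring
  · calc lm k γ ^ n1 / (c0 k ^ N * Fintype.card Y)
        = lm k γ ^ n1 * (1 / Fintype.card Y) / c0 k ^ N := by field_simp
      _ ≤ 1 / (2 : ℝ) ^ ((u + 12) * N) / c0 k ^ N := by gcongr
      _ ≤ _ := e1

end asym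

end Pool.Agent.MP50f558
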