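import Mathlib
import Pool.Agent.Lib.MP_50f558_pr.Main1

set_option autoImplicit false
set_option linter.unusedSectionVars false
set_option linter.unusedVariables false

/-!
Assembly of the counterexample from a family of expanders.
-/

namespace Pool.Agent.MP50f558

lemma tInf_pos {V : Type} [Fintype V] (G : SimpleGraph V) (hc : G.Connected)
    (hG : ∀ x, 0 < dg G x) (x y : V) (hxy : x ≠ y) : 0 < tInf G := by
  classical
  rw [Nat.pos_iff_ne_zero]
  intro h0
  rw [tInf_eq] at h0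
  have hex := exists_mixed G hc hG
  have hmem := Nat.sInf_mem (s := {t : ℕ | ∀ x y : V,
    |(lazyP G ^ t) x y / statPi G y - 1| ≤ 1 / 4}) hex
  rw [h0] at hmem
  have h1 := hmem x y
  rw [pow_zero, Matrix.one_apply_ne hxy] at h1
  norm_num at h1

lemma nat_le_two_pow (n : ℕ) : (n : ℝ) ≤ 2 ^ n := by
  have := (Nat.lt_two_pow_self (n := n)).le
  exact_mod_cast this

theorem main_aux (k : ℕ) (γ : ℝ) (hk : 0 < k) (hγ : 0 < γ) (hγ1 : γ ≤ 1)
    (hfam : ∀ N : ℕ, 3 ≤ N → ∃ (Γ : Type) (_ : Group Γ) (_ : Fintype Γ),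
      Nonempty (Expd k γ Γ) ∧ 2 ^ N ≤ Fintype.card Γ ∧ Fintype.card Γ ≤ 2 ^ (9 * N)) :
    ∃ a d D : ℕ, 1 ≤ a ∧ ∀ M : ℕ, ∃ (V : Type) (_ : Fintype V) (G G' : SimpleGraph V),
      G.Connected ∧ G'.Connected ∧ VertexTransitive G ∧ (∀ x, dg G x = d) ∧
      (∀ x, dg G' x ≤ D) ∧ QuasiIso a 0 G G' ∧ M ≤ Fintype.card V ∧ 0 < tInf G ∧
      M * tInf G ≤ tInf G' := by
  classical
  have hk1 : (1 : ℝ) ≤ k := by exact_mod_cast hk
  have hk' : (0 : ℝ) < k := by linarith
  have hg := g1_pos (k := k) hk hγ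
  have hg' := g1_le (k := k) hk hγ1
  -- constants
  have hb0 : 0 ≤ 1 - γ / (4 * k) := by
    rw [sub_nonneg, div_le_one (by positivity)]; linarith
  have hb1 : 1 - γ / (4 * k) < 1 := by
    have : 0 < γ / (4 * k) := by positivity
    linarith
  obtain ⟨n4, hn4⟩ := exists_pow_lt_of_lt_one (show (0 : ℝ) < 1 / 4 by norm_num) hb1
  set C4 := n4 + 1 with hC4def
  have hC4 : (1 - γ / (4 * k)) ^ C4 ≤ 1 / 4 := by
    refine le_trans ?_ hn4.le
    exact pow_le_pow_of_le_one hb0 hb1.le (Nat.le_succ _)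
  obtain ⟨v, hv⟩ := exists_pow_lt_of_lt_one (show (0 : ℝ) < 1 / 2 by norm_num)
    (show 1 - g1 k γ / 2 < 1 by linarith)
  obtain ⟨v2, hv2⟩ := pow_unbounded_of_one_lt 2 (lam1_gt hk hγ hγ1)
  set u := 4 * k with hu
  set C8 := v * (u + 12) with hC8
  set C5 := v2 * (u + 1) with hC5
  set A0 := C8 + (u + 12) + (u * (C4 * (2 * C5 + 1)) + 2) with hA0
  obtain ⟨C, hC, hup⟩ := wr_upper k (2 * k) γ hk (by omega) hγ hγ1
  set C' : ℝ := C * (10 + 18 * A0) with hC'
  have hC'0 : 0 < C' := by positivity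
  refine ⟨C4 + 1, 3 * k, 4 * k, by omega, fun m => ?_⟩
  obtain ⟨K, hK⟩ := exists_nat_gt (2 * C' * m)
  have hK0 : 0 < K := by
    have : (0 : ℝ) < K := lt_of_le_of_lt (by positivity) hK
    exact_mod_cast this
  set Mb := (k + 1) ^ K with hMb
  have hMb1 : 1 ≤ Mb := Nat.one_le_pow _ _ (by omega)
  set c1 : ℝ := 1 + 2 / g1 k γ with hc1
  have hc10 : 0 < c1 := by positivity
  obtain ⟨N, hR, hE, hN3⟩ := (((tendsto_pow_atTop_atTop_of_one_lt
      (show (1 : ℝ) < 2 by norm_num)).eventually_ge_atTop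
        (5 * Mb + 32 * K * Mb + (C8 + 1) + 8 * Mb * c1 + m)).and
    (((tendsto_pow_atTop_atTop_of_one_lt (Eb_gt (K := K) (M := Mb) hk hγ hγ1
      hMb1)).eventually_ge_atTop ((20 * (Mb : ℝ)) ^ 2)).and
      (Filter.eventually_ge_atTop 3))).exists
  have hMbR : (0 : ℝ) < Mb := by exact_mod_cast hMb1
  have hKR : (0 : ℝ) < K := by exact_mod_cast hK0
  have hNR : (3 : ℝ) ≤ N := by exact_mod_cast hN3
  have r0 : (0 : ℝ) ≤ 32 * K * Mb := by positivity
  have r1 : (0 : ℝ) ≤ 8 * Mb * c1 := by positivity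
  have r2 : (0 : ℝ) ≤ m := by positivity
  have r3 : (0 : ℝ) ≤ C8 := by positivity
  have R1 : (5 * Mb : ℝ) ≤ 2 ^ N := by linarith
  have R2 : (32 * K * Mb : ℝ) ≤ 2 ^ N := by linarith
  have R3 : (C8 + 1 : ℝ) ≤ 2 ^ N := by linarith
  have R4 : 8 * Mb * c1 ≤ 2 ^ N := by linarith
  have R5 : (m : ℝ) ≤ 2 ^ N := by linarith
  have hA03 : 3 ≤ A0 * N := by
    have h1 : 1 ≤ A0 := by omega
    calc 3 ≤ N := hN3
      _ = 1 * N := (one_mul N).symm
      _ ≤ A0 * N := Nat.mul_le_mul_right N h1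
  obtain ⟨B, instB, instB', ⟨EB⟩, hB1, hB2⟩ := hfam N hN3
  obtain ⟨Y, instY, instY', ⟨EY⟩, hY1, hY2⟩ := hfam (A0 * N) hA03
  have hT1 : (2 : ℝ) ^ N ≤ Fintype.card B := by exact_mod_cast hB1
  have hT2 : (Fintype.card B : ℝ) ≤ 2 ^ (9 * N) := by exact_mod_cast hB2
  have hT0 : (0 : ℝ) < Fintype.card B := lt_of_lt_of_le (by positivity) hT1
  have hYR1 : (2 : ℝ) ^ (A0 * N) ≤ Fintype.card Y := by exact_mod_cast hY1
  have hYR2 : (Fintype.card Y : ℝ) ≤ 2 ^ (9 * (A0 * N)) := by exact_mod_cast hY2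
  have hY0 : (0 : ℝ) < Fintype.card Y := lt_of_lt_of_le (by positivity) hYR1
  have hA0' : v * (4 * k + 12) + (4 * k + 12) ≤ A0 := by
    rw [hA0, hC8, hu]
    exact Nat.le_add_right _ _
  obtain ⟨hτ, hlam⟩ := tau_a0 EY hk hγ hγ1 v A0 N hv.le hA0' hY1
  rw [← hu, ← hC8] at hτ hlam
  set n1 := C8 * N with hn1
  set n0 := C5 * N with hn0
  set D := nb EY (C4 * (2 * n0 + 1)) 1 with hD
  have hDcard : 4 * D.card ≤ Fintype.card Y := by
    have h1 : D.card ≤ (k + 1) ^ (C4 * (2 * n0 + 1)) := card_nb_le _ _ _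
    have h2 : k + 1 ≤ 2 ^ u := by
      have := (Nat.lt_two_pow_self (n := u))
      omega
    calc 4 * D.card ≤ 4 * (k + 1) ^ (C4 * (2 * n0 + 1)) := Nat.mul_le_mul_left 4 h1
      _ ≤ 2 ^ (2 * N) * (2 ^ u) ^ (C4 * (2 * n0 + 1)) := by
          refine Nat.mul_le_mul ?_ (Nat.pow_le_pow_left h2 _)
          calc 4 = 2 ^ 2 := by norm_num
            _ ≤ 2 ^ (2 * N) := Nat.pow_le_pow_right (by norm_num) (by omega)
      _ = 2 ^ (2 * N + u * (C4 * (2 * n0 + 1))) := by rw [← pow_mul, ← pow_add]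
      _ ≤ 2 ^ (A0 * N) := by
          apply Nat.pow_le_pow_right (by norm_num)
          have h3 : 2 * n0 + 1 ≤ (2 * C5 + 1) * N := by
            have h4 : (2 * C5 + 1) * N = 2 * n0 + N := by rw [hn0]; ring
            rw [h4]; omega
          calc 2 * N + u * (C4 * (2 * n0 + 1)) ≤ 2 * N + u * (C4 * ((2 * C5 + 1) * N)) := by
                gcongr
            _ = (u * (C4 * (2 * C5 + 1)) + 2) * N := by ring
            _ ≤ A0 * N := by
                refine Nat.mul_le_mul_right N ?_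
                omega
      _ ≤ Fintype.card Y := hY1
  obtain ⟨O, hO1, hO2, hO3⟩ := exists_link EY hk hγ hγ1 C4 hC4 D hDcard
  let A : Gd k γ B Y :=
    { EB := EB
      EY := EY
      K := K
      lev := levF EB K
      hlev := levF_step EB K
      On := fun y => c0 k ^ N < Ph EY n1 y
      D := D
      O := O
      C4 := C4
      hC4 := by omega
      hO1 := hO1
      hO2 := hO2
      hO3 := hO3 }
  have hc0N : 0 < c0 k ^ N := pow_pos (c0_pos hk) N
  have hc0N1 : c0 k ^ N ≤ 1 := pow_le_one₀ (c0_pos hk).le (by linarith [c0_le hk])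
  have p12 : (8 : ℝ) ≤ 2 ^ (12 * N) := by
    calc (8 : ℝ) = 2 ^ 3 := by norm_num
      _ ≤ 2 ^ (12 * N) := pow_le_pow_right₀ (by norm_num) (by omega)
  have htau : 2 * tau EY n1 ≤ c0 k ^ N := by
    rw [div_le_iff₀ hc0N] at hτ
    have : 4 / (2 : ℝ) ^ (12 * N) ≤ 1 / 2 := by
      rw [div_le_div_iff₀ (by positivity) (by norm_num)]; linarith
    have h5 := mul_le_mul_of_nonneg_right this hc0N.le
    linarith
  let P : Pr A :=
    { hk := hk
      hγ := hγ
      hγ1 := hγ1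
      n1 := n1
      N0 := N
      n0 := n0
      M := Mb
      hM1 := hMb1
      hM := levF_card EB K
      hT := by
        have : (5 * Mb : ℝ) ≤ Fintype.card B := R1.trans hT1
        exact_mod_cast this
      hOn := fun y => Iff.rfl
      htau := htau
      hD := subset_rfl
      lev1 := levF_one EB K
      hN0 := hE }
  have hN2 : (N : ℝ) ≤ 2 ^ N := nat_le_two_pow N
  have hn1R : ((n1 : ℕ) : ℝ) + 1 ≤ 2 ^ (2 * N) := by
    rw [hn1]
    push_cast
    calc (C8 : ℝ) * N + 1 ≤ (C8 + 1) * N := by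
          rw [add_mul, one_mul]; linarith
      _ ≤ 2 ^ N * 2 ^ N := mul_le_mul R3 hN2 (by positivity) (by positivity)
      _ = 2 ^ (2 * N) := by rw [two_mul, pow_add]
  have hlm0 : 0 < lm k γ ^ n1 := pow_pos (by linarith [lm_ge (k := k) hk hγ]) _
  have hpi0 : (n1 + 1) * lm k γ ^ n1 / (c0 k ^ N * Fintype.card Y) ≤ 1 / 2 ^ (10 * N) := by
    calc (n1 + 1) * lm k γ ^ n1 / (c0 k ^ N * Fintype.card Y)
        = (n1 + 1) * (lm k γ ^ n1 / (c0 k ^ N * Fintype.card Y)) := by ring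
      _ ≤ 2 ^ (2 * N) * (1 / 2 ^ (12 * N)) := by
          refine mul_le_mul hn1R hlam (by positivity) (by positivity)
      _ = 1 / 2 ^ (10 * N) := by
          rw [show 12 * N = 2 * N + 10 * N by ring, pow_add]
          field_simp
  have p10 : (8 : ℝ) ≤ 2 ^ (10 * N) := by
    calc (8 : ℝ) = 2 ^ 3 := by norm_num
      _ ≤ 2 ^ (10 * N) := pow_le_pow_right₀ (by norm_num) (by omega)
  have q10 : 1 / (2 : ℝ) ^ (10 * N) ≤ 1 / 8 := one_div_le_one_div_of_le (by norm_num) p10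
  set tend := K * N * Fintype.card B / 2 with htend
  have ht1 : 2 * tend ≤ K * N * Fintype.card B := Nat.mul_div_le _ _
  have ht2 : K * N * Fintype.card B ≤ 2 * tend + 1 := by omega
  have ht1R : 2 * (tend : ℝ) ≤ K * N * Fintype.card B := by exact_mod_cast ht1
  have ht2R : (K : ℝ) * N * Fintype.card B ≤ 2 * tend + 1 := by exact_mod_cast ht2
  have hinit : (P.M : ℝ) * (P.Φ 1 / (lam1 k γ ^ P.n0 * P.a0)) ≤ 1 / 8 := by
    change (Mb : ℝ) * (Ph EY n1 1 / (lam1 k γ ^ n0 * c0 k ^ N)) ≤ 1 / 8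
    have h1 : Ph EY n1 1 ≤ c1 := by
      refine (Ph_one_le EY hk hγ hγ1 n1).trans ?_
      have h2 : (n1 + 1) * (1 + g1 k γ / 2) ^ n1 / (Fintype.card Y : ℝ) ≤ 1 := by
        calc (n1 + 1) * (1 + g1 k γ / 2) ^ n1 / (Fintype.card Y : ℝ)
            = ((n1 + 1) * lm k γ ^ n1 / (c0 k ^ N * Fintype.card Y)) * c0 k ^ N := by
              unfold lm; field_simp
          _ ≤ (1 / 8) * 1 := by
              refine mul_le_mul (hpi0.trans q10) hc0N1 hc0N.le (by norm_num)
          _ ≤ 1 := by norm_num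
      linarith
    have h2 : (2 : ℝ) ^ N ≤ lam1 k γ ^ n0 * c0 k ^ N := by
      have h3 : (2 : ℝ) ^ ((u + 1) * N) ≤ lam1 k γ ^ n0 := by
        have h5 : lam1 k γ ^ n0 = (lam1 k γ ^ v2) ^ ((u + 1) * N) := by
          rw [hn0, hC5, mul_assoc, pow_mul]
        rw [h5]
        exact pow_le_pow_left₀ (by norm_num) hv2.le _
      have h4 := a0_ge hk N
      calc (2 : ℝ) ^ N = 2 ^ ((u + 1) * N) * (1 / 2 ^ (u * N)) := by
            rw [add_mul, one_mul, pow_add]
            field_simp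
        _ ≤ _ := mul_le_mul h3 h4 (by positivity) (le_trans (by positivity) h3)
    have h3 : Ph EY n1 1 / (lam1 k γ ^ n0 * c0 k ^ N) ≤ c1 / 2 ^ N := by
      apply div_le_div₀ hc10.le h1 (by positivity) h2
    calc (Mb : ℝ) * (Ph EY n1 1 / (lam1 k γ ^ n0 * c0 k ^ N)) ≤ Mb * (c1 / 2 ^ N) :=
          mul_le_mul_of_nonneg_left h3 hMbR.le
      _ = (Mb * c1) / 2 ^ N := by ring
      _ ≤ 1 / 8 := by
          rw [div_le_div_iff₀ (by positivity) (by norm_num)]; linarith
  have hδ : (tend : ℝ) * (P.M * (2 * (P.τ / P.a0))) ≤ 1 / 4 := by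
    change (tend : ℝ) * (Mb * (2 * (tau EY n1 / c0 k ^ N))) ≤ 1 / 4
    have h1 : (tend : ℝ) ≤ K * 2 ^ (10 * N) := by
      have h2 : (K : ℝ) * N * Fintype.card B ≤ K * 2 ^ N * 2 ^ (9 * N) := by
        gcongr
      have h3 : (K : ℝ) * 2 ^ N * 2 ^ (9 * N) = K * 2 ^ (10 * N) := by
        rw [mul_assoc, ← pow_add]
        congr 2
        ring
      have h4 : (0 : ℝ) ≤ tend := Nat.cast_nonneg _
      linarith
    have h0 := (tau_pos EY hk hγ hγ1 n1).le
    calc (tend : ℝ) * (Mb * (2 * (tau EY n1 / c0 k ^ N)))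
        ≤ (K * 2 ^ (10 * N)) * (Mb * (2 * (4 / 2 ^ (12 * N)))) := by
          gcongr
      _ = (8 * K * Mb) / 2 ^ (2 * N) := by
          rw [show 12 * N = 2 * N + 10 * N by ring, pow_add]
          field_simp
          ring
      _ ≤ 1 / 4 := by
          rw [div_le_div_iff₀ (by positivity) (by norm_num)]
          have h2 : (2 : ℝ) ^ N ≤ 2 ^ (2 * N) :=
            pow_le_pow_right₀ (by norm_num) (by omega)
          linarith
  have hpi : 2 * ((P.n1 + 1) * (1 + g1 k γ / 2) ^ P.n1) / (P.a0 * Fintype.card Y) < 2 / 5 := by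
    change 2 * ((n1 + 1) * lm k γ ^ n1) / (c0 k ^ N * Fintype.card Y) < 2 / 5
    calc 2 * ((n1 + 1) * lm k γ ^ n1) / (c0 k ^ N * Fintype.card Y)
        = 2 * ((n1 + 1) * lm k γ ^ n1 / (c0 k ^ N * Fintype.card Y)) := by ring
      _ ≤ 2 * (1 / 8) := by linarith
      _ < 2 / 5 := by norm_num
  have hlow := P.tInf_gt tend hK0 (by
    change 0 < N
    omega) ht1 hinit hδ hpi
  have hupper := hup B (Y × Y) EB (prodE EY hγ.le)
  set G := wrG EB (prodE EY hγ.le) with hG
  have hdG : ∀ x, dg G x = 3 * k := by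
    intro x
    rw [hG, wr_dg]; ring
  have hGc : G.Connected := wr_connected _ _ hγ hγ
  have hcard : 2 ^ N ≤ Fintype.card (B × (B → Y × Y)) := by
    rw [Fintype.card_prod]
    exact hB1.trans (Nat.le_mul_of_pos_right _ Fintype.card_pos)
  obtain ⟨hG'c, hqi⟩ := A.quasiIso hγ
  refine ⟨B × (B → Y × Y), inferInstance, G, A.gr, hGc, hG'c, wr_transitive _ _, hdG,
    A.dg_le, hqi, ?_, ?_, ?_⟩
  · have : m ≤ 2 ^ N := by exact_mod_cast R5
    omega
  · have h2 : 1 < Fintype.card (B × (B → Y × Y)) := by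
      have : 2 ^ 1 ≤ 2 ^ N := Nat.pow_le_pow_right (by norm_num) (by omega)
      omega
    obtain ⟨x, y, hxy⟩ := Fintype.exists_pair_of_one_lt_card h2
    exact tInf_pos G hGc (fun x => by rw [hdG]; omega) x y hxy
  · have hlog : Real.log (Fintype.card B) + Real.log (Fintype.card (Y × Y)) + 1 ≤
        (10 + 18 * A0) * N := by
      have l1 : Real.log (Fintype.card B) ≤ 9 * N := by
        calc Real.log (Fintype.card B) ≤ Real.log (2 ^ (9 * N)) :=
              Real.log_le_log hT0 hT2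
          _ = (9 * N : ℕ) * Real.log 2 := Real.log_pow _ _
          _ ≤ (9 * N : ℕ) * 1 := by
              refine mul_le_mul_of_nonneg_left ?_ (Nat.cast_nonneg _)
              linarith [Real.log_two_lt_d9]
          _ = 9 * N := by push_cast; ring
      have l2 : Real.log (Fintype.card Y) ≤ 9 * (A0 * N) := by
        calc Real.log (Fintype.card Y) ≤ Real.log (2 ^ (9 * (A0 * N))) :=
              Real.log_le_log hY0 hYR2
          _ = (9 * (A0 * N) : ℕ) * Real.log 2 := Real.log_pow _ _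
          _ ≤ (9 * (A0 * N) : ℕ) * 1 := by
              refine mul_le_mul_of_nonneg_left ?_ (Nat.cast_nonneg _)
              linarith [Real.log_two_lt_d9]
          _ = 9 * (A0 * N) := by push_cast; ring
      have l3 : Real.log (Fintype.card (Y × Y)) = 2 * Real.log (Fintype.card Y) := by
        rw [Fintype.card_prod]
        push_cast
        rw [Real.log_mul hY0.ne' hY0.ne']
        ring
      rw [l3]
      linarith
    have hGup : (tInf G : ℝ) ≤ C' * Fintype.card B * N := by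
      refine hupper.trans ?_
      calc C * Fintype.card B * (Real.log (Fintype.card B) + Real.log (Fintype.card (Y × Y)) + 1)
          ≤ C * Fintype.card B * ((10 + 18 * A0) * N) :=
            mul_le_mul_of_nonneg_left hlog (by positivity)
        _ = _ := by rw [hC']; ring
    have hlowR : (K : ℝ) * N * Fintype.card B / 2 ≤ tInf A.gr := by
      have : ((tend + 1 : ℕ) : ℝ) ≤ tInf A.gr := by exact_mod_cast hlow
      push_cast at this
      linarith
    have hfin : (m : ℝ) * tInf G ≤ tInf A.gr := by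
      calc (m : ℝ) * tInf G ≤ m * (C' * Fintype.card B * N) :=
            mul_le_mul_of_nonneg_left hGup (Nat.cast_nonneg _)
        _ = (2 * C' * m) * (Fintype.card B * N) / 2 := by ring
        _ ≤ K * (Fintype.card B * N) / 2 := by gcongr
        _ = (K : ℝ) * N * Fintype.card B / 2 := by ring
        _ ≤ _ := hlowR
    exact_mod_cast hfin

end Pool.Agent.MP50f558
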